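import Pool.Agent.H25.QE.Ee

/-!
# QE-ALG: the algebra for `q = 8`

`mu8 P R N = (i/√2) (P ee (2^(-N-1)) - R ee (-2^(-N-1)))`, `N : ℤ`.  `xs c`, `ys c` are the coefficients `x`, `y` below.
FACTS (`ee` of an integer is `1`, `ee (1/2) = -1`): `mu8 N = μ := (i/√2)(P - R)` for `N ≤ -1`, `mu8 0 = -μ`.
`‖P ee x - R ee (-x)‖² = 2 - 2 Re (P conj R ee (2x))`.

DATA: `c 0 = 1`, `c k = 0` for `k > D`, `c D ≠ 0`, `‖c D‖ ≤ 1`, `α = -c 1`.
(F1) `∑_(s ≤ D) c s T(N+s) = x(N-1)`, (F2) `∑_(s ≤ D) conj(c s) U(N+s) = y N`, (F3) `mu8 N · T N = U N`, (F4) `T N = 0` for `N > D + 1`.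
By (F1) at `N = D + 1`: `T(D+1) = x_D`, `x_D ≠ 0` (`x_0 = -1`, `x_k = -2 conj(c k)/2^k`).  By (F3) `U N = 0` for `N > D+1`, and (F2) at `N = D+1`:
`U(D+1) = y_(D+1) = 4 c_1 c_D/2^(D+1) = 2 c_1 c_D/2^D` (if `D ≥ 1`; `c (D+1) = 0`).
STEP 2.  `Q N = U N - μ T N`: `0` for `N ≤ -1` and for `N > D+1`.  CLAIM `Q v = 0` for all `v ≤ D`.  Let `Q = 0` below `v ≤ D`.  Put
`P_N = ∑_(t ≤ D) conj(c t) Q(N+t) = y N - μ ∑_t conj(c t) T(N+t)`.  `P_N = 0` for `N < v - D`, `P_(v-D) = conj(c D) Q v`.  So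
`c D conj(c D) Q v = ∑_s c s P_(v-2D+s) = ∑_s c s y(v-2D+s) - μ ∑_t conj(c t) ∑_s c s T(v-2D+t+s)
= ∑_s c s y(v-2D+s) - μ ∑_t conj(c t) x(v-2D+t-1) = 0`, since `v - 2D + s ≤ 0` (`y_j = 0` for `j ≤ 0`) and `v - 2D + t - 1 ≤ -1` (`x_j = 0` for `j < 0`).
So: (G) `(mu8 N - μ) T N = 0` for all `N ≤ D`; in particular `-2 μ T 0 = 0`.
STEP 3, assume `D ≥ 1`.
CASE `μ = 0`: (G) gives `U N = 0` for `N ≤ D` and (F2) at `N = 1`: `c 1 = y_1 = conj(c D) U(D+1) = conj(c D) 2 c_1 c_D/2^D`.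
 If `c 1 = 0`: `U(D+1) = 0`, so all `U = 0`, all `y_N = 0` by (F2), and `y_k = -2 c_k/2^k` (`k ≥ 1`, `c 1 = 0`) gives `c D = 0`, contradiction.
 If `c 1 ≠ 0`: `2 ‖c D‖² = 2^D`, so `D = 1`, `‖c 1‖ = 1` (`‖c D‖ ≤ 1`).
CASE `μ ≠ 0`: `T 0 = 0`.
 (a) `T N = 0` for all `0 ≤ N ≤ D`: (F1) at `N = 1`: `-1 = x_0 = c D T(D+1) = c D x_D = -2 ‖c D‖²/2^D`, again `D = 1`, `‖c 1‖ = 1`.
 (b) `T n ≠ 0` for some `1 ≤ n ≤ D`: `mu8 n = μ`, i.e. `P (ee (2^(-n-1)) - 1) = R (ee (-2^(-n-1)) - 1)`, so `R = -P ee (2^(-n-1))`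
 (`ee (-t) - 1 = -ee (-t) (ee t - 1)`, `ee t ≠ 1` for `t = 2^(-n-1)`).  The values `ee (2^(-n-1))`, `n ≥ 1`, are different, so `n` is the only one:
 `T N = 0` for `0 ≤ N ≤ D`, `N ≠ n`.  (F1) at `N = 0`: `0 = x_(-1) = c n T n` (`T (D+1)` does not occur), so `c n = 0`, `n < D`, `D ≥ 2`.
 (F1) at `N = 1`: `-1 = c (n-1) T n + c D T(D+1)`, so `c (n-1) T n = -(1 - 2‖c D‖²/2^D) ≠ 0` (`2‖c D‖²/2^D ≤ 1/2`).
 (F2) at `N = 1`: `c 1 = y_1 = conj (c (n-1)) U n + conj (c D) U (D+1)`, `U n = μ T n`, `conj (c D) U (D+1) = c 1 · 2‖c D‖²/2^D`: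
 `c 1 (1 - 2‖c D‖²/2^D) = μ conj(c (n-1)) T n`, norms: `‖c 1‖ = ‖μ‖`.
 (F3) at `D + 1`: `mu8 (D+1) x_D = 2 c_1 c_D/2^D`, norms: `‖mu8 (D+1)‖ = ‖c 1‖ = ‖μ‖`.  But with `R = -P ee (2θ)`, `2θ = 2^(-n-1)`:
 `‖μ‖² = (1/2)‖1 + ee (2θ)‖² = 1 + cos (4πθ)`, `‖mu8 (D+1)‖² = 1 + cos (4πθ - 2π 2^(-D-1))`, and
 `0 < 4πθ - 2π 2^(-D-1) < 4πθ ≤ π/2` as `4πθ = 2π 2^(-n-1)`, `n < D`: strictly larger, contradiction.
 [`P ee x - R ee (-x)` has norm `‖1 - (R/P) ee (-2x)‖ = ‖1 + ee (2θ - 2x)‖`, `x = 2^(-D-2)`.]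
-/

set_option autoImplicit false

namespace H25.QE

open Complex Pool.Agent.H11.SC

/-- the multiplier -/
noncomputable def mu8 (P R : ℂ) (N : ℤ) : ℂ :=
  I / ((Real.sqrt 2 : ℝ) : ℂ) * (P * ee ((2 : ℂ) ^ (-N - 1)) - R * ee (-((2 : ℂ) ^ (-N - 1))))

/-- the coefficients `x` -/
noncomputable def xs (c : ℕ → ℂ) (j : ℤ) : ℂ :=
  if j < 0 then 0 else if j = 0 then -1 else -2 * (starRingEnd ℂ) (c j.toNat) / 2 ^ j.toNat

/-- the coefficients `y` -/
noncomputable def ys (c : ℕ → ℂ) (j : ℤ) : ℂ :=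
  if j ≤ 0 then 0 else (-2 * c j.toNat + 4 * c 1 * c (j.toNat - 1)) / 2 ^ j.toNat

private theorem rt2 : ((Real.sqrt 2 : ℝ) : ℂ) ≠ 0 := by
  have : Real.sqrt 2 ≠ 0 := by positivity
  exact_mod_cast this

private theorem I_rt2 : I / ((Real.sqrt 2 : ℝ) : ℂ) ≠ 0 := div_ne_zero I_ne_zero rt2

private theorem mu8_neg (P R : ℂ) (n : ℕ) : mu8 P R (-(n : ℤ) - 1) = I / ((Real.sqrt 2 : ℝ) : ℂ) * (P - R) := by
  unfold mu8
  have h1 : ((2 : ℂ) ^ (-(-(n : ℤ) - 1) - 1)) = ((2 ^ n : ℕ) : ℂ) := by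
    rw [show (-(-(n : ℤ) - 1) - 1) = (n : ℤ) by ring, zpow_natCast]
    push_cast
    rfl
  rw [h1, ee_neg', ee_nat]
  simp

private theorem mu8_zero (P R : ℂ) : mu8 P R 0 = -(I / ((Real.sqrt 2 : ℝ) : ℂ) * (P - R)) := by
  unfold mu8
  have h1 : ((2 : ℂ) ^ (-(0 : ℤ) - 1)) = 1 / 2 := by
    rw [show (-(0 : ℤ) - 1) = -1 by ring, zpow_neg_one]
    norm_num
  rw [h1, ee_half, ee_neg_half]
  ring

/-- `mu8` at a natural number -/
private theorem mu8_nat (P R : ℂ) (n : ℕ) : mu8 P R (n : ℤ) =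
    I / ((Real.sqrt 2 : ℝ) : ℂ) * (P * ee (((1 / 2 ^ (n + 1) : ℝ)) : ℂ) - R * ee (-(((1 / 2 ^ (n + 1) : ℝ)) : ℂ))) := by
  unfold mu8
  have h1 : ((2 : ℂ) ^ (-(n : ℤ) - 1)) = ((1 / 2 ^ (n + 1) : ℝ) : ℂ) := by
    rw [show (-(n : ℤ) - 1) = -((n + 1 : ℕ) : ℤ) by push_cast; ring, zpow_neg, zpow_natCast]
    push_cast
    rw [one_div]
  rw [h1]

/-- STEP 2 -/
private theorem step2 (c : ℕ → ℂ) (D : ℕ) (hDne : c D ≠ 0)
    (μ : ℂ) (T U : ℤ → ℂ)
    (F1 : ∀ N : ℤ, ∑ s ∈ Finset.range (D + 1), c s * T (N + s) = xs c (N - 1))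
    (F2 : ∀ N : ℤ, ∑ s ∈ Finset.range (D + 1), (starRingEnd ℂ) (c s) * U (N + s) = ys c N)
    (hneg : ∀ N : ℤ, N < 0 → U N = μ * T N) : ∀ n : ℕ, n ≤ D → U n = μ * T n := by
  intro n
  induction n using Nat.strong_induction_on with
  | _ n ih =>
    intro hn
    have hbelow : ∀ N : ℤ, N < n → U N - μ * T N = 0 := by
      intro N hN
      rcases lt_or_ge N 0 with h | h
      · rw [hneg N h, sub_self]
      · obtain ⟨m, rfl⟩ := Int.eq_ofNat_of_zero_le h
        rw [ih m (by omega) (by omega), sub_self]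
    -- P_N
    set p : ℤ → ℂ := fun N => ∑ t ∈ Finset.range (D + 1), (starRingEnd ℂ) (c t) * (U (N + t) - μ * T (N + t)) with hp
    have hp1 : ∀ N : ℤ, N < (n : ℤ) - D → p N = 0 := by
      intro N hN
      apply Finset.sum_eq_zero
      intro t ht
      rw [Finset.mem_range] at ht
      rw [hbelow (N + t) (by omega), mul_zero]
    have hp2 : p ((n : ℤ) - D) = (starRingEnd ℂ) (c D) * (U n - μ * T n) := by
      rw [hp]
      simp only
      rw [Finset.sum_range_succ, Finset.sum_eq_zero, zero_add]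
      · rw [show ((n : ℤ) - D + D) = n by ring]
      · intro t ht
        rw [Finset.mem_range] at ht
        rw [hbelow _ (by omega), mul_zero]
    have hp3 : ∀ N : ℤ, p N = ys c N - μ * ∑ t ∈ Finset.range (D + 1), (starRingEnd ℂ) (c t) * T (N + t) := by
      intro N
      rw [← F2 N, Finset.mul_sum, ← Finset.sum_sub_distrib]
      apply Finset.sum_congr rfl
      intro t _
      ring
    have e1 : ∑ s ∈ Finset.range (D + 1), c s * p ((n : ℤ) - 2 * D + s) = c D * ((starRingEnd ℂ) (c D) * (U n - μ * T n)) := by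
      rw [Finset.sum_range_succ, Finset.sum_eq_zero, zero_add]
      · rw [show ((n : ℤ) - 2 * D + D) = n - D by ring, hp2]
      · intro s hs
        rw [Finset.mem_range] at hs
        rw [hp1 _ (by omega), mul_zero]
    have e2 : ∑ s ∈ Finset.range (D + 1), c s * p ((n : ℤ) - 2 * D + s) = 0 := by
      have e3 : ∀ s ∈ Finset.range (D + 1), c s * p ((n : ℤ) - 2 * D + s) =
          -(μ * ∑ t ∈ Finset.range (D + 1), (starRingEnd ℂ) (c t) * (c s * T ((n : ℤ) - 2 * D + t + s))) := by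
        intro s hs
        rw [Finset.mem_range] at hs
        rw [hp3]
        have : ys c ((n : ℤ) - 2 * D + s) = 0 := by
          unfold ys
          rw [if_pos (by omega)]
        rw [this, zero_sub, mul_neg, ← mul_assoc, mul_comm (c s) μ, mul_assoc, Finset.mul_sum]
        congr 2
        apply Finset.sum_congr rfl
        intro t _
        rw [show ((n : ℤ) - 2 * D + s + t) = (n : ℤ) - 2 * D + t + s by ring]
        ring
      rw [Finset.sum_congr rfl e3, Finset.sum_neg_distrib, ← Finset.mul_sum, Finset.sum_comm]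
      have e4 : ∀ t ∈ Finset.range (D + 1), ∑ s ∈ Finset.range (D + 1),
          (starRingEnd ℂ) (c t) * (c s * T ((n : ℤ) - 2 * D + t + s)) = 0 := by
        intro t ht
        rw [Finset.mem_range] at ht
        rw [← Finset.mul_sum, F1]
        have : xs c ((n : ℤ) - 2 * D + t - 1) = 0 := by
          unfold xs
          rw [if_pos (by omega)]
        rw [this, mul_zero]
      rw [Finset.sum_eq_zero e4, mul_zero, neg_zero]
    rw [e2] at e1
    have hc : (starRingEnd ℂ) (c D) ≠ 0 := by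
      rw [map_ne_zero]
      exact hDne
    have e5 : U n - μ * T n = 0 := by
      rcases mul_eq_zero.mp e1.symm with h | h
      · exact absurd h hDne
      · rcases mul_eq_zero.mp h with h | h
        · exact absurd h hc
        · exact h
    exact sub_eq_zero.mp e5

private theorem pow_two_le {D : ℕ} (hD : 1 ≤ D) (x : ℝ) (hx0 : 0 ≤ x) (hx1 : x ≤ 1) (h : 2 * x ^ 2 = 2 ^ D) :
    D = 1 ∧ x = 1 := by
  have h1 : (2 : ℝ) ^ D ≤ 2 := by nlinarith
  have h2 : D = 1 := by
    by_contra hne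
    have h3 : 2 ≤ D := by omega
    have h4 : (2 : ℝ) ^ 2 ≤ 2 ^ D := pow_le_pow_right₀ (by norm_num) h3
    linarith
  refine ⟨h2, ?_⟩
  rw [h2] at h
  nlinarith

/-- the values of the multiplier determine `n` -/
private theorem mu8_eq (P R : ℂ) (n : ℕ) (hn : 1 ≤ n)
    (h : mu8 P R (n : ℤ) = I / ((Real.sqrt 2 : ℝ) : ℂ) * (P - R)) : R = -(P * ee (((1 / 2 ^ (n + 1) : ℝ)) : ℂ)) := by
  rw [mu8_nat] at h
  have h1 := mul_left_cancel₀ I_rt2 h
  set t : ℝ := 1 / 2 ^ (n + 1) with ht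
  have ht0 : 0 < t := by rw [ht]; positivity
  have ht1 : t < 1 := by
    rw [ht, div_lt_one (by positivity)]
    exact one_lt_pow₀ (by norm_num) (by omega)
  have h2 : ee (t : ℂ) ≠ 1 := by
    intro h3
    have h4 : ee (t : ℂ) = ee ((0 : ℝ) : ℂ) := by
      rw [h3]
      have := ee_nat 0
      simpa using this.symm
    have h5 := ee_inj h4 (by rw [sub_zero, abs_of_pos ht0]; exact ht1)
    exact ht0.ne' h5
  have h3 := ee_mul_neg (t : ℂ)
  have h4 : (ee (t : ℂ) - 1) * (P + R * ee (-(t : ℂ))) = 0 := by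
    linear_combination h1 + R * h3
  rcases mul_eq_zero.mp h4 with h5 | h5
  · exact absurd (sub_eq_zero.mp h5) h2
  · linear_combination ee (t : ℂ) * h5 - R * h3

theorem alg8 (c : ℕ → ℂ) (D : ℕ) (h0 : c 0 = 1) (hD : ∀ k : ℕ, D < k → c k = 0) (hDne : c D ≠ 0) (hD1 : ‖c D‖ ≤ 1)
    (P R : ℂ) (hP : ‖P‖ = 1) (hR : ‖R‖ = 1) (T U : ℤ → ℂ)
    (F1 : ∀ N : ℤ, ∑ s ∈ Finset.range (D + 1), c s * T (N + s) = xs c (N - 1))
    (F2 : ∀ N : ℤ, ∑ s ∈ Finset.range (D + 1), (starRingEnd ℂ) (c s) * U (N + s) = ys c N)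
    (F3 : ∀ N : ℤ, mu8 P R N * T N = U N) (F4 : ∀ N : ℤ, (D : ℤ) + 1 < N → T N = 0) :
    D = 0 ∨ (D = 1 ∧ ‖c 1‖ = 1) := by
  rcases Nat.eq_zero_or_pos D with hD0 | hDpos
  · exact Or.inl hD0
  right
  set μ : ℂ := I / ((Real.sqrt 2 : ℝ) : ℂ) * (P - R) with hμ
  have hG : ∀ n : ℕ, n ≤ D → U n = μ * T n := by
    apply step2 c D hDne μ T U F1 F2
    intro N hN
    obtain ⟨n, hn⟩ : ∃ n : ℕ, N = -(n : ℤ) - 1 := ⟨(-N - 1).toNat, by omega⟩
    rw [← F3, hn, mu8_neg]
  -- T (D+1)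
  have hT1 : T ((D : ℤ) + 1) = -2 * (starRingEnd ℂ) (c D) / 2 ^ D := by
    have h1 := F1 ((D : ℤ) + 1)
    rw [Finset.sum_range_succ', Finset.sum_eq_zero, zero_add] at h1
    · rw [h0, one_mul] at h1
      simp only [Nat.cast_zero, add_zero] at h1
      rw [h1]
      unfold xs
      rw [if_neg (by omega), if_neg (by omega)]
      have : ((D : ℤ) + 1 - 1).toNat = D := by omega
      rw [this]
    · intro s _
      rw [F4 _ (by push_cast; omega), mul_zero]
  have hU0 : ∀ N : ℤ, (D : ℤ) + 1 < N → U N = 0 := by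
    intro N hN
    rw [← F3, F4 N hN, mul_zero]
  have hU1 : U ((D : ℤ) + 1) = 2 * c 1 * c D / 2 ^ D := by
    have h1 := F2 ((D : ℤ) + 1)
    rw [Finset.sum_range_succ', Finset.sum_eq_zero, zero_add] at h1
    · rw [h0, map_one, one_mul] at h1
      simp only [Nat.cast_zero, add_zero] at h1
      rw [h1]
      unfold ys
      rw [if_neg (by omega)]
      have h2 : ((D : ℤ) + 1).toNat = D + 1 := by omega
      rw [h2, hD (D + 1) (by omega), Nat.add_sub_cancel, pow_succ]
      have h3 : (2 : ℂ) ^ D ≠ 0 := pow_ne_zero _ two_ne_zero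
      field_simp
      ring
    · intro s _
      rw [hU0 _ (by push_cast; omega), mul_zero]
  have h2D : (2 : ℂ) ^ D ≠ 0 := pow_ne_zero _ two_ne_zero
  have hcc : (starRingEnd ℂ) (c D) * c D = ((‖c D‖ ^ 2 : ℝ) : ℂ) := by
    rw [mul_comm, Complex.mul_conj, Complex.normSq_eq_norm_sq]
  have hx0 : xs c 0 = -1 := by
    unfold xs
    rw [if_neg (by omega), if_pos rfl]
  have hxm : xs c (-1) = 0 := by
    unfold xs
    rw [if_pos (by omega)]
  have hy1 : ys c 1 = c 1 := by
    unfold ys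
    rw [if_neg (by omega)]
    have : (1 : ℤ).toNat = 1 := rfl
    rw [this, Nat.sub_self, h0]
    ring
  -- the number κ' = 2 ‖c D‖² / 2^D
  set κ : ℝ := 2 * ‖c D‖ ^ 2 / 2 ^ D with hκ
  have hκc : (κ : ℂ) = 2 * ((‖c D‖ ^ 2 : ℝ) : ℂ) / 2 ^ D := by
    rw [hκ]
    push_cast
    rfl
  have hcT : c D * T ((D : ℤ) + 1) = -(κ : ℂ) := by
    rw [hT1, hκc, ← hcc]
    ring
  have hcU : (starRingEnd ℂ) (c D) * U ((D : ℤ) + 1) = c 1 * (κ : ℂ) := by
    rw [hU1, hκc, ← hcc]
    ring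
  have hfin : κ = 1 → D = 1 ∧ ‖c 1‖ = 1 := by
    intro h
    have h1 : 2 * ‖c D‖ ^ 2 = 2 ^ D := by
      rw [hκ, div_eq_one_iff_eq (by positivity)] at h
      exact h
    obtain ⟨h2, h3⟩ := pow_two_le hDpos _ (norm_nonneg _) hD1 h1
    refine ⟨h2, ?_⟩
    rw [h2] at h3
    exact h3
  -- sums at N = 1, T part
  have F1' : ∑ s ∈ Finset.range D, c s * T (1 + s) + -(κ : ℂ) = -1 := by
    have h1 := F1 1
    rw [Finset.sum_range_succ, show (1 : ℤ) - 1 = 0 by ring, hx0] at h1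
    rw [show (1 : ℤ) + (D : ℤ) = (D : ℤ) + 1 by ring, hcT] at h1
    exact h1
  have F2' : ∑ s ∈ Finset.range D, (starRingEnd ℂ) (c s) * U (1 + s) + c 1 * (κ : ℂ) = c 1 := by
    have h1 := F2 1
    rw [Finset.sum_range_succ, hy1] at h1
    rw [show (1 : ℤ) + (D : ℤ) = (D : ℤ) + 1 by ring, hcU] at h1
    exact h1
  by_cases hμ0 : μ = 0
  · -- CASE μ = 0
    have hU : ∀ n : ℕ, n ≤ D → U n = 0 := by
      intro n hn
      rw [hG n hn, hμ0, zero_mul]
    have h1 : ∑ s ∈ Finset.range D, (starRingEnd ℂ) (c s) * U (1 + s) = 0 := by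
      apply Finset.sum_eq_zero
      intro s hs
      rw [Finset.mem_range] at hs
      have := hU (1 + s) (by omega)
      push_cast at this
      rw [this, mul_zero]
    rw [h1, zero_add] at F2'
    by_cases hc1 : c 1 = 0
    · exfalso
      have hU1' : U ((D : ℤ) + 1) = 0 := by
        rw [hU1, hc1]
        ring
      have hy : ys c D = 0 := by
        rw [← F2 D]
        apply Finset.sum_eq_zero
        intro s _
        rcases Nat.lt_trichotomy s 1 with h | h | h
        · have : s = 0 := by omega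
          subst this
          rw [Nat.cast_zero, add_zero, hU D le_rfl, mul_zero]
        · subst h
          rw [Nat.cast_one, hU1', mul_zero]
        · rw [hU0 _ (by omega), mul_zero]
      unfold ys at hy
      rw [if_neg (by omega)] at hy
      have : ((D : ℤ)).toNat = D := by omega
      rw [this, hc1, mul_zero, zero_mul, add_zero, div_eq_zero_iff] at hy
      rcases hy with hy | hy
      · exact hDne (by simpa using hy)
      · exact h2D hy
    · have h2 : (κ : ℂ) = 1 := by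
        apply mul_left_cancel₀ hc1
        rw [F2', mul_one]
      exact hfin (by exact_mod_cast h2)
  · -- CASE μ ≠ 0
    have hT0 : T 0 = 0 := by
      have h1 := hG 0 (Nat.zero_le _)
      rw [Nat.cast_zero, ← F3, mu8_zero] at h1
      have h2 : μ * T 0 = 0 := by linear_combination (-1 / 2 : ℂ) * h1
      rcases mul_eq_zero.mp h2 with h3 | h3
      · exact absurd h3 hμ0
      · exact h3
    by_cases hex : ∃ n : ℕ, 1 ≤ n ∧ n ≤ D ∧ T n ≠ 0
    · exfalso
      obtain ⟨n, hn1, hnD, hTn⟩ := hex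
      have hmu : ∀ m : ℕ, m ≤ D → T m ≠ 0 → mu8 P R (m : ℤ) = μ := by
        intro m hm hTm
        have h1 := hG m hm
        rw [← F3] at h1
        exact mul_right_cancel₀ hTm h1
      have hRn := mu8_eq P R n hn1 (hmu n hnD hTn)
      have hPne : P ≠ 0 := by
        intro h
        rw [h, norm_zero] at hP
        exact zero_ne_one hP
      have huniq : ∀ m : ℕ, m ≤ D → m ≠ n → T m = 0 := by
        intro m hm hmn
        by_contra hTm
        rcases Nat.eq_zero_or_pos m with h | h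
        · subst h
          exact hTm (by simpa using hT0)
        have hRm := mu8_eq P R m h (hmu m hm hTm)
        rw [hRn, neg_inj] at hRm
        have h1 := mul_left_cancel₀ hPne hRm
        have hb : ∀ j : ℕ, (0 : ℝ) < 1 / 2 ^ (j + 1) ∧ (1 : ℝ) / 2 ^ (j + 1) < 1 := by
          intro j
          refine ⟨by positivity, ?_⟩
          rw [div_lt_one (by positivity)]
          exact one_lt_pow₀ (by norm_num) (by omega)
        have h2 := ee_inj h1 (by
          rw [abs_lt]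
          have := hb n
          have := hb m
          constructor <;> linarith)
        have h3 : (2 : ℝ) ^ (n + 1) = 2 ^ (m + 1) := by
          have h4 := hb n
          rw [div_eq_div_iff (by positivity) (by positivity)] at h2
          linarith
        have h5 := pow_right_injective₀ (by norm_num : (0 : ℝ) < 2) (by norm_num) h3
        omega
      -- F1 at 0
      have hcn : c n = 0 := by
        have h1 := F1 0
        rw [show (0 : ℤ) - 1 = -1 by ring, hxm, Finset.sum_eq_single n] at h1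
        · rw [zero_add] at h1
          rcases mul_eq_zero.mp h1 with h2 | h2
          · exact h2
          · exact absurd h2 hTn
        · intro s hs hsn
          rw [Finset.mem_range] at hs
          rw [zero_add, huniq s (by omega) hsn, mul_zero]
        · intro h2
          exact absurd (Finset.mem_range.mpr (by omega)) h2
      have hnltD : n < D := by
        rcases Nat.lt_or_eq_of_le hnD with h | h
        · exact h
        · rw [h] at hcn
          exact absurd hcn hDne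
      obtain ⟨n', rfl⟩ : ∃ n' : ℕ, n = n' + 1 := ⟨n - 1, by omega⟩
      have hcast : (1 : ℤ) + (n' : ℤ) = ((n' + 1 : ℕ) : ℤ) := by push_cast; ring
      -- F1 at 1
      have e1 : c n' * T ((n' + 1 : ℕ) : ℤ) = -((1 - κ : ℝ) : ℂ) := by
        rw [Finset.sum_eq_single n'] at F1'
        · rw [hcast] at F1'
          push_cast at F1' ⊢
          linear_combination F1'
        · intro s hs hsn
          rw [Finset.mem_range] at hs
          have := huniq (1 + s) (by omega) (by omega)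
          push_cast at this
          rw [this, mul_zero]
        · intro h2
          exact absurd (Finset.mem_range.mpr (by omega)) h2
      have e2 : (starRingEnd ℂ) (c n') * (μ * T ((n' + 1 : ℕ) : ℤ)) = c 1 * ((1 - κ : ℝ) : ℂ) := by
        rw [Finset.sum_eq_single n'] at F2'
        · rw [hcast, hG (n' + 1) hnD] at F2'
          push_cast at F2' ⊢
          linear_combination F2'
        · intro s hs hsn
          rw [Finset.mem_range] at hs
          have h3 := huniq (1 + s) (by omega) (by omega)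
          have h4 := hG (1 + s) (by omega)
          rw [h3, mul_zero] at h4
          push_cast at h4
          rw [h4, mul_zero]
        · intro h2
          exact absurd (Finset.mem_range.mpr (by omega)) h2
      have hκ1 : κ ≤ 1 / 2 := by
        rw [hκ, div_le_iff₀ (by positivity)]
        have h4 : (2 : ℝ) ^ 2 ≤ 2 ^ D := pow_le_pow_right₀ (by norm_num) (by omega)
        have h5 : ‖c D‖ ^ 2 ≤ 1 := by
          have := norm_nonneg (c D)
          nlinarith
        linarith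
      have hnorm1 : ‖c n'‖ * ‖T ((n' + 1 : ℕ) : ℤ)‖ = 1 - κ := by
        have h1 := congrArg norm e1
        rw [norm_mul, norm_neg, Complex.norm_real, Real.norm_of_nonneg (by linarith)] at h1
        exact h1
      have hnorm2 : ‖μ‖ = ‖c 1‖ := by
        have h1 := congrArg norm e2
        rw [norm_mul, norm_mul μ, norm_mul (c 1), RCLike.norm_conj, Complex.norm_real, Real.norm_of_nonneg (by linarith)] at h1
        have h2 : ‖μ‖ * (1 - κ) = ‖c 1‖ * (1 - κ) := by
          rw [← hnorm1]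
          rw [← hnorm1] at h1
          linarith
        exact mul_right_cancel₀ (by linarith) h2
      have hnorm3 : ‖mu8 P R ((D + 1 : ℕ) : ℤ)‖ = ‖c 1‖ := by
        have h1 := F3 ((D : ℤ) + 1)
        rw [hT1, hU1] at h1
        have h2 := congrArg norm h1
        rw [norm_mul, norm_div, norm_div, norm_mul, norm_mul, norm_mul, norm_neg, RCLike.norm_conj] at h2
        have h3 : (0 : ℝ) < ‖(2 : ℂ)‖ * ‖c D‖ / ‖(2 : ℂ) ^ D‖ := by
          have h5 := norm_pos_iff.mpr hDne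
          have h6 := norm_pos_iff.mpr h2D
          have h7 : (0 : ℝ) < ‖(2 : ℂ)‖ := norm_pos_iff.mpr two_ne_zero
          exact div_pos (mul_pos h7 h5) h6
        have h4 : ((D + 1 : ℕ) : ℤ) = (D : ℤ) + 1 := by push_cast; ring
        rw [h4]
        apply mul_right_cancel₀ h3.ne'
        rw [h2]
        ring
      -- the contradiction
      have key : ∀ x : ℝ, ‖I / ((Real.sqrt 2 : ℝ) : ℂ) * (P * ee (x : ℂ) - R * ee (-(x : ℂ)))‖ ^ 2 =
          1 + Real.cos (2 * Real.pi * (1 / 2 ^ (n' + 1 + 1) - 2 * x)) := by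
        intro x
        have h1 : P * ee (x : ℂ) - R * ee (-(x : ℂ)) =
            P * ee (x : ℂ) * (1 + ee ((1 / 2 ^ (n' + 1 + 1) - 2 * x : ℝ) : ℂ)) := by
          have h2 : ee ((1 / 2 ^ (n' + 1 + 1) - 2 * x : ℝ) : ℂ) =
              ee ((1 / 2 ^ (n' + 1 + 1) : ℝ) : ℂ) * (ee (-(x : ℂ)) * ee (-(x : ℂ))) := by
            rw [← ee_add', ← ee_add']
            congr 1
            push_cast
            ring
          rw [h2, hRn]
          have h3 := ee_mul_neg (x : ℂ)
          linear_combination (-(P * ee ((1 / 2 ^ (n' + 1 + 1) : ℝ) : ℂ) * ee (-(x : ℂ)))) * h3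
        rw [h1, norm_mul, norm_mul, norm_mul, norm_div, norm_I, Complex.norm_real, hP, ee_norm, one_mul, one_mul, mul_pow,
          one_add_ee_sq, div_pow, one_pow, Real.norm_of_nonneg (Real.sqrt_nonneg _), Real.sq_sqrt (by norm_num)]
        ring
      have hμsq : ‖μ‖ ^ 2 = 1 + Real.cos (2 * Real.pi * (1 / 2 ^ (n' + 1 + 1))) := by
        have h1 := key 0
        have h2 : ee ((0 : ℝ) : ℂ) = 1 := by
          have := ee_nat 0
          simpa using this
        have h3 : ee (-((0 : ℝ) : ℂ)) = 1 := by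
          rw [ee_neg', h2, inv_one]
        rw [h2, h3, mul_one, mul_one, mul_zero, sub_zero] at h1
        exact h1
      have hmusq : ‖mu8 P R ((D + 1 : ℕ) : ℤ)‖ ^ 2 =
          1 + Real.cos (2 * Real.pi * (1 / 2 ^ (n' + 1 + 1) - 2 * (1 / 2 ^ (D + 1 + 1)))) := by
        rw [mu8_nat]
        exact key _
      have hlt : (2 : ℝ) * (1 / 2 ^ (D + 1 + 1)) < 1 / 2 ^ (n' + 1 + 1) := by
        have h1 : (2 : ℝ) * (1 / 2 ^ (D + 1 + 1)) = 1 / 2 ^ (D + 1) := by
          rw [pow_succ (2 : ℝ) (D + 1)]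
          field_simp
        rw [h1]
        apply one_div_lt_one_div_of_lt (by positivity)
        exact pow_lt_pow_right₀ (by norm_num) (by omega)
      have hle : (1 : ℝ) / 2 ^ (n' + 1 + 1) ≤ 1 / 2 := by
        apply one_div_le_one_div_of_le (by norm_num)
        calc (2 : ℝ) = 2 ^ 1 := by norm_num
          _ ≤ 2 ^ (n' + 1 + 1) := pow_le_pow_right₀ (by norm_num) (by omega)
      have hpos : (0 : ℝ) < 2 * (1 / 2 ^ (D + 1 + 1)) := by positivity
      have hcos : Real.cos (2 * Real.pi * (1 / 2 ^ (n' + 1 + 1))) <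
          Real.cos (2 * Real.pi * (1 / 2 ^ (n' + 1 + 1) - 2 * (1 / 2 ^ (D + 1 + 1)))) := by
        apply Real.cos_lt_cos_of_nonneg_of_le_pi
        · have := Real.pi_pos
          apply mul_nonneg (by positivity)
          linarith
        · have := Real.pi_pos
          nlinarith
        · have := Real.pi_pos
          apply mul_lt_mul_of_pos_left _ (by positivity)
          linarith
      have : ‖mu8 P R ((D + 1 : ℕ) : ℤ)‖ ^ 2 = ‖μ‖ ^ 2 := by rw [hnorm3, hnorm2]
      rw [hμsq, hmusq] at this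
      linarith
    · -- (a)
      push Not at hex
      have hall : ∀ m : ℕ, m ≤ D → T m = 0 := by
        intro m hm
        rcases Nat.eq_zero_or_pos m with h | h
        · subst h
          simpa using hT0
        · exact hex m h hm
      have h1 : ∑ s ∈ Finset.range D, c s * T (1 + s) = 0 := by
        apply Finset.sum_eq_zero
        intro s hs
        rw [Finset.mem_range] at hs
        have := hall (1 + s) (by omega)
        push_cast at this
        rw [this, mul_zero]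
      rw [h1, zero_add] at F1'
      have h2 : (κ : ℂ) = 1 := by linear_combination -F1'
      exact hfin (by exact_mod_cast h2)

end H25.QE
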