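import Pool.Agent.H25.QE.Cf

/-!
# QE-AP: the abstract situation for `q = 8`, Euler factor `1/(1 - α X)`, `|α| = 1`

`Ψ = Psi a`.  `inv`: the inversion `z ↦ -1/(8z)`.  `par`: the parabolic elements at the cusp `1/2`, `1/2 + w ↦ 1/2 + w/(1 - 8kw)`, with an error which is
UNIFORM in `k`.  `deep`: `Ψ` is bounded deep in the cusp `1/2`.
-/

set_option autoImplicit false

namespace H25.QE

open Complex Pool.Agent.H11.SC

/-- the image of `w` under the `k`-th power of the parabolic element at the cusp -/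
noncomputable def vk (k : ℤ) (w : ℂ) : ℂ := w / (1 - 8 * (k : ℂ) * w)

structure Ap8 (Ψ : ℂ → ℝ) (C : ℝ) : Prop where
  C0 : 0 ≤ C
  nonneg : ∀ z : ℂ, 0 < z.im → 0 ≤ Ψ z
  per : ∀ z : ℂ, Ψ (z + 1) = Ψ z
  top : ∀ y0 : ℝ, 0 < y0 → ∃ M : ℝ, ∀ z : ℂ, y0 ≤ z.im → Ψ z ≤ M
  inv : ∀ z : ℂ, 0 < z.im → z.im ≤ 1 → ‖z‖ ≤ 2 → |Ψ z - Ψ (-1 / (8 * z))| ≤ C * z.im ^ (1 / 4 : ℝ)
  par : ∀ (k : ℤ) (w : ℂ), 0 < w.im → w.im ≤ 1 / 2 → ‖w‖ ≤ 1 →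
    |Ψ (w + 1 / 2) - Ψ (vk k w + 1 / 2)| ≤
      C * (w.im ^ (1 / 4 : ℝ) + ((vk k w).im / (1 + ‖vk k w‖ ^ 2)) ^ (1 / 4 : ℝ))
  deep : ∃ M : ℝ, ∀ w : ℂ, 0 < w.im → w.im ≤ 1 / 2 → ‖w‖ ≤ 1 → 2 * ‖w‖ ^ 2 ≤ w.im → Ψ (w + 1 / 2) ≤ M

theorem Ap8.shift {Ψ : ℂ → ℝ} {C : ℝ} (h : Ap8 Ψ C) (z : ℂ) (m : ℤ) : Ψ (z + m) = Ψ z := by
  induction m using Int.induction_on with
  | zero => simp
  | succ i ih =>
    rw [← ih, ← h.per (z + ((i : ℤ) : ℂ))]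
    congr 1
    push_cast
    ring
  | pred i ih =>
    rw [← ih, ← h.per (z + ((-(i : ℤ) - 1 : ℤ) : ℂ))]
    congr 1
    push_cast
    ring

/-- `w' = -1/(8w)` moves by an integer -/
theorem vk_inv (k : ℤ) (w : ℂ) (hw : 0 < w.im) : -1 / (8 * vk k w) = -1 / (8 * w) + k := by
  have hw0 : w ≠ 0 := by
    rintro rfl
    simp at hw
  unfold vk
  have h1 : (1 - 8 * (k : ℂ) * w) ≠ 0 := by
    intro h
    have h2 := congrArg Complex.im h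
    simp at h2
    rcases h2 with h2 | h2
    · have hk : k = 0 := by exact_mod_cast h2
      subst hk
      simp at h
    · exact hw.ne' h2
  field_simp
  ring

theorem vk_im (k : ℤ) (w : ℂ) : (vk k w).im = w.im / ‖1 - 8 * (k : ℂ) * w‖ ^ 2 := by
  unfold vk
  rw [Complex.div_im, ← Complex.normSq_eq_norm_sq]
  simp
  ring

end H25.QE
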