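import Pool.Agent.H25.QE.Def

/-!
# QE-CD: the leading coefficient of `C` has modulus at most one

`C(X) A(X) = 1` as power series, `C` a polynomial of degree `D`, `‖α k‖ ≤ C ρ^k` for every `ρ > 1`.  For `‖X‖ < 1` the series `A(X)` converges, so
`C(X) A(X) = 1` and `C(X) ≠ 0` (Cauchy product of a finite sum and an absolutely convergent series, `hinv`).  So all roots of the polynomial
`p = ∑_(k ≤ D) c k X^k` have modulus `≥ 1`.  If `c D ≠ 0`: over `ℂ` the polynomial splits, `p = c D ∏ (X - z_i)` (`Polynomial.Splits`,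
`IsAlgClosed.splits`), `1 = p(0) = c D ∏ (-z_i)`, so `‖c D‖ ∏ ‖z_i‖ = 1` and `‖c D‖ ≤ 1`.
-/

set_option autoImplicit false

namespace H25.QE

open Complex Pool.Agent.H11.SC

private theorem cd_ne (c α : ℕ → ℂ)
    (hinv : ∀ k : ℕ, ∑ j ∈ Finset.range (k + 1), c j * α (k - j) = if k = 0 then 1 else 0)
    (D : ℕ) (hD : ∀ k : ℕ, D < k → c k = 0)
    (hα : ∀ ρ : ℝ, 1 < ρ → ∃ C : ℝ, ∀ k : ℕ, ‖α k‖ ≤ C * ρ ^ k) (z : ℂ) (hz : ‖z‖ < 1) :
    ∑ k ∈ Finset.range (D + 1), c k * z ^ k ≠ 0 := by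
  intro h0
  obtain ⟨ρ, hρ1, hρ2⟩ : ∃ ρ : ℝ, 1 < ρ ∧ ρ * ‖z‖ < 1 := by
    rcases eq_or_lt_of_le (norm_nonneg z) with hz0 | hz0
    · exact ⟨2, by norm_num, by rw [← hz0]; norm_num⟩
    · refine ⟨(1 + 1 / ‖z‖) / 2, ?_, ?_⟩
      · have : 1 < 1 / ‖z‖ := by rw [lt_div_iff₀ hz0]; linarith
        linarith
      · have : (1 + 1 / ‖z‖) / 2 * ‖z‖ = (‖z‖ + 1) / 2 := by
          field_simp
        rw [this]
        linarith
  obtain ⟨C, hC⟩ := hα ρ hρ1
  have hs1 : Summable (fun k : ℕ => ‖c k * z ^ k‖) := by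
    refine summable_of_ne_finset_zero (s := Finset.range (D + 1)) fun k hk => ?_
    rw [Finset.mem_range] at hk
    rw [hD k (by omega), zero_mul, norm_zero]
  have hs2 : Summable (fun k : ℕ => ‖α k * z ^ k‖) := by
    refine Summable.of_nonneg_of_le (fun _ => norm_nonneg _) (fun k => ?_)
      ((summable_geometric_of_lt_one (by positivity) hρ2).mul_left C)
    rw [norm_mul, norm_pow, mul_pow, ← mul_assoc]
    exact mul_le_mul_of_nonneg_right (hC k) (by positivity)
  have hprod := tsum_mul_tsum_eq_tsum_sum_range_of_summable_norm hs1 hs2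
  have h1 : ∑' k : ℕ, c k * z ^ k = ∑ k ∈ Finset.range (D + 1), c k * z ^ k := by
    refine tsum_eq_sum fun k hk => ?_
    rw [Finset.mem_range] at hk
    rw [hD k (by omega), zero_mul]
  rw [h1, h0, zero_mul] at hprod
  have h2 : ∀ n : ℕ, ∑ k ∈ Finset.range (n + 1), c k * z ^ k * (α (n - k) * z ^ (n - k)) =
      if n = 0 then 1 else 0 := by
    intro n
    have : ∀ k ∈ Finset.range (n + 1), c k * z ^ k * (α (n - k) * z ^ (n - k)) =
        (c k * α (n - k)) * z ^ n := by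
      intro k hk
      rw [Finset.mem_range] at hk
      have e : z ^ n = z ^ k * z ^ (n - k) := by
        rw [← pow_add]
        congr 1
        omega
      rw [e]
      ring
    rw [Finset.sum_congr rfl this, ← Finset.sum_mul, hinv n]
    split_ifs with hn
    · rw [hn]
      norm_num
    · rw [zero_mul]
  rw [tsum_congr h2, tsum_ite_eq] at hprod
  exact zero_ne_one hprod

theorem top_le_one (c α : ℕ → ℂ)
    (hinv : ∀ k : ℕ, ∑ j ∈ Finset.range (k + 1), c j * α (k - j) = if k = 0 then 1 else 0)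
    (D : ℕ) (hD : ∀ k : ℕ, D < k → c k = 0)
    (hα : ∀ ρ : ℝ, 1 < ρ → ∃ C : ℝ, ∀ k : ℕ, ‖α k‖ ≤ C * ρ ^ k) (h0 : c 0 = 1) : ‖c D‖ ≤ 1 := by
  by_cases hcD : c D = 0
  · rw [hcD, norm_zero]
    exact zero_le_one
  obtain ⟨p, hp⟩ : ∃ p : Polynomial ℂ, p = ∑ k ∈ Finset.range (D + 1), Polynomial.C (c k) * Polynomial.X ^ k :=
    ⟨_, rfl⟩
  have hcoeff : ∀ n : ℕ, p.coeff n = if n ≤ D then c n else 0 := by
    intro n
    rw [hp, Polynomial.finsetSum_coeff]
    simp only [Polynomial.coeff_C_mul, Polynomial.coeff_X_pow, mul_ite, mul_one, mul_zero]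
    rw [Finset.sum_ite_eq]
    simp only [Finset.mem_range, Nat.lt_succ_iff]
  have hdeg : p.natDegree = D := by
    apply le_antisymm
    · refine Polynomial.natDegree_le_iff_coeff_eq_zero.2 fun n hn => ?_
      rw [hcoeff, if_neg (by omega)]
    · apply Polynomial.le_natDegree_of_ne_zero
      rw [hcoeff, if_pos le_rfl]
      exact hcD
  have hlc : p.leadingCoeff = c D := by
    rw [Polynomial.leadingCoeff, hdeg, hcoeff, if_pos le_rfl]
  have hroots : ∀ z ∈ p.roots, 1 ≤ ‖z‖ := by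
    intro z hz
    by_contra hlt
    push Not at hlt
    have h1 := Polynomial.isRoot_of_mem_roots hz
    rw [Polynomial.IsRoot, hp, Polynomial.eval_finsetSum] at h1
    simp only [Polynomial.eval_mul, Polynomial.eval_C, Polynomial.eval_pow, Polynomial.eval_X] at h1
    exact cd_ne c α hinv D hD hα z hlt h1
  have hprod : 1 ≤ ‖p.roots.prod‖ := by
    refine Multiset.prod_induction (fun z : ℂ => 1 ≤ ‖z‖) p.roots ?_ ?_ hroots
    · intro a b ha hb
      rw [norm_mul]
      exact one_le_mul_of_one_le_of_one_le ha hb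
    · rw [norm_one]
  have hv := (IsAlgClosed.splits p).coeff_zero_eq_leadingCoeff_mul_prod_roots
  rw [hcoeff, if_pos (Nat.zero_le _), h0, hlc] at hv
  have hn : (1 : ℝ) = ‖c D‖ * ‖p.roots.prod‖ := by
    have := congrArg (fun z : ℂ => ‖z‖) hv
    simpa using this
  nlinarith [norm_nonneg (c D)]

end H25.QE
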