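import Pool.Agent.H25.QE.Def
import Pool.Agent.H11.SC5.StepC
import Pool.Agent.H11.SC4.Two

/-!
# QE-CF: the step without the restriction `Im z ≤ 100 |z|²` (entire functions), and the relation at `1/2`
-/

set_option autoImplicit false

namespace H25.QE

open Complex Pool.Agent.H11.SC Pool.Agent.H11.Selberg

/-- the step for entire functions -/
structure CF (q : ℝ) (a : ℕ → ℂ) (ωm ωp : ℂ) : Prop where
  hm : ‖ωm‖ = 1
  hp : ‖ωp‖ = 1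
  bound : ∃ C : ℝ, 0 ≤ C ∧ ∀ z : ℂ, 0 < z.im → z.im ≤ 1 → ‖z‖ ≤ 2 →
    (z.re ≤ 0 →
      ‖ff a z - ωm * JJ q z * ff (cj a) (-1 / (q * z))‖ ≤ C * z.im ^ (-(13 / 4) : ℝ)) ∧
    (0 ≤ z.re →
      ‖ff a z - ωp * JJ q z * ff (cj a) (-1 / (q * z))‖ ≤ C * z.im ^ (-(13 / 4) : ℝ)) ∧
    (z.re ≤ 0 →
      ‖ff (cj a) z - (starRingEnd ℂ) ωp * JJ q z * ff a (-1 / (q * z))‖ ≤
        C * z.im ^ (-(13 / 4) : ℝ)) ∧
    (0 ≤ z.re →
      ‖ff (cj a) z - (starRingEnd ℂ) ωm * JJ q z * ff a (-1 / (q * z))‖ ≤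
        C * z.im ^ (-(13 / 4) : ℝ))

theorem CF.cstep {q : ℝ} {a : ℕ → ℂ} {ωm ωp : ℂ} (h : CF q a ωm ωp) : CStep q a ωm ωp := by
  obtain ⟨C, -, hC⟩ := h.bound
  exact ⟨h.hm, h.hp, C, fun z h1 h2 h3 _ => hC z h1 h2 h3⟩

theorem CF.conj {q : ℝ} {a : ℕ → ℂ} {ωm ωp : ℂ} (h : CF q a ωm ωp) :
    CF q (cj a) ((starRingEnd ℂ) ωp) ((starRingEnd ℂ) ωm) := by
  refine ⟨by rw [RCLike.norm_conj]; exact h.hp, by rw [RCLike.norm_conj]; exact h.hm, ?_⟩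
  obtain ⟨C, hC0, hC⟩ := h.bound
  refine ⟨C, hC0, fun z h1 h2 h3 => ?_⟩
  obtain ⟨e1, e2, e3, e4⟩ := hC z h1 h2 h3
  rw [cj_cj, Complex.conj_conj, Complex.conj_conj]
  exact ⟨e3, e4, e1, e2⟩

variable {a : ℕ → ℂ} {F : ℂ → ℂ} {Q : ℝ} {k : ℕ} {lam : Fin k → ℝ} {mu : Fin k → ℂ} {ε : ℂ}

theorem cfree (h : FEq a F Q lam mu ε) :
    ∃ ωm ωp : ℂ, CF ((2 * Real.pi * Bp Q lam) ^ 2) a ωm ωp := by
  obtain ⟨ω, hω, C1, h1⟩ := cstep_left h
  obtain ⟨ω', hω', C2, h2⟩ := cstep_left h.conj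
  set q : ℝ := (2 * Real.pi * Bp Q lam) ^ 2 with hq
  refine ⟨ω, (starRingEnd ℂ) ω', hω, by rw [RCLike.norm_conj]; exact hω', max (max C1 C2) 0,
    le_max_right _ _, ?_⟩
  intro z hy0 hy1 hz2
  have hpow : 0 ≤ z.im ^ (-(13 / 4) : ℝ) := (Real.rpow_pos_of_pos hy0 _).le
  have m1 : C1 * z.im ^ (-(13 / 4) : ℝ) ≤ max (max C1 C2) 0 * z.im ^ (-(13 / 4) : ℝ) :=
    mul_le_mul_of_nonneg_right ((le_max_left _ _).trans (le_max_left _ _)) hpow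
  have m2 : C2 * z.im ^ (-(13 / 4) : ℝ) ≤ max (max C1 C2) 0 * z.im ^ (-(13 / 4) : ℝ) :=
    mul_le_mul_of_nonneg_right ((le_max_right _ _).trans (le_max_left _ _)) hpow
  have him : (-(starRingEnd ℂ) z).im = z.im := by simp
  have hre : (-(starRingEnd ℂ) z).re = -z.re := by simp
  have hno : ‖-(starRingEnd ℂ) z‖ = ‖z‖ := by rw [norm_neg, RCLike.norm_conj]
  refine ⟨fun hx => (h1 z hy0 hy1 hz2 hx).trans m1, fun hx => ?_, fun hx => ?_, fun hx => ?_⟩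
  · have e1 := h2 (-(starRingEnd ℂ) z) (by rw [him]; exact hy0) (by rw [him]; exact hy1)
      (by rw [hno]; exact hz2) (by rw [hre]; linarith)
    rw [him, cj_cj, inv_conj, JJ_conj] at e1
    rw [← RCLike.norm_conj, map_sub, map_mul, map_mul, ← ff_conj, Complex.conj_conj] at e1
    have e2 : (starRingEnd ℂ) (ff a (-(starRingEnd ℂ) (-1 / ((q : ℂ) * z)))) =
        ff (cj a) (-1 / ((q : ℂ) * z)) := by
      rw [ff_conj (cj a), cj_cj]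
    rw [e2] at e1
    exact e1.trans m2
  · have e1 := h2 z hy0 hy1 hz2 hx
    rw [cj_cj] at e1
    rw [Complex.conj_conj]
    exact e1.trans m2
  · have e1 := h1 (-(starRingEnd ℂ) z) (by rw [him]; exact hy0) (by rw [him]; exact hy1)
      (by rw [hno]; exact hz2) (by rw [hre]; linarith)
    rw [him, inv_conj, JJ_conj] at e1
    rw [← RCLike.norm_conj, map_sub, map_mul, map_mul, Complex.conj_conj, ← ff_conj a] at e1
    have e2 : (starRingEnd ℂ) (ff a (-(starRingEnd ℂ) z)) = ff (cj a) z := by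
      rw [ff_conj (cj a), cj_cj]
    rw [e2] at e1
    exact e1.trans m1

/-- the relation at `1/2` if the Euler factor at `2` is `1/(1 - α X)`, `|α| = 1` -/
structure HR (a : ℕ → ℂ) (α : ℂ) : Prop where
  one : ‖α‖ = 1
  rel : ∀ z : ℂ, 0 < z.im → ff a (z + 1 / 2) = -ff a z + 16 * α * ff a (2 * z)

end H25.QE
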