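import Pool.Agent.H25.QE.Def
import Pool.Agent.H11.SC4.Final4

/-!
# QE-CN: from `count_four` (`Nat.Coprime p.1 (4 * p.2)` implies `Nat.Coprime p.1 (8 * p.2)`: `Nat.Coprime.mul_right`, `8 = 2 * 4`)
-/

set_option autoImplicit false

namespace H25.QE

open Complex Pool.Agent.H11.SC Pool.Agent.H11.Selberg

theorem count8 : ∃ c0 : ℝ, 0 < c0 ∧ ∃ M0 : ℕ, ∀ M : ℕ, M0 ≤ M → ∃ P : Finset (ℕ × ℕ),
      c0 * (M : ℝ) ^ 2 ≤ P.card ∧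
      ∀ p ∈ P, M ≤ 4 * p.2 ∧ p.2 ≤ M ∧ 1 ≤ p.1 ∧ p.1 ≤ p.2 ∧ Nat.Coprime p.1 (8 * p.2) := by
  obtain ⟨c0, hc0, M0, h⟩ := count_four
  refine ⟨c0, hc0, M0, fun M hM => ?_⟩
  obtain ⟨P, hP1, hP2⟩ := h M hM
  refine ⟨P, hP1, fun p hp => ?_⟩
  obtain ⟨h1, h2, h3, h4, h5⟩ := hP2 p hp
  refine ⟨h1, h2, h3, h4, ?_⟩
  have h6 : Nat.Coprime p.1 4 := Nat.Coprime.coprime_mul_right_right h5
  have h7 : Nat.Coprime p.1 2 := Nat.Coprime.coprime_dvd_right (by norm_num) h6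
  have h8 : 8 * p.2 = 2 * (4 * p.2) := by ring
  rw [h8]
  exact Nat.Coprime.mul_right h7 h5

end H25.QE
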