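import Mathlib
import Pool.Agent.H11.SC5.Prod
import Pool.Agent.H11.SC5.Eul

/-!
# QE-DEF: degree two, conductor 8, UNKNOWN Euler factor at 2 (definitions)

PROJECT (sharp question 40, think 1375 and 1373; helper25, helper26).  `F` in the Selberg class, degree `2`, conductor `8`, entire
(or with a pole): the Euler factor at `2` is `1` or `1/(1 - α X)` with `|α| = 1`; in both cases `S_F(x) = log log x + O(1)`.

Notation of `H11/SC5/Defs5.lean`: `ff a z = ∑ a(n) n³ e(nz)`, `JJ`, `CStep`, `pw`, `KK`, `Ld`, `l2`, `XX`, `Tt`, `Sp`.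
`Loc2 a c`: `c` are the coefficients of `C(X) = 1/A(X)`, `A(X) = ∑ a(2^k) X^k`.
`l4 c α`: coefficients of `2 - (2 + 4 α X) C(X)`: `f(z + 1/4) + f(z - 1/4) = ∑_k l4_k 8^k f(2^k z)`, `α = a(2)`.
`LB L`: `‖L k‖ ≤ D R^k` with `R² < 2`.  `Ram a`: the Ramanujan bound.
`TR L a g`: `g z = ∑_k L_k 8^k f(2^k z)` for all `z` in the upper half plane.
-/

set_option autoImplicit false

namespace H25.QE

open Complex Pool.Agent.H11.SC

/-- local data at `2`: `c` are the coefficients of the inverse of the Euler factor at `2` -/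
structure Loc2 (a c : ℕ → ℂ) : Prop where
  one : a 1 = 1
  mul : ∀ m n : ℕ, m * n ≠ 0 → Nat.Coprime m n → a (m * n) = a m * a n
  inv : ∀ k : ℕ, ∑ j ∈ Finset.range (k + 1), c j * a (2 ^ (k - j)) = if k = 0 then 1 else 0
  bd : ∃ D R : ℝ, 1 ≤ R ∧ R ^ 2 < 2 ∧ ∀ k : ℕ, ‖c k‖ ≤ D * R ^ k

theorem Loc2.of_loc6 {a c2 c3 : ℕ → ℂ} (h : Loc6 a c2 c3) : Loc2 a c2 :=
  ⟨h.one, h.mul, h.inv2, h.bd2⟩

/-- the Ramanujan bound -/
def Ram (a : ℕ → ℂ) : Prop := ∀ ε : ℝ, 0 < ε → ∃ C : ℝ, ∀ n : ℕ, 1 ≤ n → ‖a n‖ ≤ C * (n : ℝ) ^ ε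

/-- a bounded family of coefficients -/
def LB (L : ℕ → ℂ) : Prop := ∃ D R : ℝ, 0 ≤ D ∧ 1 ≤ R ∧ R ^ 2 < 2 ∧ ∀ k : ℕ, ‖L k‖ ≤ D * R ^ k

/-- coefficients of `2 - (2 + 4 α X) C(X)` -/
noncomputable def l4 (c : ℕ → ℂ) (α : ℂ) (k : ℕ) : ℂ :=
  (if k = 0 then 2 else 0) - 2 * c k - 4 * α * (if k = 0 then 0 else c (k - 1))

/-- `g z = ∑_k L_k 8^k f(2^k z)` -/
def TR (L a : ℕ → ℂ) (g : ℂ → ℂ) : Prop := ∀ z : ℂ, 0 < z.im →
  HasSum (fun k : ℕ => L k * (((2 ^ k : ℕ) : ℂ) ^ 3 * ff a (((2 ^ k : ℕ) : ℂ) * z))) (g z)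

theorem Ram.one {a : ℕ → ℂ} (h : Ram a) : ∃ C : ℝ, ∀ n : ℕ, 1 ≤ n → ‖a n‖ ≤ C * (n : ℝ) ^ (1 : ℝ) :=
  h 1 one_pos

theorem Ram.cj {a : ℕ → ℂ} (h : Ram a) : Ram (cj a) := fun ε hε => cj_ram a ε (h ε hε)

theorem lb_l2 {a c : ℕ → ℂ} (h : Loc2 a c) : LB (l2 c) := by
  obtain ⟨D, R, hR, hR2, hc⟩ := h.bd
  have hD : 0 ≤ D := by
    have := (norm_nonneg _).trans (hc 0)
    simpa using this
  refine ⟨1 + 2 * D, R, by linarith, hR, hR2, fun k => ?_⟩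
  have h1 : (1 : ℝ) ≤ R ^ k := one_le_pow₀ hR
  unfold l2
  refine (norm_sub_le _ _).trans ?_
  rw [norm_mul, Complex.norm_ofNat]
  have h2 := hc k
  have h3 : ‖(if k = 0 then (1 : ℂ) else 0)‖ ≤ 1 := by
    split_ifs <;> simp
  nlinarith [mul_nonneg hD (zero_le_one.trans h1)]

theorem lb_l4 {a c : ℕ → ℂ} (h : Loc2 a c) (α : ℂ) : LB (l4 c α) := by
  obtain ⟨D, R, hR, hR2, hc⟩ := h.bd
  have hD : 0 ≤ D := by
    have := (norm_nonneg _).trans (hc 0)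
    simpa using this
  refine ⟨2 + 2 * D + 4 * ‖α‖ * D, R, by positivity, hR, hR2, fun k => ?_⟩
  have h1 : (1 : ℝ) ≤ R ^ k := one_le_pow₀ hR
  unfold l4
  have h2 := hc k
  have h3 : ‖(if k = 0 then (2 : ℂ) else 0)‖ ≤ 2 := by
    split_ifs <;> simp
  have h4 : ‖(if k = 0 then (0 : ℂ) else c (k - 1))‖ ≤ D * R ^ k := by
    split_ifs with hk
    · rw [norm_zero]
      positivity
    · refine (hc (k - 1)).trans (mul_le_mul_of_nonneg_left ?_ hD)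
      exact pow_le_pow_right₀ hR (by omega)
  refine (norm_sub_le _ _).trans ?_
  have h5 : ‖(if k = 0 then (2 : ℂ) else 0) - 2 * c k‖ ≤ 2 + 2 * (D * R ^ k) := by
    refine (norm_sub_le _ _).trans ?_
    rw [norm_mul, Complex.norm_ofNat]
    linarith
  have h6 : ‖4 * α * (if k = 0 then (0 : ℂ) else c (k - 1))‖ ≤ 4 * ‖α‖ * (D * R ^ k) := by
    rw [norm_mul, norm_mul, Complex.norm_ofNat]
    exact mul_le_mul_of_nonneg_left h4 (by positivity)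
  nlinarith

end H25.QE
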