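import Pool.Agent.H25.QE.Def

/-!
# QE-EE: elementary facts about `ee x = exp(2πix)` (for all provers of `H25/QE`)
-/

set_option autoImplicit false

namespace H25.QE

open Complex Pool.Agent.H11.SC

theorem ee_add' (x y : ℂ) : ee (x + y) = ee x * ee y := by
  unfold ee
  rw [← Complex.exp_add]
  congr 1
  ring

theorem ee_neg' (x : ℂ) : ee (-x) = (ee x)⁻¹ := by
  unfold ee
  rw [← Complex.exp_neg]
  congr 1
  ring

theorem ee_ne (x : ℂ) : ee x ≠ 0 := Complex.exp_ne_zero _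

theorem ee_mul_neg (x : ℂ) : ee x * ee (-x) = 1 := by
  rw [ee_neg']
  exact mul_inv_cancel₀ (ee_ne x)

theorem ee_int (n : ℤ) : ee (n : ℂ) = 1 := by
  unfold ee
  rw [Complex.exp_eq_one_iff]
  exact ⟨n, by ring⟩

theorem ee_nat (n : ℕ) : ee (n : ℂ) = 1 := by
  have := ee_int (n : ℤ)
  simpa using this

theorem ee_half : ee (1 / 2) = -1 := by
  unfold ee
  rw [← Complex.exp_pi_mul_I]
  congr 1
  ring

theorem ee_neg_half : ee (-(1 / 2)) = -1 := by
  rw [ee_neg', ee_half]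
  norm_num

theorem ee_norm (x : ℝ) : ‖ee (x : ℂ)‖ = 1 := by
  unfold ee
  rw [Complex.norm_exp]
  have : (2 * (Real.pi : ℂ) * I * (x : ℂ)).re = 0 := by simp
  rw [this, Real.exp_zero]

theorem ee_norm_neg (x : ℝ) : ‖ee (-(x : ℂ))‖ = 1 := by
  have := ee_norm (-x)
  simpa using this

theorem ee_re (x : ℝ) : (ee (x : ℂ)).re = Real.cos (2 * Real.pi * x) := by
  unfold ee
  have : 2 * (Real.pi : ℂ) * I * (x : ℂ) = ((2 * Real.pi * x : ℝ) : ℂ) * I := by
    push_cast
    ring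
  rw [this, Complex.exp_ofReal_mul_I_re]

theorem ee_conj (x : ℝ) : (starRingEnd ℂ) (ee (x : ℂ)) = ee (-(x : ℂ)) := by
  unfold ee
  rw [← Complex.exp_conj]
  congr 1
  rw [map_mul, map_mul, map_mul, Complex.conj_I, Complex.conj_ofReal, Complex.conj_ofReal, map_ofNat]
  ring

/-- `‖1 + e(x)‖² = 2 + 2 cos(2πx)` -/
theorem one_add_ee_sq (x : ℝ) : ‖1 + ee (x : ℂ)‖ ^ 2 = 2 + 2 * Real.cos (2 * Real.pi * x) := by
  have h1 : ‖ee (x : ℂ)‖ ^ 2 = 1 := by rw [ee_norm]; norm_num
  rw [← ee_re, Complex.sq_norm, Complex.normSq_apply] at *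
  simp only [Complex.add_re, Complex.one_re, Complex.add_im, Complex.one_im, zero_add]
  nlinarith

/-- two real numbers with the same `e` and a distance less than one are equal -/
theorem ee_inj {x y : ℝ} (h : ee (x : ℂ) = ee (y : ℂ)) (h1 : |x - y| < 1) : x = y := by
  unfold ee at h
  rw [Complex.exp_eq_exp_iff_exists_int] at h
  obtain ⟨n, hn⟩ := h
  have h2 : (x : ℂ) = y + n := by
    have h3 : (2 * (Real.pi : ℂ) * I) ≠ 0 := by
      simp [Real.pi_ne_zero]
    apply mul_left_cancel₀ h3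
    rw [hn]
    ring
  have h4 : x = y + n := by exact_mod_cast h2
  have h5 : |(n : ℝ)| < 1 := by
    rw [h4] at h1
    simpa using h1
  have h6 : n = 0 := by
    have : |n| < 1 := by exact_mod_cast h5
    exact Int.abs_lt_one_iff.mp this
  rw [h4, h6]
  simp

end H25.QE
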