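import Pool.Agent.H25.QE.Ap

/-!
# QE-SU: `Ψ` is bounded

`y0 = 1/100`, `M0` = maximum of `0`, the bound `h.top y0` and the bound `h.deep`; `ρ = 9/8`, `G = 40 C`.
CLAIM (induction on `j`): for `y = Im z`, `y0 ρ^(-j) ≤ y`, `y < y0`: `Ψ z ≤ M0 + G (2 - y^(1/4))`.  Shift `z` by an integer (`h.shift`, `round`) to
`|Re z| ≤ 1/2`.
(a) `‖z‖ ≤ 1/3`: `z' = -1/(8z)`, `Im z' = y/(8‖z‖²) ≥ (9/8) y`, `Ψ z ≤ Ψ z' + C y^(1/4)` (`h.inv`).  If `Im z' ≥ y0`: `Ψ z' ≤ M0`.  Otherwise induction: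
`Ψ z ≤ M0 + G (2 - (9/8)^(1/4) y^(1/4)) + C y^(1/4)`, and `G ((9/8)^(1/4) - 1) ≥ C` (`(9/8)^(1/4) ≥ 1.029`: `1.029^4 ≤ 1.1212`).
(b) `‖z‖ > 1/3`: `x = Re z`, `x² > 1/9 - 10^(-4)`, so `|x| > 0.333`; let `w = z - 1/2` if `x > 0` and `w = z + 1/2` if `x < 0` (then `z = w - 1/2` and
`Ψ z = Ψ (w + 1/2)` by `h.per`).  `‖w‖² ≤ (0.167)² + 10^(-4) ≤ 0.028`, `Im w = y`.  If `2‖w‖² ≤ y`: `h.deep`: `Ψ z ≤ M0`.  Otherwise `w' = -1/(8w)` has
`Im w' = y/(8‖w‖²) < 1/4`; `k = -round (Re w')`, `w1 = vk k w`, `-1/(8 w1) = w' + k` (`vk_inv`) has norm² `≤ 1/4 + 1/16 = 5/16`; with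
`Im w1 = Im (w' + k)/(8‖w'+k‖²)` (the map `-1/(8·)` is an involution): `Im w1 = y/(64 ‖w‖² ‖w'+k‖²) ≥ y/(64 · 0.028 · 5/16) ≥ 1.78 y`.
`h.par`: `Ψ z ≤ Ψ (w1 + 1/2) + C (y^(1/4) + min(1, Im w1)^(1/4))` (`Im w1/(1+‖w1‖²) ≤ min(1, Im w1)`, as `Im w1 ≤ ‖w1‖ ≤ 1 + ‖w1‖²`).  If `Im w1 ≥ y0`: `Ψ z ≤ M0 + 2C`,
and `G (2 - y^(1/4)) ≥ 40 C`.  Otherwise with `t = (Im w1)^(1/4) ≥ 1.15 y^(1/4)` (`1.15^4 ≤ 1.75`): `Ψ z ≤ M0 + G (2 - t) + C (y^(1/4) + t) ≤ M0 + G (2 - y^(1/4))`, because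
`G (t - y^(1/4)) ≥ 40 C (t - t/1.15) ≥ 5 C t ≥ C (t + y^(1/4))`.
Every `y > 0` is `≥ y0 ρ^(-j)` for some `j`.  Result: `Ψ ≤ M0 + 2 G`.
-/

set_option autoImplicit false

namespace H25.QE

open Complex Pool.Agent.H11.SC

private theorem q_ge {a b : ℝ} (ha : 0 ≤ a) (h : a ^ 4 ≤ b) : a ≤ b ^ (1 / 4 : ℝ) := by
  have h1 : (a ^ 4) ^ (1 / 4 : ℝ) = a := by
    rw [← Real.rpow_natCast, ← Real.rpow_mul ha]
    norm_num
  calc a = (a ^ 4) ^ (1 / 4 : ℝ) := h1.symm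
    _ ≤ b ^ (1 / 4 : ℝ) := Real.rpow_le_rpow (by positivity) h (by norm_num)

private theorem q_le_one {b : ℝ} (hb : 0 ≤ b) (h : b ≤ 1) : b ^ (1 / 4 : ℝ) ≤ 1 :=
  Real.rpow_le_one hb h (by norm_num)

private theorem q_mul {a b c t : ℝ} (ha : 0 ≤ a) (hab : a ^ 4 ≤ c) (hb : 0 ≤ b) (ht : c * b ≤ t) :
    a * b ^ (1 / 4 : ℝ) ≤ t ^ (1 / 4 : ℝ) := by
  have hc : 0 ≤ c := (by positivity : (0 : ℝ) ≤ a ^ 4).trans hab
  calc a * b ^ (1 / 4 : ℝ) ≤ c ^ (1 / 4 : ℝ) * b ^ (1 / 4 : ℝ) :=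
        mul_le_mul_of_nonneg_right (q_ge ha hab) (Real.rpow_nonneg hb _)
    _ = (c * b) ^ (1 / 4 : ℝ) := (Real.mul_rpow hc hb).symm
    _ ≤ t ^ (1 / 4 : ℝ) := Real.rpow_le_rpow (mul_nonneg hc hb) ht (by norm_num)

private theorem inv_im (z : ℂ) : (-1 / (8 * z)).im = z.im / (8 * ‖z‖ ^ 2) := by
  by_cases hz : z = 0
  · simp [hz]
  have h1 : Complex.normSq z ≠ 0 := fun h => hz (Complex.normSq_eq_zero.1 h)
  rw [Complex.div_im, ← Complex.normSq_eq_norm_sq, Complex.normSq_mul]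
  have h2 : Complex.normSq 8 = 64 := by
    rw [show (8 : ℂ) = ((8 : ℝ) : ℂ) by norm_num, Complex.normSq_ofReal]
    norm_num
  rw [h2]
  simp only [neg_im, one_im, neg_re, one_re, mul_im, mul_re]
  have h3 : (8 : ℂ).re = 8 := rfl
  have h4 : (8 : ℂ).im = 0 := rfl
  rw [h3, h4]
  field_simp
  ring

private theorem nsq (z : ℂ) : ‖z‖ ^ 2 = z.re ^ 2 + z.im ^ 2 := by
  rw [← Complex.normSq_eq_norm_sq, Complex.normSq_apply]
  ring

/-- the step -/
private theorem step {Ψ : ℂ → ℝ} {C M₀ : ℝ} (h : Ap8 Ψ C)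
    (htop : ∀ z : ℂ, 1 / 100 ≤ z.im → Ψ z ≤ M₀)
    (hdeep : ∀ w : ℂ, 0 < w.im → w.im ≤ 1 / 2 → ‖w‖ ≤ 1 → 2 * ‖w‖ ^ 2 ≤ w.im → Ψ (w + 1 / 2) ≤ M₀)
    (z : ℂ) (hx : |z.re| ≤ 1 / 2) (hz : 0 < z.im) (hz1 : z.im < 1 / 100)
    (ih : ∀ z' : ℂ, 9 / 8 * z.im ≤ z'.im → z'.im < 1 / 100 → Ψ z' ≤ M₀ + 40 * C * (2 - z'.im ^ (1 / 4 : ℝ))) :
    Ψ z ≤ M₀ + 40 * C * (2 - z.im ^ (1 / 4 : ℝ)) := by
  have hC := h.C0
  have hq0 : 0 ≤ z.im ^ (1 / 4 : ℝ) := Real.rpow_nonneg hz.le _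
  have hq1 : z.im ^ (1 / 4 : ℝ) ≤ 1 := q_le_one hz.le (by linarith)
  rcases le_or_gt ‖z‖ (1 / 3) with hn | hn
  · have h1 := h.inv z hz (by linarith) (by linarith)
    have h2 := inv_im z
    have hz0 : z ≠ 0 := by
      rintro rfl
      simp at hz
    have hnp : 0 < ‖z‖ := norm_pos_iff.2 hz0
    have h3 : 9 / 8 * z.im ≤ (-1 / (8 * z)).im := by
      rw [h2, le_div_iff₀ (by positivity)]
      have h4 : ‖z‖ ^ 2 ≤ 1 / 9 := by nlinarith
      nlinarith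
    have h5 := (abs_le.1 h1).2
    rcases le_or_gt (1 / 100) (-1 / (8 * z)).im with h6 | h6
    · have h7 := htop _ h6
      nlinarith [mul_nonneg hC hq0]
    · have h7 := ih _ h3 h6
      have h8 := q_mul (a := 1.029) (c := 9 / 8) (by norm_num) (by norm_num) hz.le h3
      generalize (-1 / (8 * z)).im ^ (1 / 4 : ℝ) = s at *
      generalize z.im ^ (1 / 4 : ℝ) = u at *
      nlinarith [mul_nonneg hC hq0, mul_le_mul_of_nonneg_left h8 hC]
  · -- the cusp `1/2`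
    obtain ⟨w, hw1, hw2, hw3⟩ : ∃ w : ℂ, w.im = z.im ∧ Ψ z = Ψ (w + 1 / 2) ∧ ‖w‖ ^ 2 ≤ 0.028 := by
      have h1 := nsq z
      have h2 : 1 / 9 < ‖z‖ ^ 2 := by nlinarith
      have h3 : z.im ^ 2 ≤ 1 / 10000 := by nlinarith
      have h4 : 0.111 ≤ z.re ^ 2 := by
        rw [h1] at h2
        norm_num at h2 ⊢
        nlinarith
      have h6 : 0.333 ≤ |z.re| := by
        by_contra hcon
        push Not at hcon
        have h7 := abs_nonneg z.re
        have h8 := sq_abs z.re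
        nlinarith
      rcases le_or_gt 0 z.re with h5 | h5
      · refine ⟨z - 1 / 2, ?_, ?_, ?_⟩
        · simp
        · rw [sub_add_cancel]
        · rw [abs_of_nonneg h5] at h6 hx
          have e1 : (z - 1 / 2).re = z.re - 1 / 2 := by simp
          have e2 : (z - 1 / 2).im = z.im := by simp
          rw [nsq, e1, e2]
          nlinarith
      · refine ⟨z + 1 / 2, ?_, ?_, ?_⟩
        · simp
        · rw [← h.per z]
          congr 1
          ring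
        · rw [abs_of_neg h5] at h6 hx
          have e1 : (z + 1 / 2).re = z.re + 1 / 2 := by simp
          have e2 : (z + 1 / 2).im = z.im := by simp
          rw [nsq, e1, e2]
          nlinarith
    rw [hw2]
    rw [← hw1] at hz hz1 ih hq0 hq1 ⊢
    have hwn : ‖w‖ ≤ 1 := by
      by_contra hcon
      push Not at hcon
      nlinarith
    have hw0 : w ≠ 0 := by
      rintro rfl
      simp at hz
    have hnp : 0 < ‖w‖ := norm_pos_iff.2 hw0
    rcases le_or_gt (2 * ‖w‖ ^ 2) w.im with hd | hd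
    · have h1 := hdeep w hz (by linarith) hwn hd
      nlinarith [mul_nonneg hC hq0]
    · set k : ℤ := -round (-1 / (8 * w)).re with hk
      have h1 := h.par k w hz (by linarith) hwn
      have h2 := vk_inv k w hz
      set w₁ := vk k w with hw₁
      set u : ℂ := -1 / (8 * w) + k with hu
      have hure : |u.re| ≤ 1 / 2 := by
        have e1 : u.re = (-1 / (8 * w)).re - round (-1 / (8 * w)).re := by
          rw [hu, add_re, hk]
          simp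
          ring
        rw [e1]
        exact abs_sub_round _
      have huim : u.im = w.im / (8 * ‖w‖ ^ 2) := by
        rw [hu, add_im, inv_im]
        simp
      have hu0 : 0 < u.im := by
        rw [huim]
        positivity
      have hu1 : u.im < 1 / 4 := by
        rw [huim, div_lt_iff₀ (by positivity)]
        nlinarith
      have hun : ‖u‖ ^ 2 ≤ 5 / 16 := by
        rw [nsq]
        have e1 := sq_abs u.re
        have e2 := abs_nonneg u.re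
        nlinarith
      have hune : u ≠ 0 := by
        rintro h0
        rw [h0] at hu0
        simp at hu0
      have hunp : 0 < ‖u‖ := norm_pos_iff.2 hune
      have hw₁0 : w₁ ≠ 0 := by
        intro h0
        rw [h0] at h2
        simp at h2
        exact hune h2.symm
      have hw₁u : w₁ = -1 / (8 * u) := by
        rw [← h2]
        field_simp
      have hw₁im : w₁.im = w.im / (64 * ‖w‖ ^ 2 * ‖u‖ ^ 2) := by
        rw [hw₁u, inv_im, huim]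
        field_simp
        ring
      have h3 : 1.75 * w.im ≤ w₁.im := by
        rw [hw₁im, le_div_iff₀ (by positivity)]
        have e1 : ‖w‖ ^ 2 * ‖u‖ ^ 2 ≤ 0.028 * (5 / 16) := mul_le_mul hw3 hun (by positivity) (by norm_num)
        nlinarith
      have hw₁pos : 0 < w₁.im := by linarith
      have hs0 : 0 ≤ w₁.im / (1 + ‖w₁‖ ^ 2) := by positivity
      have hs1 : w₁.im / (1 + ‖w₁‖ ^ 2) ≤ w₁.im := by
        rw [div_le_iff₀ (by positivity)]
        nlinarith [sq_nonneg ‖w₁‖]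
      have hs2 : w₁.im / (1 + ‖w₁‖ ^ 2) ≤ 1 := by
        rw [div_le_iff₀ (by positivity)]
        have e1 : w₁.im ≤ ‖w₁‖ := (le_abs_self _).trans (Complex.abs_im_le_norm _)
        nlinarith [sq_nonneg (‖w₁‖ - 1)]
      have h4 := (abs_le.1 h1).2
      have e3 : (w₁ + 1 / 2).im = w₁.im := by simp
      have hq2 := q_le_one hs0 hs2
      have hq3 : 0 ≤ (w₁.im / (1 + ‖w₁‖ ^ 2)) ^ (1 / 4 : ℝ) := Real.rpow_nonneg hs0 _
      have hq4 : (w₁.im / (1 + ‖w₁‖ ^ 2)) ^ (1 / 4 : ℝ) ≤ w₁.im ^ (1 / 4 : ℝ) :=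
        Real.rpow_le_rpow hs0 hs1 (by norm_num)
      rcases le_or_gt (1 / 100) w₁.im with h6 | h6
      · have h7 := htop (w₁ + 1 / 2) (by rw [e3]; exact h6)
        generalize (w₁.im / (1 + ‖w₁‖ ^ 2)) ^ (1 / 4 : ℝ) = s at *
        generalize w.im ^ (1 / 4 : ℝ) = v at *
        nlinarith [mul_nonneg hC hq0, mul_nonneg hC hq3, mul_le_mul_of_nonneg_left hq2 hC,
          mul_le_mul_of_nonneg_left hq1 hC]
      · have h7 := ih (w₁ + 1 / 2) (by rw [e3]; linarith) (by rw [e3]; exact h6)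
        rw [e3] at h7
        have h8 := q_mul (a := 1.15) (c := 1.75) (by norm_num) (by norm_num) hz.le h3
        generalize (w₁.im / (1 + ‖w₁‖ ^ 2)) ^ (1 / 4 : ℝ) = s at *
        generalize w₁.im ^ (1 / 4 : ℝ) = r at *
        generalize w.im ^ (1 / 4 : ℝ) = v at *
        nlinarith [mul_nonneg hC hq0, mul_nonneg hC hq3, mul_le_mul_of_nonneg_left hq4 hC,
          mul_le_mul_of_nonneg_left h8 hC]

theorem sup8 {Ψ : ℂ → ℝ} {C : ℝ} (h : Ap8 Ψ C) : ∃ M : ℝ, ∀ z : ℂ, 0 < z.im → Ψ z ≤ M := by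
  obtain ⟨M₁, hM₁⟩ := h.top (1 / 100) (by norm_num)
  obtain ⟨M₂, hM₂⟩ := h.deep
  have hC := h.C0
  set M₀ := max M₁ M₂ with hM₀
  have htop : ∀ z : ℂ, 1 / 100 ≤ z.im → Ψ z ≤ M₀ := fun z hz => (hM₁ z hz).trans (le_max_left _ _)
  have hdeep : ∀ w : ℂ, 0 < w.im → w.im ≤ 1 / 2 → ‖w‖ ≤ 1 → 2 * ‖w‖ ^ 2 ≤ w.im → Ψ (w + 1 / 2) ≤ M₀ :=
    fun w h1 h2 h3 h4 => (hM₂ w h1 h2 h3 h4).trans (le_max_right _ _)
  have key : ∀ j : ℕ, ∀ z : ℂ, 1 / 100 * (8 / 9 : ℝ) ^ j ≤ z.im → z.im < 1 / 100 →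
      Ψ z ≤ M₀ + 40 * C * (2 - z.im ^ (1 / 4 : ℝ)) := by
    intro j
    induction j with
    | zero =>
      intro z h1 h2
      rw [pow_zero, mul_one] at h1
      linarith
    | succ j ih =>
      intro z h1 h2
      have hz : 0 < z.im := lt_of_lt_of_le (by positivity) h1
      have e1 : Ψ z = Ψ (z - (round z.re : ℤ)) := by
        rw [← h.shift (z - (round z.re : ℤ)) (round z.re)]
        congr 1
        ring
      have e2 : (z - (round z.re : ℤ)).im = z.im := by simp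
      have e3 : (z - (round z.re : ℤ)).re = z.re - round z.re := by simp
      have h3 := step h htop hdeep (z - (round z.re : ℤ)) (by rw [e3]; exact abs_sub_round _)
        (by rw [e2]; exact hz) (by rw [e2]; exact h2) (fun z' h4 h5 => by
          refine ih z' (le_trans ?_ h4) h5
          rw [e2]
          rw [pow_succ] at h1
          linarith)
      rw [e2] at h3
      rw [e1]
      exact h3
  refine ⟨M₀ + 80 * C, fun z hz => ?_⟩
  rcases le_or_gt (1 / 100) z.im with h1 | h1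
  · have := htop z h1
    linarith
  · obtain ⟨j, hj⟩ := exists_pow_lt_of_lt_one (show (0 : ℝ) < 100 * z.im by positivity) (show (8 / 9 : ℝ) < 1 by norm_num)
    have h2 := key j z (by linarith) h1
    have h3 : 0 ≤ z.im ^ (1 / 4 : ℝ) := Real.rpow_nonneg hz.le _
    nlinarith [mul_nonneg hC h3]

end H25.QE
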