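import Pool.Agent.H25.QE.Vo

/-!
# QE-VA: `Psi a` satisfies `Ap8`

`η z = (Im z)^(7/2) ‖Hf a α z‖`, `w' = -1/(8w)`;  (V1') `v_one`, (V2') `v_two` (Vo.lean).
`par` for `phi a`: `w1 = vk k w`, `w1' = w' + k` (`vk_inv`), `η(w1') = η(w')` (`Hf_norm`).  If `‖w1‖ ≤ 1/2`: (V1') at `w` and at `w1` (`Im w1 ≤ 1/2`), and
`Im w1 ≤ (5/4) Im w1/(1 + ‖w1‖²)`.  If `‖w1‖ ≥ 1/2`: (V1') at `w`, (V2') at `z = w1'` (`‖w1'‖ = 1/(8‖w1‖) ≤ 1/4`, `-1/(8 w1') = w1`), and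
`Im w1' = Im w1/(8‖w1‖²) ≤ Im w1/(1 + ‖w1‖²)`.  The same for `cj a` (`CF.conj`, `HR.conj`), add.
`deep`: `Im w' = Im w/(8‖w‖²) ≥ 1/4`, (V1'): `phi a (w + 1/2) ≤ η(w') + C`, `η(w') ≤ phi (cj a) w' + (1/8) 2^(7/2) phi (cj a) (w'/2)`, bounded by `phi_top` for
`Im ≥ 1/8`.
`inv`: `h.bound` at `z` (`im_JJ`): `|phi a z - phi (cj a) (-1/(8z))| ≤ C (Im z)^(1/4)`, and for `cj a`; add.
`nonneg`, `per`, `top`: `phi_nonneg`, `phi_per`, `phi_top` (`H11/SC/Appr.lean`).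
-/

set_option autoImplicit false

namespace H25.QE

open Complex Pool.Agent.H11.SC

private theorem im8 (w : ℂ) : (-1 / (8 * w)).im = w.im / (8 * ‖w‖ ^ 2) := by
  rw [neg_div, one_div, Complex.neg_im, Complex.inv_im, map_mul, Complex.normSq_eq_norm_sq, Complex.normSq_eq_norm_sq]
  have h1 : ((8 : ℂ) * w).im = 8 * w.im := by simp
  have h2 : ‖(8 : ℂ)‖ = 8 := by simp
  rw [h1, h2, neg_div, neg_neg]
  rcases eq_or_ne w 0 with rfl | h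
  · simp
  · have : ‖w‖ ≠ 0 := norm_ne_zero_iff.mpr h
    field_simp

private theorem norm8 (w : ℂ) : ‖-1 / (8 * w)‖ = 1 / (8 * ‖w‖) := by
  rw [norm_div, norm_neg, norm_one, norm_mul]
  simp

private theorem inv8 (w : ℂ) (hw : w ≠ 0) : -1 / (8 * (-1 / (8 * w))) = w := by
  field_simp

private theorem inv_phi {a : ℕ → ℂ} {ωm ωp : ℂ} (h : CF 8 a ωm ωp) : ∃ C : ℝ, 0 ≤ C ∧
    ∀ z : ℂ, 0 < z.im → z.im ≤ 1 → ‖z‖ ≤ 2 →
      |phi a z - phi (cj a) (-1 / (8 * z))| ≤ C * z.im ^ (1 / 4 : ℝ) := by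
  obtain ⟨C, hC0, hC⟩ := h.bound
  refine ⟨C, hC0, fun z h0 h1 h2 => ?_⟩
  have key : ∀ ω : ℂ, ‖ω‖ = 1 →
      ‖ff a z - ω * JJ 8 z * ff (cj a) (-1 / (((8 : ℝ) : ℂ) * z))‖ ≤ C * z.im ^ (-(13 / 4) : ℝ) →
      |phi a z - phi (cj a) (-1 / (8 * z))| ≤ C * z.im ^ (1 / 4 : ℝ) := by
    intro ω hω hb
    have e8 : ((8 : ℝ) : ℂ) = 8 := by norm_num
    rw [e8] at hb
    have hp : 0 < z.im ^ (7 / 2 : ℝ) := Real.rpow_pos_of_pos h0 _
    have e1 : phi (cj a) (-1 / (8 * z)) = z.im ^ (7 / 2 : ℝ) * ‖ω * JJ 8 z * ff (cj a) (-1 / (8 * z))‖ := by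
      rw [phi_eq_ff, norm_mul, norm_mul, hω, one_mul, ← mul_assoc, im_JJ z h0]
    rw [e1, phi_eq_ff, ← mul_sub, abs_mul, abs_of_pos hp]
    calc z.im ^ (7 / 2 : ℝ) * |‖ff a z‖ - ‖ω * JJ 8 z * ff (cj a) (-1 / (8 * z))‖|
        ≤ z.im ^ (7 / 2 : ℝ) * ‖ff a z - ω * JJ 8 z * ff (cj a) (-1 / (8 * z))‖ :=
          mul_le_mul_of_nonneg_left (abs_norm_sub_norm_le _ _) hp.le
      _ ≤ z.im ^ (7 / 2 : ℝ) * (C * z.im ^ (-(13 / 4) : ℝ)) := mul_le_mul_of_nonneg_left hb hp.le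
      _ = C * z.im ^ (1 / 4 : ℝ) := by
          rw [mul_left_comm, ← Real.rpow_add h0]
          norm_num
  rcases le_total z.re 0 with hx | hx
  · exact key ωm h.hm ((hC z h0 h1 h2).1 hx)
  · exact key ωp h.hp ((hC z h0 h1 h2).2.1 hx)

private theorem vk_im_pos (k : ℤ) (w : ℂ) (hw : 0 < w.im) : 0 < (vk k w).im := by
  rw [vk_im]
  apply div_pos hw
  apply pow_pos
  rw [norm_pos_iff]
  intro h
  have h2 := congrArg Complex.im h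
  simp at h2
  rcases h2 with h2 | h2
  · have hk : k = 0 := by exact_mod_cast h2
    subst hk
    simp at h
  · exact hw.ne' h2

private theorem par_phi {a : ℕ → ℂ} {α ωm ωp : ℂ} (h : CF 8 a ωm ωp) (hr : HR a α) : ∃ C : ℝ, 0 ≤ C ∧
    ∀ (k : ℤ) (w : ℂ), 0 < w.im → w.im ≤ 1 / 2 → ‖w‖ ≤ 1 →
      |phi a (w + 1 / 2) - phi a (vk k w + 1 / 2)| ≤
        C * (w.im ^ (1 / 4 : ℝ) + ((vk k w).im / (1 + ‖vk k w‖ ^ 2)) ^ (1 / 4 : ℝ)) := by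
  obtain ⟨C1, hC1, h1⟩ := v_one h hr
  obtain ⟨C2, hC2, h2⟩ := v_two h hr
  refine ⟨2 * C1 + C2, by positivity, fun k w hw0 hw1 hw => ?_⟩
  have hv0 := vk_im_pos k w hw0
  have hinv := vk_inv k w hw0
  set v := vk k w with hv
  have hvne : v ≠ 0 := by
    intro h0
    rw [h0] at hv0
    simp at hv0
  have hw' : 0 < (-1 / (8 * w)).im := by
    rw [im8]
    have : 0 < ‖w‖ := by
      rw [norm_pos_iff]
      rintro rfl
      simp at hw0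
    positivity
  -- the expansion is the same
  have hE : (-1 / (8 * v)).im ^ (7 / 2 : ℝ) * ‖Hf a α (-1 / (8 * v))‖ =
      (-1 / (8 * w)).im ^ (7 / 2 : ℝ) * ‖Hf a α (-1 / (8 * w))‖ := by
    rw [hinv, Hf_norm hr _ hw' k]
    simp
  have a1 := h1 w hw0 hw1 hw
  set E := (-1 / (8 * w)).im ^ (7 / 2 : ℝ) * ‖Hf a α (-1 / (8 * w))‖ with hEd
  have hvn : 0 < ‖v‖ := norm_pos_iff.mpr hvne
  have hX0 : 0 < v.im / (1 + ‖v‖ ^ 2) := by positivity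
  set X := v.im / (1 + ‖v‖ ^ 2) with hX
  have hXp : 0 ≤ X ^ (1 / 4 : ℝ) := Real.rpow_nonneg hX0.le _
  have hwp : 0 ≤ w.im ^ (1 / 4 : ℝ) := Real.rpow_nonneg hw0.le _
  rcases le_total ‖v‖ (1 / 2) with hc | hc
  · have hvim : v.im ≤ 1 / 2 := ((le_abs_self _).trans (Complex.abs_im_le_norm v)).trans hc
    have a2 := h1 v hv0 hvim (by linarith)
    rw [hE] at a2
    have b1 : v.im ≤ (2 : ℝ) ^ 4 * X := by
      rw [hX, ← mul_div_assoc, le_div_iff₀ (by positivity)]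
      have : ‖v‖ ^ 2 ≤ 1 := by nlinarith
      nlinarith
    have b2 : v.im ^ (1 / 4 : ℝ) ≤ 2 * X ^ (1 / 4 : ℝ) := by
      calc v.im ^ (1 / 4 : ℝ) ≤ ((2 : ℝ) ^ 4 * X) ^ (1 / 4 : ℝ) := Real.rpow_le_rpow hv0.le b1 (by norm_num)
        _ = 2 * X ^ (1 / 4 : ℝ) := by
            rw [Real.mul_rpow (by norm_num) hX0.le, ← Real.rpow_natCast, ← Real.rpow_mul (by norm_num)]
            norm_num
    have b3 : |phi a (w + 1 / 2) - phi a (v + 1 / 2)| ≤ C1 * w.im ^ (1 / 4 : ℝ) + C1 * v.im ^ (1 / 4 : ℝ) := by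
      have := abs_sub_le (phi a (w + 1 / 2)) E (phi a (v + 1 / 2))
      rw [abs_sub_comm E] at this
      linarith
    have b4 := mul_le_mul_of_nonneg_left b2 hC1
    nlinarith [mul_nonneg hC1 hwp, mul_nonneg hC2 hwp, mul_nonneg hC2 hXp, mul_nonneg hC1 hXp]
  · have z0 : 0 < (-1 / (8 * v)).im := by
      rw [im8]
      positivity
    have z1 : ‖-1 / (8 * v)‖ ≤ 1 / 4 := by
      rw [norm8, div_le_iff₀ (by positivity)]
      linarith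
    have z2 : (-1 / (8 * v)).im ≤ 1 := by
      have := (le_abs_self _).trans (Complex.abs_im_le_norm (-1 / (8 * v)))
      linarith
    have a2 := h2 (-1 / (8 * v)) z0 z2 (by linarith)
    rw [hE, inv8 v hvne] at a2
    have b1 : (-1 / (8 * v)).im ≤ X := by
      rw [im8, hX]
      apply div_le_div_of_nonneg_left hv0.le (by positivity)
      nlinarith
    have b2 : (-1 / (8 * v)).im ^ (1 / 4 : ℝ) ≤ X ^ (1 / 4 : ℝ) := Real.rpow_le_rpow z0.le b1 (by norm_num)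
    have b3 : |phi a (w + 1 / 2) - phi a (v + 1 / 2)| ≤ C1 * w.im ^ (1 / 4 : ℝ) + C2 * (-1 / (8 * v)).im ^ (1 / 4 : ℝ) := by
      have := abs_sub_le (phi a (w + 1 / 2)) E (phi a (v + 1 / 2))
      linarith
    have b4 := mul_le_mul_of_nonneg_left b2 hC2
    nlinarith [mul_nonneg hC1 hwp, mul_nonneg hC2 hwp, mul_nonneg hC2 hXp, mul_nonneg hC1 hXp]

private theorem deep_phi {a : ℕ → ℂ} {α ωm ωp : ℂ} (h : CF 8 a ωm ωp) (hr : HR a α) (ham : Ram a) : ∃ M : ℝ,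
    ∀ w : ℂ, 0 < w.im → w.im ≤ 1 / 2 → ‖w‖ ≤ 1 → 2 * ‖w‖ ^ 2 ≤ w.im → phi a (w + 1 / 2) ≤ M := by
  obtain ⟨C1, hC1, h1⟩ := v_one h hr
  obtain ⟨M, hM⟩ := phi_top (cj a) ham.cj.one (1 / 8) (by norm_num)
  refine ⟨C1 + M + 1 / 8 * (2 : ℝ) ^ (7 / 2 : ℝ) * M, fun w hw0 hw1 hw hd => ?_⟩
  have a1 := h1 w hw0 hw1 hw
  have hwn : 0 < ‖w‖ := by
    rw [norm_pos_iff]
    rintro rfl
    simp at hw0
  have c1 : 1 / 4 ≤ (-1 / (8 * w)).im := by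
    rw [im8, le_div_iff₀ (by positivity)]
    linarith
  set y := -1 / (8 * w) with hy
  have hy0 : 0 < y.im := by linarith
  have c2 : y.im ^ (7 / 2 : ℝ) * ‖Hf a α y‖ ≤ phi (cj a) y + 1 / 8 * (2 : ℝ) ^ (7 / 2 : ℝ) * phi (cj a) (y / 2) := by
    have d0 : 0 ≤ y.im ^ (7 / 2 : ℝ) := Real.rpow_nonneg hy0.le _
    have d1 : (y / 2).im = y.im / 2 := by
      rw [Complex.div_ofNat_im]
    have d2 : y.im ^ (7 / 2 : ℝ) = (2 : ℝ) ^ (7 / 2 : ℝ) * (y.im / 2) ^ (7 / 2 : ℝ) := by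
      rw [← Real.mul_rpow (by norm_num) (by positivity)]
      congr 1
      ring
    rw [phi_eq_ff, phi_eq_ff, d1]
    have d3 : ‖Hf a α y‖ ≤ ‖ff (cj a) y‖ + 1 / 8 * ‖ff (cj a) (y / 2)‖ := by
      unfold Hf
      refine (norm_add_le _ _).trans ?_
      rw [norm_neg, norm_mul, norm_div, hr.one]
      simp
    calc y.im ^ (7 / 2 : ℝ) * ‖Hf a α y‖ ≤ y.im ^ (7 / 2 : ℝ) * (‖ff (cj a) y‖ + 1 / 8 * ‖ff (cj a) (y / 2)‖) :=
          mul_le_mul_of_nonneg_left d3 d0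
      _ = y.im ^ (7 / 2 : ℝ) * ‖ff (cj a) y‖ + 1 / 8 * (y.im ^ (7 / 2 : ℝ)) * ‖ff (cj a) (y / 2)‖ := by ring
      _ = _ := by
          rw [d2]
          ring
  have c3 := hM y (by linarith)
  have c4 := hM (y / 2) (by rw [Complex.div_ofNat_im]; linarith)
  have c5 : w.im ^ (1 / 4 : ℝ) ≤ 1 := Real.rpow_le_one hw0.le (by linarith) (by norm_num)
  have c6 := (abs_le.mp a1).2
  have c7 : C1 * w.im ^ (1 / 4 : ℝ) ≤ C1 := by nlinarith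
  have c8 : 1 / 8 * (2 : ℝ) ^ (7 / 2 : ℝ) * phi (cj a) (y / 2) ≤ 1 / 8 * (2 : ℝ) ^ (7 / 2 : ℝ) * M :=
    mul_le_mul_of_nonneg_left c4 (by positivity)
  linarith

theorem ap8_of {a : ℕ → ℂ} {α ωm ωp : ℂ} (h : CF 8 a ωm ωp) (hr : HR a α) (ham : Ram a) : ∃ C : ℝ, Ap8 (Psi a) C := by
  obtain ⟨C1, hC1, i1⟩ := inv_phi h
  obtain ⟨C2, hC2, i2⟩ := inv_phi h.conj
  obtain ⟨C3, hC3, p1⟩ := par_phi h hr
  obtain ⟨C4, hC4, p2⟩ := par_phi h.conj hr.conj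
  obtain ⟨M1, d1⟩ := deep_phi h hr ham
  obtain ⟨M2, d2⟩ := deep_phi h.conj hr.conj ham.cj
  refine ⟨C1 + C2 + C3 + C4, by positivity, ?_, ?_, ?_, ?_, ?_, ?_⟩
  · intro z hz
    unfold Psi
    exact add_nonneg (phi_nonneg a z hz) (phi_nonneg _ z hz)
  · intro z
    unfold Psi
    rw [phi_per, phi_per]
  · intro y0 hy0
    obtain ⟨N1, hN1⟩ := phi_top a ham.one y0 hy0
    obtain ⟨N2, hN2⟩ := phi_top (cj a) ham.cj.one y0 hy0
    refine ⟨N1 + N2, fun z hz => ?_⟩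
    unfold Psi
    exact add_le_add (hN1 z hz) (hN2 z hz)
  · intro z h0 h1 h2
    have a1 := i1 z h0 h1 h2
    have a2 := i2 z h0 h1 h2
    rw [cj_cj] at a2
    have hp : 0 ≤ z.im ^ (1 / 4 : ℝ) := Real.rpow_nonneg h0.le _
    have e : Psi a z - Psi a (-1 / (8 * z)) = (phi a z - phi (cj a) (-1 / (8 * z))) + (phi (cj a) z - phi a (-1 / (8 * z))) := by
      unfold Psi
      ring
    rw [e]
    refine (abs_add_le _ _).trans ?_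
    nlinarith [mul_nonneg hC3 hp, mul_nonneg hC4 hp]
  · intro k w h0 h1 h2
    have a1 := p1 k w h0 h1 h2
    have a2 := p2 k w h0 h1 h2
    have hv0 := vk_im_pos k w h0
    have hp : 0 ≤ w.im ^ (1 / 4 : ℝ) + ((vk k w).im / (1 + ‖vk k w‖ ^ 2)) ^ (1 / 4 : ℝ) := by
      have : 0 ≤ (vk k w).im / (1 + ‖vk k w‖ ^ 2) := by positivity
      positivity
    have e : Psi a (w + 1 / 2) - Psi a (vk k w + 1 / 2) = (phi a (w + 1 / 2) - phi a (vk k w + 1 / 2)) +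
        (phi (cj a) (w + 1 / 2) - phi (cj a) (vk k w + 1 / 2)) := by
      unfold Psi
      ring
    rw [e]
    refine (abs_add_le _ _).trans ?_
    nlinarith [mul_nonneg hC1 hp, mul_nonneg hC2 hp]
  · refine ⟨M1 + M2, fun w h0 h1 h2 h3 => ?_⟩
    unfold Psi
    exact add_le_add (d1 w h0 h1 h2 h3) (d2 w h0 h1 h2 h3)

end H25.QE
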