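import Pool.Agent.H25.QE.Or
import Pool.Agent.H25.QE.Su
import Pool.Agent.H25.QE.Va
import Pool.Agent.H25.QE.Cn
import Pool.Agent.H11.SC.Final
import Pool.Agent.H11.SC4.Low1g
import Pool.Agent.H11.SC4.Final4

/-!
# QE-EG: the energy for conductor `8`

Copy `energy_core_four` (`H11/SC4/Final4.lean`) with `ap8_of` (`cfree h` gives `CF 8`, `hcond`), `sup8`, `orbit8`, `count8`, `low_energy_gen 8`.
-/

set_option autoImplicit false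

namespace H25.QE

open Complex Pool.Agent.H11.SC Pool.Agent.H11.Selberg

theorem energy8 (a : ℕ → ℂ) (F : ℂ → ℂ) (Q : ℝ) (r : ℕ) (lam : Fin r → ℝ)
    (mu : Fin r → ℂ) (ε : ℂ) (h : FEq a F Q lam mu ε) (hcond : (2 * Real.pi * Bp Q lam) ^ 2 = 8)
    (α : ℂ) (hr : HR a α) :
    ∃ c C : ℝ, 0 < c ∧ ∀ x : ℝ, 2 ≤ x →
      c * Real.log x ≤ ∑ n ∈ Finset.Icc 1 ⌊x⌋₊, ‖a n‖ ^ 2 / (n : ℝ) ∧
      ∑ n ∈ Finset.Icc 1 ⌊x⌋₊, ‖a n‖ ^ 2 / (n : ℝ) ≤ C * Real.log x := by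
  have ha : ∃ C : ℝ, ∀ n : ℕ, 1 ≤ n → ‖a n‖ ≤ C * (n : ℝ) ^ (1 : ℝ) := h.ram 1 one_pos
  obtain ⟨ωm, ωp, hcf⟩ := cfree h
  rw [hcond] at hcf
  obtain ⟨C0, hap⟩ := ap8_of hcf hr h.ram
  obtain ⟨M, hM⟩ := sup8 hap
  have hphi : ∀ z : ℂ, 0 < z.im → phi a z ≤ M := by
    intro z hz
    have h1 := hM z hz
    have h2 : 0 ≤ phi (cj a) z := by
      unfold phi
      positivity
    have h3 : Psi a z = phi a z + phi (cj a) z := rfl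
    linarith
  obtain ⟨C, hC⟩ := sum_upper a ha M hphi
  obtain ⟨v0, hv0⟩ := Psi_pos h
  obtain ⟨v, hv⟩ : ∃ v : ℝ, v = max v0 (10 ^ 4) := ⟨_, rfl⟩
  have hv1 : v0 ≤ v := by rw [hv]; exact le_max_left _ _
  have hv2 : (10 : ℝ) ^ 4 ≤ v := by rw [hv]; exact le_max_right _ _
  have hpos := hv0 v hv1
  have horb := orbit8 hap v (by linarith [show (1 : ℝ) ≤ 10 ^ 4 by norm_num]) hpos
  obtain ⟨c, Y0, hc, hY0, hlow⟩ := low_energy_gen 8 (by norm_num) a ha v hv2 hpos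
    (by exact_mod_cast horb) count8
  obtain ⟨c', hc', N0, hN0⟩ := sum_lower a C hC c Y0 hc hY0 hlow
  exact log_sums a h.one C hC c' hc' N0 hN0

end H25.QE
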