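import Pool.Agent.H25.QE.Fs
import Pool.Agent.H25.QE.Cd
import Pool.Agent.H25.QE.Alg

/-!
# QE-EU8: the Euler factor at `2` for `q = 8`

`α k = a (2^k)`, `P = conj ωp`, `R = conj ωm`.
(1) `fin_supp` (Fs.lean): `c k = 0` for large `k`.
(2) Let `D` be the largest `k` with `c k ≠ 0` (`c 0 = 1` from `hl.inv 0`).  `‖c D‖ ≤ 1` (`top_le_one`).
Put `A' j = if j < 0 then 0 else a (2^(j.toNat))` (`j : ℤ`), `T N = ∑_(k ≤ D) xs c k · A' (k + 1 - N)`,
`U N = ∑_(k ≤ D+1) ys c k · conj (A' (k - N))`.  Inverse relation for `ℤ`: `∑_(s ≤ D) c s A' (j - s) = [j = 0]` for every `j : ℤ` (`hl.inv j`, with `c s = 0`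
for `s > D` and `A' = 0` for negative argument).  (F1): `∑_s c s T(N+s) = ∑_k xs c k ∑_s c s A'(k+1-N-s) = ∑_k xs c k [k = N-1] = xs c (N-1)` (also for
`N - 1 < 0` and `N - 1 > D`, where `xs c = 0`).  (F2) the same with conjugates and `ys`.  (F4): `k + 1 - N < 0`.
(F3): let `N = r - i` with `i, r : ℕ` (`i = 0`, `r = N` for `N ≥ 0`; `r = 0`, `i = -N` for `N ≤ 0`).  `conj (XX (l2 c) α 2 (i+1) r) = T N`:
the series has only the terms `k ≤ D`, the condition `r ≤ i + 1 + k` is `0 ≤ k + 1 - N`, `conj (l2 c k)/2^k = xs c k` (`l2 c 0 = 1 - 2 = -1`).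
`XX (l4 c (a 2)) α 2 i r = U N`: terms `k ≤ D+1`, `l4 c (a 2) k/2^k = ys c k` (`a 2 = -c 1` from `hl.inv 1`; `l4 .. 0 = 2 - 2 = 0`).
`mid` with `m = 1` is (F3): `1 · 2^i/2^r/2 = 2^(-N-1)`.
`alg8` gives the assertion.
-/

set_option autoImplicit false

namespace H25.QE

open Complex Pool.Agent.H11.SC

private theorem eu_growth (a : ℕ → ℂ) (ham : Ram a) :
    ∀ ρ : ℝ, 1 < ρ → ∃ C : ℝ, ∀ k : ℕ, ‖(fun k => a (2 ^ k)) k‖ ≤ C * ρ ^ k := by
  intro ρ hρ
  have hlp : 0 < Real.log 2 := Real.log_pos (by norm_num)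
  obtain ⟨C, hC⟩ := ham (Real.log ρ / Real.log 2) (div_pos (Real.log_pos hρ) hlp)
  refine ⟨C, fun k => ?_⟩
  have h1 := hC (2 ^ k) (Nat.one_le_pow _ _ (by omega))
  have e : ((2 ^ k : ℕ) : ℝ) ^ (Real.log ρ / Real.log 2) = ρ ^ k := by
    push_cast
    rw [← Real.rpow_natCast (2 : ℝ) k, ← Real.rpow_mul (by norm_num), mul_comm,
      Real.rpow_mul (by norm_num), Real.rpow_natCast]
    congr 1
    rw [Real.rpow_def_of_pos (by norm_num), mul_div_cancel₀ _ hlp.ne', Real.exp_log (by linarith)]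
  rw [e] at h1
  exact h1

private noncomputable def eA (a : ℕ → ℂ) (j : ℤ) : ℂ := if j < 0 then 0 else a (2 ^ j.toNat)

private theorem eA_neg (a : ℕ → ℂ) (j : ℤ) (h : j < 0) : eA a j = 0 := by
  unfold eA
  rw [if_pos h]

private theorem eA_nat (a : ℕ → ℂ) (n : ℕ) : eA a n = a (2 ^ n) := by
  unfold eA
  rw [if_neg (by omega), Int.toNat_natCast]

private theorem eu_inv (a c : ℕ → ℂ)
    (hinv : ∀ k : ℕ, ∑ j ∈ Finset.range (k + 1), c j * a (2 ^ (k - j)) = if k = 0 then 1 else 0)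
    (D : ℕ) (hD : ∀ k : ℕ, D < k → c k = 0) (j : ℤ) :
    ∑ s ∈ Finset.range (D + 1), c s * eA a (j - s) = if j = 0 then 1 else 0 := by
  rcases lt_or_ge j 0 with hj | hj
  · rw [if_neg (by omega)]
    refine Finset.sum_eq_zero fun s _ => ?_
    rw [eA_neg a _ (by omega), mul_zero]
  · obtain ⟨n, rfl⟩ := Int.eq_ofNat_of_zero_le hj
    have h1 : ∑ s ∈ Finset.range (D + 1), c s * eA a ((n : ℤ) - s) =
        ∑ s ∈ Finset.range (D + n + 1), c s * eA a ((n : ℤ) - s) := by
      refine Finset.sum_subset (Finset.range_mono (by omega)) fun s _ hs => ?_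
      rw [Finset.mem_range] at hs
      rw [hD s (by omega), zero_mul]
    have h2 : ∑ s ∈ Finset.range (n + 1), c s * eA a ((n : ℤ) - s) =
        ∑ s ∈ Finset.range (D + n + 1), c s * eA a ((n : ℤ) - s) := by
      refine Finset.sum_subset (Finset.range_mono (by omega)) fun s _ hs => ?_
      rw [Finset.mem_range] at hs
      rw [eA_neg a _ (by omega), mul_zero]
    have h3 : ∑ s ∈ Finset.range (n + 1), c s * eA a ((n : ℤ) - s) =
        ∑ j ∈ Finset.range (n + 1), c j * a (2 ^ (n - j)) := by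
      refine Finset.sum_congr rfl fun s hs => ?_
      rw [Finset.mem_range] at hs
      have e : (n : ℤ) - s = ((n - s : ℕ) : ℤ) := by omega
      rw [e, eA_nat]
    rw [h1, ← h2, h3, hinv n]
    by_cases hn : n = 0
    · rw [if_pos hn, if_pos (by omega)]
    · rw [if_neg hn, if_neg (by omega)]

private theorem eu_pick (f : ℤ → ℂ) (M : ℕ) (j : ℤ) (h1 : j < 0 → f j = 0) (h2 : (M : ℤ) < j → f j = 0) :
    ∑ k ∈ Finset.range (M + 1), f k * (if (k : ℤ) = j then 1 else 0) = f j := by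
  by_cases hj : 0 ≤ j ∧ j ≤ M
  · obtain ⟨n, rfl⟩ := Int.eq_ofNat_of_zero_le hj.1
    rw [Finset.sum_eq_single n]
    · rw [if_pos rfl, mul_one]
    · intro b _ hb
      rw [if_neg (by omega), mul_zero]
    · intro hn
      rw [Finset.mem_range] at hn
      omega
  · have h3 : f j = 0 := by
      by_cases h4 : j < 0
      · exact h1 h4
      · exact h2 (by omega)
    rw [h3]
    refine Finset.sum_eq_zero fun k hk => ?_
    rw [Finset.mem_range] at hk
    rw [if_neg (by omega), mul_zero]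

private theorem eu_XT (a c : ℕ → ℂ) (h0 : c 0 = 1) (D : ℕ) (hD : ∀ k : ℕ, D < k → c k = 0) (i r : ℕ) :
    (starRingEnd ℂ) (XX (l2 c) (fun k => a (2 ^ k)) 2 (i + 1) r) =
      ∑ k ∈ Finset.range (D + 1), xs c k * eA a ((k : ℤ) + 1 - ((r : ℤ) - i)) := by
  unfold XX
  have hz : ∀ k ∉ Finset.range (D + 1), (if r ≤ i + 1 + k then
      l2 c k * (starRingEnd ℂ) (a (2 ^ (i + 1 + k - r))) * ((((2 : ℕ) : ℂ)) ^ k)⁻¹ else 0) = 0 := by
    intro k hk
    rw [Finset.mem_range] at hk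
    have : l2 c k = 0 := by
      unfold l2
      rw [if_neg (by omega), hD k (by omega)]
      ring
    rw [this]
    split_ifs
    · ring
    · rfl
  rw [tsum_eq_sum hz, map_sum]
  refine Finset.sum_congr rfl fun k _ => ?_
  have hx : xs c k = (starRingEnd ℂ) (l2 c k) * (2 ^ k)⁻¹ := by
    have hc2 : (starRingEnd ℂ) 2 = 2 := Complex.conj_ofNat 2
    unfold xs l2
    rcases Nat.eq_zero_or_pos k with hk | hk
    · rw [hk, h0]
      simp only [map_sub, map_mul, hc2]
      norm_num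
    · rw [if_neg (by omega), if_neg (by omega), if_neg (by omega), Int.toNat_natCast, map_sub, map_mul,
        hc2, map_zero, div_eq_mul_inv]
      ring
  by_cases h : r ≤ i + 1 + k
  · have e : (k : ℤ) + 1 - ((r : ℤ) - i) = ((i + 1 + k - r : ℕ) : ℤ) := by omega
    rw [if_pos h, e, eA_nat, hx]
    simp only [map_mul, Complex.conj_conj, map_inv₀, map_pow, Complex.conj_natCast]
    push_cast
    ring
  · rw [if_neg h, eA_neg a _ (by omega)]
    simp

private theorem eu_XU (a c : ℕ → ℂ) (h0 : c 0 = 1) (h2 : a 2 = -c 1) (D : ℕ)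
    (hD : ∀ k : ℕ, D < k → c k = 0) (i r : ℕ) :
    XX (l4 c (a 2)) (fun k => a (2 ^ k)) 2 i r =
      ∑ k ∈ Finset.range (D + 2), ys c k * (starRingEnd ℂ) (eA a ((k : ℤ) - ((r : ℤ) - i))) := by
  unfold XX
  have hz : ∀ k ∉ Finset.range (D + 2), (if r ≤ i + k then
      l4 c (a 2) k * (starRingEnd ℂ) (a (2 ^ (i + k - r))) * ((((2 : ℕ) : ℂ)) ^ k)⁻¹ else 0) = 0 := by
    intro k hk
    rw [Finset.mem_range] at hk
    have : l4 c (a 2) k = 0 := by
      unfold l4
      rw [if_neg (by omega), if_neg (by omega), hD k (by omega), hD (k - 1) (by omega)]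
      ring
    rw [this]
    split_ifs
    · ring
    · rfl
  rw [tsum_eq_sum hz]
  refine Finset.sum_congr rfl fun k _ => ?_
  have hx : ys c k = l4 c (a 2) k * (2 ^ k)⁻¹ := by
    unfold ys l4
    rcases Nat.eq_zero_or_pos k with hk | hk
    · rw [hk, h0]
      simp
    · rw [if_neg (by omega), if_neg (by omega), if_neg (by omega), Int.toNat_natCast, h2,
        div_eq_mul_inv]
      ring
  by_cases h : r ≤ i + k
  · have e : (k : ℤ) - ((r : ℤ) - i) = ((i + k - r : ℕ) : ℤ) := by omega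
    rw [if_pos h, e, eA_nat, hx]
    push_cast
    ring
  · rw [if_neg h, eA_neg a _ (by omega)]
    simp

private theorem eu_mu (P R : ℂ) (i r : ℕ) : mu8 P R ((r : ℤ) - i) =
    I / ((Real.sqrt 2 : ℝ) : ℂ) * (P * ee (((1 : ℕ) : ℂ) * 2 ^ i / 2 ^ r / 2) -
      R * ee (-(((1 : ℕ) : ℂ) * 2 ^ i / 2 ^ r / 2))) := by
  have e : (2 : ℂ) ^ (-((r : ℤ) - i) - 1) = ((1 : ℕ) : ℂ) * 2 ^ i / 2 ^ r / 2 := by
    have h2 : (2 : ℂ) ≠ 0 := two_ne_zero
    have e1 : -((r : ℤ) - i) - 1 = (i : ℤ) - r - 1 := by ring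
    rw [e1, zpow_sub₀ h2, zpow_sub₀ h2, zpow_natCast, zpow_natCast, zpow_one, Nat.cast_one, one_mul]
  unfold mu8
  rw [e]

theorem euler8 {a c : ℕ → ℂ} {ωm ωp : ℂ} (hl : Loc2 a c) (h : CStep 8 a ωm ωp) (ham : Ram a) :
    (∀ k : ℕ, 1 ≤ k → c k = 0) ∨ ((∀ k : ℕ, 2 ≤ k → c k = 0) ∧ ‖c 1‖ = 1) := by
  classical
  obtain ⟨K, hK⟩ := fin_supp hl h ham
  have h0 : c 0 = 1 := by
    have := hl.inv 0
    simpa [hl.one] using this
  have h2 : a 2 = -c 1 := by
    have := hl.inv 1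
    rw [Finset.sum_range_succ, Finset.sum_range_one, if_neg one_ne_zero, h0] at this
    norm_num [hl.one] at this
    linear_combination this
  obtain ⟨D, hDne, hD⟩ : ∃ D : ℕ, c D ≠ 0 ∧ ∀ k : ℕ, D < k → c k = 0 := by
    refine ⟨Nat.findGreatest (fun k => c k ≠ 0) K, ?_, ?_⟩
    · exact Nat.findGreatest_spec (P := fun k => c k ≠ 0) (Nat.zero_le K) (by rw [h0]; exact one_ne_zero)
    · intro k hk
      by_cases hkK : k ≤ K
      · by_contra hne
        exact Nat.findGreatest_is_greatest hk hkK hne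
      · exact hK k (by omega)
  have hD1 : ‖c D‖ ≤ 1 := top_le_one c (fun k => a (2 ^ k)) hl.inv D hD (eu_growth a ham) h0
  have hinv := eu_inv a c hl.inv D hD
  have halg := alg8 c D h0 hD hDne hD1 ((starRingEnd ℂ) ωp) ((starRingEnd ℂ) ωm)
    (by rw [RCLike.norm_conj, h.hp]) (by rw [RCLike.norm_conj, h.hm])
    (fun N => ∑ k ∈ Finset.range (D + 1), xs c k * eA a ((k : ℤ) + 1 - N))
    (fun N => ∑ k ∈ Finset.range (D + 2), ys c k * (starRingEnd ℂ) (eA a ((k : ℤ) - N)))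
    ?_ ?_ ?_ ?_
  · rcases halg with hD0 | ⟨hD0, hc1⟩
    · left
      intro k hk
      exact hD k (by omega)
    · right
      exact ⟨fun k hk => hD k (by omega), hc1⟩
  · intro N
    simp only [Finset.mul_sum]
    rw [Finset.sum_comm]
    have h3 : ∀ k ∈ Finset.range (D + 1), ∑ s ∈ Finset.range (D + 1),
        c s * (xs c k * eA a ((k : ℤ) + 1 - (N + s))) = xs c k * (if (k : ℤ) = N - 1 then 1 else 0) := by
      intro k _
      have h4 := hinv ((k : ℤ) + 1 - N)
      have e : (if (k : ℤ) + 1 - N = 0 then (1 : ℂ) else 0) = if (k : ℤ) = N - 1 then 1 else 0 := by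
        by_cases hk : (k : ℤ) = N - 1
        · rw [if_pos hk, if_pos (by omega)]
        · rw [if_neg hk, if_neg (by omega)]
      rw [e] at h4
      rw [← h4, Finset.mul_sum]
      refine Finset.sum_congr rfl fun s _ => ?_
      have e2 : (k : ℤ) + 1 - (N + s) = (k : ℤ) + 1 - N - s := by ring
      rw [e2]
      ring
    rw [Finset.sum_congr rfl h3]
    refine eu_pick (xs c) D (N - 1) ?_ ?_
    · intro hN
      unfold xs
      rw [if_pos hN]
    · intro hN
      unfold xs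
      rw [if_neg (by omega), if_neg (by omega), hD _ (by omega)]
      simp
  · intro N
    simp only [Finset.mul_sum]
    rw [Finset.sum_comm]
    have h3 : ∀ k ∈ Finset.range (D + 2), ∑ s ∈ Finset.range (D + 1),
        (starRingEnd ℂ) (c s) * (ys c k * (starRingEnd ℂ) (eA a ((k : ℤ) - (N + s)))) =
        ys c k * (if (k : ℤ) = N then 1 else 0) := by
      intro k _
      have h4 := congrArg (starRingEnd ℂ) (hinv ((k : ℤ) - N))
      have e : (starRingEnd ℂ) (if (k : ℤ) - N = 0 then (1 : ℂ) else 0) = if (k : ℤ) = N then 1 else 0 := by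
        by_cases hk : (k : ℤ) = N
        · rw [if_pos hk, if_pos (by omega), map_one]
        · rw [if_neg hk, if_neg (by omega), map_zero]
      rw [e, map_sum] at h4
      rw [← h4, Finset.mul_sum]
      refine Finset.sum_congr rfl fun s _ => ?_
      have e2 : (k : ℤ) - (N + s) = (k : ℤ) - N - s := by ring
      rw [e2, map_mul]
      ring
    rw [Finset.sum_congr rfl h3]
    refine eu_pick (ys c) (D + 1) N ?_ ?_
    · intro hN
      unfold ys
      rw [if_pos (by omega)]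
    · intro hN
      push_cast at hN
      unfold ys
      rw [if_neg (by omega), hD N.toNat (by omega), hD (N.toNat - 1) (by omega)]
      simp
  · intro N
    obtain ⟨i, r, hir⟩ : ∃ i r : ℕ, N = (r : ℤ) - i := by
      rcases le_or_gt 0 N with hN | hN
      · exact ⟨0, N.toNat, by omega⟩
      · exact ⟨(-N).toNat, 0, by omega⟩
    rw [hir]
    have h3 := mid hl h ham 1 odd_one i r
    rw [hl.one, mul_one, map_one, one_mul, eu_XT a c h0 D hD i r, eu_XU a c h0 h2 D hD i r] at h3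
    rw [eu_mu]
    exact h3
  · intro N hN
    refine Finset.sum_eq_zero fun k hk => ?_
    rw [Finset.mem_range] at hk
    rw [eA_neg a _ (by omega), mul_zero]

end H25.QE
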