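import Pool.Agent.H25.QE.Eg
import Pool.Agent.H25.QE.Eu8
import Pool.Agent.H11.SC4.Norm2
import Pool.Agent.H80.Sel.MainX

/-!
# QE-EN: the formula for entire functions of conductor `8`

`conductor_eight`: `normalise2` (see `conductor_four`), `cfree` (`CF 8`, `cond_eq`), `loc6_exists`, `Loc6.twist`, `Loc2.of_loc6`, `euler8`.
Case `c k = 0` for `k ≥ 1`: `a' (2^k) = 0` for `k ≥ 1` (`inv`, induction), so `a (2^k) = 0` (`a' n = a n n^(-iδ)`), so `a n = 0` for even `n` (multiplicativity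
of `a`, `Loc6.mul`), and `mainX` with `m = 2` (`Cases`: `8 < 4 · 2²`).  Case `‖c 1‖ = 1`: `hr_of`, `energy8`, and the end of the proof of `conductor_four`.
-/

set_option autoImplicit false

namespace H25.QE

open Complex Pool.Agent.H11.SC Pool.Agent.H11.Selberg

private theorem sel_zero {a : ℕ → ℂ} {F : ℂ → ℂ} (h : IsSelberg a F) :
    IsSelberg (fun n => if n = 0 then 0 else a n) F where
  one := by
    show (if (1 : ℕ) = 0 then (0 : ℂ) else a 1) = 1
    rw [if_neg one_ne_zero, h.one]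
  summable s hs := by
    refine (LSeriesSummable_congr s (fun {n} hn => ?_)).1 (h.summable s hs)
    show a n = if n = 0 then 0 else a n
    rw [if_neg hn]
  eq_LSeries s hs := by
    rw [h.eq_LSeries s hs]
    refine LSeries_congr (fun {n} hn => ?_) s
    show a n = if n = 0 then 0 else a n
    rw [if_neg hn]
  continuation := h.continuation
  functional := h.functional
  ramanujan e he := by
    obtain ⟨C, hC⟩ := h.ramanujan e he
    refine ⟨C, fun n hn => ?_⟩
    show ‖if n = 0 then 0 else a n‖ ≤ _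
    rw [if_neg (by omega)]
    exact hC n hn
  euler := h.euler

theorem conductor_eight (a : ℕ → ℂ) (F : ℂ → ℂ) (hS : IsSelberg a F) (G : ℂ → ℂ)
    (hG : Differentiable ℂ G) (hGF : ∀ s, s ≠ 1 → G s = F s)
    (Q : ℝ) (r : ℕ) (lam : Fin r → ℝ) (mu : Fin r → ℂ) (ε : ℂ)
    (hQ : 0 < Q) (hlam : ∀ j, 0 < lam j) (hmu : ∀ j, 0 ≤ (mu j).re) (hε : ‖ε‖ = 1)
    (hfe : ∀ s : ℂ, 0 < s.re → s.re < 1 →
      completed Q lam mu F s =
        ε * (starRingEnd ℂ) (completed Q lam mu F (1 - (starRingEnd ℂ) s)))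
    (hdeg : 2 * ∑ j, lam j = 2)
    (hcond : (2 * Real.pi) ^ 2 * Q ^ 2 * ∏ j, (lam j) ^ (2 * lam j) = 8) :
    ∃ C : ℝ, ∀ x : ℝ, 2 ≤ x → |S a x - Real.log (Real.log x)| ≤ C := by
  have hdeg' : ∑ j, lam j = 1 := by linarith
  have hcond0 : Pool.Agent.H14.Sel.cond Q lam = 8 := hcond
  obtain ⟨δ, F', mu', ε', h, hnorm⟩ := normalise2 a F hS G hG hGF Q r lam mu ε hQ hlam hmu hε hfe hdeg'
  rw [cond_eq Q r lam hlam] at hcond
  obtain ⟨c2, c3, hl6⟩ := loc6_exists a F hS
  obtain ⟨c, c3', hl6'⟩ := hl6.twist δ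
  have hl := Loc2.of_loc6 hl6'
  obtain ⟨ωm, ωp, hcf⟩ := cfree h
  rw [hcond] at hcf
  have hc0 : c 0 = 1 := by
    have h1 := hl.inv 0
    rw [zero_add, Finset.sum_range_one, if_pos rfl, Nat.sub_zero, pow_zero, hl.one, mul_one] at h1
    exact h1
  rcases euler8 hl hcf.cstep h.ram with hE | ⟨hE2, hE1⟩
  · have h2 : ∀ k : ℕ, 1 ≤ k → a (2 ^ k) = 0 := by
      intro k hk
      have h1 := hl.inv k
      rw [Finset.sum_range_succ', if_neg (by omega), hc0, one_mul, Nat.sub_zero,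
        Finset.sum_eq_zero (fun j _ => by rw [hE (j + 1) (by omega), zero_mul]), zero_add] at h1
      have h3 := hnorm (2 ^ k) Nat.one_le_two_pow
      have h4 : a (2 ^ k) * ((2 ^ k : ℕ) : ℂ) ^ (-(δ * I) : ℂ) = 0 := h1
      rw [h4, norm_zero] at h3
      exact norm_eq_zero.1 h3.symm
    have h3 : ∀ n : ℕ, n % 2 ≠ 1 % 2 → (if n = 0 then 0 else a n) = 0 := by
      intro n hn
      by_cases hn0 : n = 0
      · rw [if_pos hn0]
      · rw [if_neg hn0]
        obtain ⟨k, m, hm, hnm⟩ := Nat.exists_eq_two_pow_mul_odd hn0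
        have hk : 1 ≤ k := by
          by_contra hcon
          have hk0 : k = 0 := by omega
          rw [hk0, pow_zero, one_mul] at hnm
          rw [hnm] at hn
          exact hn (Nat.odd_iff.1 hm)
        have hcop : Nat.Coprime (2 ^ k) m := Nat.Coprime.pow_left k (Nat.coprime_two_left.2 hm)
        rw [hnm, hl6.mul _ _ (by rw [← hnm]; exact hn0) hcop, h2 k hk, zero_mul]
    obtain ⟨C, hC⟩ := Pool.Agent.H80.Sel.mainX (fun n => if n = 0 then 0 else a n) F G Q lam mu ε (sel_zero hS) hG hGF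
      hQ hlam hmu hε hfe hdeg' 2 (by norm_num) h3 (Or.inl (by rw [hcond0]; norm_num))
    refine ⟨C, fun x hx => ?_⟩
    have h4 : S (fun n => if n = 0 then 0 else a n) x = S a x := by
      unfold S
      refine Finset.sum_congr rfl fun p hp => ?_
      have h5 := (Finset.mem_filter.1 hp).2.ne_zero
      show ‖if p = 0 then 0 else a p‖ ^ 2 / _ = _
      rw [if_neg h5]
    rw [← h4]
    exact hC x hx
  · have hr := hr_of hl (Ram.one h.ram) hE2 hE1
    have hcore := energy8 _ F' Q r lam mu' ε' h hcond _ hr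
    obtain ⟨b, θ, Cb, hb⟩ := hS.euler
    have hT := equivalence a F b 1 hS ⟨θ, Cb, hb⟩ zero_le_one
    have h12 := hT.out 0 1
    have hgoal : ∃ C : ℝ, ∀ x : ℝ, 2 ≤ x → |S a x - 1 * Real.log (Real.log x)| ≤ C := by
      rw [h12]
      obtain ⟨c, C, hc, hx⟩ := hcore
      refine ⟨c, C, hc, fun x h2 => ?_⟩
      have hsum : ∑ n ∈ Finset.Icc 1 ⌊x⌋₊, ‖a n‖ ^ 2 / (n : ℝ) =
          ∑ n ∈ Finset.Icc 1 ⌊x⌋₊, ‖a n * (n : ℂ) ^ (-(δ * I) : ℂ)‖ ^ 2 / (n : ℝ) := by
        refine Finset.sum_congr rfl fun n hn => ?_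
        rw [hnorm n (Finset.mem_Icc.mp hn).1]
      rw [hsum, Real.rpow_one]
      exact hx x h2
    simpa using hgoal

end H25.QE
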