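import Pool.Agent.H25.QE.En
import Pool.Agent.H11.SC6.Final7

/-!
# QE-FIN: every pole-free element of degree `2` and integer conductor at most `8`
-/

set_option autoImplicit false

namespace H25.QE

open Complex Pool.Agent.H11.Selberg

/-- the case without a pole, `N ≤ 8` -/
theorem entire_eight (a : ℕ → ℂ) (F G : ℂ → ℂ) (hS : IsSelberg a F)
    (hG : Differentiable ℂ G) (hGF : ∀ s, s ≠ 1 → G s = F s)
    (Q : ℝ) (r : ℕ) (lam : Fin r → ℝ) (mu : Fin r → ℂ) (ε : ℂ)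
    (hQ : 0 < Q) (hlam : ∀ j, 0 < lam j) (hmu : ∀ j, 0 ≤ (mu j).re) (hε : ‖ε‖ = 1)
    (hfe : ∀ s : ℂ, 0 < s.re → s.re < 1 →
      completed Q lam mu F s =
        ε * (starRingEnd ℂ) (completed Q lam mu F (1 - (starRingEnd ℂ) s)))
    (hdeg : 2 * ∑ j, lam j = 2) (N : ℕ) (hN : N ≤ 8)
    (hcond : (2 * Real.pi) ^ 2 * Q ^ 2 * ∏ j, (lam j) ^ (2 * lam j) = N) :
    ∃ C : ℝ, ∀ x : ℝ, 2 ≤ x → |S a x - Real.log (Real.log x)| ≤ C := by
  rcases Nat.lt_or_ge N 8 with h | h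
  · exact Pool.Agent.H11.SC6.entire_seven a F G hS hG hGF Q r lam mu ε hQ hlam hmu hε hfe hdeg N
      (by omega) hcond
  · obtain rfl : N = 8 := by omega
    exact conductor_eight a F hS G hG hGF Q r lam mu ε hQ hlam hmu hε hfe hdeg
      (by rw [hcond]; norm_num)

end H25.QE
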