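import Pool.Agent.H25.QE.Def
import Pool.Agent.H11.SC.UpB
import Pool.Agent.H11.SC.Geo

/-!
# QE-ODM: there is an odd `m > 1` with `a(m) ≠ 0`

Otherwise `a n = 0` unless `n = 2^k` (`hl.mul`: `n = 2^K m`, `m` odd), so `‖ff a z‖ ≤ ∑_k ‖a(2^k)‖ 8^k e^(-2π 2^k y) ≤ C ∑_k (2^k)^(3+ε) e^(-2π 2^k y)
≤ C' y^(-(3+2ε))` for `0 < y ≤ 1` (`n^(3+2ε) e^(-2πny) ≤ C y^(-(3+2ε))`, `∑_k (2^k)^(-ε) < ∞`), `ε = 1/8`: `≤ C' y^(-13/4)`.
Fix `x` real, `y0 = 1/10`.  For `n : ℕ` large let `z = -1/(8 (n + x + i y0))`: `Re z < 0`, `‖z‖ → 0`, `Im z = y0/(8 ((n+x)² + y0²))`, `Im z = 8 y0 ‖z‖² ≤ 100 ‖z‖²`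
(q general: `Im z = q y0 ‖z‖²`; take `y0 = 1/(10 q)`, or `y0 = min (1/10) (1/q)`), and `-1/(q z) = n + x + i y0`.  `h.bound` (left half) and
`ff (cj a) (n + x + i y0) = ff (cj a) (x + i y0)` (`ff_per`, induction) give
`‖ff (cj a) (x + i y0)‖ ≤ ‖(JJ q z)⁻¹‖ (‖ff a z‖ + C (Im z)^(-13/4)) ≤ C'' ‖z‖^7 (Im z)^(-13/4) = C''' ‖z‖^(7 - 13/2) → 0`.
So `ff (cj a) (x + i y0) = 0` for every real `x`; Parseval (`mean_sq`/`phi_parseval`, or `∫_0^1 ff (cj a) (x + i y0) ee (-(x)) dx = conj(a 1) e^(-2πy0)`,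
for instance `parseval` of `H11/SC/Pars.lean`) gives `a 1 = 0`, contradiction to `hl.one`.
-/

set_option autoImplicit false

namespace H25.QE

open Complex Pool.Agent.H11.SC Filter Topology

private theorem od_pow {a c : ℕ → ℂ} (hl : Loc2 a c) (hno : ∀ m : ℕ, Odd m → 1 < m → a m = 0)
    (n : ℕ) (hn : n ≠ 0) (h : n ∉ Set.range (fun k : ℕ => 2 ^ k)) : a n = 0 := by
  obtain ⟨K, m, hm, rfl⟩ := Nat.exists_eq_two_pow_mul_odd hn
  have hm1 : 1 < m := by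
    rcases Nat.lt_or_ge 1 m with h1 | h1
    · exact h1
    · exfalso
      have h2 : m = 1 := by
        have := hm.pos
        omega
      subst h2
      exact h ⟨K, by simp⟩
  rw [hl.mul (2 ^ K) m hn (Nat.Coprime.pow_left K (Nat.coprime_two_left.2 hm)), hno m hm hm1,
    mul_zero]

private theorem od_summable : ∃ g : ℕ → ℝ, Summable g ∧ (∀ n, 0 ≤ g n) ∧
    ∀ n ∈ Set.range (fun k : ℕ => 2 ^ k), g n = (n : ℝ) ^ (-(1 / 8) : ℝ) := by
  classical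
  refine ⟨fun n => if n ∈ Set.range (fun k : ℕ => 2 ^ k) then (n : ℝ) ^ (-(1 / 8) : ℝ) else 0,
    ?_, fun n => ?_, fun n hn => if_pos hn⟩
  · have hinj : Function.Injective (fun k : ℕ => 2 ^ k) := Nat.pow_right_injective le_rfl
    rw [← hinj.summable_iff (fun x hx => if_neg hx)]
    have h1 : ((fun n : ℕ => if n ∈ Set.range (fun k : ℕ => 2 ^ k) then
        (n : ℝ) ^ (-(1 / 8) : ℝ) else 0) ∘ fun k : ℕ => 2 ^ k) =
        fun k : ℕ => ((2 : ℝ) ^ (-(1 / 8) : ℝ)) ^ k := by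
      funext k
      change (if (2 ^ k : ℕ) ∈ Set.range (fun k : ℕ => 2 ^ k) then
        (((2 ^ k : ℕ) : ℝ)) ^ (-(1 / 8) : ℝ) else 0) = _
      rw [if_pos ⟨k, rfl⟩]
      push_cast
      rw [← Real.rpow_natCast, ← Real.rpow_natCast, ← Real.rpow_mul (by norm_num),
        ← Real.rpow_mul (by norm_num), mul_comm]
    rw [h1]
    refine summable_geometric_of_lt_one (by positivity) ?_
    exact Real.rpow_lt_one_of_one_lt_of_neg (by norm_num) (by norm_num)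
  · beta_reduce
    split_ifs
    · positivity
    · exact le_rfl

private theorem od_term (C K y : ℝ) (hC0 : 0 ≤ C) (hy : 0 < y) (n : ℕ) (hn : 1 ≤ n)
    (hKu : ∀ u : ℝ, 0 < u → u ^ (13 / 4 : ℝ) ≤ K * Real.exp (Real.pi * u)) :
    C * (n : ℝ) ^ (1 / 8 : ℝ) * (n : ℝ) ^ 3 * Real.exp (-(2 * Real.pi * n * y)) ≤
      C * K * y ^ (-(13 / 4) : ℝ) * (n : ℝ) ^ (-(1 / 8) : ℝ) := by
  have hn0 : (0 : ℝ) < n := by exact_mod_cast hn
  have hpi := Real.pi_pos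
  have h1 := hKu (n * y) (by positivity)
  have h2 : ((n : ℝ) * y) ^ (13 / 4 : ℝ) = (n : ℝ) ^ (13 / 4 : ℝ) * y ^ (13 / 4 : ℝ) :=
    Real.mul_rpow hn0.le hy.le
  have h3 : (n : ℝ) ^ (1 / 8 : ℝ) * (n : ℝ) ^ 3 =
      (n : ℝ) ^ (13 / 4 : ℝ) * (n : ℝ) ^ (-(1 / 8) : ℝ) := by
    rw [← Real.rpow_natCast, ← Real.rpow_add hn0, ← Real.rpow_add hn0]
    norm_num
  have h4 : y ^ (13 / 4 : ℝ) * y ^ (-(13 / 4) : ℝ) = 1 := by
    rw [← Real.rpow_add hy]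
    simp
  have h5 : Real.exp (Real.pi * (n * y)) * Real.exp (-(2 * Real.pi * n * y)) ≤ 1 := by
    rw [← Real.exp_add]
    apply Real.exp_le_one_iff.2
    have : 0 < Real.pi * n * y := by positivity
    nlinarith
  have hK0 : 0 ≤ K := by
    by_contra hK
    push Not at hK
    have h6 := hKu 1 one_pos
    rw [Real.one_rpow] at h6
    have h7 := mul_neg_of_neg_of_pos hK (Real.exp_pos (Real.pi * 1))
    linarith
  have hyp : 0 < y ^ (-(13 / 4) : ℝ) := Real.rpow_pos_of_pos hy _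
  have hnp : 0 < (n : ℝ) ^ (-(1 / 8) : ℝ) := Real.rpow_pos_of_pos hn0 _
  have he : 0 < Real.exp (-(2 * Real.pi * n * y)) := Real.exp_pos _
  calc C * (n : ℝ) ^ (1 / 8 : ℝ) * (n : ℝ) ^ 3 * Real.exp (-(2 * Real.pi * n * y))
      = C * ((n : ℝ) ^ (1 / 8 : ℝ) * (n : ℝ) ^ 3) * Real.exp (-(2 * Real.pi * n * y)) *
        (y ^ (13 / 4 : ℝ) * y ^ (-(13 / 4) : ℝ)) := by
        rw [h4]
        ring
    _ = C * (((n : ℝ) * y) ^ (13 / 4 : ℝ)) * y ^ (-(13 / 4) : ℝ) * (n : ℝ) ^ (-(1 / 8) : ℝ) *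
        Real.exp (-(2 * Real.pi * n * y)) := by
        rw [h2, h3]
        ring
    _ ≤ C * (K * Real.exp (Real.pi * (n * y))) * y ^ (-(13 / 4) : ℝ) *
        (n : ℝ) ^ (-(1 / 8) : ℝ) * Real.exp (-(2 * Real.pi * n * y)) := by
        gcongr
    _ = C * K * y ^ (-(13 / 4) : ℝ) * (n : ℝ) ^ (-(1 / 8) : ℝ) *
        (Real.exp (Real.pi * (n * y)) * Real.exp (-(2 * Real.pi * n * y))) := by ring
    _ ≤ C * K * y ^ (-(13 / 4) : ℝ) * (n : ℝ) ^ (-(1 / 8) : ℝ) * 1 := by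
        refine mul_le_mul_of_nonneg_left h5 (by positivity)
    _ = _ := mul_one _

private theorem od_ff {a c : ℕ → ℂ} (hl : Loc2 a c) (ham : Ram a)
    (hno : ∀ m : ℕ, Odd m → 1 < m → a m = 0) :
    ∃ C : ℝ, 0 ≤ C ∧ ∀ z : ℂ, 0 < z.im → ‖ff a z‖ ≤ C * z.im ^ (-(13 / 4) : ℝ) := by
  obtain ⟨C, hC⟩ := ham (1 / 8) (by norm_num)
  have hC0 : 0 ≤ C := by
    have h := hC 1 le_rfl
    simp only [Nat.cast_one, Real.one_rpow, mul_one] at h
    exact (norm_nonneg _).trans h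
  obtain ⟨K, hK, hKu⟩ := rpow_le_exp (13 / 4) (by norm_num)
  obtain ⟨g, hg, hg0, hgv⟩ := od_summable
  refine ⟨C * K * ∑' n, g n, mul_nonneg (mul_nonneg hC0 hK.le) (tsum_nonneg hg0),
    fun z hz => ?_⟩
  have h1 : HasSum (fun n => C * K * z.im ^ (-(13 / 4) : ℝ) * g n)
      (C * K * z.im ^ (-(13 / 4) : ℝ) * ∑' n, g n) := hg.hasSum.mul_left _
  have hyp : 0 < z.im ^ (-(13 / 4) : ℝ) := Real.rpow_pos_of_pos hz _
  have h2 : ‖ff a z‖ ≤ C * K * z.im ^ (-(13 / 4) : ℝ) * ∑' n, g n := by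
    unfold ff gs
    refine tsum_of_norm_bounded h1 fun n => ?_
    have hnn : 0 ≤ C * K * z.im ^ (-(13 / 4) : ℝ) * g n :=
      mul_nonneg (mul_nonneg (mul_nonneg hC0 hK.le) hyp.le) (hg0 n)
    rcases Nat.eq_zero_or_pos n with h0 | hn
    · subst h0
      simpa using hnn
    · by_cases hr : n ∈ Set.range (fun k : ℕ => 2 ^ k)
      · rw [norm_mul, norm_mul, norm_pow, norm_cexp_gs, Complex.norm_natCast, hgv n hr]
        have hre : (-(I * z)).re = z.im := by simp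
        rw [hre]
        refine le_trans ?_ (od_term C K z.im hC0 hz n hn hKu)
        have h3 := hC n hn
        gcongr
      · rw [od_pow hl hno n hn.ne' hr, zero_mul, zero_mul, norm_zero]
        exact hnn
  calc ‖ff a z‖ ≤ C * K * z.im ^ (-(13 / 4) : ℝ) * ∑' n, g n := h2
    _ = _ := by ring

private theorem od_per (a : ℕ → ℂ) (w : ℂ) (n : ℕ) : ff a ((n : ℂ) + w) = ff a w := by
  induction n with
  | zero => simp
  | succ n ih =>
    have h1 : ((n + 1 : ℕ) : ℂ) + w = ((n : ℂ) + w) + 1 := by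
      push_cast
      ring
    rw [h1, ff_per, ih]

private theorem od_ineq {q : ℝ} {a : ℕ → ℂ} {ωm ωp : ℂ} (hq : 0 < q) (h : CStep q a ωm ωp)
    (C C1 : ℝ) (z w : ℂ) (hz : 0 < z.im) (hzi : z.im = ‖z‖ ^ 2)
    (hC : ‖ff a z - ωm * JJ q z * ff (cj a) w‖ ≤ C * z.im ^ (-(13 / 4) : ℝ))
    (hC1 : ‖ff a z‖ ≤ C1 * z.im ^ (-(13 / 4) : ℝ)) :
    ‖ff (cj a) w‖ ≤ (Real.sqrt q) ^ 7 * (C1 + C) * ‖z‖ ^ (1 / 2 : ℝ) := by
  have hr0 : 0 < ‖z‖ := by
    rw [norm_pos_iff]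
    rintro rfl
    simp at hz
  have hsq : 0 < Real.sqrt q := Real.sqrt_pos.2 hq
  have hJ : ‖JJ q z‖ = ((Real.sqrt q * ‖z‖) ^ 7)⁻¹ := by
    unfold JJ
    rw [norm_inv, norm_pow, norm_mul, norm_neg, norm_mul, Complex.norm_I, one_mul,
      Complex.norm_real, Real.norm_eq_abs, abs_of_nonneg (Real.sqrt_nonneg q)]
  have h1 : ‖ωm * JJ q z * ff (cj a) w‖ ≤ (C1 + C) * z.im ^ (-(13 / 4) : ℝ) := by
    have h2 : ‖ωm * JJ q z * ff (cj a) w‖ ≤ ‖ff a z‖ + ‖ff a z - ωm * JJ q z * ff (cj a) w‖ := by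
      have h3 := norm_sub_le (ff a z) (ff a z - ωm * JJ q z * ff (cj a) w)
      rwa [sub_sub_cancel] at h3
    linarith
  rw [norm_mul, norm_mul, h.hm, one_mul, hJ, inv_mul_le_iff₀ (by positivity)] at h1
  refine h1.trans (le_of_eq ?_)
  rw [hzi]
  have h4 : (‖z‖ ^ 2) ^ (-(13 / 4) : ℝ) = ‖z‖ ^ (-(13 / 2) : ℝ) := by
    rw [← Real.rpow_natCast, ← Real.rpow_mul hr0.le]
    norm_num
  have h5 : ‖z‖ ^ 7 * ‖z‖ ^ (-(13 / 2) : ℝ) = ‖z‖ ^ (1 / 2 : ℝ) := by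
    rw [← Real.rpow_natCast, ← Real.rpow_add hr0]
    norm_num
  rw [h4, mul_pow, ← h5]
  ring

private theorem od_zero {q : ℝ} {a : ℕ → ℂ} {ωm ωp : ℂ} (hq : 0 < q) (h : CStep q a ωm ωp)
    (hb : ∃ C : ℝ, 0 ≤ C ∧ ∀ z : ℂ, 0 < z.im → ‖ff a z‖ ≤ C * z.im ^ (-(13 / 4) : ℝ)) (x : ℝ) :
    ff (cj a) ((x : ℂ) + ((1 / q : ℝ) : ℂ) * I) = 0 := by
  obtain ⟨C1, hC10, hC1⟩ := hb
  obtain ⟨C, hC⟩ := h.bound
  obtain ⟨w0, hw0⟩ : ∃ w0 : ℂ, w0 = (x : ℂ) + ((1 / q : ℝ) : ℂ) * I := ⟨_, rfl⟩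
  rw [← hw0]
  have hqc : (q : ℂ) ≠ 0 := by exact_mod_cast hq.ne'
  have hw0i : w0.im = 1 / q := by
    rw [hw0]
    simp
  have hw0r : w0.re = x := by
    rw [hw0]
    simp
  -- the points
  have hwn : ∀ n : ℕ, ((n : ℂ) + w0).im = 1 / q ∧ ((n : ℂ) + w0).re = n + x := fun n => by
    rw [Complex.add_im, Complex.add_re, hw0i, hw0r]
    simp
  have hwne : ∀ n : ℕ, (n : ℂ) + w0 ≠ 0 := fun n hn => by
    have h1 := (hwn n).1
    rw [hn] at h1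
    have h2 : 0 < 1 / q := by positivity
    simp only [zero_im] at h1
    linarith
  have hlow : ∀ n : ℕ, (n : ℝ) + x ≤ ‖(n : ℂ) + w0‖ := fun n => by
    have h1 := Complex.abs_re_le_norm ((n : ℂ) + w0)
    rw [(hwn n).2] at h1
    exact (le_abs_self _).trans h1
  have htop : Tendsto (fun n : ℕ => ‖(n : ℂ) + w0‖) atTop atTop := by
    refine tendsto_atTop_mono hlow ?_
    exact tendsto_atTop_add_const_right _ _ tendsto_natCast_atTop_atTop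
  have hzn : ∀ n : ℕ, ‖-1 / ((q : ℂ) * ((n : ℂ) + w0))‖ = 1 / (q * ‖(n : ℂ) + w0‖) := fun n => by
    rw [norm_div, norm_neg, norm_one, norm_mul, Complex.norm_real, Real.norm_eq_abs,
      abs_of_pos hq]
  have hz0 : Tendsto (fun n : ℕ => ‖-1 / ((q : ℂ) * ((n : ℂ) + w0))‖) atTop (𝓝 0) := by
    have h1 : Tendsto (fun n : ℕ => (q * ‖(n : ℂ) + w0‖)⁻¹) atTop (𝓝 0) :=
      (htop.const_mul_atTop hq).inv_tendsto_atTop
    refine h1.congr fun n => ?_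
    rw [hzn, one_div]
  have hlim : Tendsto (fun n : ℕ => (Real.sqrt q) ^ 7 * (C1 + C) *
      ‖-1 / ((q : ℂ) * ((n : ℂ) + w0))‖ ^ (1 / 2 : ℝ)) atTop (𝓝 0) := by
    have h1 := hz0.rpow_const (p := (1 / 2 : ℝ)) (Or.inr (by norm_num))
    rw [Real.zero_rpow (by norm_num)] at h1
    have h2 := h1.const_mul ((Real.sqrt q) ^ 7 * (C1 + C))
    rwa [mul_zero] at h2
  have hle : ‖ff (cj a) w0‖ ≤ 0 := by
    refine ge_of_tendsto hlim ?_
    filter_upwards [hz0.eventually_lt_const (show (0 : ℝ) < 1 by norm_num),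
      (tendsto_natCast_atTop_atTop (R := ℝ)).eventually_ge_atTop (-x)] with n h1 h2
    set w : ℂ := (n : ℂ) + w0 with hw
    have hper : ff (cj a) w0 = ff (cj a) w := (od_per (cj a) w0 n).symm
    rw [hper]
    have hwi := (hwn n).1
    have hwr := (hwn n).2
    rw [← hw] at hwi hwr
    have hw0' : w ≠ 0 := hwne n
    have hnw : 0 < ‖w‖ := norm_pos_iff.2 hw0'
    set z : ℂ := -1 / ((q : ℂ) * w) with hz
    have hzw : ‖z‖ = 1 / (q * ‖w‖) := hzn n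
    have hzi : z.im = ‖z‖ ^ 2 := by
      rw [hzw, hz, geo_im, hwi, Complex.normSq_eq_norm_sq]
      field_simp
    have hzr : z.re ≤ 0 := by
      rw [hz, geo_re, hwr]
      have h3 : 0 ≤ (n : ℝ) + x := by linarith
      have h4 : 0 ≤ q * normSq w := mul_nonneg hq.le (normSq_nonneg _)
      exact div_nonpos_of_nonpos_of_nonneg (by linarith) h4
    have hzp : 0 < ‖z‖ := by
      rw [hzw]
      positivity
    have hzip : 0 < z.im := by
      rw [hzi]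
      positivity
    have hinv : -1 / ((q : ℂ) * z) = w := by
      rw [hz]
      field_simp
    have h5 := (hC z hzip (by rw [hzi]; nlinarith) (by linarith) (by rw [hzi]; nlinarith)).1 hzr
    rw [hinv] at h5
    exact od_ineq hq h C C1 z w hzip hzi h5 (hC1 z hzip)
  exact norm_le_zero_iff.1 hle

private theorem od_sq (a : ℕ → ℂ)
    (ha : ∃ C : ℝ, ∀ n : ℕ, 1 ≤ n → ‖a n‖ ≤ C * (n : ℝ) ^ (1 : ℝ)) (y : ℝ) (hy : 0 < y) :
    Summable (fun n : ℕ => ‖a n‖ ^ 2 * (n : ℝ) ^ 6 * Real.exp (-(4 * Real.pi * n * y))) := by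
  obtain ⟨C, hC⟩ := ha
  have h := (Real.summable_pow_mul_exp_neg_nat_mul 8 (r := 4 * Real.pi * y)
    (by positivity)).mul_left (C ^ 2)
  refine Summable.of_nonneg_of_le (fun n => by positivity) (fun n => ?_) h
  rcases Nat.eq_zero_or_pos n with h0 | h0
  · subst h0
    simp
  · have h1 := hC n h0
    rw [Real.rpow_one] at h1
    have h2 : Real.exp (-(4 * Real.pi * n * y)) = Real.exp (-(4 * Real.pi * y) * n) := by
      congr 1
      ring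
    have h3 : ‖a n‖ ^ 2 ≤ (C * n) ^ 2 := pow_le_pow_left₀ (norm_nonneg _) h1 2
    rw [h2]
    calc ‖a n‖ ^ 2 * (n : ℝ) ^ 6 * Real.exp (-(4 * Real.pi * y) * n)
        ≤ (C * n) ^ 2 * (n : ℝ) ^ 6 * Real.exp (-(4 * Real.pi * y) * n) := by
          refine mul_le_mul_of_nonneg_right ?_ (Real.exp_pos _).le
          exact mul_le_mul_of_nonneg_right h3 (by positivity)
      _ = C ^ 2 * ((n : ℝ) ^ 8 * Real.exp (-(4 * Real.pi * y) * n)) := by ring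

theorem exists_odd {q : ℝ} {a c : ℕ → ℂ} {ωm ωp : ℂ} (hq : 0 < q) (hl : Loc2 a c) (h : CStep q a ωm ωp) (ham : Ram a) :
    ∃ m : ℕ, Odd m ∧ 1 < m ∧ a m ≠ 0 := by
  by_contra hcon
  have hno : ∀ m : ℕ, Odd m → 1 < m → a m = 0 := by
    intro m h1 h2
    by_contra h3
    exact hcon ⟨m, h1, h2, h3⟩
  have hz := od_zero hq h (od_ff hl ham hno)
  have hy : 0 < 1 / q := by positivity
  have hp := phi_parseval (cj a) ham.cj.one (1 / q) hy
  have h0 : ∀ x : ℝ, phi (cj a) ((x : ℂ) + ((1 / q : ℝ) : ℂ) * I) ^ 2 = 0 := fun x => by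
    rw [phi_eq_ff, hz x]
    simp
  simp only [h0] at hp
  rw [intervalIntegral.integral_zero] at hp
  have hsum := od_sq (cj a) ham.cj.one (1 / q) hy
  have h1 := hsum.le_tsum 1 (fun n _ => by positivity)
  have h2 : ∑' n : ℕ, ‖cj a n‖ ^ 2 * (n : ℝ) ^ 6 * Real.exp (-(4 * Real.pi * n * (1 / q))) = 0 := by
    rcases mul_eq_zero.1 hp.symm with h3 | h3
    · exact absurd h3 (pow_ne_zero 7 hy.ne')
    · exact h3
  rw [h2] at h1
  have h3 : ‖cj a 1‖ = 1 := by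
    unfold cj
    rw [Complex.norm_conj, hl.one, norm_one]
  rw [h3] at h1
  have h4 : 0 < (1 : ℝ) ^ 2 * ((1 : ℕ) : ℝ) ^ 6 *
      Real.exp (-(4 * Real.pi * ((1 : ℕ) : ℝ) * (1 / q))) := by positivity
  linarith

end H25.QE
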