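import Pool.Agent.H25.QE.Def

/-!
# QE-PHS: the phases differ for large `N`

`‖P ee x - R ee (-x)‖² = 2 - 2 Re (P conj R ee (2x)) = 2 - 2 cos (φ + 4πx)`, `P conj R = e^(iφ)` (`x` real).  If the norms agree at
`x = 1/2^(N+1)` and `x = m/2^(N+1)` then `cos (φ + 2π/2^N) = cos (φ + 2πm/2^N)`, so
`sin (φ + π(m+1)/2^N) sin (π(m-1)/2^N) = 0`; for `2^N > m` the second factor is not `0`, so `φ + π(m+1)/2^N ∈ π ℤ`.  For two different
`N < N'` with `2^N > m + 1` the difference `(m+1)(1/2^N - 1/2^(N'))` is an integer in `(0, 1)`: impossible.  So there is at most one exceptional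
`N` with `2^N > m + 1`, hence none for large `N`.
-/

set_option autoImplicit false

namespace H25.QE

open Complex Pool.Agent.H11.SC

private theorem ph_norm (t : ℝ) : ‖ee (t : ℂ)‖ = 1 := by
  unfold ee
  rw [show 2 * (Real.pi : ℂ) * I * (t : ℂ) = ((2 * Real.pi * t : ℝ) : ℂ) * I by push_cast; ring]
  exact Complex.norm_exp_ofReal_mul_I _

private theorem ph_add (x y : ℂ) : ee (x + y) = ee x * ee y := by
  unfold ee
  rw [← Complex.exp_add]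
  congr 1
  ring

private theorem ph_one (t : ℝ) (h0 : 0 < t) (h1 : t < 1) : ee (t : ℂ) ≠ 1 := by
  intro h
  unfold ee at h
  rw [Complex.exp_eq_one_iff] at h
  obtain ⟨n, hn⟩ := h
  have h2 : (t : ℂ) = n := by
    have e : (2 * (Real.pi : ℂ) * I) * (t : ℂ) = (2 * (Real.pi : ℂ) * I) * n := by rw [hn]; ring
    exact mul_left_cancel₀ Complex.two_pi_I_ne_zero e
  have h3 : t = n := by exact_mod_cast h2
  rw [h3] at h0 h1
  have h4 : (0 : ℤ) < n := by exact_mod_cast h0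
  have h5 : n < (1 : ℤ) := by exact_mod_cast h1
  omega

private theorem ph_uv (u v : ℂ) (hu : ‖u‖ = 1) (hv : ‖v‖ = 1) (h : ‖u - 1‖ = ‖v - 1‖) :
    v = u ∨ u * v = 1 := by
  have hu2 : u.re * u.re + u.im * u.im = 1 := by
    have := Complex.normSq_eq_norm_sq u
    rw [hu, Complex.normSq_apply] at this
    linarith
  have hv2 : v.re * v.re + v.im * v.im = 1 := by
    have := Complex.normSq_eq_norm_sq v
    rw [hv, Complex.normSq_apply] at this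
    linarith
  have h2 : (u - 1).re * (u - 1).re + (u - 1).im * (u - 1).im =
      (v - 1).re * (v - 1).re + (v - 1).im * (v - 1).im := by
    rw [← Complex.normSq_apply, ← Complex.normSq_apply, Complex.normSq_eq_norm_sq,
      Complex.normSq_eq_norm_sq, h]
  simp only [Complex.sub_re, Complex.sub_im, Complex.one_re, Complex.one_im, sub_zero] at h2
  have h3 : u.re = v.re := by nlinarith
  have h4 : v.im * v.im = u.im * u.im := by rw [h3] at hu2; linarith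
  rcases mul_self_eq_mul_self_iff.1 h4 with h5 | h5
  · left
    exact Complex.ext h3.symm h5
  · right
    apply Complex.ext
    · rw [Complex.mul_re, h5, ← h3, Complex.one_re]
      linarith
    · rw [Complex.mul_im, h5, ← h3, Complex.one_im]
      ring

private theorem ph_conj (P R : ℂ) (hR : ‖R‖ = 1) (x : ℝ) :
    ‖P * ee (x : ℂ) - R * ee (-(x : ℂ))‖ = ‖P * (starRingEnd ℂ) R * ee ((2 * x : ℝ) : ℂ) - 1‖ := by
  have h1 : (starRingEnd ℂ) R * R = 1 := by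
    rw [← Complex.normSq_eq_conj_mul_self, Complex.normSq_eq_norm_sq, hR]
    norm_num
  have h2 : ee (-(x : ℂ)) * ee ((2 * x : ℝ) : ℂ) = ee (x : ℂ) := by
    rw [← ph_add]
    congr 1
    push_cast
    ring
  have h3 : P * ee (x : ℂ) - R * ee (-(x : ℂ)) =
      (R * ee ((-x : ℝ) : ℂ)) * (P * (starRingEnd ℂ) R * ee ((2 * x : ℝ) : ℂ) - 1) := by
    rw [Complex.ofReal_neg]
    have : (R * ee (-(x : ℂ))) * (P * (starRingEnd ℂ) R * ee ((2 * x : ℝ) : ℂ) - 1) =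
        ((starRingEnd ℂ) R * R) * P * (ee (-(x : ℂ)) * ee ((2 * x : ℝ) : ℂ)) - R * ee (-(x : ℂ)) := by
      ring
    rw [this, h1, h2]
    ring
  rw [h3, norm_mul, norm_mul, hR, ph_norm]
  ring

private theorem ph_key (P R : ℂ) (hP : ‖P‖ = 1) (hR : ‖R‖ = 1) (m : ℕ) (hm : 1 < m) (N : ℕ)
    (hN : m + 1 ≤ N)
    (h : ‖P * ee (1 / 2 ^ (N + 1)) - R * ee (-(1 / 2 ^ (N + 1)))‖ =
      ‖P * ee ((m : ℂ) / 2 ^ (N + 1)) - R * ee (-((m : ℂ) / 2 ^ (N + 1)))‖) :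
    (P * (starRingEnd ℂ) R) ^ 2 * ee ((((m : ℝ) + 1) / 2 ^ N : ℝ) : ℂ) = 1 := by
  have hp : ((2 : ℝ) ^ N) ≠ 0 := by positivity
  have hNm : (m : ℝ) + 1 < 2 ^ N := by
    have h1 : N < 2 ^ N := Nat.lt_two_pow_self
    have h2 : m + 1 < 2 ^ N := by omega
    exact_mod_cast h2
  have hm1 : (1 : ℝ) < m := by exact_mod_cast hm
  have e1 : (1 / 2 ^ (N + 1) : ℂ) = ((1 / 2 ^ (N + 1) : ℝ) : ℂ) := by push_cast; ring
  have e2 : ((m : ℂ) / 2 ^ (N + 1) : ℂ) = (((m : ℝ) / 2 ^ (N + 1) : ℝ) : ℂ) := by push_cast; ring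
  rw [e1, e2, ph_conj P R hR, ph_conj P R hR] at h
  obtain ⟨Q, hQ⟩ : ∃ Q : ℂ, Q = P * (starRingEnd ℂ) R := ⟨_, rfl⟩
  have hQ1 : ‖Q‖ = 1 := by rw [hQ, norm_mul, RCLike.norm_conj, hP, hR, mul_one]
  rw [← hQ] at h ⊢
  have hQ0 : Q ≠ 0 := by
    intro h0
    rw [h0, norm_zero] at hQ1
    norm_num at hQ1
  rcases ph_uv _ _ (by rw [norm_mul, ph_norm, hQ1, mul_one]) (by rw [norm_mul, ph_norm, hQ1, mul_one])
    h with h5 | h5
  · exfalso
    have h6 := mul_left_cancel₀ hQ0 h5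
    have h7 : ee ((((m : ℝ) - 1) / 2 ^ N : ℝ) : ℂ) = 1 := by
      have e3 : ((2 * ((m : ℝ) / 2 ^ (N + 1)) : ℝ) : ℂ) =
          ((((m : ℝ) - 1) / 2 ^ N : ℝ) : ℂ) + ((2 * (1 / 2 ^ (N + 1)) : ℝ) : ℂ) := by
        rw [← Complex.ofReal_add]
        congr 1
        rw [pow_succ]
        field_simp
        ring
      rw [e3, ph_add] at h6
      have h8 : ee ((2 * (1 / 2 ^ (N + 1)) : ℝ) : ℂ) ≠ 0 := by
        intro h0
        have := ph_norm (2 * (1 / 2 ^ (N + 1)))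
        rw [h0, norm_zero] at this
        norm_num at this
      have h9 : ee ((((m : ℝ) - 1) / 2 ^ N : ℝ) : ℂ) * ee ((2 * (1 / 2 ^ (N + 1)) : ℝ) : ℂ) =
          1 * ee ((2 * (1 / 2 ^ (N + 1)) : ℝ) : ℂ) := by rw [h6, one_mul]
      exact mul_right_cancel₀ h8 h9
    refine ph_one _ ?_ ?_ h7
    · apply div_pos <;> [linarith; positivity]
    · rw [div_lt_one (by positivity)]
      linarith
  · have e3 : (((m : ℝ) + 1) / 2 ^ N : ℝ) = 2 * (1 / 2 ^ (N + 1)) + 2 * ((m : ℝ) / 2 ^ (N + 1)) := by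
      rw [pow_succ]
      field_simp
      ring
    rw [e3, Complex.ofReal_add, ph_add, ← h5]
    ring

theorem phase_ne (P R : ℂ) (hP : ‖P‖ = 1) (hR : ‖R‖ = 1) (m : ℕ) (hm : 1 < m) : ∃ N0 : ℕ, ∀ N : ℕ, N0 ≤ N →
    ‖P * ee (1 / 2 ^ (N + 1)) - R * ee (-(1 / 2 ^ (N + 1)))‖ ≠
      ‖P * ee ((m : ℂ) / 2 ^ (N + 1)) - R * ee (-((m : ℂ) / 2 ^ (N + 1)))‖ := by
  by_contra hcon
  push Not at hcon
  obtain ⟨N1, hN1, h1⟩ := hcon (m + 1)
  obtain ⟨N2, hN2, h2⟩ := hcon (N1 + 1)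
  have k1 := ph_key P R hP hR m hm N1 hN1 h1
  have k2 := ph_key P R hP hR m hm N2 (by omega) h2
  obtain ⟨Q, hQ⟩ : ∃ Q : ℂ, Q = (P * (starRingEnd ℂ) R) ^ 2 := ⟨_, rfl⟩
  rw [← hQ] at k1 k2
  have hm1 : (1 : ℝ) < m := by exact_mod_cast hm
  have hNm : (m : ℝ) + 1 < 2 ^ N1 := by
    have h3 : N1 < 2 ^ N1 := Nat.lt_two_pow_self
    have h4 : m + 1 < 2 ^ N1 := by omega
    exact_mod_cast h4
  have hlt : (2 : ℝ) ^ N1 < 2 ^ N2 := pow_lt_pow_right₀ (by norm_num) (by omega)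
  have hp1 : (0 : ℝ) < 2 ^ N1 := by positivity
  have hp2 : (0 : ℝ) < 2 ^ N2 := by positivity
  have e : ((((m : ℝ) + 1) / 2 ^ N1 : ℝ) : ℂ) =
      ((((m : ℝ) + 1) / 2 ^ N1 - ((m : ℝ) + 1) / 2 ^ N2 : ℝ) : ℂ) + ((((m : ℝ) + 1) / 2 ^ N2 : ℝ) : ℂ) := by
    rw [← Complex.ofReal_add]
    congr 1
    ring
  rw [e, ph_add] at k1
  have k3 : ee ((((m : ℝ) + 1) / 2 ^ N1 - ((m : ℝ) + 1) / 2 ^ N2 : ℝ) : ℂ) = 1 := by
    have : Q * (ee ((((m : ℝ) + 1) / 2 ^ N1 - ((m : ℝ) + 1) / 2 ^ N2 : ℝ) : ℂ) *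
        ee ((((m : ℝ) + 1) / 2 ^ N2 : ℝ) : ℂ)) =
        ee ((((m : ℝ) + 1) / 2 ^ N1 - ((m : ℝ) + 1) / 2 ^ N2 : ℝ) : ℂ) *
          (Q * ee ((((m : ℝ) + 1) / 2 ^ N2 : ℝ) : ℂ)) := by ring
    rw [this, k2, mul_one] at k1
    exact k1
  have hb1 : ((m : ℝ) + 1) / 2 ^ N2 < ((m : ℝ) + 1) / 2 ^ N1 :=
    div_lt_div_of_pos_left (by linarith) hp1 hlt
  have hb2 : ((m : ℝ) + 1) / 2 ^ N1 < 1 := by rw [div_lt_one hp1]; exact hNm
  have hb3 : 0 < ((m : ℝ) + 1) / 2 ^ N2 := by positivity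
  exact ph_one _ (by linarith) (by linarith) k3

end H25.QE
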