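import Pool.Agent.H25.QE.Mid
import Pool.Agent.H25.QE.Odm
import Pool.Agent.H25.QE.Phs
import Pool.Agent.H11.SC5.LocA

/-!
# QE-FS: the inverse of the Euler factor at `2` is a polynomial

`α k = a (2^k)`, `P = conj ωp`, `R = conj ωm`.  Let `m0` be from `exists_odd`, `N0` from `phase_ne P R m0`.  For `r ≥ N0` `mid` with `i = 0` and `m = 1`
(`a 1 = 1`), `m = m0`: with `X = XX (l2 c) α 2 1 r`, `Y = XX (l4 ..) α 2 0 r`:
`‖P ee (1/2^r/2) - R ee (..)‖ ‖X‖ = √2 ‖Y‖ = ‖P ee (m0/2^r/2) - ..‖ ‖X‖` (divide by `‖a m0‖ = ‖conj (a m0)‖ ≠ 0`), so `X = 0` by `phase_ne`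
(`1/2^r/2 = 1/2^(r+1)`).  `XX l α 2 1 r = XX l α 2 0 (r-1)` for `r ≥ 1` (definition: `r ≤ 1 + k` iff `r - 1 ≤ k`, `1 + k - r = 0 + k - (r-1)`).
So `XX (l2 c) α 2 0 s = 0` for all large `s`, and `van` (`H11/SC5/Van.lean`; growth of `α` as in `locA_growth`: `‖a(2^k)‖ ≤ C (2^k)^ε`,
`2^ε ≤ ρ`; a common `R` for `c` and `l2 c`, see `locA2`) gives `l2 c k = 0`, i.e. `c k = 0`, for large `k`.
-/

set_option autoImplicit false

namespace H25.QE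

open Complex Pool.Agent.H11.SC

private theorem fs_growth (a : ℕ → ℂ) (ham : Ram a) :
    ∀ ρ : ℝ, 1 < ρ → ∃ C : ℝ, ∀ k : ℕ, ‖(fun k => a (2 ^ k)) k‖ ≤ C * ρ ^ k := by
  intro ρ hρ
  have hlp : 0 < Real.log 2 := Real.log_pos (by norm_num)
  obtain ⟨C, hC⟩ := ham (Real.log ρ / Real.log 2) (div_pos (Real.log_pos hρ) hlp)
  refine ⟨C, fun k => ?_⟩
  have h1 := hC (2 ^ k) (Nat.one_le_pow _ _ (by omega))
  have e : ((2 ^ k : ℕ) : ℝ) ^ (Real.log ρ / Real.log 2) = ρ ^ k := by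
    push_cast
    rw [← Real.rpow_natCast (2 : ℝ) k, ← Real.rpow_mul (by norm_num), mul_comm,
      Real.rpow_mul (by norm_num), Real.rpow_natCast]
    congr 1
    rw [Real.rpow_def_of_pos (by norm_num), mul_div_cancel₀ _ hlp.ne', Real.exp_log (by linarith)]
  rw [e] at h1
  exact h1

/-- the norm of `mid` with `i = 0` -/
private theorem fs_norm {a c : ℕ → ℂ} {ωm ωp : ℂ} (hl : Loc2 a c) (h : CStep 8 a ωm ωp) (ham : Ram a)
    (m : ℕ) (hm : Odd m) (hma : a m ≠ 0) (r : ℕ) :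
    ‖I / ((Real.sqrt 2 : ℝ) : ℂ)‖ * ‖(starRingEnd ℂ) ωp * ee ((m : ℂ) / 2 ^ (r + 1)) -
      (starRingEnd ℂ) ωm * ee (-((m : ℂ) / 2 ^ (r + 1)))‖ * ‖XX (l2 c) (fun k => a (2 ^ k)) 2 1 r‖ =
      ‖XX (l4 c (a 2)) (fun k => a (2 ^ k)) 2 0 r‖ := by
  have h1 := mid hl h ham m hm 0 r
  have e1 : (m : ℂ) * 2 ^ 0 / 2 ^ r / 2 = (m : ℂ) / 2 ^ (r + 1) := by
    rw [pow_zero, mul_one, div_div, ← pow_succ]
  rw [e1, zero_add] at h1
  have h2 := congrArg (fun z : ℂ => ‖z‖) h1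
  simp only [norm_mul, RCLike.norm_conj] at h2
  have h3 : ‖a m‖ ≠ 0 := norm_ne_zero_iff.2 hma
  apply mul_left_cancel₀ h3
  rw [← h2]
  ring

theorem fin_supp {a c : ℕ → ℂ} {ωm ωp : ℂ} (hl : Loc2 a c) (h : CStep 8 a ωm ωp) (ham : Ram a) :
    ∃ K : ℕ, ∀ k : ℕ, K ≤ k → c k = 0 := by
  obtain ⟨m0, hm0, hm1, hm2⟩ := exists_odd (by norm_num) hl h ham
  obtain ⟨N0, hN0⟩ := phase_ne ((starRingEnd ℂ) ωp) ((starRingEnd ℂ) ωm) (by rw [RCLike.norm_conj, h.hp])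
    (by rw [RCLike.norm_conj, h.hm]) m0 hm1
  have hX1 : ∀ r : ℕ, N0 ≤ r → XX (l2 c) (fun k => a (2 ^ k)) 2 1 r = 0 := by
    intro r hr
    by_contra hne
    have hXn : ‖XX (l2 c) (fun k => a (2 ^ k)) 2 1 r‖ ≠ 0 := norm_ne_zero_iff.2 hne
    have h1 := fs_norm hl h ham 1 odd_one (by rw [hl.one]; exact one_ne_zero) r
    have h2 := fs_norm hl h ham m0 hm0 hm2 r
    rw [← h2] at h1
    have h3 := mul_right_cancel₀ hXn h1
    have h4 : ‖I / ((Real.sqrt 2 : ℝ) : ℂ)‖ ≠ 0 := by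
      rw [norm_ne_zero_iff]
      refine div_ne_zero Complex.I_ne_zero ?_
      rw [Complex.ofReal_ne_zero]
      exact (Real.sqrt_pos.2 (by norm_num)).ne'
    have h5 := mul_left_cancel₀ h4 h3
    rw [Nat.cast_one] at h5
    exact hN0 r hr h5
  have hX0 : ∀ s : ℕ, N0 ≤ s → XX (l2 c) (fun k => a (2 ^ k)) 2 0 s = 0 := by
    intro s hs
    rw [← hX1 (s + 1) (by omega)]
    unfold XX
    refine tsum_congr fun k => ?_
    have e1 : (s ≤ 0 + k) ↔ (s + 1 ≤ 1 + k) := by omega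
    have e2 : 0 + k - s = 1 + k - (s + 1) := by omega
    simp only [e1, e2]
  obtain ⟨D, R, hR, hR2, hc⟩ := hl.bd
  have hD : 0 ≤ D := by
    have := (norm_nonneg _).trans (hc 0)
    simpa using this
  have hl2 : ∀ k, ‖l2 c k‖ ≤ (1 + 2 * D) * R ^ k := by
    intro k
    have h1 : (1 : ℝ) ≤ R ^ k := one_le_pow₀ hR
    unfold l2
    refine (norm_sub_le _ _).trans ?_
    rw [norm_mul, Complex.norm_ofNat]
    have h2 := hc k
    have h3 : ‖(if k = 0 then (1 : ℂ) else 0)‖ ≤ 1 := by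
      split_ifs <;> simp
    nlinarith [mul_nonneg hD (zero_le_one.trans h1)]
  refine ⟨N0 + 1, fun k hk => ?_⟩
  have h0 := van 2 le_rfl (fun k => a (2 ^ k)) c (l2 c) hl.inv D (1 + 2 * D) R hR
    (by exact_mod_cast hR2) hc hl2 (fs_growth a ham) N0 hX0 k (by omega)
  unfold l2 at h0
  rw [if_neg (by omega)] at h0
  have h1 : (2 : ℂ) * c k = 0 := by linear_combination -h0
  rcases mul_eq_zero.mp h1 with h2 | h2
  · norm_num at h2
  · exact h2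

end H25.QE
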