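import Pool.Agent.H25.QE.Def

/-!
# QE-RLS: the coefficients of the relations at `1/2` and `± 1/4`

`n = 2^K m`, `m` odd: `2^k ∣ n` iff `k ≤ K`, `n / 2^k = 2^(K-k) m`, `a(n/2^k) = a(2^(K-k)) a(m)` (`hl.mul`; `K ≤ n`).
`sum2`: `∑_(k ≤ K) l2_k A_(K-k) = A_K - 2 [K = 0]` (`hl.inv`; see `sixc_l2` in `H11/SC5/SixC.lean`), times `a(m)`: `(-1)^n a(n)`.
`sum4`: `∑_(k ≤ K) l4_k A_(K-k) = 2 A_K - 2 [K = 0] - 4 α [K = 1]` (`hl.inv` twice; `α = A_1`, `A_0 = 1`): `0`, `-2 A_1`, `2 A_K` for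
`K = 0`, `K = 1`, `K ≥ 2`, times `a(m)`: this is `(i^n + i^(-n)) a(n)` (`= ee (n/4) + ee (-n/4)`; it is `0` for odd `n`, `-2` for
`n ≡ 2 mod 4`, `2` for `4 ∣ n`).
-/

set_option autoImplicit false

namespace H25.QE

open Complex Pool.Agent.H11.SC

private theorem rls_sum {a c : ℕ → ℂ} (hl : Loc2 a c) (L : ℕ → ℂ) (K m : ℕ) (hm0 : 0 < m)
    (hm : ¬ 2 ∣ m) :
    (∑ k ∈ Finset.range (2 ^ K * m + 1),
      (if 2 ^ k ∣ 2 ^ K * m then L k * a (2 ^ K * m / 2 ^ k) else 0) =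
      (∑ k ∈ Finset.range (K + 1), L k * a (2 ^ (K - k))) * a m) ∧
      a (2 ^ K * m) = a (2 ^ K) * a m := by
  have c2m : Nat.Coprime 2 m := Nat.prime_two.coprime_iff_not_dvd.2 hm
  have hdiv : ∀ k : ℕ, 2 ^ k ∣ 2 ^ K * m ↔ k ≤ K := by
    intro k
    constructor
    · intro hd
      have h2 : Nat.Coprime (2 ^ k) m := Nat.Coprime.pow_left k c2m
      exact (Nat.pow_dvd_pow_iff_le_right (by norm_num)).mp (h2.dvd_of_dvd_mul_right hd)
    · intro hk
      exact (pow_dvd_pow 2 hk).mul_right m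
  have hval : ∀ k ≤ K, a (2 ^ K * m / 2 ^ k) = a (2 ^ (K - k)) * a m := by
    intro k hk
    have e1 : 2 ^ K * m = 2 ^ k * (2 ^ (K - k) * m) := by
      have e2 : 2 ^ K = 2 ^ k * 2 ^ (K - k) := by rw [← pow_add, Nat.add_sub_cancel' hk]
      rw [e2]
      ring
    have e4 : 2 ^ K * m / 2 ^ k = 2 ^ (K - k) * m := by
      rw [e1]
      exact Nat.mul_div_cancel_left _ (by positivity)
    rw [e4, hl.mul _ _ (by positivity) (Nat.Coprime.pow_left _ c2m)]
  have hKn : K < 2 ^ K * m + 1 := by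
    have h1 : K < 2 ^ K := Nat.lt_two_pow_self
    have h2 : 2 ^ K ≤ 2 ^ K * m := Nat.le_mul_of_pos_right _ hm0
    omega
  refine ⟨?_, ?_⟩
  · rw [← Finset.sum_subset (s₁ := Finset.range (K + 1)) (s₂ := Finset.range (2 ^ K * m + 1))]
    · rw [Finset.sum_mul]
      refine Finset.sum_congr rfl fun k hk => ?_
      have hk' : k ≤ K := Nat.lt_succ_iff.1 (Finset.mem_range.1 hk)
      rw [if_pos ((hdiv k).2 hk'), hval k hk', mul_assoc]
    · intro k hk
      rw [Finset.mem_range] at hk ⊢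
      omega
    · intro k _ hk
      rw [if_neg]
      rw [hdiv]
      intro hk'
      exact hk (Finset.mem_range.2 (Nat.lt_succ_of_le hk'))
  · rw [hl.mul _ _ (by positivity) (Nat.Coprime.pow_left _ c2m)]

private theorem rls_first (f : ℕ → ℂ) (v : ℂ) (K : ℕ) :
    ∑ k ∈ Finset.range (K + 1), (if k = 0 then v else 0) * f k = v * f 0 := by
  rw [Finset.sum_eq_single 0]
  · simp
  · intro b _ hb
    simp [hb]
  · intro hb
    simp at hb

private theorem rls_l2 {a c : ℕ → ℂ} (hl : Loc2 a c) (K : ℕ) :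
    ∑ k ∈ Finset.range (K + 1), l2 c k * a (2 ^ (K - k)) =
      a (2 ^ K) - 2 * (if K = 0 then 1 else 0) := by
  unfold l2
  simp only [sub_mul, Finset.sum_sub_distrib]
  have e1 := rls_first (fun k => a (2 ^ (K - k))) 1 K
  have e2 : ∑ k ∈ Finset.range (K + 1), 2 * c k * a (2 ^ (K - k)) =
      2 * (if K = 0 then 1 else 0) := by
    rw [← hl.inv K, Finset.mul_sum]
    exact Finset.sum_congr rfl fun k _ => by ring
  simp only [Nat.sub_zero, one_mul] at e1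
  rw [e1, e2]

private theorem rls_l4 {a c : ℕ → ℂ} (hl : Loc2 a c) (α : ℂ) (K : ℕ) :
    ∑ k ∈ Finset.range (K + 1), l4 c α k * a (2 ^ (K - k)) =
      2 * a (2 ^ K) - 2 * (if K = 0 then 1 else 0) - 4 * α * (if K = 1 then 1 else 0) := by
  unfold l4
  simp only [sub_mul, Finset.sum_sub_distrib]
  have e1 := rls_first (fun k => a (2 ^ (K - k))) 2 K
  have e2 : ∑ k ∈ Finset.range (K + 1), 2 * c k * a (2 ^ (K - k)) =
      2 * (if K = 0 then 1 else 0) := by
    rw [← hl.inv K, Finset.mul_sum]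
    exact Finset.sum_congr rfl fun k _ => by ring
  have e3 : ∑ k ∈ Finset.range (K + 1), 4 * α * (if k = 0 then 0 else c (k - 1)) *
      a (2 ^ (K - k)) = 4 * α * (if K = 1 then 1 else 0) := by
    rw [Finset.sum_range_succ']
    simp only [if_true, mul_zero, zero_mul, add_zero]
    rcases Nat.eq_zero_or_pos K with hK | hK
    · subst hK
      simp
    · obtain ⟨J, rfl⟩ : ∃ J, K = J + 1 := ⟨K - 1, by omega⟩
      have h1 := hl.inv J
      have h2 : (if J + 1 = 1 then (1 : ℂ) else 0) = if J = 0 then 1 else 0 := by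
        rcases Nat.eq_zero_or_pos J with hJ | hJ
        · subst hJ
          simp
        · rw [if_neg (by omega), if_neg (by omega)]
      rw [h2, ← h1, Finset.mul_sum]
      refine Finset.sum_congr rfl fun k _ => ?_
      rw [if_neg (Nat.succ_ne_zero k), Nat.add_sub_cancel, Nat.add_sub_add_right]
      ring
  simp only [Nat.sub_zero] at e1
  rw [e1, e2, e3]

private theorem rls_ee (n : ℕ) : ee (n / 4) = I ^ n := by
  have h1 : cexp ((Real.pi : ℂ) / 2 * I) = I := by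
    rw [Complex.exp_mul_I, Complex.cos_pi_div_two, Complex.sin_pi_div_two]
    ring
  rw [← h1, ← Complex.exp_nat_mul, ee]
  congr 1
  ring

private theorem rls_ee' (n : ℕ) : ee (-(n / 4)) = (-I) ^ n := by
  have h1 : cexp (-((Real.pi : ℂ) / 2 * I)) = -I := by
    rw [← neg_mul, Complex.exp_mul_I, Complex.cos_neg, Complex.sin_neg, Complex.cos_pi_div_two,
      Complex.sin_pi_div_two]
    ring
  rw [← h1, ← Complex.exp_nat_mul, ee]
  congr 1
  ring

private theorem rls_split (n : ℕ) (hn : 1 ≤ n) : ∃ K m : ℕ, 0 < m ∧ ¬ 2 ∣ m ∧ n = 2 ^ K * m := by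
  obtain ⟨K, m, h1, h2⟩ := Nat.exists_eq_pow_mul_and_not_dvd (by omega : n ≠ 0) 2 (by norm_num)
  refine ⟨K, m, Nat.pos_of_ne_zero ?_, h1, h2⟩
  rintro rfl
  exact h1 (dvd_zero 2)

theorem sum2 {a c : ℕ → ℂ} (hl : Loc2 a c) (n : ℕ) (hn : 1 ≤ n) :
    ∑ k ∈ Finset.range (n + 1), (if 2 ^ k ∣ n then l2 c k * a (n / 2 ^ k) else 0) = (-1) ^ n * a n := by
  obtain ⟨K, m, hm0, hm, rfl⟩ := rls_split n hn
  obtain ⟨h1, h2⟩ := rls_sum hl (l2 c) K m hm0 hm
  rw [h1, h2, rls_l2 hl]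
  rcases Nat.eq_zero_or_pos K with hK | hK
  · subst hK
    have h3 : Odd (2 ^ 0 * m) := by
      rw [pow_zero, one_mul]
      exact Nat.not_even_iff_odd.1 fun h => hm (even_iff_two_dvd.1 h)
    rw [h3.neg_one_pow, if_pos rfl, pow_zero, hl.one]
    ring
  · have h3 : Even (2 ^ K * m) :=
      even_iff_two_dvd.2 ((dvd_pow_self 2 (by omega)).mul_right m)
    rw [h3.neg_one_pow, if_neg (by omega)]
    ring

theorem sum4 {a c : ℕ → ℂ} (hl : Loc2 a c) (n : ℕ) (hn : 1 ≤ n) :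
    ∑ k ∈ Finset.range (n + 1), (if 2 ^ k ∣ n then l4 c (a 2) k * a (n / 2 ^ k) else 0) =
      (ee (n / 4) + ee (-(n / 4))) * a n := by
  obtain ⟨K, m, hm0, hm, rfl⟩ := rls_split n hn
  obtain ⟨h1, h2⟩ := rls_sum hl (l4 c (a 2)) K m hm0 hm
  have hodd : Odd m := Nat.not_even_iff_odd.1 fun h => hm (even_iff_two_dvd.1 h)
  rw [h1, h2, rls_l4 hl, rls_ee, rls_ee']
  rcases Nat.eq_zero_or_pos K with hK | hK
  · subst hK
    rw [pow_zero, one_mul, hodd.neg_pow, if_pos rfl, if_neg (by omega), hl.one]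
    ring
  rcases Nat.eq_or_lt_of_le hK with hK1 | hK1
  · have hK2 : K = 1 := hK1.symm
    subst hK2
    rw [pow_one, pow_mul, pow_mul, neg_sq, I_sq, hodd.neg_one_pow, if_neg (by omega), if_pos rfl]
    ring
  · obtain ⟨J, rfl⟩ : ∃ J, K = J + 2 := ⟨K - 2, by omega⟩
    have h3 : 2 ^ (J + 2) * m = 4 * (2 ^ J * m) := by ring
    have h4 : I ^ (2 ^ (J + 2) * m) = 1 := by
      rw [h3, pow_mul, I_pow_four, one_pow]
    have h5 : (-I) ^ (2 ^ (J + 2) * m) = 1 := by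
      have h6 : (-I) ^ 4 = 1 := by
        rw [Even.neg_pow (by decide), I_pow_four]
      rw [h3, pow_mul, h6, one_pow]
    rw [h4, h5, if_neg (by omega), if_neg (by omega)]
    ring

end H25.QE
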