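import Pool.Agent.H25.QE.Tg
import Pool.Agent.H25.QE.Rls
import Pool.Agent.H11.SC5.Six

/-!
# QE-REL: the relations at `1/2` and `± 1/4`

`rel2`: `two_gen` with `L = l2 c` (`lb_l2`) and `sum2`; `ff a (z + 1/2) = ∑' n, a n n³ twoE (z + 1/2) n`, `twoE (z + 1/2) n = (-1)^n twoE z n`.
`rel4`: `two_gen` with `L = l4 c (a 2)` (`lb_l4`) and `sum4`; `twoE (z ± 1/4) n = ee (± n/4) twoE z n`; `tsum` of the sum of two summable series
(`six_ffsum` in `H11/SC5/Six.lean` is the summability; see `sixE_shift` and the end of the proof of `six` there).  (The term `n = 0` has the factor `0^3 = 0`.)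
-/

set_option autoImplicit false

namespace H25.QE

open Complex Pool.Agent.H11.SC

private theorem rel_bd {a : ℕ → ℂ} (ha : ∃ C : ℝ, ∀ n : ℕ, 1 ≤ n → ‖a n‖ ≤ C * (n : ℝ) ^ (1 : ℝ)) :
    ∃ C : ℝ, ∀ n : ℕ, 1 ≤ n → ‖a n‖ ≤ C * (n : ℝ) := by
  obtain ⟨C, hC⟩ := ha
  refine ⟨C, fun n hn => ?_⟩
  have := hC n hn
  rwa [Real.rpow_one] at this

private theorem rel_shift2 (z : ℂ) (n : ℕ) : twoE (z + 1 / 2) n = (-1) ^ n * twoE z n := by
  have h1 : twoE (z + 1 / 2) n = Complex.exp (n * (Real.pi * I)) * twoE z n := by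
    unfold twoE
    rw [← Complex.exp_add]
    congr 1
    ring
  rw [h1, Complex.exp_nat_mul, Complex.exp_pi_mul_I]

private theorem rel_shift4 (z : ℂ) (n : ℕ) :
    (ee (n / 4) + ee (-(n / 4))) * twoE z n = twoE (z + 1 / 4) n + twoE (z - 1 / 4) n := by
  unfold ee twoE
  rw [add_mul, ← Complex.exp_add, ← Complex.exp_add]
  congr 2 <;> ring

theorem rel2 {a c : ℕ → ℂ} (hl : Loc2 a c)
    (ha : ∃ C : ℝ, ∀ n : ℕ, 1 ≤ n → ‖a n‖ ≤ C * (n : ℝ) ^ (1 : ℝ)) : TR (l2 c) a (fun z => ff a (z + 1 / 2)) := by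
  intro z hz
  have h := two_gen ha (lb_l2 hl) z hz
  have e : ff a (z + 1 / 2) = ∑' n : ℕ, (∑ k ∈ Finset.range (n + 1),
      if 2 ^ k ∣ n then l2 c k * a (n / 2 ^ k) else 0) * (n : ℂ) ^ 3 * twoE z n := by
    change ∑' n : ℕ, a n * (n : ℂ) ^ 3 * twoE (z + 1 / 2) n = _
    refine tsum_congr fun n => ?_
    rcases Nat.eq_zero_or_pos n with h0 | hn
    · subst h0
      simp
    · rw [sum2 hl n hn, rel_shift2]
      ring
  change HasSum _ (ff a (z + 1 / 2))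
  rw [e]
  exact h

theorem rel4 {a c : ℕ → ℂ} (hl : Loc2 a c)
    (ha : ∃ C : ℝ, ∀ n : ℕ, 1 ≤ n → ‖a n‖ ≤ C * (n : ℝ) ^ (1 : ℝ)) :
    TR (l4 c (a 2)) a (fun z => ff a (z + 1 / 4) + ff a (z - 1 / 4)) := by
  intro z hz
  have h := two_gen ha (lb_l4 hl (a 2)) z hz
  obtain ⟨C, hC⟩ := rel_bd ha
  have him1 : 0 < (z + 1 / 4).im := by
    have : (z + 1 / 4 : ℂ).im = z.im := by simp
    rw [this]
    exact hz
  have him2 : 0 < (z - 1 / 4).im := by
    have : (z - 1 / 4 : ℂ).im = z.im := by simp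
    rw [this]
    exact hz
  have e : ff a (z + 1 / 4) + ff a (z - 1 / 4) = ∑' n : ℕ, (∑ k ∈ Finset.range (n + 1),
      if 2 ^ k ∣ n then l4 c (a 2) k * a (n / 2 ^ k) else 0) * (n : ℂ) ^ 3 * twoE z n := by
    change ∑' n : ℕ, a n * (n : ℂ) ^ 3 * twoE (z + 1 / 4) n +
      ∑' n : ℕ, a n * (n : ℂ) ^ 3 * twoE (z - 1 / 4) n = _
    rw [← (six_ffsum a C hC _ him1).tsum_add (six_ffsum a C hC _ him2)]
    refine tsum_congr fun n => ?_
    rcases Nat.eq_zero_or_pos n with h0 | hn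
    · subst h0
      simp
    · rw [sum4 hl n hn]
      have := rel_shift4 z n
      linear_combination (-(a n * (n : ℂ) ^ 3)) * this
  change HasSum _ (ff a (z + 1 / 4) + ff a (z - 1 / 4))
  rw [e]
  exact h

end H25.QE
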