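import Pool.Agent.H25.QE.Cf
import Pool.Agent.H25.QE.Rel

/-!
# QE-HR: the relation at `1/2` for the Euler factor `1/(1 - α X)`

`rel2` (Rel.lean): `ff a (z + 1/2) = ∑_k l2_k 8^k ff a (2^k z)`; `l2 c 0 = -1`, `l2 c 1 = -2 c 1 = 2 α`, `l2 c k = 0` for `k ≥ 2` (`α = -c 1`; `c 0 = 1`
from `hl.inv 0`): `HasSum.tsum_eq`, `tsum_eq_sum` over `range 2`.  The conjugate: `ff (cj a) z = conj (ff a (-conj z))` (`ff_conj`), or `Loc2.conj`-like
data; here directly: apply `ff_conj` to `h.rel` at `-conj z - 1` (`ff_per`), or redo the computation.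
-/

set_option autoImplicit false

namespace H25.QE

open Complex Pool.Agent.H11.SC

theorem hr_of {a c : ℕ → ℂ} (hl : Loc2 a c)
    (ha : ∃ C : ℝ, ∀ n : ℕ, 1 ≤ n → ‖a n‖ ≤ C * (n : ℝ) ^ (1 : ℝ)) (h2 : ∀ k : ℕ, 2 ≤ k → c k = 0) (h1 : ‖c 1‖ = 1) :
    HR a (-c 1) := by
  refine ⟨by rw [norm_neg]; exact h1, fun z hz => ?_⟩
  have h := rel2 hl ha z hz
  have hc0 : c 0 = 1 := by
    have h3 := hl.inv 0
    simpa [hl.one] using h3
  have h' := hasSum_sum_of_ne_finset_zero (L := SummationFilter.unconditional ℕ) (s := Finset.range 2)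
    (f := fun k : ℕ => l2 c k * (((2 ^ k : ℕ) : ℂ) ^ 3 * ff a (((2 ^ k : ℕ) : ℂ) * z))) (fun k hk => by
      have hk2 : 2 ≤ k := by
        by_contra hlt
        exact hk (Finset.mem_range.2 (by omega))
      have h4 : l2 c k = 0 := by
        unfold l2
        rw [h2 k hk2, if_neg (by omega)]
        ring
      rw [h4, zero_mul])
  have h5 : ff a (z + 1 / 2) = _ := h.unique h'
  rw [h5, Finset.sum_range_succ, Finset.sum_range_one]
  have e0 : l2 c 0 = -1 := by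
    unfold l2
    rw [hc0, if_pos rfl]
    ring
  have e1 : l2 c 1 = -2 * c 1 := by
    unfold l2
    rw [if_neg (by omega)]
    ring
  rw [e0, e1]
  have e2 : (((2 ^ 0 : ℕ) : ℂ) * z) = z := by push_cast; ring
  have e3 : (((2 ^ 1 : ℕ) : ℂ) * z) = 2 * z := by push_cast; ring
  rw [e2, e3]
  push_cast
  ring

theorem HR.conj {a : ℕ → ℂ} {α : ℂ} (h : HR a α) : HR (cj a) ((starRingEnd ℂ) α) := by
  refine ⟨by rw [RCLike.norm_conj]; exact h.one, fun z hz => ?_⟩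
  have h0 : 0 < (-(starRingEnd ℂ) z - 1).im := by
    simpa using hz
  have h1 := h.rel (-(starRingEnd ℂ) z - 1) h0
  rw [ff_per'] at h1
  have e1 : 2 * (-(starRingEnd ℂ) z - 1) = 2 * (-(starRingEnd ℂ) z) - 1 - 1 := by ring
  rw [e1, ff_per', ff_per'] at h1
  have h2 := ff_conj (cj a) (z + 1 / 2)
  have h3 := ff_conj (cj a) z
  have h4 := ff_conj (cj a) (2 * z)
  rw [cj_cj] at h2 h3 h4
  have e2 : -(starRingEnd ℂ) (z + 1 / 2) = -(starRingEnd ℂ) z - 1 + 1 / 2 := by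
    rw [map_add, map_div₀, map_one, map_ofNat]
    ring
  have e3 : -(starRingEnd ℂ) (2 * z) = 2 * (-(starRingEnd ℂ) z) := by
    rw [map_mul, map_ofNat]
    ring
  rw [e2, h1] at h2
  rw [e3] at h4
  rw [h2, h3, h4, map_add, map_neg, map_mul, map_mul, map_ofNat]

end H25.QE
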