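import Pool.Agent.H25.QE.Lbs
import Pool.Agent.H11.SC5.Lim

/-!
# QE-ITC: interchange of the integral over the path and the sum `g = ∑_k L_k 8^k f(2^k z)`

Copy `lim_interchange` of `Pool/Agent/H11/SC5/Lim.lean` (`lim_cont`, `lim_dd_finite`, `large_term`; here `2 ^ k` in place of `dd p`, `L k` in place of
`LL c2 c3 p`, `lb_sum` (`Lbs`) in place of `LL_sum`, `hg` in place of `six`).
-/

set_option autoImplicit false

namespace H25.QE

open Complex Pool.Agent.H11.SC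

private theorem dd2_finite (δ : ℝ) (h0 : 0 < δ) : {p : ℕ | ¬ 1 ≤ 2 * δ * ((2 ^ p : ℕ) : ℝ)}.Finite := by
  obtain ⟨M, hM⟩ := exists_nat_gt (1 / (2 * δ))
  refine (Finset.finite_toSet (Finset.range M)).subset ?_
  intro k hp
  simp only [Set.mem_ofPred_eq, not_le] at hp
  have h1 : ((2 ^ k : ℕ) : ℝ) < M := by
    refine lt_trans ?_ hM
    rw [lt_div_iff₀ (by positivity)]
    linarith
  have h2 : 2 ^ k < M := by exact_mod_cast h1
  have e1 : k < 2 ^ k := Nat.lt_two_pow_self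
  simp only [Finset.coe_range, Set.mem_Iio]
  omega

theorem inter2 {q : ℝ} {a L : ℕ → ℂ} {g : ℂ → ℂ} (hq : 0 < q) (ham : Ram a) (hL : LB L) (hg : TR L a g)
    (ν : ℝ) (hν : 0 ≤ ν) (δ : ℝ) (h0 : 0 < δ) (h1 : δ ≤ 1 / 10) :
    HasSum (fun k : ℕ => L k * Tt q a ν δ (2 ^ k))
      (∫ u in (-2 * δ)..(-δ), (JJ q (pw δ u))⁻¹ * g (pw δ u) * KK q ν δ u) := by
  have ha := ham.one
  have hle : -2 * δ ≤ -δ := by linarith
  obtain ⟨σ, hσ0, hσ1, hsum⟩ := lb_sum hL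
  obtain ⟨K, hK, hlarge⟩ := large_term q hq a ham ν hν 1 one_pos le_rfl
  set G : ℕ → ℝ → ℂ := fun p u =>
    (JJ q (pw δ u))⁻¹ * (((2 ^ p : ℕ) : ℂ) ^ 3 * ff a (((2 ^ p : ℕ) : ℂ) * pw δ u)) * KK q ν δ u with hG
  have hGc : ∀ p, Continuous (G p) := fun p => lim_cont hq ha ν δ h0 (2 ^ p) (Nat.one_le_two_pow)
  have hint : ∀ p, MeasureTheory.Integrable (fun u => L p * G p u)
      (MeasureTheory.volume.restrict (Set.Ioc (-2 * δ) (-δ))) := by
    intro p
    have h2 : Continuous (fun u => L p * G p u) := continuous_const.mul (hGc p)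
    exact (h2.integrableOn_Icc).mono_set Set.Ioc_subset_Icc_self
  have hsum2 : Summable (fun p : ℕ => ∫ u, ‖L p * G p u‖
      ∂(MeasureTheory.volume.restrict (Set.Ioc (-2 * δ) (-δ)))) := by
    refine Summable.of_norm_bounded_eventually
      (hsum.mul_left (K * δ ^ (-(1 + 2 * 1) : ℝ))) ?_
    rw [Filter.eventually_cofinite]
    refine (dd2_finite δ h0).subset ?_
    intro p hp
    simp only [Set.mem_ofPred_eq] at hp ⊢
    intro hcon
    apply hp
    have h3 : ∫ u, ‖L p * G p u‖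
        ∂(MeasureTheory.volume.restrict (Set.Ioc (-2 * δ) (-δ))) =
        ‖L p‖ * ∫ u in (-2 * δ)..(-δ), ‖G p u‖ := by
      rw [intervalIntegral.integral_of_le hle, ← MeasureTheory.integral_const_mul]
      refine MeasureTheory.integral_congr_ae (Filter.Eventually.of_forall fun u => ?_)
      simp only [norm_mul]
    rw [h3]
    have h4 := hlarge δ h0 h1 (2 ^ p) hcon
    have h5 : 0 ≤ ∫ u in (-2 * δ)..(-δ), ‖G p u‖ :=
      intervalIntegral.integral_nonneg hle (fun u _ => norm_nonneg _)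
    rw [Real.norm_of_nonneg (mul_nonneg (norm_nonneg _) h5)]
    have hd1 : (1 : ℝ) ≤ ((2 ^ p : ℕ) : ℝ) := by exact_mod_cast Nat.one_le_two_pow
    have h6 : ((2 ^ p : ℕ) : ℝ) ^ (-(1 / 2 + 1) : ℝ) ≤ ((2 ^ p : ℕ) : ℝ) ^ (-σ) :=
      Real.rpow_le_rpow_of_exponent_le hd1 (by linarith)
    have h7 : (0 : ℝ) ≤ δ ^ (-(1 + 2 * 1) : ℝ) := Real.rpow_nonneg h0.le _
    calc ‖L p‖ * ∫ u in (-2 * δ)..(-δ), ‖G p u‖
        ≤ ‖L p‖ * (K * ((2 ^ p : ℕ) : ℝ) ^ (-(1 / 2 + 1) : ℝ) * δ ^ (-(1 + 2 * 1) : ℝ)) :=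
          mul_le_mul_of_nonneg_left h4 (norm_nonneg _)
      _ ≤ ‖L p‖ * (K * ((2 ^ p : ℕ) : ℝ) ^ (-σ) * δ ^ (-(1 + 2 * 1) : ℝ)) := by
          gcongr
      _ = K * δ ^ (-(1 + 2 * 1) : ℝ) * (‖L p‖ * ((2 ^ p : ℕ) : ℝ) ^ (-σ)) := by ring
  have hHS := MeasureTheory.hasSum_integral_of_summable_integral_norm hint hsum2
  have e1 : (fun p : ℕ => ∫ u, L p * G p u
      ∂(MeasureTheory.volume.restrict (Set.Ioc (-2 * δ) (-δ)))) =
      fun p : ℕ => L p * Tt q a ν δ (2 ^ p) := by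
    funext p
    unfold Tt
    rw [intervalIntegral.integral_of_le hle, ← MeasureTheory.integral_const_mul]
  have e2 : (∫ u, ∑' p : ℕ, L p * G p u
      ∂(MeasureTheory.volume.restrict (Set.Ioc (-2 * δ) (-δ)))) =
      ∫ u in (-2 * δ)..(-δ), (JJ q (pw δ u))⁻¹ *
        (g (pw δ u)) * KK q ν δ u := by
    rw [intervalIntegral.integral_of_le hle]
    refine MeasureTheory.integral_congr_ae (Filter.Eventually.of_forall fun u => ?_)
    simp only
    have hs := hg (pw δ u) (by rw [pw_im]; positivity)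
    have hs2 := (hs.mul_left ((JJ q (pw δ u))⁻¹)).mul_right (KK q ν δ u)
    rw [← hs2.tsum_eq]
    refine tsum_congr fun p => ?_
    simp only [hG]
    ring
  rw [e1, e2] at hHS
  exact hHS

end H25.QE
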