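import Pool.Agent.H25.QE.Ts
import Pool.Agent.H25.QE.Itc

/-!
# QE-LR: the integral of `g = ∑_k L_k 8^k f(2^k z)` over the path

`lim2`: `inter2` with `ν = m / N`, `ts2`, `sp2_summable` (`tsum_mul_left`, `tsum_mul_right`): the difference is
`∑' k, L k (Tt .. - ωm ν³ Sp .. Ld)`, of norm `≤ K δ^κ / δ`.  (See (3) in the proof of `limit_id`, `H11/SC5/Lim.lean`.)
-/

set_option autoImplicit false

namespace H25.QE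

open Complex Pool.Agent.H11.SC

theorem lim2 {q : ℝ} {a L : ℕ → ℂ} {g : ℂ → ℂ} {ωm ωp : ℂ} (hq : 0 < q) (h : CStep q a ωm ωp) (ham : Ram a)
    (hL : LB L) (hg : TR L a g) (m N : ℕ) (hm : 1 ≤ m) (hN : 1 ≤ N) :
    ∃ K κ : ℝ, 0 ≤ K ∧ 0 < κ ∧ ∀ δ : ℝ, 0 < δ → δ ≤ 1 / 10 →
    ‖(∫ u in (-2 * δ)..(-δ), (JJ q (pw δ u))⁻¹ * g (pw δ u) * KK q ((m : ℝ) / N) δ u) -
      ωm * ((m : ℂ) / N) ^ 3 * (∑' k : ℕ, L k * Sp a m N (2 ^ k)) * Ld q δ‖ ≤ K * δ ^ (κ - 1) := by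
  obtain ⟨K, κ, hK, hκ, hT⟩ := ts2 hq h ham hL m N hm hN
  have hSs := sp2_summable ham hL m N hm hN
  refine ⟨K, κ, hK, hκ, fun δ h0 h10 => ?_⟩
  have hm0 : (0 : ℝ) < m := by exact_mod_cast hm
  have hN0 : (0 : ℝ) < N := by exact_mod_cast hN
  have hν0 : (0 : ℝ) ≤ (m : ℝ) / N := by positivity
  obtain ⟨hsum, hbd⟩ := hT δ h0 h10
  have hI := inter2 hq ham hL hg ((m : ℝ) / N) hν0 δ h0 h10
  obtain ⟨I1, hI1⟩ : ∃ I1 : ℂ, I1 = ∫ u in (-2 * δ)..(-δ), (JJ q (pw δ u))⁻¹ * g (pw δ u) *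
      KK q ((m : ℝ) / N) δ u := ⟨_, rfl⟩
  obtain ⟨S, hS⟩ : ∃ S : ℂ, S = ∑' k : ℕ, L k * Sp a m N (2 ^ k) := ⟨_, rfl⟩
  rw [← hI1, ← hS]
  rw [← hI1] at hI
  have hDs : Summable (fun k : ℕ => ‖L k * (Tt q a ((m : ℝ) / N) δ (2 ^ k) -
      ωm * ((m : ℂ) / N) ^ 3 * Sp a m N (2 ^ k) * Ld q δ)‖) := by
    refine hsum.congr fun k => ?_
    rw [norm_mul]
  have hD : I1 - ωm * ((m : ℂ) / N) ^ 3 * S * Ld q δ = ∑' k : ℕ, L k *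
      (Tt q a ((m : ℝ) / N) δ (2 ^ k) - ωm * ((m : ℂ) / N) ^ 3 * Sp a m N (2 ^ k) * Ld q δ) := by
    have h2 := (hSs.hasSum.mul_left (ωm * ((m : ℂ) / N) ^ 3 * Ld q δ))
    have h3 := hI.sub h2
    have h4 := h3.tsum_eq
    rw [← hS] at h4
    have h5 : I1 - ωm * ((m : ℂ) / N) ^ 3 * S * Ld q δ =
        I1 - ωm * ((m : ℂ) / N) ^ 3 * Ld q δ * S := by ring
    rw [h5, ← h4]
    refine tsum_congr fun k => ?_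
    ring
  have hDn : ‖I1 - ωm * ((m : ℂ) / N) ^ 3 * S * Ld q δ‖ ≤ ∑' k : ℕ, ‖L k‖ *
      ‖Tt q a ((m : ℝ) / N) δ (2 ^ k) - ωm * ((m : ℂ) / N) ^ 3 * Sp a m N (2 ^ k) * Ld q δ‖ := by
    rw [hD]
    refine (norm_tsum_le_tsum_norm hDs).trans (le_of_eq ?_)
    refine tsum_congr fun k => ?_
    rw [norm_mul]
  refine hDn.trans ?_
  rw [Real.rpow_sub_one h0.ne', ← mul_div_assoc, le_div_iff₀ h0, mul_comm]
  exact hbd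

end H25.QE
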