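import Pool.Agent.H25.QE.Lf
import Pool.Agent.H25.QE.Lr

/-!
# QE-IDN: the identity for `ν = m/N`, `q = 8`

Integrals over the path for `δ → 0`, `ν = m/N`.  `lim2` for `rel4` (`CStep 8 a ωm ωp`): `∫ (JJ)⁻¹ (f(w+1/4) + f(w-1/4)) KK =
ωm ν³ (∑ l4_k Sp a m N (2^k)) Ld + O(δ^(κ-1))`.  The left side is the sum of the two integrals (continuity: `intervalIntegral.integral_add`,
`lim_ffw_cont`-like; `ff_cont`), by `left_plus`, `left_minus` equal to `(-8√2 i ωp ee(-ν/2) + 8√2 i ωm ee(ν/2)) I* + O(δ^(-s))`, and by `lim2` for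
`tr_g` and `CStep 8 (cj a) (conj ωp) (conj ωm)` (`h.conj`): `I* = conj ωp ν³ (∑_j gL_j Sp (cj a) m N (2^j)) Ld + O(δ^(κ-1))`.  Multiply the difference by
`δ` and let `δ → 0`: `‖δ Ld 8 δ‖ ≥ 1/24` (`Ld_bounds`), `ν ≠ 0`.
-/

set_option autoImplicit false

namespace H25.QE

open Complex Pool.Agent.H11.SC

private theorem idn_tend (K κ : ℝ) (hκ : 0 < κ) :
    Filter.Tendsto (fun δ : ℝ => K * δ ^ κ) (nhdsWithin 0 (Set.Ioi 0)) (nhds 0) := by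
  have h1 := (Real.continuousAt_rpow_const 0 κ (Or.inr hκ.le)).tendsto
  rw [Real.zero_rpow hκ.ne'] at h1
  have h2 := (h1.mono_left (nhdsWithin_le_nhds (s := Set.Ioi (0 : ℝ)))).const_mul K
  rwa [mul_zero] at h2

private theorem idn_pow (δ κ : ℝ) (h0 : 0 < δ) (K : ℝ) : δ * (K * δ ^ (κ - 1)) = K * δ ^ κ := by
  have h1 : δ * δ ^ (κ - 1) = δ ^ κ := by
    nth_rewrite 1 [← Real.rpow_one δ]
    rw [← Real.rpow_add h0]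
    congr 1
    ring
  rw [← h1]
  ring

theorem idn {a c : ℕ → ℂ} {ωm ωp : ℂ} (hl : Loc2 a c) (h : CStep 8 a ωm ωp) (ham : Ram a) (m N : ℕ) (hm : 1 ≤ m)
    (hN : 1 ≤ N) :
    8 * ((Real.sqrt 2 : ℝ) : ℂ) * I * (ωm * ee ((m : ℂ) / N / 2) - ωp * ee (-((m : ℂ) / N / 2))) * (starRingEnd ℂ) ωp *
      (∑' j : ℕ, gL c j * Sp (cj a) m N (2 ^ j)) = ωm * ∑' k : ℕ, l4 c (a 2) k * Sp a m N (2 ^ k) := by
  obtain ⟨K1, κ1, hK1, hκ1, h1⟩ := lim2 (by norm_num) h ham (lb_l4 hl (a 2)) (rel4 hl ham.one) m N hm hN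
  obtain ⟨K4, κ4, hK4, hκ4, h4⟩ := lim2 (by norm_num) h.conj ham.cj (lb_gL hl) (tr_g hl ham.one) m N hm hN
  obtain ⟨ν, hν⟩ : ∃ ν : ℝ, ν = (m : ℝ) / N := ⟨_, rfl⟩
  have hm0 : (0 : ℝ) < m := by exact_mod_cast hm
  have hN0 : (0 : ℝ) < N := by exact_mod_cast hN
  have hν0 : 0 < ν := by
    rw [hν]
    positivity
  have hνc : ((ν : ℝ) : ℂ) = (m : ℂ) / N := by
    rw [hν]
    push_cast
    rfl
  obtain ⟨K2, s2, hK2, hs2, h2⟩ := left_plus hl h ham ν hν0.le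
  obtain ⟨K3, s3, hK3, hs3, h3⟩ := left_minus hl h ham ν hν0.le
  rw [← hν] at h1 h4
  obtain ⟨S4, hS4⟩ : ∃ S4 : ℂ, S4 = ∑' k : ℕ, l4 c (a 2) k * Sp a m N (2 ^ k) := ⟨_, rfl⟩
  obtain ⟨Sg, hSg⟩ : ∃ Sg : ℂ, Sg = ∑' j : ℕ, gL c j * Sp (cj a) m N (2 ^ j) := ⟨_, rfl⟩
  rw [← hS4] at h1 ⊢
  rw [← hSg] at h4 ⊢
  rw [← hνc] at h1 h4 ⊢
  obtain ⟨κ0, hκ0⟩ : ∃ κ0 : ℂ, κ0 = 8 * ((Real.sqrt 2 : ℝ) : ℂ) * I * (ωm * ee ((ν : ℂ) / 2) -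
    ωp * ee (-((ν : ℂ) / 2))) := ⟨_, rfl⟩
  rw [← hκ0]
  obtain ⟨X, hX⟩ : ∃ X : ℂ, X = (ν : ℂ) ^ 3 * (κ0 * (starRingEnd ℂ) ωp * Sg - ωm * S4) := ⟨_, rfl⟩
  have hmain : ∀ δ : ℝ, 0 < δ → δ ≤ 1 / 1000 → ‖X‖ ≤ 24 * (‖κ0‖ * (K4 * δ ^ κ4) + (K2 * δ ^ (1 - s2) +
      K3 * δ ^ (1 - s3)) + K1 * δ ^ κ1) := by
    intro δ h0 hδ
    have h10 : δ ≤ 1 / 10 := by linarith
    have b1 := h1 δ h0 h10
    have b4 := h4 δ h0 h10
    have b2 := h2 δ h0 hδ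
    have b3 := h3 δ h0 hδ
    have hpwc := lim_pw_cont δ
    have hac : ∀ t : ℝ, Continuous (fun u : ℝ => ff a (pw δ u + (t : ℂ))) := by
      intro t
      refine (ff_cont a ham.one).comp_continuous (by fun_prop) (fun u => ?_)
      show 0 < (pw δ u + (t : ℂ)).im
      rw [Complex.add_im, Complex.ofReal_im, add_zero, pw_im]
      positivity
    have hac1 : Continuous (fun u : ℝ => ff a (pw δ u + 1 / 4)) := by
      have := hac (1 / 4)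
      convert this using 3
      push_cast
      ring
    have hac2 : Continuous (fun u : ℝ => ff a (pw δ u - 1 / 4)) := by
      have := hac (-(1 / 4))
      convert this using 3
      push_cast
      ring
    have hKKc := KK_cont 8 ν δ (by norm_num) h0
    have c1 : Continuous (fun u : ℝ => (JJ 8 (pw δ u))⁻¹ * ff a (pw δ u + 1 / 4) * KK 8 ν δ u) :=
      ((lim_JJ_cont 8 δ).mul hac1).mul hKKc
    have c2 : Continuous (fun u : ℝ => (JJ 8 (pw δ u))⁻¹ * ff a (pw δ u - 1 / 4) * KK 8 ν δ u) :=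
      ((lim_JJ_cont 8 δ).mul hac2).mul hKKc
    have hadd : (∫ u in (-2 * δ)..(-δ), (JJ 8 (pw δ u))⁻¹ * (ff a (pw δ u + 1 / 4) + ff a (pw δ u - 1 / 4)) *
        KK 8 ν δ u) = (∫ u in (-2 * δ)..(-δ), (JJ 8 (pw δ u))⁻¹ * ff a (pw δ u + 1 / 4) * KK 8 ν δ u) +
        ∫ u in (-2 * δ)..(-δ), (JJ 8 (pw δ u))⁻¹ * ff a (pw δ u - 1 / 4) * KK 8 ν δ u := by
      rw [← intervalIntegral.integral_add (c1.intervalIntegrable _ _) (c2.intervalIntegrable _ _)]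
      refine intervalIntegral.integral_congr fun u _ => ?_
      ring
    obtain ⟨Ap, hAp⟩ : ∃ Ap : ℂ, Ap = ∫ u in (-2 * δ)..(-δ), (JJ 8 (pw δ u))⁻¹ * ff a (pw δ u + 1 / 4) *
      KK 8 ν δ u := ⟨_, rfl⟩
    obtain ⟨Am, hAm⟩ : ∃ Am : ℂ, Am = ∫ u in (-2 * δ)..(-δ), (JJ 8 (pw δ u))⁻¹ * ff a (pw δ u - 1 / 4) *
      KK 8 ν δ u := ⟨_, rfl⟩
    obtain ⟨Is, hIs⟩ : ∃ Is : ℂ, Is = ∫ u in (-2 * δ)..(-δ), (JJ 8 (pw δ u))⁻¹ *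
      ff (cj a) (2 * pw δ u + 1 / 2) * KK 8 ν δ u := ⟨_, rfl⟩
    rw [hadd, ← hAp, ← hAm] at b1
    rw [← hIs] at b4
    rw [← hAp, ← hIs] at b2
    rw [← hAm, ← hIs] at b3
    obtain ⟨hLd1, -⟩ := Ld_bounds 8 δ (by norm_num) h0 h10
    have e1 : X * Ld 8 δ = -(κ0 * (Is - (starRingEnd ℂ) ωp * (ν : ℂ) ^ 3 * Sg * Ld 8 δ)) -
        ((Ap - -(8 * ((Real.sqrt 2 : ℝ) : ℂ) * I * ωp * ee (-((ν : ℂ) / 2))) * Is) +
          (Am - 8 * ((Real.sqrt 2 : ℝ) : ℂ) * I * ωm * ee ((ν : ℂ) / 2) * Is)) +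
        (Ap + Am - ωm * (ν : ℂ) ^ 3 * S4 * Ld 8 δ) := by
      rw [hX, hκ0]
      ring
    have e2 : ‖X‖ * ‖Ld 8 δ‖ ≤ ‖κ0‖ * (K4 * δ ^ (κ4 - 1)) + (K2 * δ ^ (-s2) + K3 * δ ^ (-s3)) +
        K1 * δ ^ (κ1 - 1) := by
      rw [← norm_mul, e1]
      refine (norm_add_le _ _).trans (add_le_add ((norm_sub_le _ _).trans (add_le_add ?_
        ((norm_add_le _ _).trans (add_le_add b2 b3)))) b1)
      rw [norm_neg, norm_mul]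
      exact mul_le_mul_of_nonneg_left b4 (norm_nonneg _)
    have e3 : 1 / 24 ≤ δ * ‖Ld 8 δ‖ := by
      have h5 := mul_le_mul_of_nonneg_left hLd1 h0.le
      refine le_trans (le_of_eq ?_) h5
      field_simp
      norm_num
    have e4 : ‖X‖ * (1 / 24) ≤ δ * (‖X‖ * ‖Ld 8 δ‖) := by
      calc ‖X‖ * (1 / 24) ≤ ‖X‖ * (δ * ‖Ld 8 δ‖) := mul_le_mul_of_nonneg_left e3 (norm_nonneg _)
        _ = _ := by ring
    have e5 := e4.trans (mul_le_mul_of_nonneg_left e2 h0.le)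
    have e6 : δ * (‖κ0‖ * (K4 * δ ^ (κ4 - 1)) + (K2 * δ ^ (-s2) + K3 * δ ^ (-s3)) + K1 * δ ^ (κ1 - 1)) =
        ‖κ0‖ * (K4 * δ ^ κ4) + (K2 * δ ^ (1 - s2) + K3 * δ ^ (1 - s3)) + K1 * δ ^ κ1 := by
      have p1 := idn_pow δ κ1 h0 K1
      have p4 := idn_pow δ κ4 h0 K4
      have p2 := idn_pow δ (1 - s2) h0 K2
      have p3 := idn_pow δ (1 - s3) h0 K3
      have q2 : (1 - s2 - 1 : ℝ) = -s2 := by ring
      have q3 : (1 - s3 - 1 : ℝ) = -s3 := by ring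
      rw [q2] at p2
      rw [q3] at p3
      rw [← p1, ← p2, ← p3, ← p4]
      ring
    rw [e6] at e5
    linarith
  have hzero : ‖X‖ ≤ 0 := by
    have htend : Filter.Tendsto (fun δ : ℝ => 24 * (‖κ0‖ * (K4 * δ ^ κ4) + (K2 * δ ^ (1 - s2) +
      K3 * δ ^ (1 - s3)) + K1 * δ ^ κ1)) (nhdsWithin 0 (Set.Ioi 0))
      (nhds (24 * (‖κ0‖ * 0 + (0 + 0) + 0))) :=
      ((((idn_tend K4 κ4 hκ4).const_mul ‖κ0‖).add ((idn_tend K2 (1 - s2) (by linarith)).add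
        (idn_tend K3 (1 - s3) (by linarith)))).add (idn_tend K1 κ1 hκ1)).const_mul 24
    have hval : (24 * (‖κ0‖ * 0 + (0 + 0) + 0) : ℝ) = 0 := by ring
    rw [hval] at htend
    refine ge_of_tendsto htend ?_
    have h5 : Set.Ioc (0 : ℝ) (1 / 1000) ∈ nhdsWithin (0 : ℝ) (Set.Ioi 0) :=
      Ioc_mem_nhdsGT (by norm_num)
    filter_upwards [h5] with δ hδ
    exact hmain δ hδ.1 hδ.2
  have hX0 : X = 0 := norm_le_zero_iff.1 hzero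
  rw [hX] at hX0
  have hν3 : (ν : ℂ) ^ 3 ≠ 0 := pow_ne_zero _ (by exact_mod_cast hν0.ne')
  exact sub_eq_zero.1 ((mul_eq_zero.1 hX0).resolve_left hν3)

end H25.QE
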