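import Pool.Agent.H25.QE.Def
import Pool.Agent.H11.SC5.Term

/-!
# QE-LBS: summability

`lb_sum`: there is `0 < σ < 1/2` with `∑ ‖L k‖ (2^k)^(-σ) < ∞` (`R < √2 = 2^(1/2)`, choose `R < 2^σ`; see `LL_sum` in `H11/SC5/LLsum.lean`).
`sp2_summable`: copy `Sp_summable` of `Pool/Agent/H11/SC5/TSum.lean` with `d = 2 ^ k` in place of `dd p` and `L k` in place of `LL c2 c3 p`, `lb_sum` in
place of `LL_sum` (`ham : Ram a` is its hypothesis on `a`, `unfold Ram`).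
-/

set_option autoImplicit false

namespace H25.QE

open Complex Pool.Agent.H11.SC

theorem lb_sum {L : ℕ → ℂ} (hL : LB L) : ∃ σ : ℝ, 0 < σ ∧ σ < 1 / 2 ∧
    Summable (fun k : ℕ => ‖L k‖ * ((2 ^ k : ℕ) : ℝ) ^ (-σ)) := by
  obtain ⟨D, R, hD, hR, hR2, hl⟩ := hL
  have hlb : 0 < Real.log 2 := Real.log_pos (by norm_num)
  have hR0 : 0 < R := by linarith
  have a1 : 0 ≤ Real.log R / Real.log 2 := div_nonneg (Real.log_nonneg hR) hlb.le
  have a2 : Real.log R / Real.log 2 < 1 / 2 := by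
    rw [div_lt_iff₀ hlb]
    have h1 : Real.log (R ^ 2) < Real.log 2 := Real.log_lt_log (by positivity) hR2
    rw [Real.log_pow] at h1
    push_cast at h1
    linarith
  obtain ⟨m, hm⟩ : ∃ m : ℝ, m = Real.log R / Real.log 2 := ⟨_, rfl⟩
  rw [← hm] at a1 a2
  obtain ⟨σ, hσ⟩ : ∃ σ : ℝ, σ = (m + 1 / 2) / 2 := ⟨_, rfl⟩
  refine ⟨σ, by rw [hσ]; linarith, by rw [hσ]; linarith, ?_⟩
  have hms : Real.log R / Real.log 2 < σ := by rw [← hm, hσ]; linarith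
  have h : R * (2 : ℝ) ^ (-σ) < 1 := by
    rw [div_lt_iff₀ hlb] at hms
    have h1 : R < 2 ^ σ := (Real.lt_rpow_iff_log_lt hR0 two_pos).mpr hms
    have h2 : (0 : ℝ) < 2 ^ σ := Real.rpow_pos_of_pos two_pos _
    rw [Real.rpow_neg two_pos.le, ← div_eq_mul_inv, div_lt_one h2]
    exact h1
  have hr : 0 ≤ R * (2 : ℝ) ^ (-σ) := mul_nonneg (by linarith) (Real.rpow_nonneg two_pos.le _)
  refine Summable.of_nonneg_of_le (fun k => ?_) (fun k => ?_)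
    ((summable_geometric_of_lt_one hr h).mul_left D)
  · exact mul_nonneg (norm_nonneg _) (Real.rpow_nonneg (Nat.cast_nonneg _) _)
  · have h1 : ((2 ^ k : ℕ) : ℝ) ^ (-σ) = ((2 : ℝ) ^ (-σ)) ^ k := by
      rw [Nat.cast_pow, Nat.cast_ofNat, ← Real.rpow_natCast, ← Real.rpow_mul two_pos.le,
        mul_comm (k : ℝ) (-σ), Real.rpow_mul two_pos.le, Real.rpow_natCast]
    rw [h1, mul_pow, ← mul_assoc]
    exact mul_le_mul_of_nonneg_right (hl k) (pow_nonneg (Real.rpow_nonneg two_pos.le _) k)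

theorem sp2_summable {a L : ℕ → ℂ} (ham : Ram a) (hL : LB L) (m N : ℕ) (hm : 1 ≤ m) (hN : 1 ≤ N) :
    Summable (fun k : ℕ => L k * Sp a m N (2 ^ k)) := by
  obtain ⟨σ, hσ, hσ2, hS⟩ := lb_sum hL
  obtain ⟨K, hK, h1⟩ := Sp_bound a ham m N hm hN (1 / 2) (by norm_num)
  refine Summable.of_norm_bounded (hS.mul_left K) fun p => ?_
  have hdn : 1 ≤ 2 ^ p := Nat.one_le_two_pow
  have hd1 : (1 : ℝ) ≤ ((2 ^ p : ℕ) : ℝ) := by exact_mod_cast hdn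
  have e : ((2 ^ p : ℕ) : ℝ) ^ (-(1 - 1 / 2) : ℝ) ≤ ((2 ^ p : ℕ) : ℝ) ^ (-σ) :=
    Real.rpow_le_rpow_of_exponent_le hd1 (by linarith)
  rw [norm_mul]
  calc _ ≤ ‖L p‖ * (K * ((2 ^ p : ℕ) : ℝ) ^ (-σ)) :=
        mul_le_mul_of_nonneg_left ((h1 _ hdn).trans (mul_le_mul_of_nonneg_left e hK))
          (norm_nonneg _)
    _ = _ := by ring

end H25.QE
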