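import Pool.Agent.H25.QE.Rel

/-!
# QE-LG: the series of `ff (cj a) (2 v + 1/2)`

`lb_gL`: `lb_l2 hl` (`‖l2 c (j-1)‖ ≤ D R^(j-1) ≤ D R^j`).  `Loc2.conj`: conjugate everything (`cj a n = conj (a n)`; for `inv`: `map_sum`, `map_mul`).
`tr_g`: `rel2` for `cj a`, `conj c` (`hl.conj`) at `2v`: `ff (cj a) (2v + 1/2) = ∑_k l2 (conj c) k 8^k ff (cj a) (2^(k+1) v)
= ∑_k (conj(l2 c k)/8) (2^(k+1))³ ff (cj a) (2^(k+1) v)`; the term `j = 0` of `gL` is `0` (`hasSum_nat_add_iff' 1` or `HasSum.zero_add`).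
-/

set_option autoImplicit false

namespace H25.QE

open Complex Pool.Agent.H11.SC

/-- the coefficients of `ff (cj a) (2 v + 1/2)` -/
noncomputable def gL (c : ℕ → ℂ) (j : ℕ) : ℂ := if j = 0 then 0 else (starRingEnd ℂ) (l2 c (j - 1)) / 8

theorem lb_gL {a c : ℕ → ℂ} (hl : Loc2 a c) : LB (gL c) := by
  obtain ⟨D, R, hD, hR, hR2, hb⟩ := lb_l2 hl
  refine ⟨D, R, hD, hR, hR2, fun j => ?_⟩
  unfold gL
  split_ifs with h
  · rw [norm_zero]
    exact mul_nonneg hD (pow_nonneg (zero_le_one.trans hR) _)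
  · rw [norm_div, RCLike.norm_conj, Complex.norm_ofNat]
    have h1 := hb (j - 1)
    have h2 : R ^ (j - 1) ≤ R ^ j := pow_le_pow_right₀ hR (by omega)
    have h3 : D * R ^ (j - 1) ≤ D * R ^ j := mul_le_mul_of_nonneg_left h2 hD
    have h4 : 0 ≤ D * R ^ j := mul_nonneg hD (pow_nonneg (zero_le_one.trans hR) _)
    linarith

theorem Loc2.conj {a c : ℕ → ℂ} (hl : Loc2 a c) : Loc2 (cj a) (fun k => (starRingEnd ℂ) (c k)) := by
  refine ⟨?_, fun m n hmn hco => ?_, fun k => ?_, ?_⟩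
  · show (starRingEnd ℂ) (a 1) = 1
    rw [hl.one, map_one]
  · show (starRingEnd ℂ) (a (m * n)) = (starRingEnd ℂ) (a m) * (starRingEnd ℂ) (a n)
    rw [hl.mul m n hmn hco, map_mul]
  · have h1 := congrArg (starRingEnd ℂ) (hl.inv k)
    rw [map_sum] at h1
    have h2 : (starRingEnd ℂ) (if k = 0 then (1 : ℂ) else 0) = if k = 0 then 1 else 0 := by
      split_ifs <;> simp
    rw [h2] at h1
    rw [← h1]
    refine Finset.sum_congr rfl fun j _ => ?_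
    rw [map_mul]
    rfl
  · obtain ⟨D, R, hR, hR2, hc⟩ := hl.bd
    refine ⟨D, R, hR, hR2, fun k => ?_⟩
    rw [RCLike.norm_conj]
    exact hc k

theorem tr_g {a c : ℕ → ℂ} (hl : Loc2 a c)
    (ha : ∃ C : ℝ, ∀ n : ℕ, 1 ≤ n → ‖a n‖ ≤ C * (n : ℝ) ^ (1 : ℝ)) :
    TR (gL c) (cj a) (fun v => ff (cj a) (2 * v + 1 / 2)) := by
  intro v hv
  have ha' : ∃ C : ℝ, ∀ n : ℕ, 1 ≤ n → ‖cj a n‖ ≤ C * (n : ℝ) ^ (1 : ℝ) := by
    obtain ⟨C, hC⟩ := ha
    refine ⟨C, fun n hn => ?_⟩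
    show ‖(starRingEnd ℂ) (a n)‖ ≤ _
    rw [RCLike.norm_conj]
    exact hC n hn
  have h1 := rel2 hl.conj ha' (2 * v) (by
    rw [Complex.mul_im]
    simp
    exact hv)
  have h2 : ∀ j : ℕ, l2 (fun k => (starRingEnd ℂ) (c k)) j = (starRingEnd ℂ) (l2 c j) := by
    intro j
    unfold l2
    rw [map_sub, map_mul]
    congr 1
    · split_ifs <;> simp
    · congr 1
      exact (Complex.conj_ofNat 2).symm
  refine (hasSum_nat_add_iff' (f := fun k : ℕ => gL c k * (((2 ^ k : ℕ) : ℂ) ^ 3 *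
    ff (cj a) (((2 ^ k : ℕ) : ℂ) * v))) 1).1 ?_
  have h3 : gL c 0 = 0 := by
    unfold gL
    rw [if_pos rfl]
  rw [Finset.sum_range_one, h3, zero_mul, sub_zero]
  have h4 : (fun n : ℕ => gL c (n + 1) * (((2 ^ (n + 1) : ℕ) : ℂ) ^ 3 *
      ff (cj a) (((2 ^ (n + 1) : ℕ) : ℂ) * v))) = fun k : ℕ => l2 (fun k => (starRingEnd ℂ) (c k)) k *
      (((2 ^ k : ℕ) : ℂ) ^ 3 * ff (cj a) (((2 ^ k : ℕ) : ℂ) * (2 * v))) := by
    funext n
    rw [h2]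
    have h5 : gL c (n + 1) = (starRingEnd ℂ) (l2 c n) / 8 := by
      unfold gL
      rw [if_neg (Nat.succ_ne_zero n), Nat.add_sub_cancel]
    have h6 : (((2 ^ (n + 1) : ℕ) : ℂ) * v) = ((2 ^ n : ℕ) : ℂ) * (2 * v) := by
      push_cast
      ring
    rw [h5, h6]
    push_cast
    ring
  rw [h4]
  exact h1

end H25.QE
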