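import Pool.Agent.H25.QE.Def

/-!
# QE-SH: moving the path

`w(u) = pw δ u`, `ṽ(u) = w/(1 + e w)`, `e = ± 4`, `dṽ/dw = 1/(1 + e w)²`, `dw/du = 1`.  Everything happens in the ball `B` with centre
`-(3/2) δ + 5 i` and radius `5`, which is contained in the upper half plane (`‖v - c‖ < 5` gives `Im v > 0`) and contains all `v` with
`-3δ ≤ Re v ≤ 0`, `δ²/2 ≤ Im v ≤ 2δ²` (`(Re v + 3δ/2)² + (Im v)² ≤ (9/4) δ² + 4δ⁴ < 5 δ² ≤ 10 Im v`).
`DifferentiableOn.isExactOn_ball` gives a primitive `G` of `Φ` on `B`.  By the fundamental theorem (`intervalIntegral.integral_eq_sub_of_hasDerivAt`;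
the integrands are continuous) the two integrals are `G(ṽ(-δ)) - G(ṽ(-2δ))` and `G(w(-δ)) - G(w(-2δ))`.
At both end points `‖ṽ - w‖ = 4‖w‖²/‖1 + e w‖ ≤ 20 δ²` (`‖w‖² = u² + δ⁴`, `‖e w‖ ≤ 1/10`), and the segment from `w` to `ṽ` lies in the region of
`hB`: `‖v‖ ≥ δ - 20δ² ≥ δ/2`, `‖v‖ ≤ 3δ`, `Im ṽ = δ²/‖1 + e w‖² ∈ [δ²/2, 2δ²]`, `Re ṽ = (u + e‖w‖²)/‖1 + e w‖² ≤ 0` (convex combinations for `Re`,
`Im`).  So `‖G ṽ - G w‖ ≤ B 20 δ²` (`Convex.norm_image_sub_le_of_norm_hasDerivWithin_le` on the segment, or the mean value inequality).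
-/

set_option autoImplicit false

namespace H25.QE

open Complex Pool.Agent.H11.SC

/-- the rectangle -/
private def sre (δ : ℝ) : Set ℂ :=
  {v : ℂ | (-(29 / 10) * δ ≤ v.re ∧ v.re ≤ -δ / 2) ∧ (δ ^ 2 / 2 ≤ v.im ∧ v.im ≤ 2 * δ ^ 2)}

private theorem sre_conv (δ : ℝ) : Convex ℝ (sre δ) := by
  intro x hx y hy a b ha hb hab
  obtain ⟨⟨x1, x2⟩, x3, x4⟩ := hx
  obtain ⟨⟨y1, y2⟩, y3, y4⟩ := hy
  have hb' : b = 1 - a := by linarith
  subst hb'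
  refine ⟨⟨?_, ?_⟩, ?_, ?_⟩
  · simp only [Complex.add_re, Complex.real_smul, Complex.re_ofReal_mul]
    nlinarith
  · simp only [Complex.add_re, Complex.real_smul, Complex.re_ofReal_mul]
    nlinarith
  · simp only [Complex.add_im, Complex.real_smul, Complex.im_ofReal_mul]
    nlinarith
  · simp only [Complex.add_im, Complex.real_smul, Complex.im_ofReal_mul]
    nlinarith

private theorem sre_im {δ : ℝ} (h0 : 0 < δ) {v : ℂ} (h : v ∈ sre δ) : 0 < v.im := by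
  have h1 := h.2.1
  have h2 : 0 < δ ^ 2 / 2 := by positivity
  linarith

private theorem sre_norm {δ : ℝ} (h0 : 0 < δ) (h1 : δ ≤ 1 / 100) {v : ℂ} (h : v ∈ sre δ) :
    δ / 2 ≤ ‖v‖ ∧ ‖v‖ ≤ 3 * δ := by
  have him0 := sre_im h0 h
  obtain ⟨⟨h2, h3⟩, h4, h5⟩ := h
  have hn : ‖v‖ ^ 2 = v.re ^ 2 + v.im ^ 2 := by
    rw [Complex.sq_norm, Complex.normSq_apply]
    ring
  have hδ2 : δ ^ 2 ≤ 1 / 10000 := by nlinarith
  have him : v.im ^ 2 ≤ (4 / 10000) * δ ^ 2 := by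
    have h7 : 0 < δ ^ 2 := by positivity
    have h8 : v.im ^ 2 ≤ (2 * δ ^ 2) ^ 2 := pow_le_pow_left₀ him0.le h5 2
    nlinarith
  constructor
  · refine (le_abs_self _).trans (abs_le_of_sq_le_sq ?_ (norm_nonneg _))
    rw [hn]
    nlinarith [sq_nonneg v.im]
  · refine (le_abs_self _).trans (abs_le_of_sq_le_sq ?_ (by linarith))
    rw [hn]
    nlinarith

private theorem sre_ball {δ : ℝ} (h0 : 0 < δ) (h1 : δ ≤ 1 / 100) {v : ℂ} (h : v ∈ sre δ) :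
    v ∈ Metric.ball (((-(3 / 2) * δ : ℝ) : ℂ) + (5 : ℝ) * I) 5 := by
  have him0 := sre_im h0 h
  obtain ⟨⟨h2, h3⟩, h4, h5⟩ := h
  have h7 : 0 < δ ^ 2 := by positivity
  have hδ2 : δ ^ 2 ≤ 1 / 10000 := by nlinarith
  have him : v.im ^ 2 ≤ (4 / 10000) * δ ^ 2 := by
    have h8 : v.im ^ 2 ≤ (2 * δ ^ 2) ^ 2 := pow_le_pow_left₀ him0.le h5 2
    nlinarith
  rw [Metric.mem_ball, Complex.dist_eq]
  refine lt_of_pow_lt_pow_left₀ 2 (by norm_num) ?_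
  rw [Complex.sq_norm, Complex.normSq_apply]
  simp only [Complex.sub_re, Complex.sub_im, Complex.add_re, Complex.add_im, Complex.ofReal_re,
    Complex.ofReal_im, Complex.re_ofReal_mul, Complex.im_ofReal_mul, Complex.I_re, Complex.I_im]
  nlinarith

private theorem ball_im {δ : ℝ} {v : ℂ}
    (h : v ∈ Metric.ball (((-(3 / 2) * δ : ℝ) : ℂ) + (5 : ℝ) * I) 5) : 0 < v.im := by
  rw [Metric.mem_ball, Complex.dist_eq] at h
  have h1 := (Complex.abs_im_le_norm _).trans_lt h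
  simp only [Complex.sub_im, Complex.add_im, Complex.ofReal_im, Complex.im_ofReal_mul,
    Complex.I_im] at h1
  rw [abs_lt] at h1
  linarith [h1.1]

private theorem pw_re' (δ u : ℝ) : (pw δ u).re = u := by
  unfold pw
  simp only [Complex.add_re, Complex.ofReal_re, Complex.re_ofReal_mul, Complex.I_re]
  ring

private theorem pw_im' (δ u : ℝ) : (pw δ u).im = δ ^ 2 := by
  unfold pw
  simp only [Complex.add_im, Complex.ofReal_im, Complex.im_ofReal_mul, Complex.I_im]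
  ring

private theorem pw_sre {δ u : ℝ} (h0 : 0 < δ) (h1 : -2 * δ ≤ u) (h2 : u ≤ -δ) : pw δ u ∈ sre δ := by
  have h3 : 0 < δ ^ 2 := by positivity
  refine ⟨⟨?_, ?_⟩, ?_, ?_⟩
  · rw [pw_re']
    linarith
  · rw [pw_re']
    linarith
  · rw [pw_im']
    linarith
  · rw [pw_im']
    linarith

private theorem q_nsq (e δ u : ℝ) : Complex.normSq (1 + (e : ℂ) * pw δ u) = (1 + e * u) ^ 2 + (e * δ ^ 2) ^ 2 := by
  rw [Complex.normSq_apply]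
  simp only [Complex.add_re, Complex.add_im, Complex.one_re, Complex.one_im, Complex.re_ofReal_mul,
    Complex.im_ofReal_mul, pw_re', pw_im']
  ring

private theorem num_bd {e δ u : ℝ} (he : e = 4 ∨ e = -4) (h0 : 0 < δ) (hδ : δ ≤ 1 / 100) (h1 : -2 * δ ≤ u) (h2 : u ≤ -δ) :
    (21 / 25 ≤ (1 + e * u) ^ 2 + (e * δ ^ 2) ^ 2 ∧ (1 + e * u) ^ 2 + (e * δ ^ 2) ^ 2 ≤ 117 / 100) ∧
      (-(217 / 100) * δ ≤ u + e * (u ^ 2 + δ ^ 4) ∧ u + e * (u ^ 2 + δ ^ 4) ≤ -(83 / 100) * δ) ∧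
      4 * (u ^ 2 + δ ^ 4) ≤ 17 * δ ^ 2 := by
  have h3 : 0 < δ ^ 2 := by positivity
  have h4 : δ ^ 2 ≤ 1 / 10000 := by nlinarith
  have h5 : δ ^ 4 ≤ (1 / 10000) * δ ^ 2 := by nlinarith
  have h5' : 0 < δ ^ 4 := by positivity
  have h6 : u ^ 2 ≤ 4 * δ ^ 2 := by nlinarith
  have h7 : δ ^ 2 ≤ (1 / 100) * δ := by nlinarith
  have h8 : (e * δ ^ 2) ^ 2 = 16 * δ ^ 4 := by
    rcases he with rfl | rfl <;> ring
  have h9 : -(8 / 100) ≤ e * u ∧ e * u ≤ 8 / 100 := by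
    rcases he with rfl | rfl <;> constructor <;> linarith
  have h10 : -((161 / 1000) * δ) ≤ e * (u ^ 2 + δ ^ 4) ∧ e * (u ^ 2 + δ ^ 4) ≤ (161 / 1000) * δ := by
    have h11 : 0 ≤ u ^ 2 := sq_nonneg _
    rcases he with rfl | rfl <;> constructor <;> nlinarith
  obtain ⟨h9a, h9b⟩ := h9
  obtain ⟨h10a, h10b⟩ := h10
  rw [h8]
  refine ⟨⟨?_, ?_⟩, ⟨?_, ?_⟩, ?_⟩
  · nlinarith
  · nlinarith
  · linarith
  · linarith
  · linarith

private theorem q_ne {e δ u : ℝ} (he : e = 4 ∨ e = -4) (h0 : 0 < δ) (hδ : δ ≤ 1 / 100) (h1 : -2 * δ ≤ u) (h2 : u ≤ -δ) :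
    (1 + (e : ℂ) * pw δ u) ≠ 0 := by
  intro h
  have h3 := q_nsq e δ u
  rw [h, map_zero] at h3
  have h4 := (num_bd he h0 hδ h1 h2).1.1
  linarith

private theorem q_sre {e δ u : ℝ} (he : e = 4 ∨ e = -4) (h0 : 0 < δ) (hδ : δ ≤ 1 / 100) (h1 : -2 * δ ≤ u) (h2 : u ≤ -δ) :
    pw δ u / (1 + (e : ℂ) * pw δ u) ∈ sre δ := by
  obtain ⟨⟨a1, a2⟩, ⟨a3, a4⟩, _⟩ := num_bd he h0 hδ h1 h2
  have hQ := q_nsq e δ u
  have hre : (pw δ u / (1 + (e : ℂ) * pw δ u)).re =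
      (u + e * (u ^ 2 + δ ^ 4)) / ((1 + e * u) ^ 2 + (e * δ ^ 2) ^ 2) := by
    rw [Complex.div_re, hQ]
    simp only [Complex.add_re, Complex.add_im, Complex.one_re, Complex.one_im, Complex.re_ofReal_mul,
      Complex.im_ofReal_mul, pw_re', pw_im']
    rw [← add_div]
    congr 1
    ring
  have him : (pw δ u / (1 + (e : ℂ) * pw δ u)).im =
      δ ^ 2 / ((1 + e * u) ^ 2 + (e * δ ^ 2) ^ 2) := by
    rw [Complex.div_im, hQ]
    simp only [Complex.add_re, Complex.add_im, Complex.one_re, Complex.one_im, Complex.re_ofReal_mul,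
      Complex.im_ofReal_mul, pw_re', pw_im']
    rw [← sub_div]
    congr 1
    ring
  have hQ0 : 0 < (1 + e * u) ^ 2 + (e * δ ^ 2) ^ 2 := by linarith
  have h3 : 0 < δ ^ 2 := by positivity
  refine ⟨⟨?_, ?_⟩, ?_, ?_⟩
  · rw [hre, le_div_iff₀ hQ0]
    nlinarith
  · rw [hre, div_le_iff₀ hQ0]
    nlinarith
  · rw [him, le_div_iff₀ hQ0]
    nlinarith
  · rw [him, div_le_iff₀ hQ0]
    nlinarith

private theorem q_diff {e δ u : ℝ} (he : e = 4 ∨ e = -4) (h0 : 0 < δ) (hδ : δ ≤ 1 / 100) (h1 : -2 * δ ≤ u) (h2 : u ≤ -δ) :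
    ‖pw δ u / (1 + (e : ℂ) * pw δ u) - pw δ u‖ ≤ 20 * δ ^ 2 := by
  obtain ⟨⟨a1, a2⟩, _, a5⟩ := num_bd he h0 hδ h1 h2
  have hq := q_ne he h0 hδ h1 h2
  have h3 : pw δ u / (1 + (e : ℂ) * pw δ u) - pw δ u = -(e : ℂ) * pw δ u ^ 2 / (1 + (e : ℂ) * pw δ u) := by
    rw [eq_div_iff hq, sub_mul, div_mul_cancel₀ _ hq]
    ring
  have h4 : ‖(e : ℂ)‖ = 4 := by
    rw [Complex.norm_real]
    rcases he with rfl | rfl <;> norm_num
  have h5 : ‖pw δ u‖ ^ 2 = u ^ 2 + δ ^ 4 := by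
    rw [Complex.sq_norm, Complex.normSq_apply, pw_re', pw_im']
    ring
  have h6 : 9 / 10 ≤ ‖1 + (e : ℂ) * pw δ u‖ := by
    refine (le_abs_self _).trans (abs_le_of_sq_le_sq ?_ (norm_nonneg _))
    rw [Complex.sq_norm, q_nsq]
    norm_num
    linarith
  have h7 : 0 < ‖1 + (e : ℂ) * pw δ u‖ := by linarith
  rw [h3, norm_div, norm_mul, norm_neg, h4, norm_pow, h5, div_le_iff₀ h7]
  have h8 : 0 < δ ^ 2 := by positivity
  nlinarith

private theorem pw_deriv (δ u : ℝ) : HasDerivAt (fun u : ℝ => pw δ u) 1 u := by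
  unfold pw
  have h1 : HasDerivAt (fun u : ℝ => (u : ℂ)) 1 u := Complex.ofRealCLM.hasDerivAt
  exact h1.add_const _

theorem shift_path (Φ : ℂ → ℂ) (hΦ : DifferentiableOn ℂ Φ {z : ℂ | 0 < z.im}) (δ : ℝ) (h0 : 0 < δ) (h1 : δ ≤ 1 / 100)
    (B : ℝ) (hB : ∀ v : ℂ, δ / 2 ≤ ‖v‖ → ‖v‖ ≤ 3 * δ → δ ^ 2 / 2 ≤ v.im → v.im ≤ 2 * δ ^ 2 → v.re ≤ 0 → ‖Φ v‖ ≤ B)
    (e : ℝ) (he : e = 4 ∨ e = -4) :
    ‖(∫ u in (-2 * δ)..(-δ), Φ (pw δ u / (1 + e * pw δ u)) * (1 / (1 + e * pw δ u) ^ 2)) -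
      ∫ u in (-2 * δ)..(-δ), Φ (pw δ u)‖ ≤ 40 * B * δ ^ 2 := by
  classical
  have hle : -2 * δ ≤ -δ := by linarith
  have hu : ∀ u ∈ Set.uIcc (-2 * δ) (-δ), -2 * δ ≤ u ∧ u ≤ -δ := by
    intro u hu
    rw [Set.uIcc_of_le hle, Set.mem_Icc] at hu
    exact hu
  have hdiff : DifferentiableOn ℂ Φ (Metric.ball (((-(3 / 2) * δ : ℝ) : ℂ) + (5 : ℝ) * I) 5) :=
    hΦ.mono fun v hv => ball_im hv
  obtain ⟨G, hG⟩ := hdiff.isExactOn_ball
  have hpc : Continuous fun u : ℝ => pw δ u := by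
    unfold pw
    fun_prop
  have hw1 : ∀ u ∈ Set.uIcc (-2 * δ) (-δ), HasDerivAt (fun u : ℝ => G (pw δ u)) (Φ (pw δ u)) u := by
    intro u hu'
    obtain ⟨b1, b2⟩ := hu u hu'
    have h2 := hG _ (sre_ball h0 h1 (pw_sre h0 b1 b2))
    have h3 := h2.comp u (pw_deriv δ u)
    rw [mul_one] at h3
    exact h3
  have hw2 : ∀ u ∈ Set.uIcc (-2 * δ) (-δ), HasDerivAt (fun u : ℝ => G (pw δ u / (1 + e * pw δ u)))
      (Φ (pw δ u / (1 + e * pw δ u)) * (1 / (1 + e * pw δ u) ^ 2)) u := by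
    intro u hu'
    obtain ⟨b1, b2⟩ := hu u hu'
    have hq := q_ne he h0 h1 b1 b2
    have h2 := hG _ (sre_ball h0 h1 (q_sre he h0 h1 b1 b2))
    have h4 : HasDerivAt (fun u : ℝ => pw δ u / (1 + (e : ℂ) * pw δ u)) (1 / (1 + (e : ℂ) * pw δ u) ^ 2) u := by
      have h5 := (pw_deriv δ u).div (((pw_deriv δ u).const_mul (e : ℂ)).const_add 1) hq
      have h6 : (1 * (1 + (e : ℂ) * pw δ u) - pw δ u * ((e : ℂ) * 1)) / (1 + (e : ℂ) * pw δ u) ^ 2 =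
          1 / (1 + (e : ℂ) * pw δ u) ^ 2 := by
        congr 1
        ring
      rw [h6] at h5
      exact h5
    exact h2.comp u h4
  have hc1 : ContinuousOn (fun u : ℝ => Φ (pw δ u)) (Set.uIcc (-2 * δ) (-δ)) := by
    refine hΦ.continuousOn.comp hpc.continuousOn fun u hu' => ?_
    obtain ⟨b1, b2⟩ := hu u hu'
    exact sre_im h0 (pw_sre h0 b1 b2)
  have hq0 : ∀ u ∈ Set.uIcc (-2 * δ) (-δ), (1 + (e : ℂ) * pw δ u) ≠ 0 := fun u hu' =>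
    q_ne he h0 h1 (hu u hu').1 (hu u hu').2
  have hqc : ContinuousOn (fun u : ℝ => 1 + (e : ℂ) * pw δ u) (Set.uIcc (-2 * δ) (-δ)) :=
    (continuous_const.add (continuous_const.mul hpc)).continuousOn
  have hc2 : ContinuousOn (fun u : ℝ => Φ (pw δ u / (1 + e * pw δ u)) * (1 / (1 + e * pw δ u) ^ 2))
      (Set.uIcc (-2 * δ) (-δ)) := by
    refine ContinuousOn.mul ?_ ?_
    · refine hΦ.continuousOn.comp (hpc.continuousOn.div hqc hq0) fun u hu' => ?_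
      obtain ⟨b1, b2⟩ := hu u hu'
      exact sre_im h0 (q_sre he h0 h1 b1 b2)
    · exact continuousOn_const.div (hqc.pow 2) fun u hu' => pow_ne_zero 2 (hq0 u hu')
  rw [intervalIntegral.integral_eq_sub_of_hasDerivAt hw2 hc2.intervalIntegrable,
    intervalIntegral.integral_eq_sub_of_hasDerivAt hw1 hc1.intervalIntegrable]
  have hend : ∀ u : ℝ, -2 * δ ≤ u → u ≤ -δ →
      ‖G (pw δ u / (1 + e * pw δ u)) - G (pw δ u)‖ ≤ B * (20 * δ ^ 2) := by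
    intro u b1 b2
    have hb : ∀ v ∈ sre δ, ‖Φ v‖ ≤ B := by
      intro v hv
      obtain ⟨n1, n2⟩ := sre_norm h0 h1 hv
      have hv' := hv
      obtain ⟨⟨c1, c2⟩, c3, c4⟩ := hv'
      exact hB v n1 n2 c3 c4 (by linarith)
    have hB0 : 0 ≤ B := (norm_nonneg _).trans (hb _ (pw_sre h0 b1 b2))
    have h3 := Convex.norm_image_sub_le_of_norm_hasDerivWithin_le (s := sre δ) (f := G) (f' := Φ) (C := B)
      (fun v hv => (hG v (sre_ball h0 h1 hv)).hasDerivWithinAt) hb (sre_conv δ)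
      (pw_sre h0 b1 b2) (q_sre he h0 h1 b1 b2)
    exact h3.trans (mul_le_mul_of_nonneg_left (q_diff he h0 h1 b1 b2) hB0)
  have e1 := hend (-δ) hle le_rfl
  have e2 := hend (-2 * δ) le_rfl hle
  have h3 : ∀ a b c d : ℂ, a - b - (c - d) = (a - c) - (b - d) := fun a b c d => by ring
  rw [h3]
  refine (norm_sub_le _ _).trans ?_
  linarith

end H25.QE
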