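import Pool.Agent.H25.QE.Pt
import Pool.Agent.H25.QE.Sh
import Pool.Agent.H25.QE.Lg
import Pool.Agent.H11.SC5.AsymAux
import Pool.Agent.H11.SC5.Lim

/-!
# QE-LF: the left side, `q = 8`

`e = 4`, sign `+` (`left_plus`), `e = -4`, sign `-` (`left_minus`); `w = pw δ u`, `z = w ± 1/4`, `w̃ = w/(1 + e w)`.
(1) `h.bound` at `z` (`Re z ≥ 0` for `+`: constant `ωp`; `Re z ≤ 0` for `-`: `ωm`; `Im z = δ² ≤ 100 ‖z‖²`, `‖z‖ ≤ 2`):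
`‖ff a z - ω JJ 8 z ff (cj a) (-1/(8z))‖ ≤ C δ^(-13/2)`; multiplied by `‖(JJ 8 w)⁻¹‖ ≤ C δ^7` (`JJ_inv`), `‖KK‖ ≤ C δ^(-2)` (`KK_bound`) and integrated
over a length `δ`: error `C δ^(-1/2)`.
(2) EXACT: `-1/(8z) = 2 w̃ ∓ 1/2` (`z = (1/4)(±1)(1 + e w)`; both `ff (cj a) (2w̃ ∓ 1/2) = ff (cj a) (2w̃ + 1/2) = g w̃` by `ff_per`),
`z w̃ = ± w/4`, so `JJ 8 z JJ 8 w̃ = ((√8)² (-i)² (± w/4))^(-7) = (∓ 2 w)^(-7)` and `(JJ 8 w)⁻¹ JJ 8 z = (JJ 8 w̃)⁻¹ (√8 (-i w)/(∓ 2 w))^7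
= (JJ 8 w̃)⁻¹ (± i √2)^7 = ∓ 8 √2 i (JJ 8 w̃)⁻¹` (`i^7 = -i`).
`-1/(8w) = -1/(8 w̃) ± 1/2`, so `KK 8 ν δ u = ee (-(± ν/2)) ee (-(ν (-1/(8w̃)))) /(8 w̃²) · 1/(1 + e w)²` (`1/(8w²) = 1/(8w̃²) · 1/(1 + e w)²`).
So with `Φ v = (JJ 8 v)⁻¹ g v ee (-(ν (-1/(8 v))))/(8 v²)` the main part is
`∓ 8 √2 i ω ee (∓ ν/2) ∫ Φ (w̃) /(1 + e w)² du`, and `∫ Φ (pw δ u) du = ∫ (JJ 8 w)⁻¹ g w KK 8 ν δ u du`.
(3) `shift_path`: `Φ` is holomorphic (`gs_diff` in `H11/SC/PInt.lean`), and by `pt_bound` (for `g = ff (cj a) (2v + 1/2)`, see `tr_g`;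
`CStep (cj a)` by `h.conj`) `‖Φ v‖ ≤ C δ^7 · K δ^(-7-s) · e^(2πν) · C δ^(-2) = C δ^(-2-s)` (`Im (-1/(8v)) = Im v/(8‖v‖²) ≤ 1`).
Error `C δ^(-s)`, `s < 1`.  Take `s` at least `1/2`.
-/

set_option autoImplicit false

namespace H25.QE

open Complex Pool.Agent.H11.SC

private theorem lf_diff {b : ℕ → ℂ} (hb : ∃ C : ℝ, ∀ n : ℕ, 1 ≤ n → ‖b n‖ ≤ C * (n : ℝ) ^ (1 : ℝ)) :
    DifferentiableOn ℂ (ff b) {z : ℂ | 0 < z.im} := by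
  have h1 := gs_diff b hb 3 (by norm_num)
  have h2 : DifferentiableOn ℂ (fun z : ℂ => -(I * z)) {z : ℂ | 0 < z.im} := by fun_prop
  exact h1.comp h2 (fun z hz => by
    have h3 : 0 < z.im := hz
    simpa using h3)

/-- the integrand -/
private noncomputable def Ph (b : ℕ → ℂ) (ν : ℝ) (v : ℂ) : ℂ :=
  (JJ 8 v)⁻¹ * ff b (2 * v + 1 / 2) * (ee (-(ν * (-1 / (((8 : ℝ) : ℂ) * v)))) / (((8 : ℝ) : ℂ) * v ^ 2))

private theorem lf_phi (b : ℕ → ℂ) (ν δ u : ℝ) :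
    Ph b ν (pw δ u) = (JJ 8 (pw δ u))⁻¹ * ff b (2 * pw δ u + 1 / 2) * KK 8 ν δ u := rfl

private theorem lf_im_ne {z : ℂ} (hz : 0 < z.im) : z ≠ 0 := by
  intro h
  rw [h, zero_im] at hz
  exact lt_irrefl _ hz

private theorem lf_phi_diff {b : ℕ → ℂ} (hb : ∃ C : ℝ, ∀ n : ℕ, 1 ≤ n → ‖b n‖ ≤ C * (n : ℝ) ^ (1 : ℝ)) (ν : ℝ) :
    DifferentiableOn ℂ (Ph b ν) {z : ℂ | 0 < z.im} := by
  have h1 : DifferentiableOn ℂ (fun v : ℂ => (JJ 8 v)⁻¹) {z : ℂ | 0 < z.im} := by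
    unfold JJ
    simp only [inv_inv]
    fun_prop
  have h2 : DifferentiableOn ℂ (fun v : ℂ => ff b (2 * v + 1 / 2)) {z : ℂ | 0 < z.im} := by
    have h3 : DifferentiableOn ℂ (fun z : ℂ => 2 * z + 1 / 2) {z : ℂ | 0 < z.im} := by fun_prop
    refine (lf_diff hb).comp h3 (fun z hz => ?_)
    have h4 : 0 < z.im := hz
    show 0 < (2 * z + 1 / 2).im
    have h5 : (2 * z + 1 / 2).im = 2 * z.im := by
      have h6 : (2 * z + 1 / 2 : ℂ) = ((2 : ℝ) : ℂ) * z + ((1 / 2 : ℝ) : ℂ) := by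
        push_cast
        ring
      rw [h6, add_im, im_ofReal_mul, ofReal_im, add_zero]
    rw [h5]
    linarith
  have hne : ∀ z ∈ {z : ℂ | 0 < z.im}, ((8 : ℝ) : ℂ) * z ≠ 0 := by
    intro z hz
    refine mul_ne_zero (by norm_num) (lf_im_ne hz)
  have h3 : DifferentiableOn ℂ (fun v : ℂ => ee (-(ν * (-1 / (((8 : ℝ) : ℂ) * v))))) {z : ℂ | 0 < z.im} := by
    unfold ee
    refine DifferentiableOn.cexp ?_
    refine DifferentiableOn.const_mul ?_ _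
    refine DifferentiableOn.neg ?_
    refine DifferentiableOn.const_mul ?_ _
    exact (differentiableOn_const _).div (by fun_prop) hne
  have h4 : DifferentiableOn ℂ (fun v : ℂ => ee (-(ν * (-1 / (((8 : ℝ) : ℂ) * v)))) /
      (((8 : ℝ) : ℂ) * v ^ 2)) {z : ℂ | 0 < z.im} := by
    refine h3.div (by fun_prop) fun z hz => ?_
    exact mul_ne_zero (by norm_num) (pow_ne_zero 2 (lf_im_ne hz))
  exact (h1.mul h2).mul h4

private theorem lf_ee_add (x y : ℂ) : ee (x + y) = ee x * ee y := by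
  unfold ee
  rw [← Complex.exp_add]
  congr 1
  ring

private theorem lf_D {e : ℝ} (he : e = 4 ∨ e = -4) {w : ℂ} (hw : 0 < w.im) : 1 + (e : ℂ) * w ≠ 0 := by
  intro h
  have h1 := congrArg Complex.im h
  rw [add_im, one_im, zero_add, im_ofReal_mul, zero_im] at h1
  rcases mul_eq_zero.1 h1 with h2 | h2
  · rcases he with h3 | h3 <;> rw [h3] at h2 <;> norm_num at h2
  · linarith

private theorem lf_J (e : ℂ) (he2 : e ^ 2 = 16) (w D : ℂ) (he0 : e ≠ 0) (hw : w ≠ 0) (hD : D ≠ 0) :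
    (JJ 8 w)⁻¹ * JJ 8 (D / e) = -(2 * ((Real.sqrt 2 : ℝ) : ℂ) * I * e) * (JJ 8 (w / D))⁻¹ := by
  have hs : Real.sqrt 8 = 2 * Real.sqrt 2 := by
    have h1 : (8 : ℝ) = 2 ^ 2 * 2 := by norm_num
    rw [h1, Real.sqrt_mul (by norm_num), Real.sqrt_sq (by norm_num)]
  obtain ⟨t, ht⟩ : ∃ t : ℂ, t = ((Real.sqrt 2 : ℝ) : ℂ) := ⟨_, rfl⟩
  have ht2 : t ^ 2 = 2 := by
    rw [ht]
    have := Real.sq_sqrt (show (0 : ℝ) ≤ 2 by norm_num)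
    exact_mod_cast this
  have ht0 : t ≠ 0 := by
    rintro rfl
    norm_num at ht2
  have hr : ((Real.sqrt 8 : ℝ) : ℂ) = 2 * t := by
    rw [hs, ht]
    push_cast
    rfl
  unfold JJ
  rw [inv_inv, inv_inv, hr, ← ht]
  have h1 : (2 * t * -(I * w)) ^ 7 * ((2 * t * -(I * (D / e))) ^ 7)⁻¹ = (e * (w / D)) ^ 7 := by
    rw [← div_eq_mul_inv, ← div_pow]
    congr 1
    have hI := I_ne_zero
    field_simp
  rw [h1]
  obtain ⟨x, hx⟩ : ∃ x : ℂ, x = w / D := ⟨_, rfl⟩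
  rw [← hx]
  have e7 : e ^ 7 = 4096 * e := by
    have : e ^ 7 = (e ^ 2) ^ 3 * e := by ring
    rw [this, he2]
    norm_num
  have t7 : t ^ 7 = 8 * t := by
    have : t ^ 7 = (t ^ 2) ^ 3 * t := by ring
    rw [this, ht2]
    norm_num
  have i7 : (-I) ^ 7 = I := by
    have h2 : (-I) ^ 7 = -(I ^ 2) ^ 3 * I := by ring
    rw [h2, I_sq]
    ring
  have h3 : (2 * t * -(I * x)) ^ 7 = 128 * t ^ 7 * (-I) ^ 7 * x ^ 7 := by ring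
  rw [h3, t7, i7, mul_pow, e7]
  have h4 : -(2 * t * I * e) * (128 * (8 * t) * I * x ^ 7) = -(2048 * t ^ 2 * I ^ 2 * e * x ^ 7) := by ring
  rw [h4, ht2, I_sq]
  ring

private theorem lf_exact (b : ℕ → ℂ) (ν e : ℝ) (he : e = 4 ∨ e = -4) (ω w : ℂ) (hw : 0 < w.im) :
    (JJ 8 w)⁻¹ * (ω * JJ 8 (w + 1 / e) * ff b (-1 / (((8 : ℝ) : ℂ) * (w + 1 / e)))) *
      (ee (-(ν * (-1 / (((8 : ℝ) : ℂ) * w)))) / (((8 : ℝ) : ℂ) * w ^ 2)) =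
    (-(2 * ((Real.sqrt 2 : ℝ) : ℂ) * I * e) * ω * ee (-(ν * e / 8))) *
      (Ph b ν (w / (1 + e * w)) * (1 / (1 + e * w) ^ 2)) := by
  have he0 : (e : ℂ) ≠ 0 := by
    rcases he with h | h <;> rw [h] <;> norm_num
  have he2 : (e : ℂ) ^ 2 = 16 := by
    rcases he with h | h <;> rw [h] <;> norm_num
  have hw0 := lf_im_ne hw
  have hD := lf_D he hw
  have h8 : ((8 : ℝ) : ℂ) = 8 := by push_cast; rfl
  obtain ⟨D, hDD⟩ : ∃ D : ℂ, D = 1 + (e : ℂ) * w := ⟨_, rfl⟩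
  rw [← hDD] at hD ⊢
  have hz : w + 1 / (e : ℂ) = D / e := by
    rw [hDD]
    field_simp
    ring
  have hff : ff b (-1 / (((8 : ℝ) : ℂ) * (D / e))) = ff b (2 * (w / D) + 1 / 2) := by
    have h1 : -1 / (((8 : ℝ) : ℂ) * (D / e)) = 2 * (w / D) - (e : ℂ) / 8 := by
      rw [h8]
      field_simp
      rw [hDD]
      linear_combination w * he2
    rw [h1]
    rcases he with h | h
    · rw [h, ← ff_per b (2 * (w / D) - ((4 : ℝ) : ℂ) / 8)]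
      congr 1
      push_cast
      ring
    · rw [h]
      congr 1
      push_cast
      ring
  have hE : ee (-(ν * (-1 / (((8 : ℝ) : ℂ) * w)))) =
      ee (-(ν * e / 8)) * ee (-(ν * (-1 / (((8 : ℝ) : ℂ) * (w / D))))) := by
    rw [← lf_ee_add]
    congr 1
    rw [h8]
    field_simp
    rw [hDD]
    ring
  rw [hz, hff, hE]
  unfold Ph
  have hJ := lf_J e he2 w D he0 hw0 hD
  have h9 : (JJ 8 w)⁻¹ * (ω * JJ 8 (D / ↑e) * ff b (2 * (w / D) + 1 / 2)) =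
      ω * ((JJ 8 w)⁻¹ * JJ 8 (D / e)) * ff b (2 * (w / D) + 1 / 2) := by ring
  rw [h9, hJ, h8]
  field_simp

private theorem lf_bound {a c : ℕ → ℂ} {ωm ωp : ℂ} (hl : Loc2 a c) (h : CStep 8 a ωm ωp) (ham : Ram a) (ν : ℝ)
    (hν : 0 ≤ ν) : ∃ K s : ℝ, 0 ≤ K ∧ 0 < s ∧ s < 1 ∧ ∀ δ : ℝ, 0 < δ → δ ≤ 1 / 10 → ∀ v : ℂ, δ / 2 ≤ ‖v‖ →
      ‖v‖ ≤ 3 * δ → δ ^ 2 / 2 ≤ v.im → v.im ≤ 2 * δ ^ 2 → v.re ≤ 0 → ‖Ph (cj a) ν v‖ ≤ K * δ ^ (-(2 + s)) := by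
  obtain ⟨K, s, hK, hs0, hs1, hb⟩ := pt_bound (by norm_num) h.conj ham.cj (lb_gL hl) (tr_g hl ham.one)
  refine ⟨(Real.sqrt 8 * 3) ^ 7 * K * (Real.exp (2 * Real.pi * ν) / 2), s, by positivity, hs0, hs1,
    fun δ h0 h1 v h2 h3 h4 h5 h6 => ?_⟩
  have h7 := hb δ h0 h1 v h2 h3 h4 h5 h6
  have hv0 : 0 < ‖v‖ := lt_of_lt_of_le (by linarith) h2
  have hvim : 0 < v.im := lt_of_lt_of_le (by positivity) h4
  have hJ : ‖(JJ 8 v)⁻¹‖ ≤ (Real.sqrt 8 * 3) ^ 7 * δ ^ 7 := by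
    rw [norm_inv, aa_norm_JJ, inv_inv, ← mul_pow]
    refine pow_le_pow_left₀ (by positivity) ?_ 7
    rw [mul_assoc]
    exact mul_le_mul_of_nonneg_left h3 (Real.sqrt_nonneg _)
  have hE : ‖ee (-(ν * (-1 / (((8 : ℝ) : ℂ) * v))))‖ ≤ Real.exp (2 * Real.pi * ν) := by
    unfold ee
    rw [Complex.norm_exp]
    have e1 : 2 * (Real.pi : ℂ) * I * (-((ν : ℂ) * (-1 / (((8 : ℝ) : ℂ) * v)))) =
        ((2 * Real.pi * ν / 8 : ℝ) : ℂ) * (I * v⁻¹) := by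
      push_cast
      rw [neg_div, one_div, mul_inv]
      ring
    rw [e1, Complex.re_ofReal_mul, Complex.I_mul_re, Complex.inv_im, Complex.normSq_eq_norm_sq, neg_div, neg_neg]
    apply Real.exp_le_exp.2
    have h8 : v.im / ‖v‖ ^ 2 ≤ 8 := by
      rw [div_le_iff₀ (by positivity)]
      have h9 : (δ / 2) ^ 2 ≤ ‖v‖ ^ 2 := pow_le_pow_left₀ (by positivity) h2 2
      nlinarith
    have h9 : 0 ≤ 2 * Real.pi * ν / 8 := by positivity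
    calc 2 * Real.pi * ν / 8 * (v.im / ‖v‖ ^ 2) ≤ 2 * Real.pi * ν / 8 * 8 := mul_le_mul_of_nonneg_left h8 h9
      _ = 2 * Real.pi * ν := by ring
  have hden : ‖((8 : ℝ) : ℂ) * v ^ 2‖ = 8 * ‖v‖ ^ 2 := by
    rw [norm_mul, norm_pow, Complex.norm_real]
    norm_num
  have hEd : ‖ee (-(ν * (-1 / (((8 : ℝ) : ℂ) * v)))) / (((8 : ℝ) : ℂ) * v ^ 2)‖ ≤
      Real.exp (2 * Real.pi * ν) / 2 * δ ^ (-2 : ℝ) := by
    rw [norm_div, hden]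
    have h9 : (δ / 2) ^ 2 ≤ ‖v‖ ^ 2 := pow_le_pow_left₀ (by positivity) h2 2
    have h10 : 2 * δ ^ 2 ≤ 8 * ‖v‖ ^ 2 := by nlinarith
    calc ‖ee (-(ν * (-1 / (((8 : ℝ) : ℂ) * v))))‖ / (8 * ‖v‖ ^ 2) ≤ Real.exp (2 * Real.pi * ν) / (2 * δ ^ 2) :=
          div_le_div₀ (Real.exp_pos _).le hE (by positivity) h10
      _ = Real.exp (2 * Real.pi * ν) / 2 * δ ^ (-2 : ℝ) := by
          rw [Real.rpow_neg h0.le, Real.rpow_ofNat]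
          field_simp
  unfold Ph
  rw [norm_mul, norm_mul]
  calc ‖(JJ 8 v)⁻¹‖ * ‖ff (cj a) (2 * v + 1 / 2)‖ *
        ‖ee (-(ν * (-1 / (((8 : ℝ) : ℂ) * v)))) / (((8 : ℝ) : ℂ) * v ^ 2)‖
      ≤ ((Real.sqrt 8 * 3) ^ 7 * δ ^ 7) * (K * δ ^ (-(7 + s))) *
        (Real.exp (2 * Real.pi * ν) / 2 * δ ^ (-2 : ℝ)) := by
        have h11 : 0 ≤ δ ^ (-(7 + s)) := Real.rpow_nonneg h0.le _
        gcongr
    _ = (Real.sqrt 8 * 3) ^ 7 * K * (Real.exp (2 * Real.pi * ν) / 2) *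
        (δ ^ 7 * δ ^ (-(7 + s)) * δ ^ (-2 : ℝ)) := by ring
    _ = (Real.sqrt 8 * 3) ^ 7 * K * (Real.exp (2 * Real.pi * ν) / 2) * δ ^ (-(2 + s)) := by
        congr 1
        rw [← Real.rpow_natCast δ 7, ← Real.rpow_add h0, ← Real.rpow_add h0]
        congr 1
        push_cast
        ring

private theorem lf_gen {a c : ℕ → ℂ} {ωm ωp : ℂ} (hl : Loc2 a c) (h : CStep 8 a ωm ωp) (ham : Ram a) (ν : ℝ)
    (hν : 0 ≤ ν) (e : ℝ) (he : e = 4 ∨ e = -4) (ω : ℂ)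
    (hb : ∃ C : ℝ, ∀ z : ℂ, 0 < z.im → z.im ≤ 1 → ‖z‖ ≤ 2 → z.im ≤ 100 * ‖z‖ ^ 2 → 0 ≤ e * z.re →
      ‖ff a z - ω * JJ 8 z * ff (cj a) (-1 / (((8 : ℝ) : ℂ) * z))‖ ≤ C * z.im ^ (-(13 / 4) : ℝ)) :
    ∃ K s : ℝ, 0 ≤ K ∧ s < 1 ∧ ∀ δ : ℝ, 0 < δ → δ ≤ 1 / 1000 →
    ‖(∫ u in (-2 * δ)..(-δ), (JJ 8 (pw δ u))⁻¹ * ff a (pw δ u + 1 / e) * KK 8 ν δ u) -
      (-(2 * ((Real.sqrt 2 : ℝ) : ℂ) * I * e) * ω * ee (-(ν * e / 8))) *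
        ∫ u in (-2 * δ)..(-δ), (JJ 8 (pw δ u))⁻¹ * ff (cj a) (2 * pw δ u + 1 / 2) * KK 8 ν δ u‖ ≤
      K * δ ^ (-s) := by
  obtain ⟨C, hC⟩ := hb
  obtain ⟨KP, s, hKP, hs0, hs1, hP⟩ := lf_bound hl h ham ν hν
  obtain ⟨κ, hκ⟩ : ∃ κ : ℂ, κ = -(2 * ((Real.sqrt 2 : ℝ) : ℂ) * I * e) * ω * ee (-(ν * e / 8)) := ⟨_, rfl⟩
  rw [← hκ]
  have he4 : |e| = 4 := by
    rcases he with h1 | h1 <;> rw [h1] <;> norm_num
  have hen : ‖(e : ℂ)‖ = 4 := by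
    rw [Complex.norm_real, Real.norm_eq_abs, he4]
  have he0 : e ≠ 0 := by
    rcases he with h1 | h1 <;> rw [h1] <;> norm_num
  have hee : e * e = 16 := by
    rcases he with h1 | h1 <;> rw [h1] <;> norm_num
  obtain ⟨K1, hK1⟩ : ∃ K1 : ℝ, K1 = (Real.sqrt 8 * (21 / 10)) ^ 7 * |C| * (Real.exp (2 * Real.pi * ν / 8) / 8) :=
    ⟨_, rfl⟩
  have hK10 : 0 ≤ K1 := by
    rw [hK1]
    positivity
  refine ⟨K1 + ‖κ‖ * (40 * KP), max s (1 / 2), by positivity, max_lt hs1 (by norm_num), fun δ h0 h1 => ?_⟩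
  have h10 : δ ≤ 1 / 10 := by linarith
  have hle : -2 * δ ≤ -δ := by linarith
  have hpim : ∀ u : ℝ, 0 < (pw δ u).im := fun u => by
    rw [pw_im]
    positivity
  have hpwc := lim_pw_cont δ
  -- the point
  have hwtim : ∀ u : ℝ, 0 < (pw δ u / (1 + e * pw δ u)).im := by
    intro u
    have hD := lf_D he (hpim u)
    rw [aa_im]
    refine div_pos ?_ (Complex.normSq_pos.2 hD)
    rw [add_re, one_re, re_ofReal_mul, add_im, one_im, im_ofReal_mul]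
    have h2 : (pw δ u).im * (1 + e * (pw δ u).re) - (pw δ u).re * (0 + e * (pw δ u).im) = (pw δ u).im := by ring
    rw [h2]
    exact hpim u
  have hcj1 : ∃ C : ℝ, ∀ n : ℕ, 1 ≤ n → ‖cj a n‖ ≤ C * (n : ℝ) ^ (1 : ℝ) := ham.cj.one
  have hPd := lf_phi_diff hcj1 ν
  -- continuity
  have c1 : Continuous (fun u : ℝ => (JJ 8 (pw δ u))⁻¹ * ff a (pw δ u + 1 / e) * KK 8 ν δ u) := by
    have h2 : Continuous (fun u : ℝ => ff a (pw δ u + 1 / e)) := by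
      refine (ff_cont a ham.one).comp_continuous (by fun_prop) (fun u => ?_)
      show 0 < (pw δ u + 1 / (e : ℂ)).im
      have h3 : (1 / (e : ℂ)) = ((1 / e : ℝ) : ℂ) := by push_cast; rfl
      rw [h3, add_im, ofReal_im, add_zero]
      exact hpim u
    exact ((lim_JJ_cont 8 δ).mul h2).mul (KK_cont 8 ν δ (by norm_num) h0)
  have c2 : Continuous (fun u : ℝ => Ph (cj a) ν (pw δ u / (1 + e * pw δ u)) * (1 / (1 + e * pw δ u) ^ 2)) := by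
    have h2 : Continuous (fun u : ℝ => pw δ u / (1 + e * pw δ u)) :=
      hpwc.div (by fun_prop) fun u => lf_D he (hpim u)
    have h3 : Continuous (fun u : ℝ => Ph (cj a) ν (pw δ u / (1 + e * pw δ u))) :=
      hPd.continuousOn.comp_continuous h2 hwtim
    refine h3.mul (continuous_const.div (by fun_prop) fun u => ?_)
    exact pow_ne_zero 2 (lf_D he (hpim u))
  -- the first step
  have hstep1 : ‖(∫ u in (-2 * δ)..(-δ), (JJ 8 (pw δ u))⁻¹ * ff a (pw δ u + 1 / e) * KK 8 ν δ u) -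
      κ * ∫ u in (-2 * δ)..(-δ), Ph (cj a) ν (pw δ u / (1 + e * pw δ u)) * (1 / (1 + e * pw δ u) ^ 2)‖ ≤
      K1 * δ ^ (-(1 / 2) : ℝ) := by
    have c3 : Continuous (fun u : ℝ => κ * (Ph (cj a) ν (pw δ u / (1 + e * pw δ u)) *
        (1 / (1 + e * pw δ u) ^ 2))) := continuous_const.mul c2
    rw [← intervalIntegral.integral_const_mul, ← intervalIntegral.integral_sub (c1.intervalIntegrable _ _)
      (c3.intervalIntegrable _ _)]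
    have hbd := intervalIntegral.norm_integral_le_of_norm_le_const
      (f := fun u : ℝ => (JJ 8 (pw δ u))⁻¹ * ff a (pw δ u + 1 / e) * KK 8 ν δ u -
        κ * (Ph (cj a) ν (pw δ u / (1 + e * pw δ u)) * (1 / (1 + e * pw δ u) ^ 2)))
      (a := -2 * δ) (b := -δ) (C := K1 * δ ^ (-(3 / 2) : ℝ)) ?_
    · refine hbd.trans (le_of_eq ?_)
      have e1 : |(-δ) - (-2 * δ)| = δ := by
        rw [show (-δ) - (-2 * δ) = δ by ring, abs_of_pos h0]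
      rw [e1, mul_assoc]
      congr 1
      nth_rewrite 2 [← Real.rpow_one δ]
      rw [← Real.rpow_add h0]
      norm_num
    · intro u hu
      rw [Set.uIoc_of_le hle] at hu
      have hu' : u ∈ Set.Icc (-2 * δ) (-δ) := ⟨hu.1.le, hu.2⟩
      obtain ⟨hn1, hn2⟩ := pw_norm δ u h0 h10 hu'
      have hzre : (pw δ u + 1 / (e : ℂ)).re = u + 1 / e := by
        have h3 : (1 / (e : ℂ)) = ((1 / e : ℝ) : ℂ) := by push_cast; rfl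
        rw [h3, add_re, ofReal_re, pw_re]
      have hzim : (pw δ u + 1 / (e : ℂ)).im = δ ^ 2 := by
        have h3 : (1 / (e : ℂ)) = ((1 / e : ℝ) : ℂ) := by push_cast; rfl
        rw [h3, add_im, ofReal_im, pw_im, add_zero]
      have hzn : ‖(1 / (e : ℂ))‖ = 1 / 4 := by
        rw [norm_div, norm_one, hen]
      have hz1 : ‖pw δ u + 1 / (e : ℂ)‖ ≤ 2 := by
        refine (norm_add_le _ _).trans ?_
        rw [hzn]
        linarith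
      have hz2 : 1 / 5 ≤ ‖pw δ u + 1 / (e : ℂ)‖ := by
        have h3 := norm_sub_le_norm_add (1 / (e : ℂ)) (pw δ u)
        rw [hzn, add_comm (1 / (e : ℂ))] at h3
        linarith
      have hz3 : (pw δ u + 1 / (e : ℂ)).im ≤ 100 * ‖pw δ u + 1 / (e : ℂ)‖ ^ 2 := by
        rw [hzim]
        have h3 : (1 / 5 : ℝ) ^ 2 ≤ ‖pw δ u + 1 / (e : ℂ)‖ ^ 2 := pow_le_pow_left₀ (by norm_num) hz2 2
        nlinarith
      have hz4 : 0 ≤ e * (pw δ u + 1 / (e : ℂ)).re := by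
        rw [hzre, mul_add, mul_one_div_cancel he0]
        have h3 : |e * u| ≤ 4 * (2 * δ) := by
          rw [abs_mul, he4]
          refine mul_le_mul_of_nonneg_left ?_ (by norm_num)
          rw [abs_le]
          constructor <;> linarith [hu.1, hu.2]
        have h5 := (abs_le.1 h3).1
        linarith
      have hCz := hC (pw δ u + 1 / (e : ℂ)) (by rw [hzim]; positivity) (by rw [hzim]; nlinarith) hz1 hz3 hz4
      have hex := lf_exact (cj a) ν e he ω (pw δ u) (hpim u)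
      have hKK : KK 8 ν δ u = ee (-(ν * (-1 / (((8 : ℝ) : ℂ) * pw δ u)))) / (((8 : ℝ) : ℂ) * pw δ u ^ 2) := rfl
      rw [← hKK, ← hκ] at hex
      rw [← hex]
      have heq : (JJ 8 (pw δ u))⁻¹ * ff a (pw δ u + 1 / e) * KK 8 ν δ u -
          (JJ 8 (pw δ u))⁻¹ * (ω * JJ 8 (pw δ u + 1 / e) * ff (cj a) (-1 / (((8 : ℝ) : ℂ) * (pw δ u + 1 / e)))) *
            KK 8 ν δ u = (JJ 8 (pw δ u))⁻¹ * (ff a (pw δ u + 1 / e) - ω * JJ 8 (pw δ u + 1 / e) *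
              ff (cj a) (-1 / (((8 : ℝ) : ℂ) * (pw δ u + 1 / e)))) * KK 8 ν δ u := by ring
      rw [heq, norm_mul, norm_mul]
      have hJ := JJ_inv 8 δ u h0 h10 hu'
      have hK := KK_bound 8 ν δ u (by norm_num) hν h0 h10 hu'
      have hCz' : ‖ff a (pw δ u + 1 / e) - ω * JJ 8 (pw δ u + 1 / e) *
          ff (cj a) (-1 / (((8 : ℝ) : ℂ) * (pw δ u + 1 / e)))‖ ≤ |C| * δ ^ (-(13 / 2) : ℝ) := by
        refine hCz.trans ?_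
        rw [hzim, ← Real.rpow_natCast δ 2, ← Real.rpow_mul h0.le]
        have e4 : (((2 : ℕ) : ℝ) * (-(13 / 4))) = (-(13 / 2) : ℝ) := by push_cast; ring
        rw [e4]
        exact mul_le_mul_of_nonneg_right (le_abs_self C) (Real.rpow_nonneg h0.le _)
      have h7 : (0 : ℝ) ≤ δ ^ (-(13 / 2) : ℝ) := Real.rpow_nonneg h0.le _
      calc ‖(JJ 8 (pw δ u))⁻¹‖ * ‖ff a (pw δ u + 1 / e) - ω * JJ 8 (pw δ u + 1 / e) *
          ff (cj a) (-1 / (((8 : ℝ) : ℂ) * (pw δ u + 1 / e)))‖ * ‖KK 8 ν δ u‖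
          ≤ ((Real.sqrt 8 * (21 / 10)) ^ 7 * δ ^ 7) * (|C| * δ ^ (-(13 / 2) : ℝ)) *
            (Real.exp (2 * Real.pi * ν / 8) / (8 * δ ^ 2)) := by
            gcongr
        _ = K1 * (δ ^ 7 * δ ^ (-(13 / 2) : ℝ) / δ ^ 2) := by
            rw [hK1]
            field_simp
        _ = K1 * δ ^ (-(3 / 2) : ℝ) := by
            congr 1
            rw [← Real.rpow_natCast δ 7, ← Real.rpow_natCast δ 2, ← Real.rpow_add h0,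
              ← Real.rpow_sub h0]
            norm_num
  -- the second step
  have hstep2 := shift_path (Ph (cj a) ν) hPd δ h0 (by linarith) (KP * δ ^ (-(2 + s)))
    (fun v h2 h3 h4 h5 h6 => hP δ h0 h10 v h2 h3 h4 h5 h6) e he
  have hδ1 : δ ^ (-(1 / 2) : ℝ) ≤ δ ^ (-(max s (1 / 2))) :=
    Real.rpow_le_rpow_of_exponent_ge h0 (by linarith) (neg_le_neg (le_max_right _ _))
  have hδ2 : δ ^ (-s) ≤ δ ^ (-(max s (1 / 2))) :=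
    Real.rpow_le_rpow_of_exponent_ge h0 (by linarith) (neg_le_neg (le_max_left _ _))
  have hδ3 : 40 * (KP * δ ^ (-(2 + s))) * δ ^ 2 = 40 * KP * δ ^ (-s) := by
    have h2 : δ ^ (-(2 + s)) * δ ^ 2 = δ ^ (-s) := by
      rw [← Real.rpow_natCast δ 2, ← Real.rpow_add h0]
      congr 1
      push_cast
      ring
    rw [← h2]
    ring
  rw [hδ3] at hstep2
  have hI3 : (∫ u in (-2 * δ)..(-δ), Ph (cj a) ν (pw δ u)) =
      ∫ u in (-2 * δ)..(-δ), (JJ 8 (pw δ u))⁻¹ * ff (cj a) (2 * pw δ u + 1 / 2) * KK 8 ν δ u := rfl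
  rw [← hI3]
  obtain ⟨X, hX⟩ : ∃ X : ℂ, X = ∫ u in (-2 * δ)..(-δ), (JJ 8 (pw δ u))⁻¹ * ff a (pw δ u + 1 / e) * KK 8 ν δ u :=
    ⟨_, rfl⟩
  obtain ⟨Y, hY⟩ : ∃ Y : ℂ, Y = ∫ u in (-2 * δ)..(-δ), Ph (cj a) ν (pw δ u / (1 + e * pw δ u)) *
    (1 / (1 + e * pw δ u) ^ 2) := ⟨_, rfl⟩
  obtain ⟨Z, hZ⟩ : ∃ Z : ℂ, Z = ∫ u in (-2 * δ)..(-δ), Ph (cj a) ν (pw δ u) := ⟨_, rfl⟩
  rw [← hX, ← hY] at hstep1
  rw [← hY, ← hZ] at hstep2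
  rw [← hX, ← hZ]
  calc ‖X - κ * Z‖ = ‖(X - κ * Y) + κ * (Y - Z)‖ := by
        congr 1
        ring
    _ ≤ ‖X - κ * Y‖ + ‖κ‖ * ‖Y - Z‖ := by
        refine (norm_add_le _ _).trans ?_
        rw [norm_mul]
    _ ≤ K1 * δ ^ (-(1 / 2) : ℝ) + ‖κ‖ * (40 * KP * δ ^ (-s)) :=
        add_le_add hstep1 (mul_le_mul_of_nonneg_left hstep2 (norm_nonneg _))
    _ ≤ K1 * δ ^ (-(max s (1 / 2))) + ‖κ‖ * (40 * KP * δ ^ (-(max s (1 / 2)))) := by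
        have h2 : 0 ≤ 40 * KP := by positivity
        exact add_le_add (mul_le_mul_of_nonneg_left hδ1 hK10)
          (mul_le_mul_of_nonneg_left (mul_le_mul_of_nonneg_left hδ2 h2) (norm_nonneg _))
    _ = (K1 + ‖κ‖ * (40 * KP)) * δ ^ (-(max s (1 / 2))) := by ring

theorem left_plus {a c : ℕ → ℂ} {ωm ωp : ℂ} (hl : Loc2 a c) (h : CStep 8 a ωm ωp) (ham : Ram a) (ν : ℝ) (hν : 0 ≤ ν) :
    ∃ K s : ℝ, 0 ≤ K ∧ s < 1 ∧ ∀ δ : ℝ, 0 < δ → δ ≤ 1 / 1000 →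
    ‖(∫ u in (-2 * δ)..(-δ), (JJ 8 (pw δ u))⁻¹ * ff a (pw δ u + 1 / 4) * KK 8 ν δ u) -
      (-(8 * ((Real.sqrt 2 : ℝ) : ℂ) * I * ωp * ee (-(ν / 2)))) *
        ∫ u in (-2 * δ)..(-δ), (JJ 8 (pw δ u))⁻¹ * ff (cj a) (2 * pw δ u + 1 / 2) * KK 8 ν δ u‖ ≤ K * δ ^ (-s) := by
  obtain ⟨C, hC⟩ := h.bound
  obtain ⟨K, s, hK, hs, hb⟩ := lf_gen hl h ham ν hν 4 (Or.inl rfl) ωp ⟨C, fun z h1 h2 h3 h4 h5 =>
    (hC z h1 h2 h3 h4).2.1 (by linarith)⟩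
  refine ⟨K, s, hK, hs, fun δ h0 h1 => ?_⟩
  have h2 := hb δ h0 h1
  have e1 : (1 / ((4 : ℝ) : ℂ)) = 1 / 4 := by push_cast; rfl
  have e2 : -(2 * ((Real.sqrt 2 : ℝ) : ℂ) * I * ((4 : ℝ) : ℂ)) * ωp * ee (-(ν * ((4 : ℝ) : ℂ) / 8)) =
      -(8 * ((Real.sqrt 2 : ℝ) : ℂ) * I * ωp * ee (-(ν / 2))) := by
    have e3 : (-(ν * ((4 : ℝ) : ℂ) / 8) : ℂ) = -(ν / 2) := by
      push_cast
      ring
    rw [e3]
    push_cast
    ring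
  rw [e1, e2] at h2
  exact h2

theorem left_minus {a c : ℕ → ℂ} {ωm ωp : ℂ} (hl : Loc2 a c) (h : CStep 8 a ωm ωp) (ham : Ram a) (ν : ℝ) (hν : 0 ≤ ν) :
    ∃ K s : ℝ, 0 ≤ K ∧ s < 1 ∧ ∀ δ : ℝ, 0 < δ → δ ≤ 1 / 1000 →
    ‖(∫ u in (-2 * δ)..(-δ), (JJ 8 (pw δ u))⁻¹ * ff a (pw δ u - 1 / 4) * KK 8 ν δ u) -
      8 * ((Real.sqrt 2 : ℝ) : ℂ) * I * ωm * ee (ν / 2) *
        ∫ u in (-2 * δ)..(-δ), (JJ 8 (pw δ u))⁻¹ * ff (cj a) (2 * pw δ u + 1 / 2) * KK 8 ν δ u‖ ≤ K * δ ^ (-s) := by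
  obtain ⟨C, hC⟩ := h.bound
  obtain ⟨K, s, hK, hs, hb⟩ := lf_gen hl h ham ν hν (-4) (Or.inr rfl) ωm ⟨C, fun z h1 h2 h3 h4 h5 =>
    (hC z h1 h2 h3 h4).1 (by linarith)⟩
  refine ⟨K, s, hK, hs, fun δ h0 h1 => ?_⟩
  have h2 := hb δ h0 h1
  have e1 : ∀ w : ℂ, w + (1 / ((-4 : ℝ) : ℂ)) = w - 1 / 4 := by
    intro w
    push_cast
    ring
  have e2 : -(2 * ((Real.sqrt 2 : ℝ) : ℂ) * I * ((-4 : ℝ) : ℂ)) * ωm * ee (-(ν * ((-4 : ℝ) : ℂ) / 8)) =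
      8 * ((Real.sqrt 2 : ℝ) : ℂ) * I * ωm * ee (ν / 2) := by
    have e3 : (-(ν * ((-4 : ℝ) : ℂ) / 8) : ℂ) = ν / 2 := by
      push_cast
      ring
    rw [e3]
    push_cast
    ring
  simp only [e1] at h2
  rw [e2] at h2
  exact h2

end H25.QE
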