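import Pool.Agent.H25.QE.Idn

/-!
# QE-MID: the identity between the coefficients, `q = 8`

`m` odd, `idn` with `m 2^i`, `2^r`: `2^r ∣ m 2^i 2^k` iff `r ≤ i + k`, the quotient is `m 2^(i+k-r)`, `a` of it is `a(m) a(2^(i+k-r))`, so
`∑ l4_k Sp a .. = conj(a m) XX (l4 ..) α 2 i r`, `α k = a (2^k)`, and `∑_j gL_j Sp (cj a) .. = ∑_k conj(l2_k)/8 · a(m) a(2^(i+k+1-r))/2^(k+1)
= (a m/16) conj (XX (l2 c) α 2 (i+1) r)` (`cj (cj a) = a`; `Complex.conj_tsum` or `map_tsum`-like for `starRingEnd`: `(XX ..)` converges absolutely;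
`tsum_eq_zero_add` or `sp2_summable` for the shift of the index; see `H11/SC5/LocA.lean` for the same computation).
`8√2/16 = 1/√2`; multiply by `conj ωm` (`ωm conj ωm = 1`, `conj ωp ωp = 1`).
-/

set_option autoImplicit false

namespace H25.QE

open Complex Pool.Agent.H11.SC

private theorem dvd_2 (m r A : ℕ) (hm : Odd m) : 2 ^ r ∣ m * 2 ^ A ↔ r ≤ A := by
  constructor
  · intro h
    have h1 : Nat.Coprime (2 ^ r) m := (Nat.coprime_two_left.2 hm).pow_left r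
    exact (Nat.pow_dvd_pow_iff_le_right (by norm_num)).mp (h1.dvd_of_dvd_mul_left h)
  · intro h
    exact (pow_dvd_pow 2 h).mul_left m

private theorem div_2 (m r A : ℕ) (h : r ≤ A) : m * 2 ^ A / 2 ^ r = m * 2 ^ (A - r) := by
  apply Nat.div_eq_of_eq_mul_right (by positivity)
  obtain ⟨u, rfl⟩ := Nat.exists_eq_add_of_le h
  simp only [Nat.add_sub_cancel_left, pow_add]
  ring

private theorem sp_mid {a c : ℕ → ℂ} (hl : Loc2 a c) (m : ℕ) (hm : Odd m) (i r k : ℕ) :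
    Sp a (m * 2 ^ i) (2 ^ r) (2 ^ k) = if r ≤ i + k then
      (starRingEnd ℂ) (a m) * (starRingEnd ℂ) (a (2 ^ (i + k - r))) * (((2 : ℕ) : ℂ) ^ k)⁻¹ else 0 := by
  unfold Sp
  rw [show m * 2 ^ i * 2 ^ k = m * 2 ^ (i + k) by rw [pow_add]; ring]
  by_cases h : r ≤ i + k
  · rw [if_pos ((dvd_2 _ _ _ hm).2 h), if_pos h, div_2 _ _ _ h]
    have hm0 : m ≠ 0 := by
      rintro rfl
      simp at hm
    unfold cj
    rw [hl.mul _ _ (by positivity) ((Nat.coprime_two_right.2 hm).pow_right _), map_mul]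
    push_cast
    rw [div_eq_mul_inv]
  · rw [if_neg h, if_neg fun h' => h ((dvd_2 _ _ _ hm).1 h')]

theorem mid {a c : ℕ → ℂ} {ωm ωp : ℂ} (hl : Loc2 a c) (h : CStep 8 a ωm ωp) (ham : Ram a) (m : ℕ) (hm : Odd m)
    (i r : ℕ) :
    I / ((Real.sqrt 2 : ℝ) : ℂ) * ((starRingEnd ℂ) ωp * ee ((m : ℂ) * 2 ^ i / 2 ^ r / 2) -
      (starRingEnd ℂ) ωm * ee (-((m : ℂ) * 2 ^ i / 2 ^ r / 2))) * a m *
      (starRingEnd ℂ) (XX (l2 c) (fun k => a (2 ^ k)) 2 (i + 1) r) =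
    (starRingEnd ℂ) (a m) * XX (l4 c (a 2)) (fun k => a (2 ^ k)) 2 i r := by
  have hm0 : m ≠ 0 := by
    rintro rfl
    simp at hm
  have h0 := idn hl h ham (m * 2 ^ i) (2 ^ r)
    (Nat.one_le_iff_ne_zero.2 (mul_ne_zero hm0 (by positivity))) Nat.one_le_two_pow
  have e1 : ∑' k : ℕ, l4 c (a 2) k * Sp a (m * 2 ^ i) (2 ^ r) (2 ^ k) =
      (starRingEnd ℂ) (a m) * XX (l4 c (a 2)) (fun k => a (2 ^ k)) 2 i r := by
    unfold XX
    rw [← tsum_mul_left]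
    refine tsum_congr fun k => ?_
    rw [sp_mid hl m hm]
    split_ifs
    · ring
    · ring
  have e2 : ∑' j : ℕ, gL c j * Sp (cj a) (m * 2 ^ i) (2 ^ r) (2 ^ j) =
      a m / 16 * (starRingEnd ℂ) (XX (l2 c) (fun k => a (2 ^ k)) 2 (i + 1) r) := by
    have e3 : ∑' j : ℕ, gL c j * Sp (cj a) (m * 2 ^ i) (2 ^ r) (2 ^ j) =
        ∑' j : ℕ, gL c (j + 1) * Sp (cj a) (m * 2 ^ i) (2 ^ r) (2 ^ (j + 1)) := by
      symm
      refine Function.Injective.tsum_eq (g := fun j : ℕ => j + 1)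
        (f := fun j => gL c j * Sp (cj a) (m * 2 ^ i) (2 ^ r) (2 ^ j)) (add_left_injective 1) ?_
      intro j hj
      rcases Nat.eq_zero_or_pos j with rfl | hj0
      · exfalso
        apply hj
        simp [gL]
      · exact ⟨j - 1, by simp only []; omega⟩
    rw [e3]
    unfold XX
    rw [Complex.conj_tsum, ← tsum_mul_left]
    refine tsum_congr fun k => ?_
    rw [sp_mid hl.conj m hm]
    unfold gL cj
    rw [if_neg (Nat.succ_ne_zero k), Nat.add_sub_cancel, show i + (k + 1) = i + 1 + k by ring]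
    split_ifs
    · simp only [map_mul, map_inv₀, map_pow, Complex.conj_conj, map_natCast]
      rw [pow_succ]
      push_cast
      field_simp
      ring
    · rw [map_zero, mul_zero, mul_zero]
  rw [e1, e2] at h0
  have hωm : ωm * (starRingEnd ℂ) ωm = 1 := by
    rw [Complex.mul_conj, Complex.normSq_eq_norm_sq, h.hm]
    norm_num
  have hωp : ωp * (starRingEnd ℂ) ωp = 1 := by
    rw [Complex.mul_conj, Complex.normSq_eq_norm_sq, h.hp]
    norm_num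
  have h2 : ((Real.sqrt 2 : ℝ) : ℂ) * ((Real.sqrt 2 : ℝ) : ℂ) = 2 := by
    rw [← Complex.ofReal_mul, Real.mul_self_sqrt (by norm_num)]
    norm_num
  have h3 : ((Real.sqrt 2 : ℝ) : ℂ) ≠ 0 := by
    intro h'
    rw [h', mul_zero] at h2
    norm_num at h2
  have h4 : I / ((Real.sqrt 2 : ℝ) : ℂ) = I * ((Real.sqrt 2 : ℝ) : ℂ) / 2 := by
    rw [div_eq_div_iff h3 two_ne_zero, mul_assoc, h2]
  rw [h4]
  push_cast at h0
  linear_combination ((starRingEnd ℂ) ωm) * h0 + (- (I * ((Real.sqrt 2 : ℝ) : ℂ) / 2 * (starRingEnd ℂ) ωp * ee ((m : ℂ) * 2 ^ i / 2 ^ r / 2) * a m *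
      (starRingEnd ℂ) (XX (l2 c) (fun k => a (2 ^ k)) 2 (i + 1) r)) +
      (starRingEnd ℂ) (a m) * XX (l4 c (a 2)) (fun k => a (2 ^ k)) 2 i r) * hωm +
    (I * ((Real.sqrt 2 : ℝ) : ℂ) / 2 * (starRingEnd ℂ) ωm * ee (-((m : ℂ) * 2 ^ i / 2 ^ r / 2)) * a m *
      (starRingEnd ℂ) (XX (l2 c) (fun k => a (2 ^ k)) 2 (i + 1) r)) * hωp

end H25.QE
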