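import Pool.Agent.H25.QE.Sz

/-!
# QE-SV: the parabolic elements at the cusp `σ/2` on the states

`σ = ± 1`, `w = z - σ/2`, `q = p - σ/2`, `k : ℤ`, `z' = vk k w + σ/2`.  Matrix of `z ↦ z'`: `(1 - 4kσ, 2k; -8k, 1 + 4kσ)`.
Type A: `a' = (1-4kσ) a + 2k c`, `b' = (1-4kσ) b + 2k d`, `c' = -8k a + (1+4kσ) c`, `d' = -8k b + (1+4kσ) d`; `c' = c (1 - 8kq)`.
Type B: `a' = (1-4kσ) a + 2k c`, `b' = (1-4kσ) b + 16 k d`, `c' = -8k a + (1+4kσ) c`, `d' = -k b + (1+4kσ) d`; `c' = c (1 - 8kq)`.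
(`z' = (A z + B)/(C z + D)`, `A D - B C = 1`; `8 a' d' - b' c' = 1`.)
If `c' ≠ 0`: `s' = s (1 - 8kq)²`, `r - r' = ± 8k/(c c')` (A), `± k/(c c')` (B); with `|k| ≤ 1/(8|q|) + 1/2` and `|q| ≥ 1/(2|c|)` (`2a - σc ≠ 0`):
`|k| ≤ |c|/4 + 1/2`.  A: `|c| ≥ 8`: `|k| ≤ (5/16)|c|`, `|r - r'| ≤ 2.5/|c'| = 2.5/√s'`.  B: `|k| ≤ (3/4)|c|`, `|r - r'| ≤ (3/4)/|c'| = (3/4)√8/√s' ≤ 3/√s'`.
If `c' = 0`: type B is impossible (`8 a' d' = 1`), type A: `a' d' = 1`, `z' = v i + j` with `j = b' d'`, and `r`: `c' = 0`, `8 k a = (1+4kσ) c`;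
`c r + d = 0` gives `a' r + b' = (1-4kσ)(a r + b)`, `c' r + d' = -8k (a r + b)`, `c' = 0`: `d' = -8k (a r + b)`, so (`a' = d' = ±1`)
`r + b' d' = (a' r + b')/d' = (1-4kσ)/(-8k)`: `r + j = σ/2 - 1/(8k)`, `|r + j| ≤ 1`.
-/

set_option autoImplicit false

namespace H25.QE

open Complex Pool.Agent.H11.SC

private theorem vk_frac (k : ℤ) (σ n m : ℂ) (hσ : σ ^ 2 = 1) (hm : m ≠ 0)
    (hden : (1 + 4 * (k : ℂ) * σ) * m - 8 * (k : ℂ) * n ≠ 0) :
    vk k (n / m - σ / 2) + σ / 2 =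
      ((1 - 4 * (k : ℂ) * σ) * n + 2 * (k : ℂ) * m) / ((1 + 4 * (k : ℂ) * σ) * m - 8 * (k : ℂ) * n) := by
  unfold vk
  have h1 : 1 - 8 * (k : ℂ) * (n / m - σ / 2) = ((1 + 4 * (k : ℂ) * σ) * m - 8 * (k : ℂ) * n) / m := by
    field_simp
    ring
  have h2 : n / m - σ / 2 = (n - σ / 2 * m) / m := by
    field_simp
  rw [h1, h2, div_div_div_cancel_right₀ hm, eq_div_iff hden, add_mul, div_mul_cancel₀ _ hden]
  linear_combination 2 * (k : ℂ) * m * hσ

private theorem lin_ne' {v : ℝ} (hv : 0 < v) {c d : ℤ} (hc : c ≠ 0) : ((c : ℂ) * (v * I) + d) ≠ 0 := by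
  have := lin_ne hv (c := (c : ℝ)) (d := (d : ℝ)) (by exact_mod_cast hc)
  push_cast at this
  exact this

/-- the bound for `k` -/
private theorem k_bound (k a c σ : ℤ) (hc : c ≠ 0) (hne : 2 * a - σ * c ≠ 0)
    (hkq : |(k : ℝ)| ≤ 1 / (8 * |(a : ℝ) / c - (σ : ℝ) / 2|) + 1 / 2) : |(k : ℝ)| ≤ |(c : ℝ)| / 4 + 1 / 2 := by
  have hc0 : (c : ℝ) ≠ 0 := by exact_mod_cast hc
  have hcp : 0 < |(c : ℝ)| := abs_pos.mpr hc0
  have h1 : (a : ℝ) / c - (σ : ℝ) / 2 = ((2 * a - σ * c : ℤ) : ℝ) / (2 * c) := by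
    push_cast
    field_simp
  have h2 : (1 : ℝ) ≤ |((2 * a - σ * c : ℤ) : ℝ)| := by
    have := Int.one_le_abs hne
    exact_mod_cast this
  have h3 : 1 / (8 * |(a : ℝ) / c - (σ : ℝ) / 2|) ≤ |(c : ℝ)| / 4 := by
    rw [h1, abs_div, abs_mul, abs_of_pos (by norm_num : (0 : ℝ) < 2)]
    rw [div_le_div_iff₀ (by positivity) (by norm_num)]
    have : |(c : ℝ)| * (8 * (|((2 * a - σ * c : ℤ) : ℝ)| / (2 * |(c : ℝ)|))) = 4 * |((2 * a - σ * c : ℤ) : ℝ)| := by
      field_simp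
      ring
    rw [this]
    linarith
  linarith

theorem sv_step {v : ℝ} {z : ℂ} {s : ℕ} {r p : ℝ} (hv : 0 < v) (h : Sz v z s r p) (σ : ℤ) (hσ : σ = 1 ∨ σ = -1)
    (k : ℤ) (hk : k ≠ 0) (hkq : |(k : ℝ)| ≤ 1 / (8 * |p - (σ : ℝ) / 2|) + 1 / 2) :
    (∃ j : ℤ, vk k (z - (σ : ℂ) / 2) + (σ : ℂ) / 2 = v * I + j ∧ |r + j| ≤ 1) ∨
    (∃ (s' : ℕ) (r' p' : ℝ), Sz v (vk k (z - (σ : ℂ) / 2) + (σ : ℂ) / 2) s' r' p' ∧
      (s' : ℝ) = s * (1 - 8 * (k : ℝ) * (p - (σ : ℝ) / 2)) ^ 2 ∧ |r - r'| ≤ 3 / Real.sqrt s') := by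
  have hσ2 : σ * σ = 1 := by rcases hσ with rfl | rfl <;> norm_num
  have hσC : (σ : ℂ) ^ 2 = 1 := by
    rw [sq]
    exact_mod_cast hσ2
  have hσR : (σ : ℝ) * σ = 1 := by exact_mod_cast hσ2
  have hkR : (k : ℝ) ≠ 0 := by exact_mod_cast hk
  rcases h with ⟨a, b, c, d, hdet, hdvd, hc, rfl, hs, rfl, rfl⟩ | ⟨a, b, c, d, hdet, hc, rfl, hs, rfl, rfl⟩
  · -- type A
    have hcR : (c : ℝ) ≠ 0 := by exact_mod_cast hc
    have hdetR : (a : ℝ) * d - b * c = 1 := by exact_mod_cast hdet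
    have hm := lin_ne' hv (d := d) hc
    have hne : 2 * a - σ * c ≠ 0 := by
      intro h0
      obtain ⟨e, rfl⟩ := hdvd
      have h1 : a = 4 * (σ * e) := by linarith [h0]
      have h2 : 4 * (σ * e * d - 2 * (b * e)) = 1 := by
        rw [h1] at hdet
        linarith [hdet]
      omega
    have hkb := k_bound k a c σ hc hne hkq
    have hc8 : 8 ≤ |(c : ℝ)| := by
      have h1 : (8 : ℤ) ≤ |c| := Int.le_of_dvd (abs_pos.mpr hc) ((dvd_abs _ _).mpr hdvd)
      exact_mod_cast h1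
    set a' : ℤ := (1 - 4 * k * σ) * a + 2 * k * c with ha'
    set b' : ℤ := (1 - 4 * k * σ) * b + 2 * k * d with hb'
    set c' : ℤ := (1 + 4 * k * σ) * c - 8 * k * a with hc'
    set d' : ℤ := (1 + 4 * k * σ) * d - 8 * k * b with hd'
    have hdet' : a' * d' - b' * c' = 1 := by
      rw [ha', hb', hc', hd']
      linear_combination hdet + (16 * k ^ 2 * (b * c) - 16 * k ^ 2 * (a * d)) * hσ2
    have hden : (1 + 4 * (k : ℂ) * (σ : ℂ)) * ((c : ℂ) * (v * I) + d) - 8 * (k : ℂ) * ((a : ℂ) * (v * I) + b) =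
        (c' : ℂ) * (v * I) + d' := by
      rw [hc', hd']
      push_cast
      ring
    have hnum : (1 - 4 * (k : ℂ) * (σ : ℂ)) * ((a : ℂ) * (v * I) + b) + 2 * (k : ℂ) * ((c : ℂ) * (v * I) + d) =
        (a' : ℂ) * (v * I) + b' := by
      rw [ha', hb']
      push_cast
      ring
    by_cases hc0 : c' = 0
    · left
      rw [hc0, mul_zero, sub_zero] at hdet'
      have hd0 : d' ≠ 0 := by
        rintro h0
        rw [h0, mul_zero] at hdet'
        exact zero_ne_one hdet'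
      have hdd : d' * d' = 1 ∧ a' = d' := by
        have h1 : IsUnit d' := IsUnit.of_mul_eq_one a' (by linarith)
        rcases Int.isUnit_iff.1 h1 with h2 | h2
        · rw [h2] at hdet' ⊢
          constructor <;> linarith
        · rw [h2] at hdet' ⊢
          constructor <;> linarith
      obtain ⟨hdd, had⟩ := hdd
      have hdC : (d' : ℂ) ≠ 0 := by exact_mod_cast hd0
      have hddC : (d' : ℂ) * d' = 1 := by exact_mod_cast hdd
      have hddR : (d' : ℝ) * d' = 1 := by exact_mod_cast hdd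
      refine ⟨b' * d', ?_, ?_⟩
      · rw [vk_frac k (σ : ℂ) _ _ hσC hm (by rw [hden, hc0]; simpa using hdC), hden, hnum, hc0, had]
        rw [div_eq_iff (by simpa using hdC)]
        push_cast
        linear_combination (-(b' : ℂ)) * hddC
      · -- r + j = σ/2 - 1/(8k)
        have e1 : (c : ℝ) * d' = 8 * k := by
          have h1 : (d' : ℝ) = (1 + 4 * k * σ) * d - 8 * k * b := by rw [hd']; push_cast; ring
          have h2 : (1 + 4 * (k : ℝ) * σ) * c - 8 * k * a = 0 := by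
            have : (c' : ℝ) = 0 := by exact_mod_cast hc0
            rw [hc'] at this
            push_cast at this
            exact this
          rw [h1]
          linear_combination (d : ℝ) * h2 + 8 * (k : ℝ) * hdetR
        have hdR : (d' : ℝ) ≠ 0 := by exact_mod_cast hd0
        have e2 : (-(d : ℝ) / c + ((b' * d' : ℤ) : ℝ)) = (σ : ℝ) / 2 - 1 / (8 * k) := by
          have h3 : (c : ℝ) = 8 * k * d' := by
            have : (c : ℝ) * d' * d' = 8 * k * d' := by rw [e1]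
            rw [← this, mul_assoc, hddR, mul_one]
          have h4 : (a' : ℝ) = d' := by exact_mod_cast had
          have h5 : (b' : ℝ) * c = -(1 - 4 * k * σ) + d * a' := by
            rw [ha', hb']
            push_cast
            linear_combination (-(1 - 4 * (k : ℝ) * σ)) * hdetR
          have h6 : (-(d : ℝ) / c + ((b' * d' : ℤ) : ℝ)) = (-(d : ℝ) + b' * c * d') / c := by
            push_cast
            field_simp
          rw [h6, h5, h4, h3]
          have h7 : (-(d : ℝ) + (-(1 - 4 * k * σ) + d * d') * d') = -(1 - 4 * k * σ) * d' := by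
            linear_combination (d : ℝ) * hddR
          rw [h7, div_eq_iff (mul_ne_zero (mul_ne_zero (by norm_num) hkR) hdR)]
          field_simp
          ring
        rw [e2]
        have h8 : (1 : ℝ) ≤ |(k : ℝ)| := by
          have := Int.one_le_abs hk
          exact_mod_cast this
        have h9 : |1 / (8 * (k : ℝ))| ≤ 1 / 8 := by
          rw [abs_div, abs_one, abs_mul, abs_of_pos (by norm_num : (0 : ℝ) < 8)]
          apply one_div_le_one_div_of_le (by norm_num)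
          linarith
        have h10 : |(σ : ℝ) / 2| = 1 / 2 := by
          rcases hσ with rfl | rfl <;> norm_num
        have := abs_sub ((σ : ℝ) / 2) (1 / (8 * (k : ℝ)))
        linarith
    · right
      have hcc : (c' : ℝ) = c * (1 - 8 * (k : ℝ) * ((a : ℝ) / c - (σ : ℝ) / 2)) := by
        rw [hc']
        push_cast
        field_simp
        ring
      have hc'R : (c' : ℝ) ≠ 0 := by exact_mod_cast hc0
      obtain ⟨s', hs'⟩ : ∃ s' : ℕ, (s' : ℤ) = c' ^ 2 := ⟨(c' ^ 2).toNat, Int.toNat_of_nonneg (sq_nonneg _)⟩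
      have hs'R : (s' : ℝ) = (c' : ℝ) ^ 2 := by exact_mod_cast hs'
      have hsR : (s : ℝ) = (c : ℝ) ^ 2 := by exact_mod_cast hs
      refine ⟨s', -(d' : ℝ) / c', (a' : ℝ) / c', Or.inl ⟨a', b', c', d', hdet', ?_, hc0, ?_, hs', rfl, rfl⟩, ?_, ?_⟩
      · rw [hc']
        exact Dvd.dvd.sub (Dvd.dvd.mul_left hdvd _) ⟨k * a, by ring⟩
      · rw [vk_frac k (σ : ℂ) _ _ hσC hm (by rw [hden]; exact lin_ne' hv hc0), hden, hnum]
      · rw [hs'R, hsR, hcc]
        ring
      · have hsq : Real.sqrt s' = |(c' : ℝ)| := by rw [hs'R, Real.sqrt_sq_eq_abs]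
        have e1 : -(d : ℝ) / c - -(d' : ℝ) / c' = 8 * k / (c * c') := by
          rw [div_sub_div _ _ hcR hc'R, div_left_inj' (mul_ne_zero hcR hc'R), hc', hd']
          push_cast
          linear_combination 8 * (k : ℝ) * hdetR
        rw [hsq, e1, abs_div, abs_mul, abs_mul, abs_of_pos (by norm_num : (0 : ℝ) < 8)]
        have hcp : 0 < |(c : ℝ)| := abs_pos.mpr hcR
        have hcp' : 0 < |(c' : ℝ)| := abs_pos.mpr hc'R
        rw [div_le_div_iff₀ (by positivity) hcp']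
        have : 8 * |(k : ℝ)| ≤ 3 * |(c : ℝ)| := by linarith
        nlinarith
  · -- type B
    have hcR : (c : ℝ) ≠ 0 := by exact_mod_cast hc
    have hdetR : 8 * (a : ℝ) * d - b * c = 1 := by exact_mod_cast hdet
    have hm := lin_ne' hv (d := d) hc
    have hm8 : (8 : ℂ) * ((c : ℂ) * (v * I) + d) ≠ 0 := mul_ne_zero (by norm_num) hm
    have hne : 2 * a - σ * c ≠ 0 := by
      intro h0
      have h1 : c = 2 * (σ * a) := by
        have : σ * (2 * a - σ * c) = 0 := by rw [h0, mul_zero]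
        linear_combination (-1) * this - c * hσ2
      have h2 : 2 * (4 * (a * d) - b * (σ * a)) = 1 := by
        rw [h1] at hdet
        linarith [hdet]
      omega
    have hkb := k_bound k a c σ hc hne hkq
    have hc1 : 1 ≤ |(c : ℝ)| := by
      have := Int.one_le_abs hc
      exact_mod_cast this
    set a' : ℤ := (1 - 4 * k * σ) * a + 2 * k * c with ha'
    set b' : ℤ := (1 - 4 * k * σ) * b + 16 * k * d with hb'
    set c' : ℤ := (1 + 4 * k * σ) * c - 8 * k * a with hc'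
    set d' : ℤ := (1 + 4 * k * σ) * d - k * b with hd'
    have hdet' : 8 * a' * d' - b' * c' = 1 := by
      rw [ha', hb', hc', hd']
      linear_combination hdet + (16 * k ^ 2 * (b * c) - 128 * k ^ 2 * (a * d)) * hσ2
    have hden : (1 + 4 * (k : ℂ) * (σ : ℂ)) * (8 * ((c : ℂ) * (v * I) + d)) - 8 * (k : ℂ) * (8 * (a : ℂ) * (v * I) + b) =
        8 * ((c' : ℂ) * (v * I) + d') := by
      rw [hc', hd']
      push_cast
      ring
    have hnum : (1 - 4 * (k : ℂ) * (σ : ℂ)) * (8 * (a : ℂ) * (v * I) + b) + 2 * (k : ℂ) * (8 * ((c : ℂ) * (v * I) + d)) =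
        8 * (a' : ℂ) * (v * I) + b' := by
      rw [ha', hb']
      push_cast
      ring
    by_cases hc0 : c' = 0
    · exfalso
      rw [hc0, mul_zero, sub_zero] at hdet'
      have : 8 * (a' * d') = 1 := by linarith
      omega
    · right
      have hcc : (c' : ℝ) = c * (1 - 8 * (k : ℝ) * ((a : ℝ) / c - (σ : ℝ) / 2)) := by
        rw [hc']
        push_cast
        field_simp
        ring
      have hc'R : (c' : ℝ) ≠ 0 := by exact_mod_cast hc0
      obtain ⟨s', hs'⟩ : ∃ s' : ℕ, (s' : ℤ) = 8 * c' ^ 2 :=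
        ⟨(8 * c' ^ 2).toNat, Int.toNat_of_nonneg (by positivity)⟩
      have hs'R : (s' : ℝ) = 8 * (c' : ℝ) ^ 2 := by exact_mod_cast hs'
      have hsR : (s : ℝ) = 8 * (c : ℝ) ^ 2 := by exact_mod_cast hs
      refine ⟨s', -(d' : ℝ) / c', (a' : ℝ) / c', Or.inr ⟨a', b', c', d', hdet', hc0, ?_, hs', rfl, rfl⟩, ?_, ?_⟩
      · rw [vk_frac k (σ : ℂ) _ _ hσC hm8 (by rw [hden]; exact mul_ne_zero (by norm_num) (lin_ne' hv hc0)), hden, hnum]
      · rw [hs'R, hsR, hcc]
        ring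
      · have hcp : 0 < |(c : ℝ)| := abs_pos.mpr hcR
        have hcp' : 0 < |(c' : ℝ)| := abs_pos.mpr hc'R
        have hsq : Real.sqrt s' ≤ 3 * |(c' : ℝ)| := by
          rw [hs'R]
          apply Real.sqrt_le_iff.mpr
          refine ⟨by positivity, ?_⟩
          rw [mul_pow, sq_abs]
          nlinarith [sq_nonneg (c' : ℝ)]
        have hsq0 : 0 < Real.sqrt s' := by
          rw [hs'R]
          positivity
        have e1 : -(d : ℝ) / c - -(d' : ℝ) / c' = k / (c * c') := by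
          rw [div_sub_div _ _ hcR hc'R, div_left_inj' (mul_ne_zero hcR hc'R), hc', hd']
          push_cast
          linear_combination (k : ℝ) * hdetR
        rw [e1, abs_div, abs_mul]
        calc |(k : ℝ)| / (|(c : ℝ)| * |(c' : ℝ)|) ≤ 1 / |(c' : ℝ)| := by
              rw [div_le_div_iff₀ (by positivity) hcp']
              have : |(k : ℝ)| ≤ |(c : ℝ)| := by linarith
              nlinarith
          _ ≤ 3 / Real.sqrt s' := by
              rw [div_le_div_iff₀ hcp' hsq0]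
              linarith

end H25.QE
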