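import Pool.Agent.H25.QE.Sw
import Pool.Agent.H25.QE.Sv

/-!
# QE-OB: the values of `Ψ` at the orbit points

`v ≥ 1`.  Let `R ≥ 100`, `Y = v/(R - 30)²`, and suppose `Y ≤ 10^(-6)` (so heights are small).
CLAIM (strong induction on `s`): if `Sz v z s r p` and `|r| ≥ R - 60/√s` then
`Ψ (v i) - 80 C Y^(1/4) (1 - s^(-1/4)) ≤ Ψ z`.
(`s ≥ 8`, so `|r| ≥ R - 60/√8 ≥ R - 22`, `y = Im z = v/(s(v²+r²)) ≤ Y/s`, `‖z - p‖² = y/(s v) ≤ Y`.)
Shift `z` by an integer so that `|p| ≤ 1/2` (`Sz.shift`, `h.shift`, `round`).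
(1) `|p| ≤ 1/3`.  `sw_step`; `‖z‖ ≤ 2`, `Im z ≤ 1`: `|Ψ z - Ψ(-1/(8z))| ≤ C y^(1/4) ≤ C Y^(1/4) s^(-1/4)` (`h.inv`).
 Terminal: `Ψ(v i + k) = Ψ(v i)`: `Ψ z ≥ Ψ(v i) - C Y^(1/4)`, and `80 (1 - 8^(-1/4)) ≥ 2` (`8^(-1/4) ≤ 0.6`).
 Otherwise `s' = 8p² s ≤ (8/9) s`, `|r'| ≥ |r| - 3/√s' ≥ R - 60/√s - 3/√s' ≥ R - 60/√s'` (`√(s'/s) ≤ √(8/9) ≤ 0.943`, `60 · 0.057 ≥ 3`); induction:
 `Ψ z ≥ Ψ(v i) - 80 C Y^(1/4) (1 - s'^(-1/4)) - C Y^(1/4) s^(-1/4)`, and `80 (s'^(-1/4) - s^(-1/4)) ≥ 2 s'^(-1/4)` (`(8/9)^(1/4) ≤ 0.9711`).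
(2) `1/3 < |p| ≤ 1/2`, `σ = sign p`, `q = p - σ/2`, `0 < |q| ≤ 1/6` (`Sz.half`), `k = -round(-1/(8q))`: `|-1/(8q) + k| ≤ 1/2`, `|1/(8q)| ≥ 3/4`, so `k ≠ 0` and
 `|k| ≤ 1/(8|q|) + 1/2`, `|1 - 8kq| = 8|q| |-1/(8q) + k| ≤ 2/3`.  `sv_step`.  `w = z - σ/2`: `Im w = y ≤ 1/2`, `‖w‖ ≤ 1`; `Ψ z = Ψ(w + 1/2)` and
 `Ψ(vk k w + σ/2) = Ψ(vk k w + 1/2)` (`h.shift` for `σ = -1`).
 Terminal: `vk k w = v i + j - σ/2`, `|j| ≥ |r| - 1`, `Im/(1+‖·‖²) ≤ v/(|j| - 1/2)² ≤ v/(R - 24)² ≤ Y`: `Ψ z ≥ Ψ(v i) - 2 C Y^(1/4)`.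
 Otherwise `s' ≤ (4/9) s`, `|r'|` as in (1), error `C (y^(1/4) + (Im z')^(1/4)) ≤ 2 C Y^(1/4) s'^(-1/4)` (`Im z' = v/(s'(v²+r'²)) ≤ Y/s'`, `Im z'/(1+..) ≤ Im z'`).
-/

set_option autoImplicit false

namespace H25.QE

open Complex Pool.Agent.H11.SC

private theorem ob_sqrt {s : ℝ} (hs : 8 ≤ s) : 60 / Real.sqrt s ≤ 22 := by
  have h1 : (30 / 11 : ℝ) ≤ Real.sqrt s := by
    apply Real.le_sqrt_of_sq_le
    norm_num
    linarith
  have h2 : 0 < Real.sqrt s := by linarith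
  rw [div_le_iff₀ h2]
  linarith

private theorem ob_q4 {s : ℝ} (hs : 0 < s) : (s ^ (-(1 / 4) : ℝ)) ^ 4 = s⁻¹ := by
  rw [← Real.rpow_natCast, ← Real.rpow_mul hs.le]
  norm_num
  exact Real.rpow_neg_one s

private theorem ob_eight {s : ℝ} (hs : 8 ≤ s) : s ^ (-(1 / 4) : ℝ) ≤ 6 / 10 := by
  have h0 : (0 : ℝ) < s := by linarith
  have h1 : s⁻¹ ≤ 1 / 8 := by
    rw [inv_eq_one_div]
    exact one_div_le_one_div_of_le (by norm_num) hs
  by_contra h2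
  push Not at h2
  have h3 := pow_lt_pow_left₀ h2 (by norm_num) (n := 4) (by norm_num)
  rw [ob_q4 h0] at h3
  norm_num at h3
  linarith

private theorem ob_dec {s s' : ℝ} (hs' : 0 < s') (h : s' ≤ 8 / 9 * s) :
    80 * s ^ (-(1 / 4) : ℝ) ≤ 78 * s' ^ (-(1 / 4) : ℝ) := by
  have h0 : (0 : ℝ) < s := by linarith
  by_contra h2
  push Not at h2
  have h3 := pow_lt_pow_left₀ h2 (by positivity) (n := 4) (by norm_num)
  rw [mul_pow, mul_pow, ob_q4 h0, ob_q4 hs'] at h3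
  have h4 : s⁻¹ ≤ 8 / 9 * s'⁻¹ := by
    rw [inv_eq_one_div, inv_eq_one_div, div_le_iff₀ h0]
    have h5 : 8 / 9 * (1 / s') * s = (8 / 9 * s) / s' := by ring
    rw [h5, le_div_iff₀ hs']
    linarith
  have h6 : 0 < s'⁻¹ := inv_pos.2 hs'
  norm_num at h3
  linarith

private theorem ob_sq {s s' : ℝ} (hs' : 0 < s') (h : s' ≤ 8 / 9 * s) :
    60 / Real.sqrt s + 3 / Real.sqrt s' ≤ 60 / Real.sqrt s' := by
  have h0 : (0 : ℝ) < s := by linarith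
  have h1 : 0 < Real.sqrt s := Real.sqrt_pos.2 h0
  have h2 : 0 < Real.sqrt s' := Real.sqrt_pos.2 hs'
  have h3 : Real.sqrt s' ≤ 95 / 100 * Real.sqrt s := by
    rw [Real.sqrt_le_left (by positivity), mul_pow, Real.sq_sqrt h0.le]
    linarith
  have h4 : 60 / Real.sqrt s ≤ 57 / Real.sqrt s' := by
    rw [div_le_div_iff₀ h1 h2]
    linarith
  have h5 : 57 / Real.sqrt s' + 3 / Real.sqrt s' = 60 / Real.sqrt s' := by ring
  linarith

private theorem ob_pow {y Y s : ℝ} (hy : 0 ≤ y) (hs : 0 < s) (hY : 0 ≤ Y) (h : y ≤ Y / s) :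
    y ^ (1 / 4 : ℝ) ≤ Y ^ (1 / 4 : ℝ) * s ^ (-(1 / 4) : ℝ) := by
  refine (Real.rpow_le_rpow hy h (by norm_num)).trans (le_of_eq ?_)
  rw [Real.div_rpow hY hs.le, Real.rpow_neg hs.le, div_eq_mul_inv]

private theorem ob_end {A B P u u' e : ℝ} (he : 0 ≤ e) (h1 : P - 80 * e * (1 - u') ≤ B)
    (h2 : |A - B| ≤ 2 * e * u') (h3 : 80 * u ≤ 78 * u') : P - 80 * e * (1 - u) ≤ A := by
  have h4 := (abs_le.1 h2).1
  nlinarith [mul_le_mul_of_nonneg_left h3 he]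

private theorem ob_term {A P u e : ℝ} (he : 0 ≤ e) (h2 : |A - P| ≤ 2 * e) (h3 : u ≤ 6 / 10) :
    P - 80 * e * (1 - u) ≤ A := by
  have h4 := (abs_le.1 h2).1
  nlinarith [mul_le_mul_of_nonneg_left h3 he]

private theorem ob_small {v R : ℝ} (hv : 1 ≤ v) (hR : 100 ≤ R) {z : ℂ} {s : ℕ} {r p : ℝ} (h : Sz v z s r p)
    (hr : R - 60 / Real.sqrt s ≤ |r|) : 0 < z.im ∧ z.im ≤ v / (R - 30) ^ 2 / s := by
  have hs : (8 : ℝ) ≤ s := by exact_mod_cast h.size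
  have hs0 : (0 : ℝ) < s := by linarith
  have h1 := ob_sqrt hs
  have h2 : R - 30 ≤ |r| := by linarith
  have h3 : (R - 30) ^ 2 ≤ r ^ 2 := by
    rw [← sq_abs r]
    exact pow_le_pow_left₀ (by linarith) h2 2
  have h4 : 0 < (R - 30) ^ 2 := by
    have : 0 < R - 30 := by linarith
    positivity
  have hv0 : 0 < v := by linarith
  rw [h.im hv0]
  refine ⟨by positivity, ?_⟩
  rw [div_div]
  apply div_le_div_of_nonneg_left hv0.le (by positivity)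
  rw [mul_comm]
  apply mul_le_mul_of_nonneg_left _ hs0.le
  nlinarith

private theorem ob_near {v R : ℝ} (hv : 1 ≤ v) (hR : 100 ≤ R) (hY : v / (R - 30) ^ 2 ≤ 1 / 10 ^ 6) {z : ℂ} {s : ℕ} {r p : ℝ}
    (h : Sz v z s r p) (hr : R - 60 / Real.sqrt s ≤ |r|) : ‖z - p‖ ≤ 1 / 1000 := by
  obtain ⟨h1, h2⟩ := ob_small hv hR h hr
  have hs : (8 : ℝ) ≤ s := by exact_mod_cast h.size
  have hs0 : (0 : ℝ) < s := by linarith
  have hv0 : 0 < v := by linarith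
  have h3 := h.near hv0
  have h4 : z.im / (s * v) ≤ 1 / 10 ^ 6 := by
    rw [div_le_iff₀ (by positivity)]
    have h5 : v / (R - 30) ^ 2 / s ≤ 1 / 10 ^ 6 := by
      rw [div_le_iff₀ hs0]
      refine hY.trans ?_
      linarith
    have h6 : 1 ≤ (s : ℝ) * v := by nlinarith
    nlinarith
  have h5 : ‖z - p‖ ^ 2 ≤ (1 / 1000) ^ 2 := by
    rw [h3]
    refine h4.trans ?_
    norm_num
  exact (pow_le_pow_iff_left₀ (norm_nonneg _) (by norm_num) (by norm_num)).1 h5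

private theorem ob_real (x : ℝ) : ‖(x : ℂ)‖ = |x| := by
  rw [Complex.norm_real, Real.norm_eq_abs]

/-- case (1) -/
private theorem ob_one {Ψ : ℂ → ℝ} {C : ℝ} (h : Ap8 Ψ C) (v R : ℝ) (hv : 1 ≤ v) (hR : 100 ≤ R)
    (hY : v / (R - 30) ^ 2 ≤ 1 / 10 ^ 6) (s : ℕ)
    (ih : ∀ m : ℕ, m < s → ∀ (z : ℂ) (r p : ℝ), Sz v z m r p → R - 60 / Real.sqrt m ≤ |r| →
      Ψ (v * I) - 80 * (C * (v / (R - 30) ^ 2) ^ (1 / 4 : ℝ)) * (1 - (m : ℝ) ^ (-(1 / 4) : ℝ)) ≤ Ψ z)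
    (z : ℂ) (r p : ℝ) (hz : Sz v z s r p) (hr : R - 60 / Real.sqrt s ≤ |r|) (hp : |p| ≤ 1 / 3) :
    Ψ (v * I) - 80 * (C * (v / (R - 30) ^ 2) ^ (1 / 4 : ℝ)) * (1 - (s : ℝ) ^ (-(1 / 4) : ℝ)) ≤ Ψ z := by
  have hs : (8 : ℝ) ≤ s := by exact_mod_cast hz.size
  have hs0 : (0 : ℝ) < s := by linarith
  have hv0 : 0 < v := by linarith
  obtain ⟨h1, h2⟩ := ob_small hv hR hz hr
  have h3 := ob_near hv hR hY hz hr
  obtain ⟨Y, hYe⟩ : ∃ Y, Y = v / (R - 30) ^ 2 := ⟨_, rfl⟩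
  rw [← hYe] at h2 hY ih ⊢
  have hY0 : 0 ≤ Y := by rw [hYe]; positivity
  have he : 0 ≤ C * Y ^ (1 / 4 : ℝ) := mul_nonneg h.C0 (Real.rpow_nonneg hY0 _)
  have h5 : Y / s ≤ 1 := by
    rw [div_le_iff₀ hs0]
    linarith
  have h6 : ‖z‖ ≤ 2 := by
    have h7 : ‖z‖ ≤ ‖z - p‖ + ‖(p : ℂ)‖ := by
      have := norm_add_le (z - p) (p : ℂ)
      rwa [sub_add_cancel] at this
    rw [ob_real] at h7
    linarith
  have h7 := h.inv z h1 (h2.trans h5) h6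
  have h8 := ob_pow h1.le hs0 hY0 h2
  have h9 : |Ψ z - Ψ (-1 / (8 * z))| ≤ (C * Y ^ (1 / 4 : ℝ)) * (s : ℝ) ^ (-(1 / 4) : ℝ) := by
    refine h7.trans ?_
    rw [mul_assoc]
    exact mul_le_mul_of_nonneg_left h8 h.C0
  have hu := ob_eight hs
  rcases sw_step hv0 hz with ⟨k, hk, -⟩ | ⟨s', r', p', hz', hs', hr'⟩
  · rw [hk, h.shift] at h9
    refine ob_term he (h9.trans ?_) hu
    nlinarith
  · have hs8 : (8 : ℝ) ≤ s' := by exact_mod_cast hz'.size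
    have hs'0 : (0 : ℝ) < s' := by linarith
    have h10 : (s' : ℝ) ≤ 8 / 9 * s := by
      rw [hs']
      have h11 : p ^ 2 ≤ (1 / 3) ^ 2 := by
        rw [← sq_abs p]
        exact pow_le_pow_left₀ (abs_nonneg _) hp 2
      nlinarith
    have h11 := ob_sq hs'0 h10
    have h12 : R - 60 / Real.sqrt s' ≤ |r'| := by
      have h13 : |r| - |r'| ≤ |r - r'| := abs_sub_abs_le_abs_sub r r'
      linarith
    have h13 : s' < s := by
      have : (s' : ℝ) < s := by linarith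
      exact_mod_cast this
    have h14 := ih s' h13 _ r' p' hz' h12
    have h15 := ob_dec hs'0 h10
    refine ob_end he h14 (h9.trans ?_) h15
    have h16 : 0 ≤ (s' : ℝ) ^ (-(1 / 4) : ℝ) := by positivity
    nlinarith

/-- case (2) -/
private theorem ob_two {Ψ : ℂ → ℝ} {C : ℝ} (h : Ap8 Ψ C) (v R : ℝ) (hv : 1 ≤ v) (hR : 100 ≤ R)
    (hY : v / (R - 30) ^ 2 ≤ 1 / 10 ^ 6) (s : ℕ)
    (ih : ∀ m : ℕ, m < s → ∀ (z : ℂ) (r p : ℝ), Sz v z m r p → R - 60 / Real.sqrt m ≤ |r| →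
      Ψ (v * I) - 80 * (C * (v / (R - 30) ^ 2) ^ (1 / 4 : ℝ)) * (1 - (m : ℝ) ^ (-(1 / 4) : ℝ)) ≤ Ψ z)
    (z : ℂ) (r p : ℝ) (hz : Sz v z s r p) (hr : R - 60 / Real.sqrt s ≤ |r|) (σ : ℤ) (hσ : σ = 1 ∨ σ = -1)
    (hp : |p - (σ : ℝ) / 2| ≤ 1 / 6) :
    Ψ (v * I) - 80 * (C * (v / (R - 30) ^ 2) ^ (1 / 4 : ℝ)) * (1 - (s : ℝ) ^ (-(1 / 4) : ℝ)) ≤ Ψ z := by
  have hs : (8 : ℝ) ≤ s := by exact_mod_cast hz.size
  have hs0 : (0 : ℝ) < s := by linarith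
  have hv0 : 0 < v := by linarith
  obtain ⟨h1, h2⟩ := ob_small hv hR hz hr
  have h3 := ob_near hv hR hY hz hr
  have h40 := hz.half σ hσ
  obtain ⟨q, hq⟩ : ∃ q, q = p - (σ : ℝ) / 2 := ⟨_, rfl⟩
  obtain ⟨w, hw⟩ : ∃ w, w = z - (σ : ℂ) / 2 := ⟨_, rfl⟩
  obtain ⟨k, hk⟩ : ∃ k, k = round (1 / (8 * q)) := ⟨_, rfl⟩
  rw [← hq] at hp h40
  have hq0 : q ≠ 0 := by
    intro h0
    rw [h0, zero_pow two_ne_zero] at h40
    have : 0 < 1 / (4 * (s : ℝ)) := by positivity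
    linarith
  have hqa : 0 < |q| := abs_pos.2 hq0
  have h41 : |1 / (8 * q) - k| ≤ 1 / 2 := by
    rw [hk]
    exact abs_sub_round _
  have h42 : 3 / 4 ≤ |1 / (8 * q)| := by
    rw [abs_div, abs_mul, abs_one, abs_of_pos (by norm_num : (0 : ℝ) < 8), le_div_iff₀ (by positivity)]
    linarith
  have hk0 : k ≠ 0 := by
    intro h0
    rw [h0, Int.cast_zero, sub_zero] at h41
    linarith
  have h43 : |(k : ℝ)| ≤ 1 / (8 * |q|) + 1 / 2 := by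
    have h44 : |(k : ℝ)| ≤ |1 / (8 * q)| + |1 / (8 * q) - k| := by
      have := abs_sub_abs_le_abs_sub (k : ℝ) (1 / (8 * q))
      rw [abs_sub_comm] at this
      linarith
    rw [abs_div, abs_mul, abs_one, abs_of_pos (by norm_num : (0 : ℝ) < 8)] at h44
    linarith
  have h45 : (1 - 8 * (k : ℝ) * q) ^ 2 ≤ 4 / 9 := by
    have h46 : 1 - 8 * (k : ℝ) * q = 8 * q * (1 / (8 * q) - k) := by
      field_simp
    have h47 : |1 - 8 * (k : ℝ) * q| ≤ 2 / 3 := by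
      rw [h46, abs_mul, abs_mul, abs_of_pos (by norm_num : (0 : ℝ) < 8)]
      nlinarith [abs_nonneg (1 / (8 * q) - (k : ℝ))]
    rw [← sq_abs]
    nlinarith [abs_nonneg (1 - 8 * (k : ℝ) * q)]
  obtain ⟨Y, hYe⟩ : ∃ Y, Y = v / (R - 30) ^ 2 := ⟨_, rfl⟩
  rw [← hYe] at h2 hY ih ⊢
  have hY0 : 0 ≤ Y := by rw [hYe]; positivity
  have he : 0 ≤ C * Y ^ (1 / 4 : ℝ) := mul_nonneg h.C0 (Real.rpow_nonneg hY0 _)
  have h5 : Y / s ≤ 1 / 2 := by
    rw [div_le_iff₀ hs0]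
    linarith
  have hwim : w.im = z.im := by
    rw [hw]
    rcases hσ with h0 | h0 <;> simp [h0]
  have h6 : ‖w‖ ≤ 1 := by
    have h60 : w = (z - p) + ((q : ℝ) : ℂ) := by
      rw [hw, hq]
      push_cast
      ring
    rw [h60]
    refine (norm_add_le _ _).trans ?_
    rw [ob_real]
    linarith
  have h7 := h.par k w (by rw [hwim]; exact h1) (by rw [hwim]; exact h2.trans h5) h6
  have h71 : Ψ (w + 1 / 2) = Ψ z := by
    rcases hσ with h0 | h0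
    · congr 1
      rw [hw, h0]
      push_cast
      ring
    · rw [← h.per z]
      congr 1
      rw [hw, h0]
      push_cast
      ring
  have h72 : Ψ (vk k w + 1 / 2) = Ψ (vk k w + (σ : ℂ) / 2) := by
    rcases hσ with h0 | h0
    · rw [h0]
      push_cast
      rfl
    · rw [← h.per (vk k w + (σ : ℂ) / 2)]
      congr 1
      rw [h0]
      push_cast
      ring
  rw [h71, h72, hwim] at h7
  have hu := ob_eight hs
  have h8 := ob_pow h1.le hs0 hY0 h2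
  have hstep := sv_step hv0 hz σ hσ k hk0 (by rw [← hq]; exact h43)
  rw [← hw, ← hq] at hstep
  rcases hstep with ⟨j, hj, hrj⟩ | ⟨s', r', p', hz', hs', hr'⟩
  · rw [hj, h.shift] at h7
    have h9 : vk k w = v * I + j - (σ : ℂ) / 2 := by
      rw [← hj]
      ring
    have hσr : |(σ : ℝ) / 2| = 1 / 2 := by
      rcases hσ with h0 | h0 <;> rw [h0] <;> norm_num
    have h10 : (vk k w).im = v := by
      rw [h9]
      rcases hσ with h0 | h0 <;> simp [h0]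
    have h11 : (vk k w).re = j - (σ : ℝ) / 2 := by
      rw [h9]
      rcases hσ with h0 | h0 <;> simp [h0]
    have h12 : R - 30 ≤ |(j : ℝ) - (σ : ℝ) / 2| := by
      have h13 : |(j : ℝ)| - |(σ : ℝ) / 2| ≤ |(j : ℝ) - (σ : ℝ) / 2| := abs_sub_abs_le_abs_sub _ _
      have h14 : |r| - |(j : ℝ)| ≤ |r + j| := by
        have := abs_sub_abs_le_abs_sub r (-(j : ℝ))
        rwa [abs_neg, sub_neg_eq_add] at this
      have h15 := ob_sqrt hs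
      rw [hσr] at h13
      linarith
    have h13 : (vk k w).im / (1 + ‖vk k w‖ ^ 2) ≤ Y := by
      rw [h10, hYe]
      have h14 : (R - 30) ^ 2 ≤ ‖vk k w‖ ^ 2 := by
        have h15 : |(vk k w).re| ≤ ‖vk k w‖ := Complex.abs_re_le_norm _
        rw [h11] at h15
        exact pow_le_pow_left₀ (by linarith) (h12.trans h15) 2
      have h16 : 0 < (R - 30) ^ 2 := by
        have : 0 < R - 30 := by linarith
        positivity
      apply div_le_div_of_nonneg_left hv0.le h16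
      linarith
    have h14 : ((vk k w).im / (1 + ‖vk k w‖ ^ 2)) ^ (1 / 4 : ℝ) ≤ Y ^ (1 / 4 : ℝ) := by
      apply Real.rpow_le_rpow _ h13 (by norm_num)
      rw [h10]
      positivity
    have h15 : z.im ^ (1 / 4 : ℝ) ≤ Y ^ (1 / 4 : ℝ) := by
      refine h8.trans ?_
      have : 0 ≤ Y ^ (1 / 4 : ℝ) := Real.rpow_nonneg hY0 _
      nlinarith
    refine ob_term he (h7.trans ?_) hu
    nlinarith [mul_le_mul_of_nonneg_left h14 h.C0, mul_le_mul_of_nonneg_left h15 h.C0]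
  · have hs8 : (8 : ℝ) ≤ s' := by exact_mod_cast hz'.size
    have hs'0 : (0 : ℝ) < s' := by linarith
    have h10 : (s' : ℝ) ≤ 8 / 9 * s := by
      rw [hs']
      nlinarith
    have h11 := ob_sq hs'0 h10
    have h12 : R - 60 / Real.sqrt s' ≤ |r'| := by
      have h13 : |r| - |r'| ≤ |r - r'| := abs_sub_abs_le_abs_sub r r'
      linarith
    have h13 : s' < s := by
      have : (s' : ℝ) < s := by linarith
      exact_mod_cast this
    have h14 := ih s' h13 _ r' p' hz' h12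
    have h15 := ob_dec hs'0 h10
    obtain ⟨h16, h17⟩ := ob_small hv hR hz' h12
    rw [← hYe] at h17
    have h18 : (vk k w + (σ : ℂ) / 2).im = (vk k w).im := by
      rcases hσ with h0 | h0 <;> simp [h0]
    rw [h18] at h16 h17
    have h19 : (vk k w).im / (1 + ‖vk k w‖ ^ 2) ≤ Y / s' := by
      refine le_trans ?_ h17
      rw [div_le_iff₀ (by positivity)]
      nlinarith [sq_nonneg ‖vk k w‖]
    have h20 := ob_pow (by positivity) hs'0 hY0 h19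
    have h21 : z.im ≤ Y / s' := by
      refine h2.trans ?_
      apply div_le_div_of_nonneg_left hY0 hs'0
      linarith
    have h22 := ob_pow h1.le hs'0 hY0 h21
    refine ob_end he h14 (h7.trans ?_) h15
    nlinarith [mul_le_mul_of_nonneg_left h20 h.C0, mul_le_mul_of_nonneg_left h22 h.C0]

theorem ob_claim {Ψ : ℂ → ℝ} {C : ℝ} (h : Ap8 Ψ C) (v R : ℝ) (hv : 1 ≤ v) (hR : 100 ≤ R) (hY : v / (R - 30) ^ 2 ≤ 1 / 10 ^ 6)
    (s : ℕ) : ∀ (z : ℂ) (r p : ℝ), Sz v z s r p → R - 60 / Real.sqrt s ≤ |r| →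
      Ψ (v * I) - 80 * C * (v / (R - 30) ^ 2) ^ (1 / 4 : ℝ) * (1 - (s : ℝ) ^ (-(1 / 4) : ℝ)) ≤ Ψ z := by
  have hv0 : 0 < v := by linarith
  suffices h0 : ∀ (z : ℂ) (r p : ℝ), Sz v z s r p → R - 60 / Real.sqrt s ≤ |r| →
      Ψ (v * I) - 80 * (C * (v / (R - 30) ^ 2) ^ (1 / 4 : ℝ)) * (1 - (s : ℝ) ^ (-(1 / 4) : ℝ)) ≤ Ψ z by
    intro z r p h1 h2
    have h3 := h0 z r p h1 h2
    rw [← mul_assoc 80 C] at h3
    exact h3
  induction s using Nat.strong_induction_on with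
  | _ s ih =>
    intro z r p hz hr
    have hz1 := hz.shift hv0 (-round p)
    have hp : |p + ((-round p : ℤ) : ℝ)| ≤ 1 / 2 := by
      rw [Int.cast_neg, ← sub_eq_add_neg]
      exact abs_sub_round p
    rw [← h.shift z (-round p)]
    by_cases h1 : |p + ((-round p : ℤ) : ℝ)| ≤ 1 / 3
    · exact ob_one h v R hv hR hY s ih _ r _ hz1 hr h1
    · push Not at h1
      rcases le_total 0 (p + ((-round p : ℤ) : ℝ)) with h2 | h2
      · rw [abs_of_nonneg h2] at h1 hp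
        refine ob_two h v R hv hR hY s ih _ r _ hz1 hr 1 (Or.inl rfl) ?_
        rw [abs_le]
        constructor <;> push_cast at * <;> linarith
      · rw [abs_of_nonpos h2] at h1 hp
        refine ob_two h v R hv hR hY s ih _ r _ hz1 hr (-1) (Or.inr rfl) ?_
        rw [abs_le]
        constructor <;> push_cast at * <;> linarith

end H25.QE
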