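import Pool.Agent.H25.QE.Ob

/-!
# QE-OR: the orbit points

`ob_claim`: start with type A, `r = -d/c ∈ [n, n+1]`, `R = n`: `Ψ(γ(v i)) ≥ Ψ(v i) - 80 C Y^(1/4) ≥ Ψ(v i)/2` for `n` large
(`Y = v/(n-30)² → 0`).
(`8 ∣ c`, `c > 0`: `Sz` type A with `s = c²`, `p = a/c`, `R = n`: `|r| = -d/c ≥ n ≥ R - 60/√s`.)
-/

set_option autoImplicit false

namespace H25.QE

open Complex Pool.Agent.H11.SC

private theorem or_lim (v C P : ℝ) (hP : 0 < P) : ∃ n0 : ℕ, ∀ n : ℕ, n0 ≤ n → (100 : ℝ) ≤ n ∧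
    v / ((n : ℝ) - 30) ^ 2 ≤ 1 / 10 ^ 6 ∧ 80 * C * (v / ((n : ℝ) - 30) ^ 2) ^ (1 / 4 : ℝ) ≤ P := by
  have h1 : Filter.Tendsto (fun n : ℕ => (n : ℝ) - 30) Filter.atTop Filter.atTop :=
    Filter.tendsto_atTop_add_const_right _ _ tendsto_natCast_atTop_atTop
  have h2 : Filter.Tendsto (fun n : ℕ => ((n : ℝ) - 30) ^ 2) Filter.atTop Filter.atTop :=
    (Filter.tendsto_pow_atTop two_ne_zero).comp h1
  have h3 : Filter.Tendsto (fun n : ℕ => v / ((n : ℝ) - 30) ^ 2) Filter.atTop (nhds 0) :=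
    h2.const_div_atTop v
  have h4 : Filter.Tendsto (fun n : ℕ => (v / ((n : ℝ) - 30) ^ 2) ^ (1 / 4 : ℝ)) Filter.atTop (nhds 0) := by
    have h5 := h3.rpow_const (p := (1 / 4 : ℝ)) (Or.inr (by norm_num))
    rwa [Real.zero_rpow (by norm_num)] at h5
  have h5 : Filter.Tendsto (fun n : ℕ => 80 * C * (v / ((n : ℝ) - 30) ^ 2) ^ (1 / 4 : ℝ)) Filter.atTop (nhds 0) := by
    have h6 := h4.const_mul (80 * C)
    rwa [mul_zero] at h6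
  have e1 := (tendsto_natCast_atTop_atTop (R := ℝ)).eventually_ge_atTop 100
  have e2 := h3.eventually_le_const (show (0 : ℝ) < 1 / 10 ^ 6 by norm_num)
  have e3 := h5.eventually_le_const hP
  obtain ⟨n0, hn0⟩ := Filter.eventually_atTop.1 (e1.and (e2.and e3))
  exact ⟨n0, fun n hn => hn0 n hn⟩

theorem orbit8 {Ψ : ℂ → ℝ} {C : ℝ} (h : Ap8 Ψ C) (v : ℝ) (hv : 1 ≤ v) (hpos : 0 < Ψ (v * I)) :
    ∃ n0 : ℕ, ∀ n : ℕ, n0 ≤ n → ∀ a b c d : ℤ, a * d - b * c = 1 → (8 : ℤ) ∣ c → 0 < c →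
      -((n : ℤ) + 1) * c ≤ d → d ≤ -(n : ℤ) * c →
      Ψ (v * I) / 2 ≤ Ψ ((a * (v * I) + b) / (c * (v * I) + d)) := by
  obtain ⟨n0, hn0⟩ := or_lim v C (Ψ (v * I) / 2) (by linarith)
  refine ⟨n0, fun n hn a b c d h1 h8 hc _ hd => ?_⟩
  obtain ⟨h2, h3, h4⟩ := hn0 n hn
  have hcs : ((c.natAbs ^ 2 : ℕ) : ℤ) = c ^ 2 := by
    rw [Nat.cast_pow, Int.natCast_natAbs, sq_abs]
  have hz : Sz v ((a * (v * I) + b) / (c * (v * I) + d)) (c.natAbs ^ 2) (-(d : ℝ) / c) ((a : ℝ) / c) :=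
    Or.inl ⟨a, b, c, d, h1, h8, hc.ne', rfl, hcs, rfl, rfl⟩
  have hc0 : (0 : ℝ) < c := by exact_mod_cast hc
  have hr : (n : ℝ) - 60 / Real.sqrt (c.natAbs ^ 2 : ℕ) ≤ |-(d : ℝ) / c| := by
    have h5 : (n : ℝ) ≤ -(d : ℝ) / c := by
      rw [le_div_iff₀ hc0]
      have h6 : (d : ℝ) ≤ -(n : ℝ) * c := by exact_mod_cast hd
      linarith
    have h6 : 0 ≤ 60 / Real.sqrt (c.natAbs ^ 2 : ℕ) := by positivity
    linarith [le_abs_self (-(d : ℝ) / c)]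
  have h5 := ob_claim h v n hv h2 h3 (c.natAbs ^ 2) _ _ _ hz hr
  have hY : 0 ≤ 80 * C * (v / ((n : ℝ) - 30) ^ 2) ^ (1 / 4 : ℝ) :=
    mul_nonneg (mul_nonneg (by norm_num) h.C0) (Real.rpow_nonneg (by positivity) _)
  have h6 : 0 ≤ ((c.natAbs ^ 2 : ℕ) : ℝ) ^ (-(1 / 4) : ℝ) := by positivity
  have h7 : 80 * C * (v / ((n : ℝ) - 30) ^ 2) ^ (1 / 4 : ℝ) * (1 - ((c.natAbs ^ 2 : ℕ) : ℝ) ^ (-(1 / 4) : ℝ)) ≤
      80 * C * (v / ((n : ℝ) - 30) ^ 2) ^ (1 / 4 : ℝ) := by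
    nlinarith
  linarith

end H25.QE
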