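import Pool.Agent.H25.QE.Lbs

/-!
# QE-PT: a pointwise bound for `g = ∑_k L_k 8^k f(2^k v)` near the path

`d = 2^k`, `σ < 1/2` with `‖L k‖ ≤ D d^σ` (from `lb_sum`, or `R = 2^σ`), `ε > 0` small, `σ + ε < s < 1`; `C` denotes constants.
TRIVIAL BOUND (`gs_bound`, `H11/SC/GB.lean`, or as in `Mean.lean`): `‖ff a z‖ ≤ C (Im z)^(-(4+ε))` for all `Im z > 0`, also for `cj a`.
(1) `3 δ d ≤ 2`: `z = d v` has `‖z‖ ≤ 2`, `Im z ≤ 2 d δ² ≤ 1`, `Im z ≤ 100 ‖z‖²` (`‖z‖ ≥ dδ/2`, `d ≥ 1`), so `h.bound`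
(`Re v ≤ 0`): `‖ff a z‖ ≤ ‖JJ q z‖ ‖ff (cj a) (-1/(qz))‖ + C (Im z)^(-13/4)`.  `‖JJ q z‖ ≤ C (dδ)^(-7)`;
`Im (-1/(qz)) = Im v/(q d ‖v‖²) ≥ 1/(18 q d)`, so `‖ff (cj a) (-1/(qz))‖ ≤ C d^(4+ε)`.  Hence
`‖L k‖ d³ ‖ff a z‖ ≤ C d^σ (δ^(-7) d^ε + d^(-1/4) δ^(-13/2)) ≤ C δ^(-7) d^(σ+ε) ≤ C δ^(-7) d^(σ+ε-s) δ^(-s)` (`d ≤ 1/δ`).
(2) `3 δ d > 2`: the trivial bound: `‖L k‖ d³ ‖ff a z‖ ≤ C d^(σ+3) (dδ²/2)^(-(4+ε)) ≤ C d^(σ-1-ε) δ^(-8-2ε)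
 = C d^(σ+ε-s) d^(s-1-2ε) δ^(-8-2ε) ≤ C d^(σ+ε-s) δ^(-7-s)` (`s - 1 - 2ε < 0`, `d ≥ 2/(3δ)`).
Sum over `k`: `∑_k (2^k)^(σ+ε-s) < ∞`.
-/

set_option autoImplicit false

namespace H25.QE

open Complex Pool.Agent.H11.SC

private theorem ff_triv {a : ℕ → ℂ} (ham : Ram a) : ∃ C : ℝ, 0 ≤ C ∧ ∀ z : ℂ, 0 < z.im →
    ‖ff a z‖ ≤ C * z.im ^ (-(33 / 8) : ℝ) := by
  obtain ⟨C, hC⟩ := gs_bound a 3 (by norm_num) (1 / 8) (by norm_num) (ham (1 / 8) (by norm_num))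
  have hre : ∀ z : ℂ, (-(I * z)).re = z.im := fun z => by simp
  have hC' : ∀ z : ℂ, 0 < z.im → ‖ff a z‖ ≤ C * z.im ^ (-(33 / 8) : ℝ) := by
    intro z hz
    have := hC (-(I * z)) (by rw [hre]; exact hz)
    rw [hre] at this
    have e : (-(((3 : ℕ) : ℝ) + 1 + 1 / 8) : ℝ) = -(33 / 8) := by norm_num
    rw [e] at this
    exact this
  refine ⟨C, ?_, hC'⟩
  have := (norm_nonneg _).trans (hC' I (by simp))
  simpa using this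

private theorem rp (d δ p : ℝ) (hd : 0 < d) (hδ : 0 < δ) :
    (d * δ ^ 2 / 2) ^ (-p) = 2 ^ p * (d ^ (-p) * δ ^ (-(2 * p))) := by
  have e1 : δ ^ (-(2 * p)) = (δ ^ 2) ^ (-p) := by
    rw [← Real.rpow_natCast δ 2, ← Real.rpow_mul hδ.le]
    congr 1
    push_cast
    ring
  rw [e1, Real.div_rpow (by positivity) (by norm_num), Real.mul_rpow hd.le (by positivity),
    Real.rpow_neg (by norm_num : (0 : ℝ) ≤ 2)]
  field_simp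

private theorem term_bd {q : ℝ} {a : ℕ → ℂ} {ωm ωp : ℂ} (hq : 0 < q) (h : CStep q a ωm ωp) (ham : Ram a) :
    ∃ C : ℝ, 0 ≤ C ∧ ∀ d δ : ℝ, 1 ≤ d → 0 < δ → δ ≤ 1 / 10 → ∀ v : ℂ, δ / 2 ≤ ‖v‖ → ‖v‖ ≤ 3 * δ →
      δ ^ 2 / 2 ≤ v.im → v.im ≤ 2 * δ ^ 2 → v.re ≤ 0 →
      d ^ 3 * ‖ff a ((d : ℂ) * v)‖ ≤ C * (d ^ (-(5 / 8) : ℝ) * δ ^ (-(31 / 4) : ℝ)) := by
  obtain ⟨C1, hC1, hb1⟩ := ff_triv ham
  obtain ⟨C2, hC2, hb2⟩ := ff_triv ham.cj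
  obtain ⟨C3, hb3⟩ := h.bound
  set C4 : ℝ := max C3 0 with hC4
  have hC40 : 0 ≤ C4 := le_max_right _ _
  set K1 : ℝ := ((Real.sqrt q / 2) ^ 7)⁻¹ * (C2 * (18 * q) ^ (33 / 8 : ℝ)) with hK1
  have hsq : 0 < Real.sqrt q := Real.sqrt_pos.2 hq
  have hK10 : 0 ≤ K1 := by positivity
  refine ⟨K1 + C4 * 2 ^ (13 / 4 : ℝ) + C1 * 2 ^ (33 / 8 : ℝ) * 2, by positivity, ?_⟩
  intro d δ hd hδ hδ1 v hv1 hv2 hv3 hv4 hv5
  have hd0 : 0 < d := by linarith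
  have hvim : 0 < v.im := lt_of_lt_of_le (by positivity) hv3
  have hvn : 0 < ‖v‖ := lt_of_lt_of_le (by positivity) hv1
  set z : ℂ := (d : ℂ) * v with hz
  have hzim : z.im = d * v.im := by rw [hz, Complex.im_ofReal_mul]
  have hzre : z.re = d * v.re := by rw [hz, Complex.re_ofReal_mul]
  have hzn : ‖z‖ = d * ‖v‖ := by rw [hz, norm_mul, Complex.norm_real, Real.norm_of_nonneg hd0.le]
  have hzim0 : 0 < z.im := by rw [hzim]; positivity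
  have hzlow : d * δ ^ 2 / 2 ≤ z.im := by rw [hzim]; nlinarith
  have hA : 0 < d ^ (-(5 / 8) : ℝ) := Real.rpow_pos_of_pos hd0 _
  have hB : 0 < δ ^ (-(31 / 4) : ℝ) := Real.rpow_pos_of_pos hδ _
  rcases le_or_gt (3 * δ * d) 2 with hcase | hcase
  · -- the functional equation
    have z1 : ‖z‖ ≤ 2 := by rw [hzn]; nlinarith
    have z2 : z.im ≤ 1 := by rw [hzim]; nlinarith
    have z3 : z.im ≤ 100 * ‖z‖ ^ 2 := by
      have e : d * δ / 2 ≤ ‖z‖ := by rw [hzn]; nlinarith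
      have e2 : (d * δ / 2) ^ 2 ≤ ‖z‖ ^ 2 := pow_le_pow_left₀ (by positivity) e 2
      have e3 : z.im ≤ 2 * δ ^ 2 * d := by rw [hzim]; nlinarith
      have e4 : δ ^ 2 * d ≤ δ ^ 2 * d ^ 2 := by
        have : 0 < δ ^ 2 := by positivity
        nlinarith
      nlinarith
    have z4 : z.re ≤ 0 := by rw [hzre]; exact mul_nonpos_of_nonneg_of_nonpos hd0.le hv5
    have hb := (hb3 z hzim0 z2 z1 z3).1 z4
    -- the imaginary part of the image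
    have hz0 : z ≠ 0 := by
      intro h0
      rw [h0] at hzim0
      simp at hzim0
    have him : 1 / (18 * q * d) ≤ (-1 / ((q : ℂ) * z)).im := by
      have e1 : (-1 / ((q : ℂ) * z)).im = z.im / (q * ‖z‖ ^ 2) := by
        rw [← Complex.normSq_eq_norm_sq, Complex.div_im, Complex.normSq_mul, Complex.normSq_ofReal,
          Complex.im_ofReal_mul, Complex.re_ofReal_mul]
        have hns : Complex.normSq z ≠ 0 := (Complex.normSq_pos.2 hz0).ne'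
        simp only [Complex.neg_im, Complex.one_im, Complex.neg_re, Complex.one_re]
        field_simp
        ring
      rw [e1, hzn, hzim, div_le_div_iff₀ (by positivity) (by positivity)]
      have e2 : ‖v‖ ^ 2 ≤ 9 * δ ^ 2 := by
        have := pow_le_pow_left₀ hvn.le hv2 2
        nlinarith
      have e3 : ‖v‖ ^ 2 ≤ 18 * v.im := by nlinarith
      have e4 : 0 < q * d ^ 2 := by positivity
      nlinarith
    have him0 : 0 < (-1 / ((q : ℂ) * z)).im := lt_of_lt_of_le (by positivity) him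
    have hf1 : ‖ff (cj a) (-1 / ((q : ℂ) * z))‖ ≤ C2 * ((18 * q) ^ (33 / 8 : ℝ) * (d ^ 4 * d ^ (1 / 8 : ℝ))) := by
      refine (hb2 _ him0).trans (mul_le_mul_of_nonneg_left ?_ hC2)
      refine (Real.rpow_le_rpow_of_nonpos (by positivity) him (by norm_num)).trans (le_of_eq ?_)
      rw [one_div, Real.inv_rpow (by positivity), Real.rpow_neg (by positivity), inv_inv,
        Real.mul_rpow (by positivity) hd0.le]
      congr 1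
      rw [← Real.rpow_natCast d 4, ← Real.rpow_add hd0]
      norm_num
    have hf2 : ‖JJ q z‖ ≤ ((Real.sqrt q * (d * δ / 2)) ^ 7)⁻¹ := by
      unfold JJ
      rw [norm_inv, norm_pow, norm_mul, norm_neg, norm_mul, Complex.norm_I, one_mul, Complex.norm_real,
        Real.norm_of_nonneg hsq.le]
      apply inv_anti₀ (by positivity)
      apply pow_le_pow_left₀ (by positivity)
      apply mul_le_mul_of_nonneg_left _ hsq.le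
      rw [hzn]
      nlinarith
    have hf3 : C3 * z.im ^ (-(13 / 4) : ℝ) ≤ C4 * (2 ^ (13 / 4 : ℝ) * (d ^ (-(13 / 4) : ℝ) * δ ^ (-(2 * (13 / 4)) : ℝ))) := by
      rw [← rp d δ (13 / 4) hd0 hδ]
      refine (mul_le_mul_of_nonneg_right (le_max_left C3 0) (Real.rpow_nonneg hzim0.le _)).trans ?_
      exact mul_le_mul_of_nonneg_left
        (Real.rpow_le_rpow_of_nonpos (by positivity) hzlow (by norm_num)) hC40
    have hmain : ‖ff a z‖ ≤ ((Real.sqrt q * (d * δ / 2)) ^ 7)⁻¹ * (C2 * ((18 * q) ^ (33 / 8 : ℝ) * (d ^ 4 * d ^ (1 / 8 : ℝ)))) +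
        C4 * (2 ^ (13 / 4 : ℝ) * (d ^ (-(13 / 4) : ℝ) * δ ^ (-(2 * (13 / 4)) : ℝ))) := by
      have e1 : ‖ff a z‖ ≤ ‖ωm * JJ q z * ff (cj a) (-1 / (q * z))‖ +
          ‖ff a z - ωm * JJ q z * ff (cj a) (-1 / (q * z))‖ := by
        have := norm_add_le (ωm * JJ q z * ff (cj a) (-1 / (q * z))) (ff a z - ωm * JJ q z * ff (cj a) (-1 / (q * z)))
        rwa [add_sub_cancel] at this
      rw [norm_mul, norm_mul, h.hm, one_mul] at e1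
      have e2 := mul_le_mul hf2 hf1 (norm_nonneg _) (by positivity)
      linarith
    -- comparison of the powers
    have hs1 : d ^ (1 / 8 : ℝ) * (δ ^ 7)⁻¹ ≤ d ^ (-(5 / 8) : ℝ) * δ ^ (-(31 / 4) : ℝ) := by
      have e1 : d ^ (1 / 8 : ℝ) = d ^ (-(5 / 8) : ℝ) * d ^ (3 / 4 : ℝ) := by
        rw [← Real.rpow_add hd0]; norm_num
      have e2 : δ ^ (-(31 / 4) : ℝ) = δ ^ (-(3 / 4) : ℝ) * (δ ^ 7)⁻¹ := by
        rw [← Real.rpow_natCast δ 7, ← Real.rpow_neg hδ.le, ← Real.rpow_add hδ]; norm_num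
      have e3 : d ^ (3 / 4 : ℝ) ≤ δ ^ (-(3 / 4) : ℝ) := by
        rw [Real.rpow_neg hδ.le, ← Real.inv_rpow hδ.le]
        apply Real.rpow_le_rpow hd0.le _ (by norm_num)
        rw [le_inv_comm₀ hd0 hδ, ← one_div, le_div_iff₀ hd0]
        nlinarith
      rw [e1, e2, mul_assoc]
      exact mul_le_mul_of_nonneg_left (mul_le_mul_of_nonneg_right e3 (by positivity)) hA.le
    have hs2 : d ^ 3 * (d ^ (-(13 / 4) : ℝ) * δ ^ (-(2 * (13 / 4)) : ℝ)) ≤ d ^ (1 / 8 : ℝ) * (δ ^ 7)⁻¹ := by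
      have e1 : d ^ 3 * d ^ (-(13 / 4) : ℝ) = d ^ (-(1 / 4) : ℝ) := by
        rw [← Real.rpow_natCast d 3, ← Real.rpow_add hd0]; norm_num
      have e2 : (δ ^ 7)⁻¹ = δ ^ (-7 : ℝ) := by
        rw [Real.rpow_neg hδ.le]; congr 1; rw [← Real.rpow_natCast δ 7]; norm_num
      rw [← mul_assoc, e1, e2]
      apply mul_le_mul _ _ (Real.rpow_nonneg hδ.le _) (Real.rpow_nonneg hd0.le _)
      · exact Real.rpow_le_rpow_of_exponent_le hd (by norm_num)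
      · exact Real.rpow_le_rpow_of_exponent_ge hδ (by linarith) (by norm_num)
    have e5 : d ^ 3 * (((Real.sqrt q * (d * δ / 2)) ^ 7)⁻¹ *
        (C2 * ((18 * q) ^ (33 / 8 : ℝ) * (d ^ 4 * d ^ (1 / 8 : ℝ))))) = K1 * (d ^ (1 / 8 : ℝ) * (δ ^ 7)⁻¹) := by
      rw [hK1]
      field_simp
    calc d ^ 3 * ‖ff a z‖ ≤ d ^ 3 * (((Real.sqrt q * (d * δ / 2)) ^ 7)⁻¹ *
          (C2 * ((18 * q) ^ (33 / 8 : ℝ) * (d ^ 4 * d ^ (1 / 8 : ℝ)))) +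
        C4 * (2 ^ (13 / 4 : ℝ) * (d ^ (-(13 / 4) : ℝ) * δ ^ (-(2 * (13 / 4)) : ℝ)))) :=
          mul_le_mul_of_nonneg_left hmain (by positivity)
      _ = K1 * (d ^ (1 / 8 : ℝ) * (δ ^ 7)⁻¹) +
          C4 * 2 ^ (13 / 4 : ℝ) * (d ^ 3 * (d ^ (-(13 / 4) : ℝ) * δ ^ (-(2 * (13 / 4)) : ℝ))) := by
          rw [mul_add, e5]; ring
      _ ≤ K1 * (d ^ (-(5 / 8) : ℝ) * δ ^ (-(31 / 4) : ℝ)) +
          C4 * 2 ^ (13 / 4 : ℝ) * (d ^ (-(5 / 8) : ℝ) * δ ^ (-(31 / 4) : ℝ)) :=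
          add_le_add (mul_le_mul_of_nonneg_left hs1 hK10)
            (mul_le_mul_of_nonneg_left (hs2.trans hs1) (by positivity))
      _ ≤ _ := by
          have : 0 ≤ C1 * 2 ^ (33 / 8 : ℝ) * 2 * (d ^ (-(5 / 8) : ℝ) * δ ^ (-(31 / 4) : ℝ)) := by positivity
          nlinarith
  · -- the trivial bound
    have hb : ‖ff a z‖ ≤ C1 * (2 ^ (33 / 8 : ℝ) * (d ^ (-(33 / 8) : ℝ) * δ ^ (-(2 * (33 / 8)) : ℝ))) := by
      rw [← rp d δ (33 / 8) hd0 hδ]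
      exact (hb1 z hzim0).trans (mul_le_mul_of_nonneg_left
        (Real.rpow_le_rpow_of_nonpos (by positivity) hzlow (by norm_num)) hC1)
    have hs : d ^ 3 * (d ^ (-(33 / 8) : ℝ) * δ ^ (-(2 * (33 / 8)) : ℝ)) ≤
        2 * (d ^ (-(5 / 8) : ℝ) * δ ^ (-(31 / 4) : ℝ)) := by
      have e1 : d ^ 3 * d ^ (-(33 / 8) : ℝ) = d ^ (-(5 / 8) : ℝ) * d ^ (-(1 / 2) : ℝ) := by
        rw [← Real.rpow_natCast d 3, ← Real.rpow_add hd0, ← Real.rpow_add hd0]; norm_num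
      have e2 : δ ^ (-(2 * (33 / 8)) : ℝ) = δ ^ (-(31 / 4) : ℝ) * δ ^ (-(1 / 2) : ℝ) := by
        rw [← Real.rpow_add hδ]; norm_num
      have e3 : d ^ (-(1 / 2) : ℝ) * δ ^ (-(1 / 2) : ℝ) ≤ 2 := by
        rw [← Real.mul_rpow hd0.le hδ.le]
        have h1 : (1 / 4 : ℝ) ≤ d * δ := by nlinarith
        refine (Real.rpow_le_rpow_of_nonpos (by norm_num) h1 (by norm_num)).trans (le_of_eq ?_)
        rw [Real.rpow_neg (by norm_num), ← Real.sqrt_eq_rpow, show (1 / 4 : ℝ) = (1 / 2) ^ 2 by norm_num,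
          Real.sqrt_sq (by norm_num)]
        norm_num
      rw [← mul_assoc, e1, e2]
      calc _ = (d ^ (-(5 / 8) : ℝ) * δ ^ (-(31 / 4) : ℝ)) * (d ^ (-(1 / 2) : ℝ) * δ ^ (-(1 / 2) : ℝ)) := by ring
        _ ≤ (d ^ (-(5 / 8) : ℝ) * δ ^ (-(31 / 4) : ℝ)) * 2 :=
            mul_le_mul_of_nonneg_left e3 (by positivity)
        _ = _ := by ring
    calc d ^ 3 * ‖ff a z‖ ≤ d ^ 3 * (C1 * (2 ^ (33 / 8 : ℝ) * (d ^ (-(33 / 8) : ℝ) * δ ^ (-(2 * (33 / 8)) : ℝ)))) :=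
          mul_le_mul_of_nonneg_left hb (by positivity)
      _ = C1 * 2 ^ (33 / 8 : ℝ) * (d ^ 3 * (d ^ (-(33 / 8) : ℝ) * δ ^ (-(2 * (33 / 8)) : ℝ))) := by ring
      _ ≤ C1 * 2 ^ (33 / 8 : ℝ) * (2 * (d ^ (-(5 / 8) : ℝ) * δ ^ (-(31 / 4) : ℝ))) :=
          mul_le_mul_of_nonneg_left hs (by positivity)
      _ ≤ _ := by
          have : 0 ≤ (K1 + C4 * 2 ^ (13 / 4 : ℝ)) * (d ^ (-(5 / 8) : ℝ) * δ ^ (-(31 / 4) : ℝ)) := by positivity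
          nlinarith

theorem pt_bound {q : ℝ} {a L : ℕ → ℂ} {g : ℂ → ℂ} {ωm ωp : ℂ} (hq : 0 < q) (h : CStep q a ωm ωp) (ham : Ram a)
    (hL : LB L) (hg : TR L a g) :
    ∃ K s : ℝ, 0 ≤ K ∧ 0 < s ∧ s < 1 ∧ ∀ δ : ℝ, 0 < δ → δ ≤ 1 / 10 → ∀ v : ℂ, δ / 2 ≤ ‖v‖ → ‖v‖ ≤ 3 * δ →
      δ ^ 2 / 2 ≤ v.im → v.im ≤ 2 * δ ^ 2 → v.re ≤ 0 → ‖g v‖ ≤ K * δ ^ (-(7 + s)) := by
  obtain ⟨C, hC, hb⟩ := term_bd hq h ham
  obtain ⟨D, R, hD, hR1, hR2, hLk⟩ := hL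
  set ρ : ℝ := R * 2 ^ (-(5 / 8) : ℝ) with hρ
  have h2 : (0 : ℝ) < 2 ^ (-(5 / 8) : ℝ) := Real.rpow_pos_of_pos (by norm_num) _
  have hρ0 : 0 ≤ ρ := by positivity
  have hρ1 : ρ < 1 := by
    have e1 : (2 : ℝ) ^ (-(5 / 8) : ℝ) * 2 ^ (-(5 / 8) : ℝ) = 2 ^ (-(5 / 4) : ℝ) := by
      rw [← Real.rpow_add (by norm_num)]; norm_num
    have e2 : (2 : ℝ) ^ (-(5 / 4) : ℝ) ≤ 2 ^ (-1 : ℝ) :=
      Real.rpow_le_rpow_of_exponent_le (by norm_num) (by norm_num)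
    have e3 : (2 : ℝ) ^ (-1 : ℝ) = 1 / 2 := by rw [Real.rpow_neg_one]; norm_num
    have e4 : ρ ^ 2 < 1 := by
      have : ρ ^ 2 = R ^ 2 * ((2 : ℝ) ^ (-(5 / 8) : ℝ) * 2 ^ (-(5 / 8) : ℝ)) := by rw [hρ]; ring
      rw [this, e1]
      have h5 : (0 : ℝ) < 2 ^ (-(5 / 4) : ℝ) := Real.rpow_pos_of_pos (by norm_num) _
      nlinarith
    nlinarith
  refine ⟨D * C * (1 - ρ)⁻¹, 3 / 4, by have : 0 < 1 - ρ := by linarith
                                       positivity, by norm_num, by norm_num, ?_⟩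
  intro δ hδ hδ1 v hv1 hv2 hv3 hv4 hv5
  have hvim : 0 < v.im := lt_of_lt_of_le (by positivity) hv3
  have hsum := hg v hvim
  have hexp : (-(7 + 3 / 4) : ℝ) = -(31 / 4) := by norm_num
  rw [hexp]
  have hgeo : HasSum (fun k : ℕ => D * C * δ ^ (-(31 / 4) : ℝ) * ρ ^ k)
      (D * C * δ ^ (-(31 / 4) : ℝ) * (1 - ρ)⁻¹) :=
    (hasSum_geometric_of_lt_one hρ0 hρ1).mul_left _
  have hle := hsum.norm_le_of_bounded hgeo (fun k => by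
    have hd1 : (1 : ℝ) ≤ (2 : ℝ) ^ k := one_le_pow₀ (by norm_num)
    have h1 := hb ((2 : ℝ) ^ k) δ hd1 hδ hδ1 v hv1 hv2 hv3 hv4 hv5
    have e1 : (((2 ^ k : ℕ) : ℂ)) = (((2 : ℝ) ^ k : ℝ) : ℂ) := by push_cast; rfl
    have e2 : ((2 : ℝ) ^ k) ^ (-(5 / 8) : ℝ) = (2 ^ (-(5 / 8) : ℝ)) ^ k := by
      rw [← Real.rpow_natCast (2 : ℝ) k, ← Real.rpow_mul (by norm_num), mul_comm, Real.rpow_mul (by norm_num),
        Real.rpow_natCast]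
    rw [norm_mul, norm_mul, norm_pow, e1, Complex.norm_real, Real.norm_of_nonneg (by positivity)]
    rw [e2] at h1
    calc ‖L k‖ * (((2 : ℝ) ^ k) ^ 3 * ‖ff a ((((2 : ℝ) ^ k : ℝ) : ℂ) * v)‖)
        ≤ (D * R ^ k) * (C * ((2 ^ (-(5 / 8) : ℝ)) ^ k * δ ^ (-(31 / 4) : ℝ))) :=
          mul_le_mul (hLk k) h1 (by positivity) (by positivity)
      _ = D * C * δ ^ (-(31 / 4) : ℝ) * ρ ^ k := by rw [hρ, mul_pow]; ring)
  refine hle.trans (le_of_eq ?_)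
  ring

end H25.QE
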