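import Pool.Agent.H25.QE.Sz

/-!
# QE-SW: the inversion on the states

See `St.next` (`H11/SC/State.lean`, `m = 0`).  `z' = -1/(8z)`.
Type A, `a ≠ 0` always (`a = 0` gives `-b c = 1`, `8 ∣ c`): `z' = (8 a' w0 + b')/(8 (c' w0 + d'))` with `a' = -c/8`, `b' = -d`, `c' = a`, `d' = b`
(`8 a' d' - b' c' = -c b + d a = 1`): `s' = 8 a² = 8 p² s`, `r' = -b/a`, `r - r' = (-d a + b c)/(a c) = -1/(a c)`.
Type B, `a ≠ 0`: `z' = (a' w0 + b')/(c' w0 + d')` with `a' = -c`, `b' = -d`, `c' = 8 a`, `d' = b`: `s' = 64 a² = 8 p² s`, `r' = -b/(8a)`, `r - r' = -1/(8 a c)`.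
Type B, `a = 0`: `c = ± 1`, `b = -c`: `z' = v i + k`, `k = d c`, `r = -d/c = -d c = -k`.
Bound: `|r - r'|² = 8/(s s')` in both cases (A: `1/(a²c²) = 8/(8a² c²)`; B: `1/(64 a²c²) = 8/(64a² 8c²)`), and `s ≥ 8`.
-/

set_option autoImplicit false

namespace H25.QE

open Complex Pool.Agent.H11.SC

theorem sw_step {v : ℝ} {z : ℂ} {s : ℕ} {r p : ℝ} (hv : 0 < v) (h : Sz v z s r p) :
    (∃ k : ℤ, -1 / (8 * z) = v * I + k ∧ r = -(k : ℝ)) ∨
    (∃ (s' : ℕ) (r' p' : ℝ), Sz v (-1 / (8 * z)) s' r' p' ∧ (s' : ℝ) = 8 * p ^ 2 * s ∧ |r - r'| ≤ 3 / Real.sqrt s') := by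
  rcases h with ⟨a, b, c, d, hdet, hdvd, hc, hz, hs, hr, hp⟩ | ⟨a, b, c, d, hdet, hc, hz, hs, hr, hp⟩
  · right
    obtain ⟨c0, rfl⟩ := hdvd
    have hc0 : c0 ≠ 0 := by
      rintro rfl
      simp at hc
    have ha : a ≠ 0 := by
      rintro rfl
      have h1 : (8 : ℤ) * (b * c0) = -1 := by linarith
      omega
    have haR : (a : ℝ) ≠ 0 := by exact_mod_cast ha
    have hcR : (c0 : ℝ) ≠ 0 := by exact_mod_cast hc0
    have haC : (a : ℂ) ≠ 0 := by exact_mod_cast ha
    have hdetR : (a : ℝ) * d - b * (8 * c0) = 1 := by exact_mod_cast hdet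
    have hsR : (s : ℝ) = (8 * c0) ^ 2 := by exact_mod_cast hs
    obtain ⟨s', hs'⟩ : ∃ s' : ℕ, (s' : ℤ) = 8 * a ^ 2 :=
      ⟨(8 * a ^ 2).toNat, Int.toNat_of_nonneg (by positivity)⟩
    have hs'R : (s' : ℝ) = 8 * (a : ℝ) ^ 2 := by exact_mod_cast hs'
    refine ⟨s', -(b : ℝ) / a, ((-c0 : ℤ) : ℝ) / a, Or.inr ⟨-c0, -d, a, b, by linarith, ha, ?_, hs', rfl, rfl⟩, ?_, ?_⟩
    · have n1 : ((a : ℝ) * (v * I) + (b : ℝ) : ℂ) ≠ 0 := lin_ne hv haR
      have n2 : (((8 * c0 : ℤ) : ℝ) * (v * I) + (d : ℝ) : ℂ) ≠ 0 := lin_ne hv (by push_cast; positivity)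
      push_cast at n1 n2
      rw [hz]
      push_cast
      field_simp
      ring
    · rw [hs'R, hp, hsR]
      push_cast
      field_simp
    · rw [hr]
      push_cast
      have e1 : -(d : ℝ) / (8 * c0) - -(b : ℝ) / a = -1 / (8 * c0 * a) := by
        field_simp
        linarith
      have e2 : Real.sqrt s' = Real.sqrt 8 * |(a : ℝ)| := by
        rw [hs'R, Real.sqrt_mul (by norm_num), Real.sqrt_sq_eq_abs]
      have h8 : Real.sqrt 8 ≤ 3 := by
        rw [Real.sqrt_le_left (by norm_num)]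
        norm_num
      have h80 : 0 < Real.sqrt 8 := Real.sqrt_pos.2 (by norm_num)
      have hc1 : (1 : ℝ) ≤ |(c0 : ℝ)| := by
        have := Int.one_le_abs hc0
        exact_mod_cast this
      have ha0 : 0 < |(a : ℝ)| := abs_pos.2 haR
      rw [e1, e2, abs_div, abs_neg, abs_one, abs_mul, abs_mul, div_le_div_iff₀ (by positivity) (by positivity)]
      have : |(8 : ℝ)| = 8 := by norm_num
      rw [this]
      nlinarith [mul_le_mul_of_nonneg_right h8 ha0.le, mul_le_mul_of_nonneg_right hc1 ha0.le]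
  · by_cases ha : a = 0
    · left
      subst ha
      obtain ⟨hb, hcc⟩ := unit_case (b := b) (c := c) (by linarith)
      subst hb
      have hcR : (c : ℝ) ≠ 0 := by exact_mod_cast hc
      have hcC : (c : ℂ) ≠ 0 := by exact_mod_cast hc
      have hccR : (c : ℝ) * c = 1 := by exact_mod_cast hcc
      have hccC : (c : ℂ) * c = 1 := by exact_mod_cast hcc
      refine ⟨d * c, ?_, ?_⟩
      · have n2 : ((c : ℝ) * (v * I) + (d : ℝ) : ℂ) ≠ 0 := lin_ne hv hcR
        push_cast at n2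
        have e : (d : ℂ) * c = d / c := by
          rw [eq_div_iff hcC, mul_assoc, hccC, mul_one]
        have e3 : (8 * ((0 : ℤ) : ℂ) * (v * I) + ((-c : ℤ) : ℂ)) = -(c : ℂ) := by
          push_cast
          ring
        rw [hz, e3]
        push_cast
        rw [e]
        field_simp
      · rw [hr]
        push_cast
        rw [div_eq_iff hcR]
        linear_combination (d : ℝ) * hccR
    · right
      have haR : (a : ℝ) ≠ 0 := by exact_mod_cast ha
      have hcR : (c : ℝ) ≠ 0 := by exact_mod_cast hc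
      have hdetR : 8 * (a : ℝ) * d - b * c = 1 := by exact_mod_cast hdet
      have hsR : (s : ℝ) = 8 * (c : ℝ) ^ 2 := by exact_mod_cast hs
      obtain ⟨s', hs'⟩ : ∃ s' : ℕ, (s' : ℤ) = (8 * a) ^ 2 :=
        ⟨((8 * a) ^ 2).toNat, Int.toNat_of_nonneg (by positivity)⟩
      have hs'R : (s' : ℝ) = (8 * (a : ℝ)) ^ 2 := by exact_mod_cast hs'
      refine ⟨s', -(b : ℝ) / ((8 * a : ℤ) : ℝ), ((-c : ℤ) : ℝ) / ((8 * a : ℤ) : ℝ),
        Or.inl ⟨-c, -d, 8 * a, b, by linarith, Dvd.intro _ rfl, by omega, ?_, hs', rfl, rfl⟩, ?_, ?_⟩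
      · have n1 := lin_ne hv (c := 8 * (a : ℝ)) (d := b) (by positivity)
        have n2 : ((c : ℝ) * (v * I) + (d : ℝ) : ℂ) ≠ 0 := lin_ne hv hcR
        push_cast at n1 n2
        rw [hz]
        push_cast
        field_simp
        ring
      · rw [hs'R, hp, hsR]
        field_simp
      · rw [hr]
        push_cast
        have e1 : -(d : ℝ) / c - -(b : ℝ) / (8 * a) = -1 / (8 * a * c) := by
          field_simp
          linarith
        have e2 : Real.sqrt s' = 8 * |(a : ℝ)| := by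
          rw [hs'R, Real.sqrt_sq_eq_abs, abs_mul]
          norm_num
        have hc1 : (1 : ℝ) ≤ |(c : ℝ)| := by
          have := Int.one_le_abs hc
          exact_mod_cast this
        have ha0 : 0 < |(a : ℝ)| := abs_pos.2 haR
        rw [e1, e2, abs_div, abs_neg, abs_one, abs_mul, abs_mul, div_le_div_iff₀ (by positivity) (by positivity)]
        have : |(8 : ℝ)| = 8 := by norm_num
        rw [this]
        nlinarith [mul_le_mul_of_nonneg_right hc1 ha0.le]

end H25.QE
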