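import Pool.Agent.H25.QE.Ap
import Pool.Agent.H11.SC.State

/-!
# QE-SZ: the states and one step down in size

`Sz v z s r p`: `z` is a point of the orbit of `iv` under `Γ_0(8)` (type A) or the coset of `W` (type B), with size `s` (`c²` for type A, `8 c²` for
type B), `r = -d/c`, cusp `p = a/c`.
`w0 = v i`.  TYPE A: `z = (a w0 + b)/(c w0 + d)`, `a d - b c = 1`, `8 ∣ c`, `c ≠ 0`.  TYPE B: `z = (8 a w0 + b)/(8 (c w0 + d))`, `8 a d - b c = 1`, `c ≠ 0`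
(so `c` is odd).
`Sz.im`: `frac_im` (H11/SC/State.lean): `Im z = v/(c²v² + d²)` resp. `v/(8(c²v² + d²))`, both `= v/(s (v² + r²))`.
`Sz.near`: `z - p = -1/(c (c w0 + d))` resp. `-1/(8 c (c w0 + d))`, so `‖z - p‖ = 1/(s √(v² + r²))`; stated as `‖z - p‖² = (z.im)/(s v)`.
`Sz.shift`: `a → a + m c`, `b → b + m d` resp. `a → a + m c`, `b → b + 8 m d`; `p → p + m`.
`Sz.half`: `p ≠ ± 1/2`; more precisely `1/(4 s) ≤ (p - σ/2)²` for `σ = ± 1`: type A: `p - σ/2 = (2a - σc)/(2c)`, `2a - σ c ≠ 0` (`a` odd, `8 ∣ c`), type B: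
`2a - σc` is odd; square `≥ 1/(4c²) ≥ 1/(4s)`.
-/

set_option autoImplicit false

namespace H25.QE

open Complex Pool.Agent.H11.SC

def Sz (v : ℝ) (z : ℂ) (s : ℕ) (r p : ℝ) : Prop :=
  (∃ a b c d : ℤ, a * d - b * c = 1 ∧ (8 : ℤ) ∣ c ∧ c ≠ 0 ∧ z = (a * (v * I) + b) / (c * (v * I) + d) ∧
    (s : ℤ) = c ^ 2 ∧ r = -(d : ℝ) / c ∧ p = (a : ℝ) / c) ∨
  (∃ a b c d : ℤ, 8 * a * d - b * c = 1 ∧ c ≠ 0 ∧ z = (8 * a * (v * I) + b) / (8 * (c * (v * I) + d)) ∧
    (s : ℤ) = 8 * c ^ 2 ∧ r = -(d : ℝ) / c ∧ p = (a : ℝ) / c)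

private theorem nsq_lin (c d v : ℝ) : ‖(c * (v * I) + d : ℂ)‖ ^ 2 = c ^ 2 * v ^ 2 + d ^ 2 := by
  rw [Complex.sq_norm, Complex.normSq_apply]
  simp
  ring

private theorem den_pos {v : ℝ} (hv : 0 < v) {c : ℝ} (hc : c ≠ 0) (d : ℝ) :
    0 < c ^ 2 * v ^ 2 + d ^ 2 := by
  have h1 : 0 < c ^ 2 := by positivity
  positivity

private theorem one_le_csq {c : ℤ} (hc : c ≠ 0) : 1 ≤ c ^ 2 := by
  have := Int.one_le_abs hc
  nlinarith [sq_abs c]

theorem Sz.size {v : ℝ} {z : ℂ} {s : ℕ} {r p : ℝ} (h : Sz v z s r p) : 8 ≤ s := by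
  rcases h with ⟨a, b, c, d, -, h8, hc, -, hs, -⟩ | ⟨a, b, c, d, -, hc, -, hs, -⟩
  · obtain ⟨k, rfl⟩ := h8
    have hk : k ≠ 0 := by
      rintro rfl
      exact hc (by norm_num)
    have h1 := one_le_csq hk
    have h2 : (s : ℤ) = 64 * k ^ 2 := by rw [hs]; ring
    have h3 : (8 : ℤ) ≤ s := by rw [h2]; linarith
    exact_mod_cast h3
  · have h1 := one_le_csq hc
    have h3 : (8 : ℤ) ≤ s := by rw [hs]; linarith
    exact_mod_cast h3

theorem Sz.im {v : ℝ} {z : ℂ} {s : ℕ} {r p : ℝ} (hv : 0 < v) (h : Sz v z s r p) :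
    z.im = v / (s * (v ^ 2 + r ^ 2)) := by
  rcases h with ⟨a, b, c, d, hdet, -, hc, rfl, hs, rfl, -⟩ | ⟨a, b, c, d, hdet, hc, rfl, hs, rfl, -⟩
  · have hcR : (c : ℝ) ≠ 0 := by exact_mod_cast hc
    have h1 := frac_im a b c d v
    push_cast at h1
    have hdet' : (a : ℝ) * d - b * c = 1 := by exact_mod_cast hdet
    have hs' : (s : ℝ) = (c : ℝ) ^ 2 := by exact_mod_cast hs
    rw [h1, hdet', mul_one, hs']
    congr 1
    field_simp
  · have hcR : (c : ℝ) ≠ 0 := by exact_mod_cast hc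
    have h1 := frac_im (8 * a) b (8 * c) (8 * d) v
    push_cast at h1
    have h2 : (8 * (a : ℂ) * (v * I) + b) / (8 * (c * (v * I) + d)) =
        (8 * (a : ℂ) * (v * I) + b) / (8 * c * (v * I) + 8 * d) := by
      congr 1
      ring
    have hdet' : (8 : ℝ) * a * d - b * c = 1 := by exact_mod_cast hdet
    have hs' : (s : ℝ) = 8 * (c : ℝ) ^ 2 := by exact_mod_cast hs
    have h3 : (8 : ℝ) * a * (8 * d) - b * (8 * c) = 8 := by linear_combination 8 * hdet'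
    have hd := den_pos hv hcR d
    rw [h2, h1, h3, hs']
    have e : (8 : ℝ) * (c : ℝ) ^ 2 * (v ^ 2 + (-(d : ℝ) / c) ^ 2) =
        8 * ((c : ℝ) ^ 2 * v ^ 2 + d ^ 2) := by
      field_simp
    have e2 : (8 * (c : ℝ)) ^ 2 * v ^ 2 + (8 * d) ^ 2 = 64 * ((c : ℝ) ^ 2 * v ^ 2 + d ^ 2) := by
      ring
    rw [e, e2, div_eq_div_iff (by positivity) (by positivity)]
    ring

theorem Sz.near {v : ℝ} {z : ℂ} {s : ℕ} {r p : ℝ} (hv : 0 < v) (h : Sz v z s r p) :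
    ‖z - p‖ ^ 2 = z.im / (s * v) := by
  rw [h.im hv]
  rcases h with ⟨a, b, c, d, hdet, -, hc, rfl, hs, rfl, rfl⟩ | ⟨a, b, c, d, hdet, hc, rfl, hs, rfl, rfl⟩
  · have hcR : (c : ℝ) ≠ 0 := by exact_mod_cast hc
    have hcC : (c : ℂ) ≠ 0 := by exact_mod_cast hc
    have hdet' : (a : ℂ) * d - b * c = 1 := by exact_mod_cast hdet
    have hs' : (s : ℝ) = (c : ℝ) ^ 2 := by exact_mod_cast hs
    have hl := lin_ne hv (d := (d : ℝ)) hcR
    have hn := nsq_lin c d v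
    push_cast at hl hn
    have hd := den_pos hv hcR d
    have h1 : ((a : ℂ) * (v * I) + b) / (c * (v * I) + d) - ((((a : ℝ) / c : ℝ)) : ℂ) =
        -1 / (c * (c * (v * I) + d)) := by
      push_cast
      rw [div_sub_div _ _ hl hcC, div_eq_div_iff (mul_ne_zero hl hcC) (mul_ne_zero hcC hl)]
      linear_combination (-((c : ℂ) * (c * (v * I) + d))) * hdet'
    have hc2 : ‖(c : ℂ)‖ ^ 2 = (c : ℝ) ^ 2 := by
      rw [Complex.norm_intCast, sq_abs]
    rw [h1, norm_div, norm_neg, norm_one, norm_mul, div_pow, one_pow, mul_pow, hn, hc2, hs']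
    have e : (c : ℝ) ^ 2 * (v ^ 2 + (-(d : ℝ) / c) ^ 2) = (c : ℝ) ^ 2 * v ^ 2 + d ^ 2 := by
      field_simp
    rw [e]
    field_simp
  · have hcR : (c : ℝ) ≠ 0 := by exact_mod_cast hc
    have hcC : (c : ℂ) ≠ 0 := by exact_mod_cast hc
    have hdet' : (8 : ℂ) * a * d - b * c = 1 := by exact_mod_cast hdet
    have hs' : (s : ℝ) = 8 * (c : ℝ) ^ 2 := by exact_mod_cast hs
    have hl := lin_ne hv (d := (d : ℝ)) hcR
    have hn := nsq_lin c d v
    push_cast at hl hn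
    have hd := den_pos hv hcR d
    have h8 : (8 : ℂ) * (c * (v * I) + d) ≠ 0 := mul_ne_zero (by norm_num) hl
    have h1 : (8 * (a : ℂ) * (v * I) + b) / (8 * (c * (v * I) + d)) - ((((a : ℝ) / c : ℝ)) : ℂ) =
        -1 / (8 * (c * (c * (v * I) + d))) := by
      push_cast
      rw [div_sub_div _ _ h8 hcC, div_eq_div_iff (mul_ne_zero h8 hcC)
        (mul_ne_zero (by norm_num) (mul_ne_zero hcC hl))]
      linear_combination (-(8 * ((c : ℂ) * (c * (v * I) + d)))) * hdet'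
    have hc2 : ‖(c : ℂ)‖ ^ 2 = (c : ℝ) ^ 2 := by
      rw [Complex.norm_intCast, sq_abs]
    have h82 : ‖(8 : ℂ)‖ = 8 := by
      rw [Complex.norm_ofNat]
    rw [h1, norm_div, norm_neg, norm_one, norm_mul, norm_mul, div_pow, one_pow, mul_pow, mul_pow, hn,
      hc2, h82, hs']
    have e : (8 : ℝ) * (c : ℝ) ^ 2 * (v ^ 2 + (-(d : ℝ) / c) ^ 2) =
        8 * ((c : ℝ) ^ 2 * v ^ 2 + d ^ 2) := by
      field_simp
    rw [e]
    field_simp

theorem Sz.shift {v : ℝ} {z : ℂ} {s : ℕ} {r p : ℝ} (h : Sz v z s r p) (hv : 0 < v) (m : ℤ) :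
    Sz v (z + m) s r (p + m) := by
  rcases h with ⟨a, b, c, d, hdet, h8, hc, rfl, hs, rfl, rfl⟩ | ⟨a, b, c, d, hdet, hc, rfl, hs, rfl, rfl⟩
  · left
    have hcR : (c : ℝ) ≠ 0 := by exact_mod_cast hc
    have hl := lin_ne hv (d := (d : ℝ)) hcR
    push_cast at hl
    refine ⟨a + m * c, b + m * d, c, d, by linear_combination hdet, h8, hc, ?_, hs, rfl, ?_⟩
    · push_cast
      rw [div_add' _ _ _ hl]
      congr 1
      ring
    · push_cast
      rw [div_add' _ _ _ hcR]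
  · right
    have hcR : (c : ℝ) ≠ 0 := by exact_mod_cast hc
    have hl := lin_ne hv (d := (d : ℝ)) hcR
    push_cast at hl
    refine ⟨a + m * c, b + 8 * m * d, c, d, by linear_combination hdet, hc, ?_, hs, rfl, ?_⟩
    · push_cast
      rw [div_add' _ _ _ (mul_ne_zero (by norm_num) hl)]
      congr 1
      ring
    · push_cast
      rw [div_add' _ _ _ hcR]

theorem Sz.half {v : ℝ} {z : ℂ} {s : ℕ} {r p : ℝ} (h : Sz v z s r p) (σ : ℤ) (hσ : σ = 1 ∨ σ = -1) :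
    1 / (4 * (s : ℝ)) ≤ (p - (σ : ℝ) / 2) ^ 2 := by
  have key : ∀ a c : ℤ, c ≠ 0 → 2 * a - σ * c ≠ 0 →
      1 / (4 * (c : ℝ) ^ 2) ≤ ((a : ℝ) / c - (σ : ℝ) / 2) ^ 2 := by
    intro a c hc hne
    have hcR : (c : ℝ) ≠ 0 := by exact_mod_cast hc
    have h1 : (1 : ℝ) ≤ (2 * a - σ * c) ^ 2 := by exact_mod_cast one_le_csq hne
    have h2 : ((a : ℝ) / c - (σ : ℝ) / 2) ^ 2 = (2 * a - σ * c) ^ 2 / (4 * (c : ℝ) ^ 2) := by
      field_simp
      ring
    rw [h2]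
    have h3 : 0 < 4 * (c : ℝ) ^ 2 := by positivity
    exact (div_le_div_iff_of_pos_right h3).2 h1
  rcases h with ⟨a, b, c, d, hdet, h8, hc, -, hs, -, rfl⟩ | ⟨a, b, c, d, hdet, hc, -, hs, -, rfl⟩
  · have hs' : (s : ℝ) = (c : ℝ) ^ 2 := by exact_mod_cast hs
    rw [hs']
    refine key a c hc ?_
    intro h0
    obtain ⟨k, rfl⟩ := h8
    have ha : a = 4 * (σ * k) := by linarith
    rw [ha] at hdet
    have h1 : 4 * (σ * k * d - 2 * (b * k)) = 1 := by linear_combination hdet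
    omega
  · have hcR : (c : ℝ) ≠ 0 := by exact_mod_cast hc
    have hs' : (s : ℝ) = 8 * (c : ℝ) ^ 2 := by exact_mod_cast hs
    rw [hs']
    refine le_trans ?_ (key a c hc ?_)
    · have h3 : 0 < (c : ℝ) ^ 2 := by positivity
      refine one_div_le_one_div_of_le (by positivity) ?_
      linarith
    · intro h0
      have hσ2 : σ * σ = 1 := by
        rcases hσ with rfl | rfl <;> norm_num
      have hcc : c = 2 * (σ * a) := by
        have h1 : σ * (σ * c) = σ * (2 * a) := by rw [show σ * c = 2 * a by linarith]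
        rw [← mul_assoc, hσ2, one_mul] at h1
        rw [h1]; ring
      rw [hcc] at hdet
      have h1 : 2 * (4 * (a * d) - b * (σ * a)) = 1 := by linear_combination hdet
      omega

end H25.QE
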