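import Pool.Agent.H25.QE.Def

/-!
# QE-TG: the double series

Copy the proof of `two_main` (`Pool/Agent/H11/SC4/Two.lean`: `twoG`, `twoG_fiber`, `twoG_bound`, `twoG_summable`, `twoG_inner`) with `L` in
place of `c` and without the relation `rel`.  Only `TwoRel.sum` is used there for the absolute convergence: here `∑ ‖L k‖ 2^(-k/2) < ∞`, because
`‖L k‖ ≤ D R^k`, `R < √2`.  (`ff a z = gs a 3 (-(I z))`; `((2^k : ℕ) : ℂ)^3 = 8^k`.)
-/

set_option autoImplicit false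

namespace H25.QE

open Complex Pool.Agent.H11.SC

private theorem lb_summable {L : ℕ → ℂ} (hL : LB L) :
    Summable (fun k : ℕ => ‖L k‖ * (2 : ℝ) ^ (-((k : ℝ) / 2))) := by
  obtain ⟨D, R, hD, hR, hR2, hc⟩ := hL
  have hs : Real.sqrt 2 ^ 2 = 2 := Real.sq_sqrt (by norm_num)
  have hsp : 0 < Real.sqrt 2 := Real.sqrt_pos.2 (by norm_num)
  have hRs : R < Real.sqrt 2 := by
    apply lt_of_pow_lt_pow_left₀ 2 hsp.le
    rw [hs]
    exact hR2
  have hq0 : 0 ≤ R / Real.sqrt 2 := by positivity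
  have hq1 : R / Real.sqrt 2 < 1 := by
    rw [div_lt_one hsp]
    exact hRs
  have hg := (summable_geometric_of_lt_one hq0 hq1).mul_left D
  refine Summable.of_nonneg_of_le (fun k => by positivity) (fun k => ?_) hg
  have h1 : (2 : ℝ) ^ (-((k : ℝ) / 2)) = (Real.sqrt 2 ^ k)⁻¹ := by
    rw [Real.rpow_neg (by norm_num), Real.sqrt_eq_rpow, ← Real.rpow_natCast, ← Real.rpow_mul (by norm_num)]
    congr 2
    ring
  rw [h1, div_pow, div_eq_mul_inv, ← mul_assoc]
  exact mul_le_mul_of_nonneg_right (hc k) (by positivity)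

private theorem gen_summable (a L : ℕ → ℂ) (h : Summable (fun k : ℕ => ‖L k‖ * (2 : ℝ) ^ (-((k : ℝ) / 2))))
    (ha : ∃ C : ℝ, ∀ n : ℕ, 1 ≤ n → ‖a n‖ ≤ C * (n : ℝ) ^ (1 : ℝ)) (z : ℂ) (hz : 0 < z.im) :
    Summable (Function.uncurry (twoG a L z)) := by
  obtain ⟨C, hC⟩ := ha
  have hC0 : 0 ≤ C := by
    have := hC 1 le_rfl
    simp only [Nat.cast_one, Real.one_rpow, mul_one] at this
    exact (norm_nonneg _).trans this
  have hC' : ∀ n : ℕ, 1 ≤ n → ‖a n‖ ≤ C * (n : ℝ) := by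
    intro n hn
    have := hC n hn
    rwa [Real.rpow_one] at this
  have hpi := Real.pi_pos
  have h0 := Real.summable_pow_mul_exp_neg_nat_mul 4 (show 0 < 2 * Real.pi * z.im by positivity)
  have h1 : Summable (fun n : ℕ => C * ((n : ℝ) ^ 4 * Real.exp (-(2 * Real.pi * n * z.im)))) := by
    refine (h0.mul_left C).congr (fun n => ?_)
    congr 3
    ring
  have h2 := h.mul_of_nonneg h1 (fun k => by positivity) (fun n => by positivity)
  refine Summable.of_norm_bounded h2 (fun p => ?_)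
  exact twoG_bound a L C hC0 hC' z p.1 p.2

private theorem gen_inner (a L : ℕ → ℂ) (z : ℂ) (n : ℕ) :
    ∑' k : ℕ, twoG a L z k n = (∑ k ∈ Finset.range (n + 1), if 2 ^ k ∣ n then L k * a (n / 2 ^ k) else 0) *
      (n : ℂ) ^ 3 * twoE z n := by
  rcases Nat.eq_zero_or_pos n with h0 | hn
  · subst h0
    have : ∀ k : ℕ, twoG a L z k 0 = 0 := by
      intro k
      unfold twoG
      simp
    simp [this]
  · rw [tsum_eq_sum (s := Finset.range (n + 1))]
    · rw [Finset.sum_mul, Finset.sum_mul]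
      refine Finset.sum_congr rfl (fun k _ => ?_)
      unfold twoG
      split_ifs
      · rfl
      · ring
    · intro k hk
      unfold twoG
      rw [if_neg]
      intro hd
      apply hk
      rw [Finset.mem_range]
      have h1 : 2 ^ k ≤ n := Nat.le_of_dvd hn hd
      have h2 : k < 2 ^ k := Nat.lt_two_pow_self
      omega

theorem two_gen {a L : ℕ → ℂ} (ha : ∃ C : ℝ, ∀ n : ℕ, 1 ≤ n → ‖a n‖ ≤ C * (n : ℝ) ^ (1 : ℝ)) (hL : LB L) :
    TR L a (fun z => ∑' n : ℕ, (∑ k ∈ Finset.range (n + 1), if 2 ^ k ∣ n then L k * a (n / 2 ^ k) else 0) *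
      (n : ℂ) ^ 3 * twoE z n) := by
  intro z hz
  have hs := gen_summable a L (lb_summable hL) ha z hz
  have hfib : ∀ k : ℕ, ∑' n : ℕ, twoG a L z k n =
      L k * (((2 ^ k : ℕ) : ℂ) ^ 3 * ff a (((2 ^ k : ℕ) : ℂ) * z)) := by
    intro k
    rw [twoG_fiber]
    unfold ff
    have h8 : (8 : ℂ) ^ k = ((2 : ℂ) ^ k) ^ 3 := by
      rw [← pow_mul, mul_comm k 3, pow_mul]
      norm_num
    push_cast
    rw [h8]
    ring
  have hsum : Summable (fun k : ℕ => L k * (((2 ^ k : ℕ) : ℂ) ^ 3 * ff a (((2 ^ k : ℕ) : ℂ) * z))) :=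
    hs.prod.congr hfib
  have htot : ∑' k : ℕ, L k * (((2 ^ k : ℕ) : ℂ) ^ 3 * ff a (((2 ^ k : ℕ) : ℂ) * z)) =
      ∑' n : ℕ, (∑ k ∈ Finset.range (n + 1), if 2 ^ k ∣ n then L k * a (n / 2 ^ k) else 0) *
        (n : ℂ) ^ 3 * twoE z n := by
    calc ∑' k : ℕ, L k * (((2 ^ k : ℕ) : ℂ) ^ 3 * ff a (((2 ^ k : ℕ) : ℂ) * z))
        = ∑' k : ℕ, ∑' n : ℕ, twoG a L z k n := tsum_congr (fun k => (hfib k).symm)
      _ = ∑' n : ℕ, ∑' k : ℕ, twoG a L z k n := (hs.tsum_comm).symm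
      _ = _ := tsum_congr (fun n => gen_inner a L z n)
  have h3 := hsum.hasSum
  rw [htot] at h3
  exact h3

end H25.QE
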