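import Pool.Agent.H25.QE.Lbs

/-!
# QE-TS: the sum of the differences is `O(δ^(κ-1))`, powers of two

Copy `tsum_diff` of `Pool/Agent/H11/SC5/TSum.lean` with `d = 2 ^ k` in place of `dd p` and `L k` in place of `LL c2 c3 p`
(its two private real lemmas `tsum_real_small`, `tsum_real_large` must be copied too).  The only property of `LL` used there is `LL_sum`; here `lb_sum` (`Lbs`).
-/

set_option autoImplicit false

namespace H25.QE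

open Complex Pool.Agent.H11.SC

/-- real lemma, small `d` -/
private theorem tsum_real_small {σ η δ d : ℝ} (hσ : 0 < σ) (hσ2 : σ < 1 / 2)
    (hη : η = (1 / 2 - σ) / 2) (hδ : 0 < δ) (hd : 1 ≤ d) (h : δ * d ≤ 1) :
    δ * (d ^ (-(1 / 4) : ℝ) * δ ^ (-(1 / 2) : ℝ) + d ^ (1 / 2 + η)) ≤
      4 * (d ^ (-σ) * δ ^ η) := by
  have hd0 : 0 < d := by linarith
  obtain ⟨L, rfl⟩ : ∃ L, δ = Real.exp L := ⟨Real.log δ, (Real.exp_log hδ).symm⟩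
  obtain ⟨D, rfl⟩ : ∃ D, d = Real.exp D := ⟨Real.log d, (Real.exp_log hd0).symm⟩
  have hD : 0 ≤ D := by rwa [Real.one_le_exp_iff] at hd
  have hLD : L + D ≤ 0 := by rwa [← Real.exp_add, Real.exp_le_one_iff] at h
  simp only [← Real.exp_mul]
  rw [mul_add, ← Real.exp_add, ← Real.exp_add, ← Real.exp_add, ← Real.exp_add]
  have e1 : Real.exp (L + (D * -(1 / 4) + L * -(1 / 2))) ≤ Real.exp (D * -σ + L * η) := by
    apply Real.exp_le_exp.2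
    subst hη
    nlinarith
  have e2 : Real.exp (L + D * (1 / 2 + η)) ≤ Real.exp (D * -σ + L * η) := by
    apply Real.exp_le_exp.2
    subst hη
    nlinarith
  have := Real.exp_pos (D * -σ + L * η)
  linarith

/-- real lemma, large `d` -/
private theorem tsum_real_large {σ η δ d : ℝ} (hσ : 0 < σ) (hσ2 : σ < 1 / 2)
    (hη : η = (1 / 2 - σ) / 2) (hδ : 0 < δ) (hδ1 : δ ≤ 1) (hd0 : 0 < d) (h : 1 ≤ 2 * δ * d) :
    δ * (d ^ (-(1 / 2 + η)) * δ ^ (-(1 + 2 * η)) + d ^ (-(1 - η)) * δ⁻¹) ≤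
      4 * (d ^ (-σ) * δ ^ η) := by
  obtain ⟨L, rfl⟩ : ∃ L, δ = Real.exp L := ⟨Real.log δ, (Real.exp_log hδ).symm⟩
  obtain ⟨D, rfl⟩ : ∃ D, d = Real.exp D := ⟨Real.log d, (Real.exp_log hd0).symm⟩
  obtain ⟨M, hM⟩ : ∃ M, (2 : ℝ) = Real.exp M := ⟨Real.log 2, (Real.exp_log two_pos).symm⟩
  have hM0 : 0 ≤ M := by
    have : (1 : ℝ) ≤ Real.exp M := by rw [← hM]; norm_num
    rwa [Real.one_le_exp_iff] at this
  have hL : L ≤ 0 := by rwa [Real.exp_le_one_iff] at hδ1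
  have hLD : 0 ≤ M + L + D := by
    rw [hM, ← Real.exp_add, ← Real.exp_add, Real.one_le_exp_iff] at h
    exact h
  simp only [← Real.exp_mul]
  rw [mul_add, ← Real.exp_neg, ← Real.exp_add, ← Real.exp_add, ← Real.exp_add, ← Real.exp_add,
    ← Real.exp_add]
  have e1 : Real.exp (L + (D * -(1 / 2 + η) + L * -(1 + 2 * η))) ≤
      2 * Real.exp (D * -σ + L * η) := by
    have e0 : 2 * Real.exp (D * -σ + L * η) = Real.exp (M + (D * -σ + L * η)) := by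
      rw [Real.exp_add M, ← hM]
    rw [e0]
    apply Real.exp_le_exp.2
    subst hη
    nlinarith [mul_nonneg hσ.le hM0, mul_nonneg (sub_nonneg.2 hσ2.le) hLD]
  have e2 : Real.exp (L + (D * -(1 - η) + -L)) ≤ 2 * Real.exp (D * -σ + L * η) := by
    have e0 : 2 * Real.exp (D * -σ + L * η) = Real.exp (M + (D * -σ + L * η)) := by
      rw [Real.exp_add M, ← hM]
    rw [e0]
    apply Real.exp_le_exp.2
    subst hη
    nlinarith [mul_nonneg hσ.le hM0, mul_nonneg (sub_nonneg.2 hσ2.le) hLD]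
  linarith

theorem ts2 {q : ℝ} {a L : ℕ → ℂ} {ωm ωp : ℂ} (hq : 0 < q) (h : CStep q a ωm ωp) (ham : Ram a) (hL : LB L)
    (m N : ℕ) (hm : 1 ≤ m) (hN : 1 ≤ N) :
    ∃ K κ : ℝ, 0 ≤ K ∧ 0 < κ ∧ ∀ δ : ℝ, 0 < δ → δ ≤ 1 / 10 →
    Summable (fun k : ℕ => ‖L k‖ *
      ‖Tt q a ((m : ℝ) / N) δ (2 ^ k) - ωm * ((m : ℂ) / N) ^ 3 * Sp a m N (2 ^ k) * Ld q δ‖) ∧
    δ * ∑' k : ℕ, ‖L k‖ *
      ‖Tt q a ((m : ℝ) / N) δ (2 ^ k) - ωm * ((m : ℂ) / N) ^ 3 * Sp a m N (2 ^ k) * Ld q δ‖ ≤ K * δ ^ κ := by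
  obtain ⟨σ, hσ, hσ2, hS⟩ := lb_sum hL
  obtain ⟨η, hη⟩ : ∃ η : ℝ, η = (1 / 2 - σ) / 2 := ⟨_, rfl⟩
  have hη0 : 0 < η := by rw [hη]; linarith
  have hη1 : η ≤ 1 := by rw [hη]; linarith
  obtain ⟨K1, hK1, h1⟩ := term_small hq h ham m N hm hN η hη0 hη1
  obtain ⟨K2, hK2, h2⟩ := term_large hq ham ωm h.hm m N hm hN η hη0 hη1
  have key : ∀ δ : ℝ, 0 < δ → δ ≤ 1 / 10 → ∀ p : ℕ, δ * (‖L p‖ *
      ‖Tt q a ((m : ℝ) / N) δ (2 ^ p) - ωm * ((m : ℂ) / N) ^ 3 * Sp a m N (2 ^ p) * Ld q δ‖) ≤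
      4 * (K1 + K2) * δ ^ η * (‖L p‖ * ((2 ^ p : ℕ) : ℝ) ^ (-σ)) := by
    intro δ hδ hδ1 p
    have hdn : 1 ≤ 2 ^ p := Nat.one_le_two_pow
    have hd1 : (1 : ℝ) ≤ ((2 ^ p : ℕ) : ℝ) := by exact_mod_cast hdn
    have hd0 : (0 : ℝ) < ((2 ^ p : ℕ) : ℝ) := by linarith
    have hpos : 0 ≤ ((2 ^ p : ℕ) : ℝ) ^ (-σ) * δ ^ η := by positivity
    have hkey : δ *
        ‖Tt q a ((m : ℝ) / N) δ (2 ^ p) - ωm * ((m : ℂ) / N) ^ 3 * Sp a m N (2 ^ p) * Ld q δ‖ ≤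
        4 * (K1 + K2) * (((2 ^ p : ℕ) : ℝ) ^ (-σ) * δ ^ η) := by
      rcases le_total (2 * δ * ((2 ^ p : ℕ) : ℝ)) 1 with hc | hc
      · have e := h1 δ hδ hδ1 (2 ^ p) hdn hc
        have e' := tsum_real_small hσ hσ2 hη hδ hd1 (by nlinarith)
        calc _ ≤ δ * (K1 * (((2 ^ p : ℕ) : ℝ) ^ (-(1 / 4) : ℝ) * δ ^ (-(1 / 2) : ℝ) +
              ((2 ^ p : ℕ) : ℝ) ^ (1 / 2 + η))) := mul_le_mul_of_nonneg_left e hδ.le
          _ = K1 * (δ * (((2 ^ p : ℕ) : ℝ) ^ (-(1 / 4) : ℝ) * δ ^ (-(1 / 2) : ℝ) +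
              ((2 ^ p : ℕ) : ℝ) ^ (1 / 2 + η))) := by ring
          _ ≤ K1 * (4 * (((2 ^ p : ℕ) : ℝ) ^ (-σ) * δ ^ η)) := mul_le_mul_of_nonneg_left e' hK1
          _ ≤ _ := by nlinarith [mul_nonneg hK2 hpos]
      · have e := h2 δ hδ hδ1 (2 ^ p) hc
        have e' := tsum_real_large hσ hσ2 hη hδ (by linarith) hd0 hc
        calc _ ≤ δ * (K2 * (((2 ^ p : ℕ) : ℝ) ^ (-(1 / 2 + η)) * δ ^ (-(1 + 2 * η)) +
              ((2 ^ p : ℕ) : ℝ) ^ (-(1 - η)) * δ⁻¹)) := mul_le_mul_of_nonneg_left e hδ.le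
          _ = K2 * (δ * (((2 ^ p : ℕ) : ℝ) ^ (-(1 / 2 + η)) * δ ^ (-(1 + 2 * η)) +
              ((2 ^ p : ℕ) : ℝ) ^ (-(1 - η)) * δ⁻¹)) := by ring
          _ ≤ K2 * (4 * (((2 ^ p : ℕ) : ℝ) ^ (-σ) * δ ^ η)) := mul_le_mul_of_nonneg_left e' hK2
          _ ≤ _ := by nlinarith [mul_nonneg hK1 hpos]
    calc _ = ‖L p‖ * (δ *
        ‖Tt q a ((m : ℝ) / N) δ (2 ^ p) - ωm * ((m : ℂ) / N) ^ 3 * Sp a m N (2 ^ p) * Ld q δ‖) := by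
          ring
      _ ≤ ‖L p‖ * (4 * (K1 + K2) * (((2 ^ p : ℕ) : ℝ) ^ (-σ) * δ ^ η)) :=
          mul_le_mul_of_nonneg_left hkey (norm_nonneg _)
      _ = _ := by ring
  refine ⟨4 * (K1 + K2) * ∑' p : ℕ, ‖L p‖ * ((2 ^ p : ℕ) : ℝ) ^ (-σ), η,
    mul_nonneg (by positivity) (tsum_nonneg fun p => by positivity), hη0, fun δ hδ hδ1 => ?_⟩
  have hsum : Summable (fun p : ℕ => δ * (‖L p‖ *
      ‖Tt q a ((m : ℝ) / N) δ (2 ^ p) - ωm * ((m : ℂ) / N) ^ 3 * Sp a m N (2 ^ p) * Ld q δ‖)) :=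
    Summable.of_nonneg_of_le (fun p => by positivity) (key δ hδ hδ1)
      (hS.mul_left (4 * (K1 + K2) * δ ^ η))
  refine ⟨?_, ?_⟩
  · have := hsum.mul_left δ⁻¹
    refine this.congr fun p => ?_
    field_simp
  · rw [← tsum_mul_left]
    calc _ ≤ ∑' p : ℕ, 4 * (K1 + K2) * δ ^ η * (‖L p‖ * ((2 ^ p : ℕ) : ℝ) ^ (-σ)) :=
          hsum.tsum_le_tsum (key δ hδ hδ1) (hS.mul_left _)
      _ = _ := by rw [tsum_mul_left]; ring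


end H25.QE
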