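import Pool.Agent.H25.QE.Vs

/-!
# QE-VO: the cusp `1/2`, two transformation formulas

`f = ff a`, `f* = ff (cj a)`, `H z = Hf a α z = -f*(z) + (α/8) f*(z/2)`, `w' = -1/(8w)`.
(V1) `0 < Im w ≤ 1/2`, `‖w‖ ≤ 1`: `h.bound` at `w` and at `2w` (`Re (2w)` has the same sign, the same constant `ω`; `-1/(8·2w) = w'/2`,
`JJ 8 (2w) = 2^(-7) JJ 8 w`): `f(w + 1/2) = -f(w) + 16 α f(2w) = ω JJ 8 w H(w') + O((Im w)^(-13/4))` (`16/2^7 = 1/8`).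
(V2) `0 < Im z ≤ 1`, `‖z‖ ≤ 1`, `y = -1/(8z)`: `h.bound` for `cj a` at `z` and at `z/2` (`-1/(8 z/2) = 2y`, `JJ 8 (z/2) = 2^7 JJ 8 z`):
`H z = ω' JJ 8 z (-f(y) + 16 α f(2y)) + O((Im z)^(-13/4)) = ω' JJ 8 z f(y + 1/2) + O(..)`, `‖ω'‖ = 1`.
With `η z = (Im z)^(7/2) ‖H z‖`, `phi a z = (Im z)^(7/2) ‖f z‖`, `(Im z)^(7/2) ‖JJ 8 z‖ = (Im (-1/(8z)))^(7/2)` (`im_JJ`):
 `v_one`: `|phi a (w + 1/2) - η(w')| ≤ C (Im w)^(1/4)`;  `v_two`: `|η z - phi a (-1/(8z) + 1/2)| ≤ C (Im z)^(1/4)`.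
-/

set_option autoImplicit false

namespace H25.QE

open Complex Pool.Agent.H11.SC

private theorem vo_diff (y : ℝ) (hy : 0 < y) (A B : ℂ) (K : ℝ) (h : ‖A - B‖ ≤ K * y ^ (-(13 / 4) : ℝ)) :
    |y ^ (7 / 2 : ℝ) * ‖A‖ - y ^ (7 / 2 : ℝ) * ‖B‖| ≤ K * y ^ (1 / 4 : ℝ) := by
  have h1 : 0 ≤ y ^ (7 / 2 : ℝ) := (Real.rpow_pos_of_pos hy _).le
  rw [← mul_sub, abs_mul, abs_of_nonneg h1]
  have h2 : |‖A‖ - ‖B‖| ≤ K * y ^ (-(13 / 4) : ℝ) := (abs_norm_sub_norm_le A B).trans h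
  refine (mul_le_mul_of_nonneg_left h2 h1).trans (le_of_eq ?_)
  have h3 : y ^ (7 / 2 : ℝ) * y ^ (-(13 / 4) : ℝ) = y ^ (1 / 4 : ℝ) := by
    rw [← Real.rpow_add hy]
    norm_num
  rw [← h3]
  ring

private theorem vo_JJ (c z : ℂ) : JJ 8 (c * z) = (c ^ 7)⁻¹ * JJ 8 z := by
  unfold JJ
  rw [← mul_inv, ← mul_pow]
  congr 2
  ring

private theorem vo_inv_im (z : ℂ) (hz : 0 < z.im) : 0 < (-1 / (8 * z)).im := by
  have hz0 : z ≠ 0 := by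
    rintro rfl
    simp at hz
  have h1 : (-1 / (8 * z)).im = z.im / (8 * Complex.normSq z) := by
    rw [Complex.div_im, Complex.normSq_mul]
    have h2 : Complex.normSq z ≠ 0 := by
      rw [Ne, Complex.normSq_eq_zero]
      exact hz0
    simp [Complex.normSq_ofNat]
    field_simp
  rw [h1]
  have h3 : 0 < Complex.normSq z := Complex.normSq_pos.2 hz0
  positivity

private theorem vo_ofReal : (((8 : ℝ)) : ℂ) = 8 := by norm_num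

theorem v_one {a : ℕ → ℂ} {α ωm ωp : ℂ} (h : CF 8 a ωm ωp) (hr : HR a α) : ∃ C : ℝ, 0 ≤ C ∧
    ∀ w : ℂ, 0 < w.im → w.im ≤ 1 / 2 → ‖w‖ ≤ 1 →
      |phi a (w + 1 / 2) - (-1 / (8 * w)).im ^ (7 / 2 : ℝ) * ‖Hf a α (-1 / (8 * w))‖| ≤ C * w.im ^ (1 / 4 : ℝ) := by
  obtain ⟨C, hC0, hC⟩ := h.bound
  refine ⟨17 * C, by positivity, fun w hw0 hw1 hw2 => ?_⟩
  have hw2im : (2 * w).im = 2 * w.im := by simp
  have hw2re : (2 * w).re = 2 * w.re := by simp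
  have hw2no : ‖2 * w‖ = 2 * ‖w‖ := by simp
  obtain ⟨a1, a2, -, -⟩ := hC w hw0 (by linarith) (by linarith)
  obtain ⟨b1, b2, -, -⟩ := hC (2 * w) (by rw [hw2im]; linarith) (by rw [hw2im]; linarith) (by rw [hw2no]; linarith)
  rw [vo_ofReal] at a1 a2 b1 b2
  have key : ∃ ω : ℂ, ‖ω‖ = 1 ∧
      ‖ff a w - ω * JJ 8 w * ff (cj a) (-1 / (8 * w))‖ ≤ C * w.im ^ (-(13 / 4) : ℝ) ∧
      ‖ff a (2 * w) - ω * JJ 8 (2 * w) * ff (cj a) (-1 / (8 * (2 * w)))‖ ≤ C * (2 * w).im ^ (-(13 / 4) : ℝ) := by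
    rcases le_total w.re 0 with hr0 | hr0
    · exact ⟨ωm, h.hm, a1 hr0, b1 (by rw [hw2re]; linarith)⟩
    · exact ⟨ωp, h.hp, a2 hr0, b2 (by rw [hw2re]; linarith)⟩
  obtain ⟨ω, hω, k1, k2⟩ := key
  have hpow : (2 * w).im ^ (-(13 / 4) : ℝ) ≤ w.im ^ (-(13 / 4) : ℝ) := by
    rw [hw2im]
    exact Real.rpow_le_rpow_of_nonpos hw0 (by linarith) (by norm_num)
  have k3 := k2.trans (mul_le_mul_of_nonneg_left hpow hC0)
  have hw0' : w ≠ 0 := by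
    rintro rfl
    simp at hw0
  have hinv : -1 / (8 * (2 * w)) = -1 / (8 * w) / 2 := by
    field_simp
  rw [vo_JJ, hinv] at k3
  have hfin : ‖ff a (w + 1 / 2) - ω * JJ 8 w * Hf a α (-1 / (8 * w))‖ ≤ 17 * C * w.im ^ (-(13 / 4) : ℝ) := by
    have e : ff a (w + 1 / 2) - ω * JJ 8 w * Hf a α (-1 / (8 * w)) =
        -(ff a w - ω * JJ 8 w * ff (cj a) (-1 / (8 * w))) +
          16 * α * (ff a (2 * w) - ω * ((2 ^ 7)⁻¹ * JJ 8 w) * ff (cj a) (-1 / (8 * w) / 2)) := by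
      rw [hr.rel w hw0]
      unfold Hf
      ring
    rw [e]
    refine (norm_add_le _ _).trans ?_
    rw [norm_neg, norm_mul, norm_mul, hr.one, Complex.norm_ofNat]
    linarith
  have h5 := vo_diff w.im hw0 _ _ _ hfin
  have h6 : phi a (w + 1 / 2) = w.im ^ (7 / 2 : ℝ) * ‖ff a (w + 1 / 2)‖ := by
    unfold phi ff
    have : (w + 1 / 2).im = w.im := by simp
    rw [this]
  rw [h6, ← im_JJ w hw0]
  rw [norm_mul, norm_mul, hω, one_mul, ← mul_assoc] at h5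
  exact h5

theorem v_two {a : ℕ → ℂ} {α ωm ωp : ℂ} (h : CF 8 a ωm ωp) (hr : HR a α) : ∃ C : ℝ, 0 ≤ C ∧
    ∀ z : ℂ, 0 < z.im → z.im ≤ 1 → ‖z‖ ≤ 1 →
      |z.im ^ (7 / 2 : ℝ) * ‖Hf a α z‖ - phi a (-1 / (8 * z) + 1 / 2)| ≤ C * z.im ^ (1 / 4 : ℝ) := by
  obtain ⟨C, hC0, hC⟩ := h.bound
  refine ⟨3 * C, by positivity, fun z hz0 hz1 hz2 => ?_⟩
  obtain ⟨y, hy⟩ : ∃ y : ℂ, y = -1 / (8 * z) := ⟨_, rfl⟩
  have hz2im : (1 / 2 * z).im = 1 / 2 * z.im := by simp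
  have hz2re : (1 / 2 * z).re = 1 / 2 * z.re := by simp
  have hz2no : ‖1 / 2 * z‖ = 1 / 2 * ‖z‖ := by simp
  obtain ⟨-, -, a1, a2⟩ := hC z hz0 hz1 (by linarith)
  obtain ⟨-, -, b1, b2⟩ := hC (1 / 2 * z) (by rw [hz2im]; linarith) (by rw [hz2im]; linarith) (by rw [hz2no]; linarith)
  rw [vo_ofReal] at a1 a2 b1 b2
  have key : ∃ ω : ℂ, ‖ω‖ = 1 ∧
      ‖ff (cj a) z - ω * JJ 8 z * ff a (-1 / (8 * z))‖ ≤ C * z.im ^ (-(13 / 4) : ℝ) ∧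
      ‖ff (cj a) (1 / 2 * z) - ω * JJ 8 (1 / 2 * z) * ff a (-1 / (8 * (1 / 2 * z)))‖ ≤
        C * (1 / 2 * z).im ^ (-(13 / 4) : ℝ) := by
    rcases le_total z.re 0 with hr0 | hr0
    · exact ⟨_, by rw [RCLike.norm_conj]; exact h.hp, a1 hr0, b1 (by rw [hz2re]; linarith)⟩
    · exact ⟨_, by rw [RCLike.norm_conj]; exact h.hm, a2 hr0, b2 (by rw [hz2re]; linarith)⟩
  obtain ⟨ω, hω, k1, k2⟩ := key
  have hpow : (1 / 2 * z).im ^ (-(13 / 4) : ℝ) ≤ 16 * z.im ^ (-(13 / 4) : ℝ) := by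
    rw [hz2im, Real.mul_rpow (by norm_num) hz0.le]
    refine mul_le_mul_of_nonneg_right ?_ (Real.rpow_pos_of_pos hz0 _).le
    have e1 : ((1 / 2 : ℝ)) ^ (-(13 / 4) : ℝ) = 2 ^ (13 / 4 : ℝ) := by
      rw [one_div, Real.inv_rpow (by norm_num), ← Real.rpow_neg (by norm_num), neg_neg]
    have e2 : (2 : ℝ) ^ (13 / 4 : ℝ) ≤ 2 ^ (4 : ℝ) :=
      Real.rpow_le_rpow_of_exponent_le (by norm_num) (by norm_num)
    rw [e1]
    refine e2.trans (le_of_eq ?_)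
    norm_num
  have k3 := k2.trans (mul_le_mul_of_nonneg_left hpow hC0)
  have hz0' : z ≠ 0 := by
    rintro rfl
    simp at hz0
  have hinv : -1 / (8 * (1 / 2 * z)) = 2 * y := by
    rw [hy]
    field_simp
  have hz' : 1 / 2 * z = z / 2 := by ring
  have hy0 : 0 < y.im := by rw [hy]; exact vo_inv_im z hz0
  rw [vo_JJ, hinv, hz'] at k3
  rw [← hy] at k1
  have hfin : ‖Hf a α z - ω * JJ 8 z * ff a (y + 1 / 2)‖ ≤ 3 * C * z.im ^ (-(13 / 4) : ℝ) := by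
    have e : Hf a α z - ω * JJ 8 z * ff a (y + 1 / 2) =
        -(ff (cj a) z - ω * JJ 8 z * ff a y) +
          α / 8 * (ff (cj a) (z / 2) - ω * (((1 / 2) ^ 7)⁻¹ * JJ 8 z) * ff a (2 * y)) := by
      rw [hr.rel y hy0]
      unfold Hf
      ring
    rw [e]
    refine (norm_add_le _ _).trans ?_
    rw [norm_neg, norm_mul, norm_div, hr.one, Complex.norm_ofNat]
    linarith
  have h5 := vo_diff z.im hz0 _ _ _ hfin
  have h6 : phi a (y + 1 / 2) = y.im ^ (7 / 2 : ℝ) * ‖ff a (y + 1 / 2)‖ := by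
    unfold phi ff
    have : (y + 1 / 2).im = y.im := by simp
    rw [this]
  rw [← hy, h6]
  have h7 : y.im ^ (7 / 2 : ℝ) = z.im ^ (7 / 2 : ℝ) * ‖JJ 8 z‖ := by
    rw [hy]
    exact (im_JJ z hz0).symm
  rw [h7]
  rw [norm_mul, norm_mul, hω, one_mul, ← mul_assoc] at h5
  exact h5

end H25.QE
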