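import Pool.Agent.H25.QE.Ap
import Pool.Agent.H25.QE.Hr

/-!
# QE-VS: the expansion at the cusp `1/2`

`f = ff a`, `f* = ff (cj a)`, `H z = Hf a α z = -f*(z) + (α/8) f*(z/2)`.
`H(z+1) = -H z` EXACTLY: `f*(z+1) = f*(z)`, `f*(z/2 + 1/2) = -f*(z/2) + 16 conj α f*(z)` (`HR.conj`), `α conj α = 1`.  So `‖H(z+k)‖ = ‖H z‖` for `k : ℤ`.
`im_JJ`: `‖JJ 8 z‖ = (√8 ‖z‖)^(-7)`, `Im (-1/(8z)) = Im z/(8‖z‖²)` (see `H11/SC5/StepC.lean`, `Appr.lean` for `JJ`).
-/

set_option autoImplicit false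

namespace H25.QE

open Complex Pool.Agent.H11.SC

/-- the expansion at the cusp `1/2` -/
noncomputable def Hf (a : ℕ → ℂ) (α : ℂ) (z : ℂ) : ℂ := -ff (cj a) z + α / 8 * ff (cj a) (z / 2)

theorem Hf_add_one {a : ℕ → ℂ} {α : ℂ} (h : HR a α) (z : ℂ) (hz : 0 < z.im) : Hf a α (z + 1) = -Hf a α z := by
  have hα : (starRingEnd ℂ) α * α = 1 := by
    rw [mul_comm, Complex.mul_conj, Complex.normSq_eq_norm_sq, h.one]
    norm_num
  have hz2 : 0 < (z / 2).im := by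
    have : (z / 2).im = z.im / 2 := by
      rw [Complex.div_im]
      simp
      ring
    rw [this]
    linarith
  have h1 := h.conj.rel (z / 2) hz2
  rw [mul_div_cancel₀ z (two_ne_zero)] at h1
  unfold Hf
  rw [ff_per, add_div, h1]
  linear_combination (2 * ff (cj a) z) * hα

theorem Hf_norm {a : ℕ → ℂ} {α : ℂ} (h : HR a α) (z : ℂ) (hz : 0 < z.im) (k : ℤ) : ‖Hf a α (z + k)‖ = ‖Hf a α z‖ := by
  have key : ∀ z : ℂ, 0 < z.im → ‖Hf a α (z + 1)‖ = ‖Hf a α z‖ := fun z hz => by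
    rw [Hf_add_one h z hz, norm_neg]
  induction k using Int.induction_on with
  | zero => simp
  | succ i ih =>
    rw [← ih, ← key (z + ((i : ℤ) : ℂ)) (by simpa using hz)]
    congr 2
    push_cast
    ring
  | pred i ih =>
    rw [← ih, ← key (z + ((-(i : ℤ) - 1 : ℤ) : ℂ)) (by simpa using hz)]
    congr 2
    push_cast
    ring

theorem im_JJ (z : ℂ) (hz : 0 < z.im) :
    z.im ^ (7 / 2 : ℝ) * ‖JJ 8 z‖ = (-1 / (8 * z)).im ^ (7 / 2 : ℝ) := by
  have hz0 : z ≠ 0 := by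
    rintro rfl
    simp at hz
  have hn : 0 < ‖z‖ := norm_pos_iff.2 hz0
  have h1 : ‖JJ 8 z‖ = ((Real.sqrt 8 * ‖z‖) ^ 7)⁻¹ := by
    unfold JJ
    rw [norm_inv, norm_pow, norm_mul, norm_neg, norm_mul, Complex.norm_I, one_mul, Complex.norm_real,
      Real.norm_eq_abs, abs_of_nonneg (Real.sqrt_nonneg _)]
  have h2 : (-1 / (8 * z)).im = z.im * ((Real.sqrt 8 * ‖z‖) ^ 2)⁻¹ := by
    have h3 : Real.sqrt 8 ^ 2 = 8 := Real.sq_sqrt (by norm_num)
    rw [mul_pow, h3, ← Complex.normSq_eq_norm_sq, neg_div, one_div, Complex.neg_im, Complex.inv_im,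
      Complex.normSq_mul]
    have h4 : Complex.normSq (8 : ℂ) = 64 := by
      have : (8 : ℂ) = ((8 : ℝ) : ℂ) := by norm_num
      rw [this, Complex.normSq_ofReal]
      norm_num
    have h5 : ((8 : ℂ) * z).im = 8 * z.im := by
      simp
    have h6 : 0 < Complex.normSq z := Complex.normSq_pos.2 hz0
    rw [h4, h5]
    field_simp
    norm_num
  have hs : 0 < Real.sqrt 8 * ‖z‖ := by positivity
  rw [h1, h2, Real.mul_rpow hz.le (by positivity), Real.inv_rpow (by positivity)]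
  congr 2
  rw [← Real.rpow_natCast, ← Real.rpow_natCast, ← Real.rpow_mul hs.le]
  norm_num

end H25.QE
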